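import Mathlib

set_option autoImplicit false
set_option linter.unusedSectionVars false

/-!
# Finite places of number fields: auxiliary facts (helper46)
-/

namespace Pool.QM

open Finset NumberField IsDedekindDomain

namespace FP

variable {K : Type*} [Field K] [NumberField K]

/-- the prime ideal of a finite place -/
noncomputable def pr (v : FinitePlace K) : Ideal (𝓞 K) := v.maximalIdeal.asIdeal

/-- the residue cardinality -/
noncomputable def q (v : FinitePlace K) : ℕ := Ideal.absNorm (pr v)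

lemma one_lt_q (v : FinitePlace K) : 1 < q v := HeightOneSpectrum.one_lt_absNorm v.maximalIdeal

lemma q_pos (v : FinitePlace K) : (0 : ℝ) < q v := by
  have := one_lt_q v
  exact_mod_cast (by omega : 0 < q v)

lemma one_lt_q' (v : FinitePlace K) : (1 : ℝ) < q v := by exact_mod_cast one_lt_q v

lemma pr_ne_bot (v : FinitePlace K) : pr v ≠ ⊥ := v.maximalIdeal.ne_bot

lemma pr_isPrime (v : FinitePlace K) : (pr v).IsPrime := v.maximalIdeal.isPrime

lemma pr_prime (v : FinitePlace K) : Prime (pr v) :=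
  Ideal.prime_of_isPrime (pr_ne_bot v) (pr_isPrime v)

lemma pr_isMaximal (v : FinitePlace K) : (pr v).IsMaximal := v.maximalIdeal.isMaximal

lemma pr_injective : Function.Injective (pr : FinitePlace K → Ideal (𝓞 K)) := by
  intro v w h
  exact FinitePlace.maximalIdeal_injective (HeightOneSpectrum.ext h)

lemma int_le_one (v : FinitePlace K) (x : 𝓞 K) : v (x : K) ≤ 1 := by
  rw [← FinitePlace.norm_embedding_eq v]
  exact FinitePlace.norm_le_one K v.maximalIdeal x

lemma int_eq_one_iff (v : FinitePlace K) (x : 𝓞 K) : v (x : K) = 1 ↔ x ∉ pr v := by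
  rw [← FinitePlace.norm_embedding_eq v]
  exact FinitePlace.norm_eq_one_iff_notMem K v.maximalIdeal x

lemma int_lt_one_iff (v : FinitePlace K) (x : 𝓞 K) : v (x : K) < 1 ↔ x ∈ pr v := by
  rw [← FinitePlace.norm_embedding_eq v]
  exact FinitePlace.norm_lt_one_iff_mem K v.maximalIdeal x

/-- the value of a nonzero integer -/
lemma int_val (v : FinitePlace K) {x : 𝓞 K} (hx : x ≠ 0) :
    v (x : K) = ((q v : ℝ) ^ multiplicity (pr v) (Ideal.span {x}))⁻¹ := by
  have h := FinitePlace.apply_mul_absNorm_pow_eq_one v hx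
  exact eq_inv_of_mul_eq_one_left h

lemma span_ne_bot {x : 𝓞 K} (hx : x ≠ 0) : Ideal.span {x} ≠ ⊥ :=
  mt Submodule.span_singleton_eq_bot.mp hx

/-- membership in a power of the prime ideal -/
lemma mem_pow_iff (v : FinitePlace K) (x : 𝓞 K) (k : ℕ) :
    x ∈ pr v ^ k ↔ v (x : K) ≤ ((q v : ℝ) ^ k)⁻¹ := by
  by_cases hx : x = 0
  · subst hx
    have h1 : (0 : ℝ) ≤ ((q v : ℝ) ^ k)⁻¹ := by positivity
    have h2 : v ((0 : 𝓞 K) : K) = 0 := by simp
    rw [h2]
    exact ⟨fun _ => h1, fun _ => Ideal.zero_mem _⟩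
  · have hfin : FiniteMultiplicity (pr v) (Ideal.span {x}) :=
      FiniteMultiplicity.of_prime_left (pr_prime v) (span_ne_bot hx)
    rw [int_val v hx, ← Ideal.dvd_span_singleton, hfin.pow_dvd_iff_le_multiplicity]
    have hq := one_lt_q' v
    have h1 := q_pos v
    rw [inv_le_inv₀ (by positivity) (by positivity)]
    exact (pow_le_pow_iff_right₀ hq).symm

/-- values are integral powers of `q` -/
lemma val_zpow (v : FinitePlace K) {x : K} (hx : x ≠ 0) : ∃ k : ℤ, v x = (q v : ℝ) ^ k := by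
  rcases IsFractionRing.div_surjective (𝓞 K) x with ⟨a, b, hb, rfl⟩
  have hb0 : b ≠ 0 := nonZeroDivisors.ne_zero hb
  have ha0 : a ≠ 0 := by
    rintro rfl
    simp at hx
  refine ⟨(multiplicity (pr v) (Ideal.span {b}) : ℤ) - multiplicity (pr v) (Ideal.span {a}), ?_⟩
  rw [map_div₀]
  have h1 := int_val v ha0
  have h2 := int_val v hb0
  rw [RingOfIntegers.coe_eq_algebraMap] at h1 h2
  rw [h1, h2, zpow_sub₀ (q_pos v).ne', zpow_natCast, zpow_natCast]
  field_simp

/-- values `≥ 1` are natural powers of `q` -/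
lemma val_pow (v : FinitePlace K) {x : K} (h : 1 ≤ v x) : ∃ k : ℕ, v x = (q v : ℝ) ^ k := by
  have hx : x ≠ 0 := by
    rintro rfl
    rw [map_zero] at h
    linarith
  obtain ⟨k, hk⟩ := val_zpow v hx
  have h1 : 0 ≤ k := by
    by_contra hneg
    have h2 : (q v : ℝ) ^ k < 1 := zpow_lt_one_of_neg₀ (one_lt_q' v) (by omega)
    rw [hk] at h
    linarith
  refine ⟨k.toNat, ?_⟩
  rw [hk, ← zpow_natCast, Int.toNat_of_nonneg h1]

/-- values `≤ 1` of nonzero elements are inverse natural powers of `q` -/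
lemma val_inv_pow (v : FinitePlace K) {x : K} (hx : x ≠ 0) (h : v x ≤ 1) :
    ∃ k : ℕ, v x = ((q v : ℝ) ^ k)⁻¹ := by
  have h1 : 1 ≤ v (x⁻¹) := by
    rw [map_inv₀]
    exact (one_le_inv₀ (FinitePlace.pos_iff.2 hx)).2 h
  obtain ⟨k, hk⟩ := val_pow v h1
  refine ⟨k, ?_⟩
  rw [map_inv₀] at hk
  rw [← hk, inv_inv]

lemma nat_le_one (v : FinitePlace K) (n : ℕ) : v (n : K) ≤ 1 := by
  have := int_le_one v (n : 𝓞 K)
  simpa using this

lemma int_cast_le_one (v : FinitePlace K) (n : ℤ) : v (n : K) ≤ 1 := by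
  have := int_le_one v (n : 𝓞 K)
  simpa using this

lemma val_q_le (v : FinitePlace K) : v ((q v : ℕ) : K) ≤ (q v : ℝ)⁻¹ := by
  have h1 : ((q v : ℕ) : 𝓞 K) ∈ pr v ^ 1 := by
    rw [pow_one]
    exact Ideal.absNorm_mem _
  rw [mem_pow_iff] at h1
  simpa using h1

/-- strong triangle inequality -/
lemma sub_le (v : FinitePlace K) {a b : K} {r : ℝ} (h1 : v a ≤ r) (h2 : v b ≤ r) :
    v (a - b) ≤ r := by
  rw [sub_eq_add_neg]
  refine (FinitePlace.add_le v a (-b)).trans (max_le h1 ?_)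
  rw [map_neg_eq_map]
  exact h2

lemma add_le' (v : FinitePlace K) {a b : K} {r : ℝ} (h1 : v a ≤ r) (h2 : v b ≤ r) :
    v (a + b) ≤ r :=
  (FinitePlace.add_le v a b).trans (max_le h1 h2)

lemma sum_le (v : FinitePlace K) {ι : Type*} (s : Finset ι) (f : ι → K) {r : ℝ} (hr : 0 ≤ r)
    (h : ∀ i ∈ s, v (f i) ≤ r) : v (∑ i ∈ s, f i) ≤ r := by
  classical
  induction s using Finset.induction_on with
  | empty => simpa using hr
  | insert a s ha ih =>
    rw [Finset.sum_insert ha]
    exact add_le' v (h a (mem_insert_self a s)) (ih fun i hi => h i (mem_insert_of_mem hi))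

/-- splitting off the `v`-part of a nonzero integer -/
lemma split (v : FinitePlace K) {y : 𝓞 K} (hy : y ≠ 0) :
    ∃ (k : ℕ) (J : Ideal (𝓞 K)), Ideal.span {y} = pr v ^ k * J ∧ ¬ J ≤ pr v ∧
      (∀ p ∈ pr v ^ k, v (p : K) ≤ v (y : K)) ∧
      ∀ w : FinitePlace K, w ≠ v → ∀ c ∈ J, w (c : K) ≤ w (y : K) := by
  have hfin : FiniteMultiplicity (pr v) (Ideal.span {y}) :=
    FiniteMultiplicity.of_prime_left (pr_prime v) (span_ne_bot hy)
  obtain ⟨J, hJ, hJ2⟩ := hfin.exists_eq_pow_mul_and_not_dvd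
  rw [Ideal.dvd_iff_le] at hJ2
  refine ⟨_, J, hJ, hJ2, ?_, ?_⟩
  · intro p hp
    obtain ⟨u, hu, hu2⟩ := Set.not_subset.1 hJ2
    have h1 : p * u ∈ Ideal.span {y} := by
      rw [hJ]
      exact Ideal.mul_mem_mul hp hu
    obtain ⟨r, hr⟩ := Ideal.mem_span_singleton'.1 h1
    have h2 : v ((p * u : 𝓞 K) : K) = v (p : K) := by
      push_cast
      rw [map_mul, (int_eq_one_iff v u).2 hu2, mul_one]
    rw [← h2, ← hr]
    push_cast
    rw [map_mul]
    have h3 := int_le_one v r
    have h4 : 0 ≤ v (y : K) := apply_nonneg v _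
    nlinarith
  · intro w hw c hc
    obtain ⟨u, hu, hu2⟩ : ∃ u ∈ pr v ^ multiplicity (pr v) (Ideal.span {y}), u ∉ pr w := by
      by_contra hcon
      push Not at hcon
      have h1 : pr v ^ multiplicity (pr v) (Ideal.span {y}) ≤ pr w := hcon
      have h2 : pr v ≤ pr w := (pr_isPrime w).le_of_pow_le h1
      have h3 := (pr_isMaximal v).eq_of_le (pr_isPrime w).ne_top h2
      exact hw (pr_injective h3).symm
    have h1 : u * c ∈ Ideal.span {y} := by
      rw [hJ]
      exact Ideal.mul_mem_mul hu hc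
    obtain ⟨r, hr⟩ := Ideal.mem_span_singleton'.1 h1
    have h2 : w ((u * c : 𝓞 K) : K) = w (c : K) := by
      push_cast
      rw [map_mul, (int_eq_one_iff w u).2 hu2, one_mul]
    rw [← h2, ← hr]
    push_cast
    rw [map_mul]
    have h3 := int_le_one w r
    have h4 : 0 ≤ w (y : K) := apply_nonneg w _
    nlinarith

/-- principal part at one place -/
lemma principal_part (v : FinitePlace K) (a : K) :
    ∃ β : K, v (a - β) ≤ 1 ∧ ∀ w : FinitePlace K, w ≠ v → w β ≤ 1 := by
  rcases IsFractionRing.div_surjective (𝓞 K) a with ⟨x, y, hy, rfl⟩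
  have hy0 : y ≠ 0 := nonZeroDivisors.ne_zero hy
  obtain ⟨k, J, _, hJ, hk1, hk2⟩ := split v hy0
  have hcop : pr v ^ k ⊔ J = ⊤ := by
    have h1 : pr v ⊔ J = ⊤ := by
      rcases (pr_isMaximal v).eq_of_le (J := pr v ⊔ J) with h
      by_contra hne
      exact hJ (by
        have h2 := h hne le_sup_left
        rw [h2]
        exact le_sup_right)
    exact Ideal.pow_sup_eq_top h1
  have h1 : (1 : 𝓞 K) ∈ pr v ^ k ⊔ J := by rw [hcop]; trivial
  obtain ⟨p, hp, c, hc, hpc⟩ := Submodule.mem_sup.1 h1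
  have hyK : ((y : 𝓞 K) : K) ≠ 0 := by
    intro h
    apply hy0
    exact RingOfIntegers.coe_eq_zero_iff.1 h
  refine ⟨(c : K) * ((x : K) / (y : K)), ?_, ?_⟩
  · have e : algebraMap (𝓞 K) K x / algebraMap (𝓞 K) K y - (c : K) * ((x : K) / (y : K))
        = (p : K) * (x : K) / (y : K) := by
      have h2 : (p : K) + (c : K) = 1 := by
        have := congrArg (fun z : 𝓞 K => (z : K)) hpc
        simpa using this
      have h3 : (c : K) = 1 - (p : K) := by rw [← h2]; ring
      rw [h3]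
      change ((x : K) / (y : K)) - (1 - (p : K)) * ((x : K) / (y : K)) = _
      ring
    rw [e, map_div₀, map_mul, div_le_one (FinitePlace.pos_iff.2 hyK)]
    have h4 := hk1 p hp
    have h5 := int_le_one v x
    have h6 : 0 ≤ v (p : K) := apply_nonneg v _
    nlinarith
  · intro w hw
    rw [map_mul, map_div₀, mul_div_assoc', div_le_one (FinitePlace.pos_iff.2 hyK)]
    have h4 := hk2 w hw c hc
    have h5 := int_le_one w x
    have h6 : 0 ≤ w (c : K) := apply_nonneg w _
    nlinarith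

/-- strong approximation at the finite places -/
lemma finite_approx (a : FinitePlace K → K) (ha : {v : FinitePlace K | ¬ v (a v) ≤ 1}.Finite) :
    ∃ β : K, ∀ v : FinitePlace K, v (a v - β) ≤ 1 := by
  classical
  choose f hf1 hf2 using fun v : FinitePlace K => principal_part v (a v)
  refine ⟨∑ v ∈ ha.toFinset, f v, ?_⟩
  intro v
  by_cases hv : v ∈ ha.toFinset
  · rw [← Finset.add_sum_erase _ _ hv, ← sub_sub]
    apply sub_le v (hf1 v)
    apply sum_le v _ _ zero_le_one
    intro w hw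
    exact hf2 w v (ne_of_mem_erase hw).symm
  · have h1 : v (a v) ≤ 1 := by
      rw [Set.Finite.mem_toFinset] at hv
      simpa using hv
    apply sub_le v h1
    apply sum_le v _ _ zero_le_one
    intro w hw
    apply hf2 w v
    rintro rfl
    exact hv hw

/-- a common denominator -/
lemma common_den (a : FinitePlace K → K) (ha : {v : FinitePlace K | ¬ v (a v) ≤ 1}.Finite) :
    ∃ N : 𝓞 K, N ≠ 0 ∧ ∀ v : FinitePlace K, v ((N : K) * a v) ≤ 1 := by
  classical
  have h : ∀ x : K, ∃ y : 𝓞 K, y ≠ 0 ∧ ∀ v : FinitePlace K, v ((y : K) * x) ≤ 1 := by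
    intro x
    rcases IsFractionRing.div_surjective (𝓞 K) x with ⟨s, y, hy, rfl⟩
    have hy0 : y ≠ 0 := nonZeroDivisors.ne_zero hy
    refine ⟨y, hy0, ?_⟩
    intro v
    have hyK : ((y : 𝓞 K) : K) ≠ 0 := by
      intro h
      apply hy0
      exact RingOfIntegers.coe_eq_zero_iff.1 h
    have e : (y : K) * (algebraMap (𝓞 K) K s / algebraMap (𝓞 K) K y) = (s : K) := by
      change (y : K) * ((s : K) / (y : K)) = (s : K)
      field_simp
    rw [e]
    exact int_le_one v s
  choose f hf1 hf2 using h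
  refine ⟨∏ v ∈ ha.toFinset, f (a v), Finset.prod_ne_zero_iff.2 fun v _ => hf1 _, ?_⟩
  intro v
  by_cases hv : v ∈ ha.toFinset
  · rw [← Finset.mul_prod_erase _ _ hv]
    have e : ((f (a v) * ∏ x ∈ ha.toFinset.erase v, f (a x) : 𝓞 K) : K) * a v
        = ((∏ x ∈ ha.toFinset.erase v, f (a x) : 𝓞 K) : K) * ((f (a v) : K) * a v) := by
      push_cast
      ring
    rw [e, map_mul]
    exact mul_le_one₀ (int_le_one v _) (apply_nonneg v _) (hf2 _ v)
  · have h1 : v (a v) ≤ 1 := by
      rw [Set.Finite.mem_toFinset] at hv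
      simpa using hv
    rw [map_mul]
    exact mul_le_one₀ (int_le_one v _) (apply_nonneg v _) h1

end FP

end Pool.QM
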