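import Pool.Agent.QM.Stmts
import Pool.Agent.QM.FP
import Pool.Agent.V5.Dir

set_option autoImplicit false

/-!
# ADD: strong approximation for the additive group (helper46)
-/

namespace Pool.QM

open Finset NumberField Pool.V5.Dir

theorem add_proof : Stmt_Add := by
  classical
  intro K _ _
  let ι := Module.Free.ChooseBasisIndex ℤ (𝓞 K)
  let L := mixedEmbedding.latticeBasis K
  let B := RingOfIntegers.basis K
  obtain ⟨C₀, hC₀⟩ : ∃ C₀ : ℝ, ∀ v : InfinitePlace K, ∑ i, v ((B i : 𝓞 K) : K) ≤ C₀ := by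
    obtain ⟨M, hM⟩ := (Set.finite_range
      (fun v : InfinitePlace K => ∑ i, v ((B i : 𝓞 K) : K))).bddAbove
    exact ⟨M, fun v => hM ⟨v, rfl⟩⟩
  refine ⟨max 1 C₀, le_max_left _ _, ?_⟩
  intro a b ha
  obtain ⟨β₁, hβ₁⟩ := FP.finite_approx a ha
  let τ : InfinitePlace K → ℂ := fun w => w.embedding (b w - β₁)
  have hτ : ∀ w : InfinitePlace K, w.mult = 1 → (τ w).im = 0 := by
    intro w hw
    have hr : w.IsReal := by
      by_contra h
      unfold InfinitePlace.mult at hw
      rw [if_neg h] at hw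
      omega
    have h2 : ComplexEmbedding.IsReal w.embedding := InfinitePlace.isReal_iff.1 hr
    have h3 := ComplexEmbedding.isReal_iff.1 h2
    have h4 := congrArg (fun f : K →+* ℂ => f (b w - β₁)) h3
    simp only [ComplexEmbedding.conjugate_coe_eq] at h4
    exact Complex.conj_eq_iff_im.1 h4
  let co : ι → ℝ := fun i => L.repr (pt τ) i
  let β₂ : 𝓞 K := ∑ i, ⌊co i⌋ • B i
  refine ⟨β₁ + (β₂ : K), ?_, ?_⟩
  · intro v
    rw [← sub_sub]
    exact FP.sub_le v (hβ₁ v) (FP.int_le_one v β₂)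
  · intro w
    have key : pt τ - mixedEmbedding K (β₂ : K) = ∑ i, (Int.fract (co i)) • L i := by
      have e1 : pt τ = ∑ i, co i • L i := (L.sum_repr _).symm
      have e3 : mixedEmbedding K (β₂ : K) = ∑ i, ((⌊co i⌋ : ℤ) : ℝ) • L i := by
        have : (β₂ : K) = ∑ i, (⌊co i⌋ : ℤ) • ((B i : 𝓞 K) : K) := by
          simp [β₂]
        rw [this, map_sum]
        refine Finset.sum_congr rfl fun i _ => ?_
        rw [map_zsmul]
        have : L i = mixedEmbedding K ((B i : 𝓞 K) : K) := by
          rw [mixedEmbedding.latticeBasis_apply, integralBasis_apply]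
        rw [this, Int.cast_smul_eq_zsmul]
      rw [e3]
      conv_lhs => rw [e1]
      rw [← Finset.sum_sub_distrib]
      refine Finset.sum_congr rfl fun i _ => ?_
      rw [← sub_smul]
      congr 1
    have h1 : w.embedding (b w - β₁) - w.embedding (β₂ : K) =
        ∑ i, ((Int.fract (co i) : ℝ) : ℂ) * w.embedding ((B i : 𝓞 K) : K) := by
      have h2 := congrArg (ev w) key
      rw [ev_sub, ev_mixed, ev_pt w τ (hτ w), ev_sum] at h2
      rw [h2]
      refine Finset.sum_congr rfl fun i _ => ?_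
      rw [ev_smul, mixedEmbedding.latticeBasis_apply, integralBasis_apply, ev_mixed]
    rw [← sub_sub, ← InfinitePlace.norm_embedding_eq, map_sub, h1]
    calc ‖∑ i, ((Int.fract (co i) : ℝ) : ℂ) * w.embedding ((B i : 𝓞 K) : K)‖
        ≤ ∑ i, ‖((Int.fract (co i) : ℝ) : ℂ) * w.embedding ((B i : 𝓞 K) : K)‖ := norm_sum_le _ _
      _ ≤ ∑ i, w ((B i : 𝓞 K) : K) := by
          refine Finset.sum_le_sum fun i _ => ?_
          rw [norm_mul, InfinitePlace.norm_embedding_eq, Complex.norm_real, Real.norm_eq_abs,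
            abs_of_nonneg (Int.fract_nonneg _)]
          have h3 := (Int.fract_lt_one (co i)).le
          have h4 : 0 ≤ w ((B i : 𝓞 K) : K) := apply_nonneg w _
          nlinarith
      _ ≤ C₀ := hC₀ w
      _ ≤ max 1 C₀ := le_max_right _ _

end Pool.QM
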