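import Pool.Agent.QM.Stmts
import Pool.Agent.QM.FP
import Pool.Agent.Lib18ea5f.Mink

set_option autoImplicit false

/-!
# BAL: balanced scalars (helper46)
-/

namespace Pool.QM

open Finset NumberField

namespace Bal

variable {K : Type*} [Field K] [NumberField K]

/-- an ideal with prescribed sizes -/
lemma exists_ideal (a : FinitePlace K → K) (ha0 : ∀ v, a v ≠ 0)
    (ha : {v : FinitePlace K | v (a v) ≠ 1}.Finite) (ha1 : ∀ v : FinitePlace K, v (a v) ≤ 1) :
    ∃ I : Ideal (𝓞 K), I ≠ ⊥ ∧ (∀ z ∈ I, ∀ v : FinitePlace K, v (z : K) ≤ v (a v)) ∧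
      (Ideal.absNorm I : ℝ) * ∏ᶠ v : FinitePlace K, v (a v) = 1 := by
  classical
  choose k hk using fun v : FinitePlace K => FP.val_inv_pow v (ha0 v) (ha1 v)
  refine ⟨∏ v ∈ ha.toFinset, FP.pr v ^ k v, ?_, ?_, ?_⟩
  · rw [← Ideal.zero_eq_bot]
    exact Finset.prod_ne_zero_iff.2 fun v _ => pow_ne_zero _ (FP.pr_prime v).ne_zero
  · intro z hz v
    by_cases hv : v ∈ ha.toFinset
    · rw [hk v, ← FP.mem_pow_iff]
      have h1 : FP.pr v ^ k v ∣ ∏ v ∈ ha.toFinset, FP.pr v ^ k v :=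
        Finset.dvd_prod_of_mem (fun v => FP.pr v ^ k v) hv
      exact Ideal.dvd_iff_le.1 h1 hz
    · have h1 : v (a v) = 1 := by
        rw [Set.Finite.mem_toFinset] at hv
        simpa using hv
      rw [h1]
      exact FP.int_le_one v z
  · have hs : (Function.mulSupport fun v : FinitePlace K => v (a v)) ⊆ (ha.toFinset : Finset _) := by
      intro w hw
      rw [Function.mem_mulSupport] at hw
      simpa using hw
    rw [finprod_eq_prod_of_mulSupport_subset _ hs, map_prod]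
    push_cast
    rw [← Finset.prod_mul_distrib]
    refine Finset.prod_eq_one fun v _ => ?_
    rw [hk v, map_pow]
    change ((FP.q v ^ k v : ℕ) : ℝ) * _ = 1
    push_cast
    have := FP.q_pos v
    field_simp

end Bal

open Bal in
theorem bal_proof : Stmt_Bal := by
  intro K _ _
  obtain ⟨C₀, hC₀, hmink⟩ := Pool.Lib18ea5f.mink K
  set d := Module.finrank ℚ K with hd
  have hd0 : d ≠ 0 := Module.finrank_pos.ne'
  refine ⟨max 1 (C₀ ^ ((d : ℝ)⁻¹)), le_max_left _ _, ?_⟩
  intro a b ha hb hfin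
  have hfin' : {v : FinitePlace K | ¬ v (a v) ≤ 1}.Finite := by
    refine hfin.subset ?_
    intro v hv h
    exact hv h.le
  obtain ⟨N, hN, hN1⟩ := FP.common_den a hfin'
  have hNK : (N : K) ≠ 0 := by
    intro h
    exact hN (RingOfIntegers.coe_eq_zero_iff.1 h)
  have hNfin : {v : FinitePlace K | v (N : K) ≠ 1}.Finite := FinitePlace.hasFiniteMulSupport hNK
  have hfin2 : {v : FinitePlace K | v ((N : K) * a v) ≠ 1}.Finite := by
    refine (hfin.union hNfin).subset ?_
    intro v hv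
    by_contra hcon
    simp only [Set.mem_union, Set.mem_ofPred_eq, not_or, not_not] at hcon
    apply hv
    rw [map_mul, hcon.1, hcon.2, mul_one]
  obtain ⟨I, hI0, hI1, hI2⟩ := exists_ideal (fun v => (N : K) * a v)
    (fun v => mul_ne_zero hNK (ha v)) hfin2 hN1
  have hwpos : ∀ w : InfinitePlace K, 0 < w (b w) := fun w => InfinitePlace.pos_iff.2 (hb w)
  have hwN : ∀ w : InfinitePlace K, 0 < w (N : K) := fun w => InfinitePlace.pos_iff.2 hNK
  obtain ⟨z, hzI, hz0, S, hS0, hS1, hS2⟩ := hmink I hI0 (fun w => Real.log (w (N : K) * w (b w)))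
  have hexp : ∀ w : InfinitePlace K, Real.exp (Real.log (w (N : K) * w (b w)))
      = w (N : K) * w (b w) := fun w => Real.exp_log (mul_pos (hwN w) (hwpos w))
  simp only [hexp] at hS1 hS2
  have hzK : (z : K) ≠ 0 := by
    intro h
    exact hz0 (RingOfIntegers.coe_eq_zero_iff.1 h)
  -- the product
  have hfp : 0 < ∏ᶠ v : FinitePlace K, v (a v) := by
    refine finprod_induction (fun x : ℝ => 0 < x) one_pos (fun x y hx hy => mul_pos hx hy) ?_
    intro v
    exact FinitePlace.pos_iff.2 (ha v)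
  have hsplit : ∏ᶠ v : FinitePlace K, v ((N : K) * a v)
      = (∏ᶠ v : FinitePlace K, v (N : K)) * ∏ᶠ v : FinitePlace K, v (a v) := by
    rw [← finprod_mul_distrib hNfin hfin]
    exact finprod_congr fun v => map_mul v _ _
  have hpf := prod_abs_eq_one (K := K) hNK
  set A := ∏ᶠ v : FinitePlace K, v (a v) with hA
  set AN := ∏ᶠ v : FinitePlace K, v (N : K) with hAN
  set B := ∏ w : InfinitePlace K, w (b w) ^ w.mult with hB
  set BN := ∏ w : InfinitePlace K, w (N : K) ^ w.mult with hBN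
  have hB0 : 0 < B := Finset.prod_pos fun w _ => pow_pos (hwpos w) _
  have hBN0 : 0 < BN := Finset.prod_pos fun w _ => pow_pos (hwN w) _
  have hAN0 : 0 < AN := by
    by_contra hcon
    push Not at hcon
    nlinarith
  have hNI : (0 : ℝ) < Ideal.absNorm I := Pool.Lib18ea5f.absNorm_pos hI0
  rw [hsplit] at hI2
  have hprod2 : ∏ w : InfinitePlace K, (w (N : K) * w (b w)) ^ w.mult = BN * B := by
    simp_rw [mul_pow]
    rw [Finset.prod_mul_distrib]
  rw [hprod2] at hS2
  set t := (A * B) ^ ((d : ℝ)⁻¹) with ht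
  have ht0 : 0 < t := Real.rpow_pos_of_pos (mul_pos hfp hB0) _
  have htd : t ^ d = A * B := Real.rpow_inv_natCast_pow (mul_pos hfp hB0).le hd0
  have hSt : (S * t) ^ d ≤ C₀ := by
    rw [mul_pow, htd]
    have e1 : (Ideal.absNorm I : ℝ) * AN * A = 1 := by rw [← hI2]; ring
    have e2 : S ^ d * (BN * B) * (AN * A) ≤ C₀ * (Ideal.absNorm I : ℝ) * (AN * A) :=
      mul_le_mul_of_nonneg_right hS2 (mul_pos hAN0 hfp).le
    have e3 : C₀ * (Ideal.absNorm I : ℝ) * (AN * A) = C₀ := by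
      calc C₀ * (Ideal.absNorm I : ℝ) * (AN * A) = C₀ * ((Ideal.absNorm I : ℝ) * AN * A) := by ring
        _ = C₀ := by rw [e1, mul_one]
    have e4 : S ^ d * (BN * B) * (AN * A) = S ^ d * (A * B) * (BN * AN) := by ring
    rw [e3, e4, hpf, mul_one] at e2
    exact e2
  have hSt' : S * t ≤ C₀ ^ ((d : ℝ)⁻¹) := by
    have h1 : ((S * t) ^ d) ^ ((d : ℝ)⁻¹) ≤ C₀ ^ ((d : ℝ)⁻¹) :=
      Real.rpow_le_rpow (by positivity) hSt (by positivity)
    rwa [Real.pow_rpow_inv_natCast (by positivity) hd0] at h1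
  refine ⟨(z : K) / (N : K), t, div_ne_zero hzK hNK, ht0, ?_, ?_, htd⟩
  · intro v
    rw [map_div₀, div_le_iff₀ (FinitePlace.pos_iff.2 hNK)]
    have h1 := hI1 z hzI v
    rw [map_mul] at h1
    linarith
  · intro w
    rw [map_div₀, div_le_iff₀ (hwN w)]
    have h1 := hS1 w
    have h2 : S ≤ max 1 (C₀ ^ ((d : ℝ)⁻¹)) / t := by
      rw [le_div_iff₀ ht0]
      exact hSt'.trans (le_max_right _ _)
    calc w (z : K) ≤ S * (w (N : K) * w (b w)) := h1
      _ ≤ (max 1 (C₀ ^ ((d : ℝ)⁻¹)) / t) * (w (N : K) * w (b w)) := by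
          apply mul_le_mul_of_nonneg_right h2
          exact (mul_pos (hwN w) (hwpos w)).le
      _ = max 1 (C₀ ^ ((d : ℝ)⁻¹)) * w (b w) / t * w (N : K) := by ring

end Pool.QM
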