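import Pool.Agent.QM.Stmts

/-!
BOXLOW: many integers in a box.
-/

set_option autoImplicit false

namespace Pool.QM

open Finset NumberField

theorem boxLow_proof : Stmt_BoxLow := by
  intro K _ _
  classical
  set d := Module.finrank ℚ K with hd
  have hd0 : 0 < d := Module.finrank_pos
  let b := RingOfIntegers.basis K
  let ι := Module.Free.ChooseBasisIndex ℤ (𝓞 K)
  have hcard : Fintype.card ι = d := by
    rw [hd, ← RingOfIntegers.rank K, Module.finrank_eq_card_chooseBasisIndex]
  obtain ⟨B, hB1, hB⟩ : ∃ B : ℝ, 1 ≤ B ∧ ∀ w : InfinitePlace K, ∑ i : ι, w ((b i : 𝓞 K) : K) ≤ B := by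
    refine ⟨1 + ∑ w : InfinitePlace K, ∑ i : ι, w ((b i : 𝓞 K) : K), ?_, ?_⟩
    · have : 0 ≤ ∑ w : InfinitePlace K, ∑ i : ι, w ((b i : 𝓞 K) : K) :=
        Finset.sum_nonneg fun w _ => Finset.sum_nonneg fun i _ => apply_nonneg w _
      linarith
    · intro w
      have := Finset.single_le_sum (f := fun w : InfinitePlace K => ∑ i : ι, w ((b i : 𝓞 K) : K))
        (fun w _ => Finset.sum_nonneg fun i _ => apply_nonneg w _) (Finset.mem_univ w)
      linarith
  have hB0 : 0 < B := by linarith
  refine ⟨(1 / B) ^ d, by positivity, fun r hr => ?_⟩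
  set E : ℝ := Real.exp (r / d) with hE
  have hE0 : 0 < E := Real.exp_pos _
  have hexp : E ^ d = Real.exp r := by
    rw [hE, ← Real.exp_nat_mul]
    congr 1
    field_simp
  set N : ℕ := ⌊E / B⌋₊ with hN
  let f : (ι → Fin (N + 1)) → 𝓞 K := fun n => ∑ i, ((n i : ℕ) : ℤ) • b i
  have hf : Function.Injective f := by
    intro n n' h
    have h1 := congrArg b.repr h
    simp only [f, map_sum, map_smul, Module.Basis.repr_self] at h1
    funext i
    have h2 := DFunLike.congr_fun h1 i
    simp only [Finsupp.coe_finset_sum, Finsupp.coe_smul, Finset.sum_apply, Pi.smul_apply,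
      Finsupp.single_apply, smul_eq_mul, mul_ite, mul_one, mul_zero, Finset.sum_ite_eq',
      Finset.mem_univ, if_true] at h2
    exact Fin.ext (by exact_mod_cast h2)
  refine ⟨Finset.univ.image f, ?_, ?_⟩
  · rw [Finset.card_image_of_injective _ hf, Finset.card_univ, Fintype.card_fun, Fintype.card_fin,
      hcard, ← hexp, ← mul_pow]
    push_cast
    have h1 : 1 / B * E ≤ N + 1 := by
      rw [one_div_mul_eq_div]
      exact (Nat.lt_floor_add_one _).le
    gcongr
  · intro z hz w
    rw [Finset.mem_image] at hz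
    obtain ⟨n, -, rfl⟩ := hz
    have hle : ∀ i : ι, w ((((n i : ℕ) : ℤ) • b i : 𝓞 K) : K) ≤ N * w ((b i : 𝓞 K) : K) := by
      intro i
      have h1 : ((((n i : ℕ) : ℤ) • b i : 𝓞 K) : K) = ((n i : ℕ) : K) * ((b i : 𝓞 K) : K) := by
        rw [zsmul_eq_mul]
        push_cast
        rfl
      rw [h1, map_mul]
      have h2 : w ((n i : ℕ) : K) = ((n i : ℕ) : ℝ) := by
        rw [← InfinitePlace.norm_embedding_eq, map_natCast]
        simp
      rw [h2]
      have h3 : ((n i : ℕ) : ℝ) ≤ N := by exact_mod_cast Nat.lt_succ_iff.1 (n i).isLt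
      exact mul_le_mul_of_nonneg_right h3 (apply_nonneg w _)
    calc w ((f n : 𝓞 K) : K) = w (∑ i, ((((n i : ℕ) : ℤ) • b i : 𝓞 K) : K)) := by
          congr 1
          simp only [f]
          exact map_sum (algebraMap (𝓞 K) K) _ _
      _ ≤ ∑ i, w ((((n i : ℕ) : ℤ) • b i : 𝓞 K) : K) := by
          rw [← InfinitePlace.norm_embedding_eq, map_sum]
          refine (norm_sum_le _ _).trans (le_of_eq ?_)
          exact Finset.sum_congr rfl fun i _ => InfinitePlace.norm_embedding_eq _ _
      _ ≤ ∑ i, N * w ((b i : 𝓞 K) : K) := Finset.sum_le_sum fun i _ => hle i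
      _ = N * ∑ i, w ((b i : 𝓞 K) : K) := by rw [Finset.mul_sum]
      _ ≤ N * B := by gcongr; exact hB w
      _ ≤ (E / B) * B := by
          gcongr
          exact Nat.floor_le (by positivity)
      _ = E := by field_simp

end Pool.QM
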