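import Pool.Agent.QM.Stmts
import Pool.Agent.Lib18ea5f.Cover

/-!
BOXUP: number of elements of `D⁻¹ O_K` in a box.
-/

set_option autoImplicit false

namespace Pool.QM

open Finset NumberField

theorem boxUp_proof : Stmt_BoxUp := by
  intro K _ _ C D hD
  classical
  set d := Module.finrank ℚ K with hd
  have hd0 : d ≠ 0 := Module.finrank_pos.ne'
  have hD1 : (1 : ℝ) ≤ D := by exact_mod_cast Nat.one_le_iff_ne_zero.2 hD
  set C1 : ℝ := D * max 1 C with hC1
  have hC1pos : 0 < C1 := by positivity
  refine ⟨12 ^ d * (1 + (2 * C1) ^ d), ?_, ?_⟩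
  · have h1 : (1 : ℝ) ≤ 12 ^ d := one_le_pow₀ (by norm_num)
    have h2 : (0 : ℝ) ≤ (2 * C1) ^ d := by positivity
    nlinarith
  intro r hr S hS
  have hsum : ∑ w : InfinitePlace K, w.mult = d := InfinitePlace.sum_mult_eq
  have hexp : (Real.exp (r / d)) ^ d = Real.exp r := by
    rw [← Real.exp_nat_mul]
    congr 1
    field_simp
  have hDK : (D : K) ≠ 0 := by exact_mod_cast hD
  have hval : ∀ z : K, ∀ w : InfinitePlace K, ‖w.embedding ((D : K) * z)‖ = D * w z := by
    intro z w
    rw [InfinitePlace.norm_embedding_eq, map_mul]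
    congr 1
    rw [← InfinitePlace.norm_embedding_eq, map_natCast]
    simp
  have key := Pool.Lib18ea5f.cover (ι := InfinitePlace K) (fun w => w.mult)
    (fun v => by
      by_cases h : v.IsReal
      · left; simp [InfinitePlace.mult, h]
      · right; simp [InfinitePlace.mult, h]) inferInstance S
    (fun a w => w.embedding ((D : K) * a)) (by
      intro v hv a
      have hr : v.IsReal := by
        by_contra hn
        rw [InfinitePlace.mult, if_neg hn] at hv
        omega
      have hc := InfinitePlace.conjugate_embedding_eq_of_isReal hr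
      have h3 : (starRingEnd ℂ) (v.embedding ((D : K) * a)) = v.embedding ((D : K) * a) := by
        conv_rhs => rw [← hc]
        rfl
      exact Complex.conj_eq_iff_im.1 h3)
    (fun _ => 2 * C1 * Real.exp (r / d)) (fun v => by positivity) (by
      intro a ha b hb v
      have h1 := (hS a ha).2 v
      have h2 := (hS b hb).2 v
      calc ‖v.embedding ((D : K) * a) - v.embedding ((D : K) * b)‖
          ≤ ‖v.embedding ((D : K) * a)‖ + ‖v.embedding ((D : K) * b)‖ := norm_sub_le _ _
        _ = D * v a + D * v b := by rw [hval, hval]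
        _ ≤ D * (C * Real.exp (r / d)) + D * (C * Real.exp (r / d)) := by gcongr
        _ ≤ D * (max 1 C * Real.exp (r / d)) + D * (max 1 C * Real.exp (r / d)) := by
          gcongr <;> exact le_max_right _ _
        _ = 2 * C1 * Real.exp (r / d) := by rw [hC1]; ring) 1 one_pos (by
      intro a ha b hb hab
      have h1 : ∀ v : InfinitePlace K, ‖v.embedding ((D : K) * a) - v.embedding ((D : K) * b)‖ ^ v.mult
          = (v ((D : K) * a - (D : K) * b)) ^ v.mult := by
        intro v
        rw [← map_sub, InfinitePlace.norm_embedding_eq]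
      rw [Finset.prod_congr rfl fun v _ => h1 v, InfinitePlace.prod_eq_abs_norm]
      have hint : IsIntegral ℤ ((D : K) * a - (D : K) * b) := (hS a ha).1.sub (hS b hb).1
      have hne : (D : K) * a - (D : K) * b ≠ 0 := by
        rw [← mul_sub]
        exact mul_ne_zero hDK (sub_ne_zero.2 hab)
      obtain ⟨m, hm⟩ := IsIntegrallyClosed.isIntegral_iff.1 (Algebra.isIntegral_norm ℚ hint)
      have hm0 : m ≠ 0 := by
        intro h0
        rw [h0, map_zero] at hm
        exact (Algebra.norm_ne_zero_iff.2 hne) hm.symm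
      rw [← hm]
      have h3 : (1 : ℤ) ≤ |m| := Int.one_le_abs hm0
      have h4 : ((algebraMap ℤ ℚ m : ℚ) : ℝ) = (m : ℝ) := by simp
      have h5 : (1 : ℝ) ≤ |(m : ℝ)| := by exact_mod_cast h3
      calc (1 : ℝ) ≤ |(m : ℝ)| := h5
        _ = |((algebraMap ℤ ℚ m : ℚ) : ℝ)| := by rw [h4]
        _ = _ := by simp)
  have hprod : ∏ v : InfinitePlace K, (2 * C1 * Real.exp (r / d)) ^ v.mult
      = (2 * C1) ^ d * Real.exp r := by
    rw [Finset.prod_pow_eq_pow_sum, hsum, mul_pow, hexp]
  simp only [hprod, div_one, hsum] at key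
  refine key.trans ?_
  have he : 1 ≤ Real.exp r := Real.one_le_exp hr
  have h12 : (0 : ℝ) < 12 ^ d := by positivity
  calc (12 : ℝ) ^ d * (1 + (2 * C1) ^ d * Real.exp r)
      ≤ 12 ^ d * (Real.exp r + (2 * C1) ^ d * Real.exp r) := by gcongr
    _ = 12 ^ d * (1 + (2 * C1) ^ d) * Real.exp r := by ring

end Pool.QM
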