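import Mathlib

set_option autoImplicit false

/-!
# Moduli spaces of representations of acyclic quivers over number fields: definitions

A quiver with a dimension vector `d`; its representations over a field `F` are the tuples of
matrices `x_a : F^{d(tl a)} → F^{d(hd a)}`, one for each arrow `a`.  The group `∏ GL_{d_i}(F)`
acts by `(g x)_a = g_{hd a} x_a g_{tl a}⁻¹`.
-/

namespace Pool.QM

/-- A quiver with a dimension vector: the vertices are `Fin nv`, the arrows are `Fin na`, the
arrow `a` goes from the vertex `tl a` to the vertex `hd a`, and `d` is the dimension vector. -/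
structure Quiv where
  /-- number of vertices -/
  nv : ℕ
  /-- number of arrows -/
  na : ℕ
  /-- tail of an arrow -/
  tl : Fin na → Fin nv
  /-- head of an arrow -/
  hd : Fin na → Fin nv
  /-- dimension vector -/
  d : Fin nv → ℕ

/-- The value of the character `θ` at the vector `e`. -/
def dot {n : ℕ} (θ : Fin n → ℤ) (e : Fin n → ℕ) : ℤ := ∑ i, θ i * (e i : ℤ)

namespace Quiv

variable (Q : Quiv)

/-- There are no oriented cycles: the vertices can be numbered so that the number increases along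
every arrow. -/
def Acyclic : Prop := ∃ f : Fin Q.nv → ℕ, ∀ a, f (Q.tl a) < f (Q.hd a)

/-- Representations over `F` with dimension vector `d`. -/
abbrev Rep (F : Type) : Type :=
  ∀ a : Fin Q.na, Matrix (Fin (Q.d (Q.hd a))) (Fin (Q.d (Q.tl a))) F

/-- The group `∏ GL_{d_i}(F)`. -/
abbrev Grp (F : Type) [Field F] : Type := ∀ i : Fin Q.nv, GL (Fin (Q.d i)) F

/-- The action `(g x)_a = g_{hd a} x_a g_{tl a}⁻¹`. -/
def act {F : Type} [Field F] (g : Q.Grp F) (x : Q.Rep F) : Q.Rep F := fun a =>
  (g (Q.hd a)).val * x a * ((g (Q.tl a))⁻¹).val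

/-- The character `∏ det(g_i)^{χ_i}`. -/
def chr {F : Type} [Field F] (χ : Fin Q.nv → ℤ) (g : Q.Grp F) : F :=
  ∏ i, (g i).val.det ^ (χ i)

/-- The coordinates (matrix entries) on the space of representations. -/
abbrev Coord : Type := Σ a : Fin Q.na, Fin (Q.d (Q.hd a)) × Fin (Q.d (Q.tl a))

/-- The value of a polynomial over `K` at a representation over a field `F` containing `K`. -/
noncomputable def ev {K F : Type} [Field K] [Field F] [Algebra K F]
    (f : MvPolynomial Q.Coord K) (x : Q.Rep F) : F :=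
  MvPolynomial.aeval (fun c : Q.Coord => x c.1 c.2.1 c.2.2) f

/-- `f` is a semi-invariant polynomial of weight `χ`: `f(g x) = ∏ det(g_i)^{χ_i} f(x)`
(for an infinite field `K`). -/
def SemiInv {K : Type} [Field K] (χ : Fin Q.nv → ℤ) (f : MvPolynomial Q.Coord K) : Prop :=
  ∀ (g : Q.Grp K) (x : Q.Rep K), Q.ev f (Q.act g x) = Q.chr χ g * Q.ev f x

/-- `x` has a subrepresentation (over `F`) with dimension vector `e`. -/
def HasSub {F : Type} [Field F] (x : Q.Rep F) (e : Fin Q.nv → ℕ) : Prop :=
  ∃ W : ∀ i, Submodule F (Fin (Q.d i) → F), (∀ i, Module.finrank F (W i) = e i) ∧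
    ∀ a, ∀ u ∈ W (Q.tl a), (x a).mulVec u ∈ W (Q.hd a)

/-- `x` is `θ`-semistable over `F` (King): `θ(e) ≥ 0` for all subrepresentations
(with `θ(d) = 0`). -/
def Semistable {F : Type} [Field F] (θ : Fin Q.nv → ℤ) (x : Q.Rep F) : Prop :=
  ∀ e, Q.HasSub x e → 0 ≤ dot θ e

/-- `x` is `θ`-stable over `F` (King): `θ(e) > 0` for all subrepresentations other than
`0` and `x` (with `θ(d) = 0`). -/
def Stable {F : Type} [Field F] (θ : Fin Q.nv → ℤ) (x : Q.Rep F) : Prop :=
  ∀ e, Q.HasSub x e → e ≠ 0 → e ≠ Q.d → 0 < dot θ e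

/-- The weight of the anticanonical class of the moduli space:
`∑_{hd a = i} d(tl a) - ∑_{tl a = i} d(hd a)`. -/
def can (i : Fin Q.nv) : ℤ :=
  (∑ a, if Q.hd a = i then (Q.d (Q.tl a) : ℤ) else 0) -
    ∑ a, if Q.tl a = i then (Q.d (Q.hd a) : ℤ) else 0

/-- The polynomials `s_j` have no common zero on the `ℓ`-semistable representations over field
extensions of `K`. -/
def Bpf {K ι : Type} [Field K] (ℓ : Fin Q.nv → ℤ) (s : ι → MvPolynomial Q.Coord K) : Prop :=
  ∀ (F : Type) [Field F] [Algebra K F] (y : Q.Rep F), Q.Semistable ℓ y → ∃ j, Q.ev (s j) y ≠ 0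

/-- The height of `x` attached to the sections `s_j` of `L^n`. -/
noncomputable def height {K ι : Type} [Field K] [NumberField K] [Fintype ι] (n : ℕ)
    (s : ι → MvPolynomial Q.Coord K) (x : Q.Rep K) : ℝ :=
  Height.mulHeight (fun j => Q.ev (s j) x) ^ (1 / (n : ℝ))

lemma act_one {F : Type} [Field F] (x : Q.Rep F) : Q.act 1 x = x := by
  funext a; simp [act]

lemma act_mul {F : Type} [Field F] (g h : Q.Grp F) (x : Q.Rep F) :
    Q.act (g * h) x = Q.act g (Q.act h x) := by
  funext a
  simp only [act, Pi.mul_apply, mul_inv_rev, Units.val_mul, Matrix.mul_assoc]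

/-- Two representations over `K` are isomorphic. -/
def orbitSetoid (K : Type) [Field K] : Setoid (Q.Rep K) where
  r x y := ∃ g : Q.Grp K, y = Q.act g x
  iseqv := ⟨fun x => ⟨1, (Q.act_one x).symm⟩,
    fun {x y} h => h.elim fun g hg => ⟨g⁻¹, by rw [hg, ← Q.act_mul, inv_mul_cancel, Q.act_one]⟩,
    fun {x y z} h h' => h.elim fun g hg => h'.elim fun g' hg' =>
      ⟨g' * g, by rw [hg', hg, Q.act_mul]⟩⟩

end Quiv

end Pool.QM
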