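import Mathlib
import Pool.Agent.QM.Defs

set_option autoImplicit false

/-!
# Exact statements of the modules (weak Manin for moduli of quiver representations, MP_18ea5f_nt)

Paper proofs: /team-store/MP_18ea5f_QM_PROOF.md.
-/

namespace Pool.QM

open Finset NumberField

/-! ## Arithmetic of `K` -/

/-- DIR: Dirichlet approximation (from `Pool.V5.Stmt_Dir`, file Pool/Agent/V5/Dir.lean) -/
def Stmt_Dir : Prop :=
  ∀ (K : Type) [Field K] [NumberField K] (ε : ℝ), 0 < ε → ∃ S : ℝ, 1 ≤ S ∧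
    ∀ b : InfinitePlace K → K, ∃ s β : 𝓞 K, s ≠ 0 ∧ (∀ w : InfinitePlace K, w (s : K) ≤ S) ∧
      ∀ w : InfinitePlace K, w ((s : K) * b w - (β : K)) ≤ ε

/-- BAL: balanced scalars -/
def Stmt_Bal : Prop :=
  ∀ (K : Type) [Field K] [NumberField K], ∃ C : ℝ, 1 ≤ C ∧
    ∀ (a : FinitePlace K → K) (b : InfinitePlace K → K), (∀ v, a v ≠ 0) → (∀ w, b w ≠ 0) →
      {v : FinitePlace K | v (a v) ≠ 1}.Finite →
      ∃ (α : K) (t : ℝ), α ≠ 0 ∧ 0 < t ∧ (∀ v : FinitePlace K, v α ≤ v (a v)) ∧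
        (∀ w : InfinitePlace K, w α ≤ C * w (b w) / t) ∧
        t ^ Module.finrank ℚ K =
          (∏ᶠ v : FinitePlace K, v (a v)) * ∏ w : InfinitePlace K, w (b w) ^ w.mult

/-- DEN: a common denominator -/
def Stmt_Den : Prop :=
  ∀ (K : Type) [Field K] [NumberField K] (C : ℝ), ∃ D : ℕ, D ≠ 0 ∧
    ∀ z : FinitePlace K → K, (∀ v : FinitePlace K, 1 ≤ v (z v)) → {v : FinitePlace K | v (z v) ≠ 1}.Finite →
      (∏ᶠ v : FinitePlace K, v (z v)) ≤ C → ∀ v : FinitePlace K, v ((D : K) * z v) ≤ 1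

/-- ADD: strong approximation for the additive group -/
def Stmt_Add : Prop :=
  ∀ (K : Type) [Field K] [NumberField K], ∃ C : ℝ, 1 ≤ C ∧
    ∀ (a : FinitePlace K → K) (b : InfinitePlace K → K),
      {v : FinitePlace K | ¬ v (a v) ≤ 1}.Finite →
      ∃ β : K, (∀ v : FinitePlace K, v (a v - β) ≤ 1) ∧ ∀ w : InfinitePlace K, w (b w - β) ≤ C

/-- ELIM: moving a vector to the first axis by a bounded matrix -/
def Stmt_Elim : Prop :=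
  ∀ (K : Type) [Field K] (v : AbsoluteValue K ℝ) (n : ℕ) (c : Fin (n + 1) → K), c ≠ 0 →
    ∃ (k : GL (Fin (n + 1)) K) (z : K), z ≠ 0 ∧ k.val.mulVec c = (Pi.single 0 z) ∧
      (∀ i, v (c i) ≤ v z) ∧ (∃ i, z = c i) ∧
      (∀ i j, v (k.val i j) ≤ 1) ∧ ∀ i j, v ((k⁻¹).val i j) ≤ 1

/-- The families in `GL_n(K)` which are integral with their inverses at almost all places. -/
def Good {K : Type} [Field K] [NumberField K] {n : ℕ} (g : FinitePlace K → GL (Fin n) K) : Prop :=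
  {v : FinitePlace K |
    ¬ ((∀ i j, v ((g v).val i j) ≤ 1) ∧ ∀ i j, v (((g v)⁻¹).val i j) ≤ 1)}.Finite

/-- Twisted height of a vector. -/
noncomputable def tw {K : Type} [Field K] [NumberField K] {n : ℕ}
    (g : FinitePlace K → GL (Fin n) K) (h : InfinitePlace K → GL (Fin n) K) (u : Fin n → K) : ℝ :=
  (∏ᶠ v : FinitePlace K, ⨆ i, v (((g v)⁻¹).val.mulVec u i)) *
    ∏ w : InfinitePlace K, (⨆ i, w (((h w)⁻¹).val.mulVec u i)) ^ w.mult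

/-- NEARMIN: near-minimal vectors for the twisted height -/
def Stmt_NearMin : Prop :=
  ∀ (K : Type) [Field K] [NumberField K] (n : ℕ) (g : FinitePlace K → GL (Fin (n + 1)) K)
    (h : InfinitePlace K → GL (Fin (n + 1)) K), Good g →
    ∃ u : Fin (n + 1) → K, u ≠ 0 ∧ 0 < tw g h u ∧
      ∀ u' : Fin (n + 1) → K, u' ≠ 0 → tw g h u ≤ 2 * tw g h u'

/-- SIEGEL: reduction theory of `GL_n` over `K` (from DIR, BAL, DEN, ADD, ELIM, NEARMIN) -/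
def Stmt_Siegel : Prop :=
  ∀ (K : Type) [Field K] [NumberField K] (n : ℕ), ∃ (C : ℝ) (D : ℕ), 1 ≤ C ∧ D ≠ 0 ∧
    ∀ (g : FinitePlace K → GL (Fin n) K) (h : InfinitePlace K → GL (Fin n) K), Good g →
      ∃ (γ : GL (Fin n) K) (t : Fin n → ℝ), (∀ l, 0 < t l) ∧
        (∀ (v : FinitePlace K) i l, v (((g v)⁻¹ * γ).val i l) ≤ 1) ∧
        (∀ (v : FinitePlace K) l j, v ((D : K) * (γ⁻¹ * g v).val l j) ≤ 1) ∧
        (∀ (w : InfinitePlace K) i l, w (((h w)⁻¹ * γ).val i l) ≤ C / t l) ∧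
        ∀ (w : InfinitePlace K) l j, w ((γ⁻¹ * h w).val l j) ≤ C * t l

/-- BOXUP: number of elements of `D⁻¹ O_K` in a box -/
def Stmt_BoxUp : Prop :=
  ∀ (K : Type) [Field K] [NumberField K] (C : ℝ) (D : ℕ), D ≠ 0 → ∃ C' : ℝ, 1 ≤ C' ∧
    ∀ r : ℝ, 0 ≤ r → ∀ S : Finset K, (∀ z ∈ S, IsIntegral ℤ ((D : K) * z) ∧
      ∀ w : InfinitePlace K, w z ≤ C * Real.exp (r / Module.finrank ℚ K)) →
      (S.card : ℝ) ≤ C' * Real.exp r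

/-- BOXLOW: many integers in a box -/
def Stmt_BoxLow : Prop :=
  ∀ (K : Type) [Field K] [NumberField K], ∃ c : ℝ, 0 < c ∧ ∀ r : ℝ, 0 ≤ r →
    ∃ S : Finset (𝓞 K), c * Real.exp r ≤ (S.card : ℝ) ∧
      ∀ z ∈ S, ∀ w : InfinitePlace K, w (z : K) ≤ Real.exp (r / Module.finrank ℚ K)

/-! ## Representations: local theory -/

/-- all entries are at most `1` -/
def nb {Q : Quiv} {K : Type} [Field K] (v : AbsoluteValue K ℝ) (x : Q.Rep K) : Prop :=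
  ∀ a i j, v (x a i j) ≤ 1

/-- FRAME: a subrepresentation gives a block triangular form -/
def Stmt_Frame : Prop :=
  ∀ (F : Type) [Field F] (Q : Quiv) (y : Q.Rep F) (e : Fin Q.nv → ℕ), Q.HasSub y e →
    (∀ i, e i ≤ Q.d i) ∧ ∃ k : Q.Grp F, ∀ a (i : Fin (Q.d (Q.hd a))) (j : Fin (Q.d (Q.tl a))),
      e (Q.hd a) ≤ i.val → j.val < e (Q.tl a) → Q.act k⁻¹ y a i j = 0

/-- SUBOF: converse of FRAME -/
def Stmt_SubOf : Prop :=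
  ∀ (F : Type) [Field F] (Q : Quiv) (y : Q.Rep F) (k : Q.Grp F)
    (A : ∀ i : Fin Q.nv, Finset (Fin (Q.d i))),
    (∀ a (i : Fin (Q.d (Q.hd a))) (j : Fin (Q.d (Q.tl a))),
      i ∉ A (Q.hd a) → j ∈ A (Q.tl a) → Q.act k⁻¹ y a i j = 0) →
    Q.HasSub y (fun i => (A i).card)

/-- NEAR: near-optimal elements of `G(K)` at the absolute value `v` -/
def Stmt_Near : Prop :=
  ∀ (K : Type) [Field K] [CharZero K] (v : AbsoluteValue K ℝ), (∃ ρ : K, 1 < v ρ) →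
    ∀ (Q : Quiv), Q.Acyclic → ∀ (ℓ : Fin Q.nv → ℤ) (n : ℕ), 1 ≤ n →
    ∀ (ι : Type) [Fintype ι] (s : ι → MvPolynomial Q.Coord K),
    (∀ j, Q.SemiInv (fun i => n * ℓ i) (s j)) →
    ∀ x : Q.Rep K, (∃ j, Q.ev (s j) x ≠ 0) →
      ∃ g : Q.Grp K, nb v (Q.act g⁻¹ x) ∧
        ∀ g' : Q.Grp K, nb v (Q.act g'⁻¹ x) → v (Q.chr ℓ g) < 2 * v (Q.chr ℓ g')

/-- LOCV: at each place (uses NEAR, FRAME) -/
def Stmt_LocV : Prop :=
  ∀ (K : Type) [Field K] [CharZero K] (v : AbsoluteValue K ℝ), (∃ ρ : K, 1 < v ρ) →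
    ∀ (Q : Quiv), Q.Acyclic → ∀ (ℓ : Fin Q.nv → ℤ) (n : ℕ), 1 ≤ n →
    ∀ (ι : Type) [Fintype ι] (s : ι → MvPolynomial Q.Coord K),
    (∀ j, Q.SemiInv (fun i => n * ℓ i) (s j)) → Q.Bpf ℓ s →
    ∃ c : ℝ, 0 < c ∧ ∀ x : Q.Rep K, (∃ j, Q.ev (s j) x ≠ 0) →
      ∃ g : Q.Grp K, nb v (Q.act g⁻¹ x) ∧ ∃ j, c ≤ v (Q.ev (s j) (Q.act g⁻¹ x))

/-- LOCAE: the constant is `1` at almost all finite places (uses NEAR, FRAME) -/
def Stmt_LocAE : Prop :=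
  ∀ (K : Type) [Field K] [NumberField K] (Q : Quiv), Q.Acyclic →
    ∀ (ℓ : Fin Q.nv → ℤ) (n : ℕ), 1 ≤ n →
    ∀ (ι : Type) [Fintype ι] (s : ι → MvPolynomial Q.Coord K),
    (∀ j, Q.SemiInv (fun i => n * ℓ i) (s j)) → Q.Bpf ℓ s →
    {v : FinitePlace K | ¬ ∀ x : Q.Rep K, (∃ j, Q.ev (s j) x ≠ 0) →
      ∃ g : Q.Grp K, nb v.1 (Q.act g⁻¹ x) ∧ ∃ j, 1 ≤ v (Q.ev (s j) (Q.act g⁻¹ x))}.Finite

/-- RED: reduction to boxes (uses SIEGEL, LOCV, LOCAE) -/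
def Stmt_Red : Prop :=
  ∀ (K : Type) [Field K] [NumberField K] (Q : Quiv), Q.Acyclic →
    ∀ (ℓ : Fin Q.nv → ℤ) (n : ℕ), 1 ≤ n →
    ∀ (ι : Type) [Fintype ι] (s : ι → MvPolynomial Q.Coord K),
    (∀ j, Q.SemiInv (fun i => n * ℓ i) (s j)) → Q.Bpf ℓ s →
    ∃ (C : ℝ) (D : ℕ), 1 ≤ C ∧ D ≠ 0 ∧ ∀ x : Q.Rep K, (∃ j, Q.ev (s j) x ≠ 0) →
      ∃ (γ : Q.Grp K) (t : ∀ i : Fin Q.nv, Fin (Q.d i) → ℝ), (∀ i l, 0 < t i l) ∧
        (∀ a i j, IsIntegral ℤ ((D : K) * Q.act γ⁻¹ x a i j)) ∧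
        (∀ (w : InfinitePlace K) a i j,
          w (Q.act γ⁻¹ x a i j) ≤ C * (t (Q.hd a) i / t (Q.tl a) j)) ∧
        (∏ i, (∏ l, t i l) ^ (ℓ i)) ^ Module.finrank ℚ K ≤ C * Q.height n s x

/-! ## Generic subrepresentations -/

/-- GENP: a dimension count -/
def Stmt_GenP : Prop :=
  ∀ (K : Type) [Field K] [CharZero K] (Q : Quiv) (e : Fin Q.nv → ℕ), (∀ i, e i ≤ Q.d i) →
    ∑ i, (e i * (Q.d i - e i) : ℕ) < ∑ a, (e (Q.tl a) * (Q.d (Q.hd a) - e (Q.hd a)) : ℕ) →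
    ∃ P : MvPolynomial Q.Coord K, P ≠ 0 ∧ ∀ x : Q.Rep K, Q.HasSub x e → Q.ev P x = 0

/-- SI: semi-invariants of negative weight on `e` vanish (uses FRAME) -/
def Stmt_SI : Prop :=
  ∀ (K : Type) [Field K] [CharZero K] (Q : Quiv) (χ : Fin Q.nv → ℤ) (f : MvPolynomial Q.Coord K),
    Q.SemiInv χ f → ∀ e, dot χ e < 0 → ∀ x : Q.Rep K, Q.HasSub x e → Q.ev f x = 0

/-- GENU: the open set (uses GENP, SI): there is `P ≠ 0` such that the dimension vectors of the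
subrepresentations of all `x` with `P(x) ≠ 0` satisfy the generic inequalities. -/
def Stmt_GenU : Prop :=
  ∀ (K : Type) [Field K] [CharZero K] (Q : Quiv), ∃ P : MvPolynomial Q.Coord K, P ≠ 0 ∧
    ∀ x : Q.Rep K, Q.ev P x ≠ 0 → ∀ e, Q.HasSub x e →
      ∑ a, (e (Q.tl a) * (Q.d (Q.hd a) - e (Q.hd a)) : ℕ) ≤ ∑ i, (e i * (Q.d i - e i) : ℕ) ∧
      ∀ (χ : Fin Q.nv → ℤ) (f : MvPolynomial Q.Coord K), f ≠ 0 → Q.SemiInv χ f → 0 ≤ dot χ e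

/-! ## Counting -/

/-- CLUSTER: separating the values of an integer function by gaps -/
def Stmt_Cluster : Prop :=
  ∀ (ι : Type) [Fintype ι] (m : ι → ℤ) (C : ℕ), ∃ m' : ι → ℤ,
    (∀ j, |m j - m' j| ≤ Fintype.card ι * C) ∧ ∀ j j', m' j < m' j' → m j + C < m j'

/-- The exponent of the number of points of the cell `m`. -/
def expo (Q : Quiv) (m : ∀ i : Fin Q.nv, Fin (Q.d i) → ℤ) : ℤ :=
  (∑ a, ∑ i, ∑ j, max 0 (m (Q.hd a) i - m (Q.tl a) j)) -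
    ∑ i, ∑ k, ∑ l, max 0 (m i k - m i l)

/-- CELL: number of isomorphism classes in a cell (uses BOXUP, BOXLOW) -/
def Stmt_Cell : Prop :=
  ∀ (K : Type) [Field K] [NumberField K] (Q : Quiv) (C : ℝ) (D : ℕ), D ≠ 0 →
    ∃ C' : ℝ, 1 ≤ C' ∧ ∀ θ : Fin Q.nv → ℤ, dot θ Q.d = 0 →
      ∀ m : ∀ i : Fin Q.nv, Fin (Q.d i) → ℤ, ∀ S : Finset (Q.Rep K),
      (∀ x ∈ S, ∀ y ∈ S, (∃ g : Q.Grp K, y = Q.act g x) → x = y) →
      (∀ x ∈ S, Q.Stable θ x ∧ (∀ a i j, IsIntegral ℤ ((D : K) * x a i j)) ∧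
        (∀ a i j, m (Q.hd a) i < m (Q.tl a) j → x a i j = 0) ∧
        ∀ (w : InfinitePlace K) a i j, w (x a i j) ≤
          C * Real.exp (((m (Q.hd a) i - m (Q.tl a) j : ℤ) : ℝ) / Module.finrank ℚ K)) →
      (S.card : ℝ) ≤ C' * Real.exp (expo Q m)

/-- the dimension vector of the span of the basis vectors with `m ≥ s` -/
def lev (Q : Quiv) (m : ∀ i : Fin Q.nv, Fin (Q.d i) → ℤ) (s : ℤ) (i : Fin Q.nv) : ℕ :=
  (univ.filter fun l : Fin (Q.d i) => s ≤ m i l).card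

/-- LP: the linear programming inequality -/
def Stmt_LP : Prop :=
  ∀ (Q : Quiv) (m : ∀ i : Fin Q.nv, Fin (Q.d i) → ℤ), (∀ i l, 0 ≤ m i l) →
    (∃ i l, m i l = 0) → ∀ (ℓ : Fin Q.nv → ℤ) (p q : ℕ),
    (∀ s, 1 ≤ s → (∑ a, (lev Q m s (Q.tl a) * (Q.d (Q.hd a) - lev Q m s (Q.hd a)) : ℕ) ≤
        ∑ i, (lev Q m s i * (Q.d i - lev Q m s i) : ℕ)) ∧
      0 ≤ dot (fun i => p * ℓ i - q * Q.can i) (lev Q m s) ∧
      (lev Q m s ≠ 0 → 1 ≤ dot ℓ (lev Q m s))) →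
    q * expo Q m ≤ p * ∑ i, ℓ i * ∑ l, m i l ∧
      ∀ i l, m i l ≤ ∑ i, ℓ i * ∑ l, m i l

/-- MAIN: the theorem, in terms of finite sets of pairwise non-isomorphic representations
(uses RED, GENU, CLUSTER, CELL, LP, SUBOF) -/
def Stmt_Main : Prop :=
  ∀ (K : Type) [Field K] [NumberField K] (Q : Quiv), Q.Acyclic →
    ∃ P : MvPolynomial Q.Coord K, P ≠ 0 ∧ ∀ (θ ℓ : Fin Q.nv → ℤ), dot θ Q.d = 0 →
    dot ℓ Q.d = 0 → (∀ e : Fin Q.nv → ℕ, e ≤ Q.d → e ≠ 0 → e ≠ Q.d → dot θ e ≠ 0) →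
    (∀ (F : Type) [Field F] [Algebra K F] (y : Q.Rep F), Q.Semistable θ y → Q.Semistable ℓ y) →
    ∀ (n : ℕ), 1 ≤ n → ∀ (ι : Type) [Fintype ι] (s : ι → MvPolynomial Q.Coord K),
    (∀ j, Q.SemiInv (fun i => n * ℓ i) (s j)) → Q.Bpf ℓ s →
    (∃ (m : ℕ) (f : MvPolynomial Q.Coord K), 1 ≤ m ∧ f ≠ 0 ∧
      Q.SemiInv (fun i => m * ℓ i - θ i) f) →
    ∀ p q : ℕ, 1 ≤ q → (∃ (m : ℕ) (f : MvPolynomial Q.Coord K), 1 ≤ m ∧ f ≠ 0 ∧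
      Q.SemiInv (fun i => m * (p * ℓ i - q * Q.can i)) f) →
    ∃ (C : ℝ) (k : ℕ), 0 < C ∧ ∀ T : ℝ, 1 ≤ T → ∀ S : Finset (Q.Rep K),
      (∀ x ∈ S, ∀ y ∈ S, (∃ g : Q.Grp K, y = Q.act g x) → x = y) →
      (∀ x ∈ S, Q.Stable θ x ∧ Q.ev P x ≠ 0 ∧ Q.height n s x ≤ T) →
      (S.card : ℝ) ≤ C * T ^ ((p : ℝ) / q) * (1 + Real.log T) ^ k

end Pool.QM
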