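import Mathlib
import Pool.Agent.QM.Defs
import Pool.Agent.QM.Stmts

set_option autoImplicit false

/-!
# CELL: number of isomorphism classes of stable representations in a cell
-/

namespace Pool.QM.Cell

open Finset NumberField Matrix

variable {K : Type} [Field K] [NumberField K]

/-- Matrices with denominator `D`, the zero pattern given by the weights, and bounded entries. -/
def Bd {ι κ : Type} (mi : ι → ℤ) (mk : κ → ℤ) (D : ℕ) (C : ℝ) (A : Matrix ι κ K) : Prop :=
  ∀ i k, IsIntegral ℤ ((D : K) * A i k) ∧ (mi i < mk k → A i k = 0) ∧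
    ∀ w : InfinitePlace K,
      w (A i k) ≤ C * Real.exp (((mi i - mk k : ℤ) : ℝ) / Module.finrank ℚ K)

omit [NumberField K] in
lemma place_sum_le (w : InfinitePlace K) {κ : Type} (s : Finset κ) (f : κ → K) :
    w (∑ k ∈ s, f k) ≤ ∑ k ∈ s, w (f k) := by
  classical
  induction s using Finset.induction_on with
  | empty => simp
  | insert a s ha ih =>
    rw [Finset.sum_insert ha, Finset.sum_insert ha]
    exact (w.1.add_le _ _).trans (add_le_add le_rfl ih)

lemma Bd.mul {ι κ τ : Type} [Fintype κ] {mi : ι → ℤ} {mk : κ → ℤ} {mt : τ → ℤ} {D D' : ℕ}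
    {C C' : ℝ} {A : Matrix ι κ K} {B : Matrix κ τ K} (hA : Bd mi mk D C A)
    (hB : Bd mk mt D' C' B) : Bd mi mt (D * D') (Fintype.card κ * C * C') (A * B) := by
  intro i t
  refine ⟨?_, ?_, ?_⟩
  · rw [Matrix.mul_apply, Finset.mul_sum]
    refine IsIntegral.sum _ fun k _ => ?_
    have h := (hA i k).1.mul (hB k t).1
    have e : ((D * D' : ℕ) : K) * (A i k * B k t) = (D : K) * A i k * ((D' : K) * B k t) := by
      push_cast; ring
    rw [e]; exact h
  · intro h
    rw [Matrix.mul_apply]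
    refine Finset.sum_eq_zero fun k _ => ?_
    by_cases h1 : mi i < mk k
    · rw [(hA i k).2.1 h1, zero_mul]
    · rw [(hB k t).2.1 (by omega), mul_zero]
  · intro w
    rw [Matrix.mul_apply]
    refine (place_sum_le w _ _).trans ?_
    have h : ∀ k ∈ (univ : Finset κ), w (A i k * B k t) ≤
        C * C' * Real.exp (((mi i - mt t : ℤ) : ℝ) / Module.finrank ℚ K) := by
      intro k _
      rw [map_mul]
      have h1 := (hA i k).2.2 w
      have h2 := (hB k t).2.2 w
      calc w (A i k) * w (B k t)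
          ≤ (C * Real.exp (((mi i - mk k : ℤ) : ℝ) / Module.finrank ℚ K)) *
            (C' * Real.exp (((mk k - mt t : ℤ) : ℝ) / Module.finrank ℚ K)) :=
            mul_le_mul h1 h2 (apply_nonneg w _) ((apply_nonneg w _).trans h1)
        _ = C * C' * Real.exp (((mi i - mt t : ℤ) : ℝ) / Module.finrank ℚ K) := by
            have e : (((mi i - mt t : ℤ) : ℝ) / Module.finrank ℚ K) =
                (((mi i - mk k : ℤ) : ℝ) / Module.finrank ℚ K) +
                (((mk k - mt t : ℤ) : ℝ) / Module.finrank ℚ K) := by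
              push_cast; ring
            rw [e, Real.exp_add]; ring
    refine (Finset.sum_le_sum h).trans ?_
    rw [Finset.sum_const, Finset.card_univ, nsmul_eq_mul]
    apply le_of_eq; ring

lemma Bd.one {ι : Type} [DecidableEq ι] (m : ι → ℤ) : Bd m m 1 1 (1 : Matrix ι ι K) := by
  intro i k
  by_cases h : i = k
  · subst h
    refine ⟨?_, fun h => absurd h (lt_irrefl _), fun w => ?_⟩
    · simpa using isIntegral_one
    · simp
  · rw [Matrix.one_apply_ne h]
    refine ⟨?_, fun _ => rfl, fun w => ?_⟩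
    · simpa using isIntegral_zero
    · rw [map_zero]; positivity

lemma Bd.neg {ι κ : Type} {mi : ι → ℤ} {mk : κ → ℤ} {D : ℕ} {C : ℝ} {A : Matrix ι κ K}
    (hA : Bd mi mk D C A) : Bd mi mk D C (-A) := by
  intro i k
  refine ⟨?_, fun h => ?_, fun w => ?_⟩
  · rw [Matrix.neg_apply, mul_neg]; exact (hA i k).1.neg
  · rw [Matrix.neg_apply, (hA i k).2.1 h, neg_zero]
  · rw [Matrix.neg_apply]
    have e : w (-A i k) = w (A i k) := by
      have := w.1.map_neg (A i k)
      exact this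
    rw [e]; exact (hA i k).2.2 w

lemma Bd.add {ι κ : Type} {mi : ι → ℤ} {mk : κ → ℤ} {D : ℕ} {C C' : ℝ} {A B : Matrix ι κ K}
    (hA : Bd mi mk D C A) (hB : Bd mi mk D C' B) : Bd mi mk D (C + C') (A + B) := by
  intro i k
  refine ⟨?_, fun h => ?_, fun w => ?_⟩
  · rw [Matrix.add_apply, mul_add]; exact (hA i k).1.add (hB i k).1
  · rw [Matrix.add_apply, (hA i k).2.1 h, (hB i k).2.1 h, add_zero]
  · rw [Matrix.add_apply, add_mul]
    exact (w.1.add_le _ _).trans (add_le_add ((hA i k).2.2 w) ((hB i k).2.2 w))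

lemma Bd.zero {ι κ : Type} (mi : ι → ℤ) (mk : κ → ℤ) (D : ℕ) :
    Bd mi mk D 0 (0 : Matrix ι κ K) := by
  intro i k
  refine ⟨?_, fun _ => rfl, fun w => ?_⟩
  · simpa using isIntegral_zero
  · rw [Matrix.zero_apply, map_zero, zero_mul]

lemma Bd.sum {ι κ : Type} {mi : ι → ℤ} {mk : κ → ℤ} {D : ℕ} (s : Finset ℕ) (C : ℕ → ℝ)
    (A : ℕ → Matrix ι κ K) (hA : ∀ j ∈ s, Bd mi mk D (C j) (A j)) :
    Bd mi mk D (∑ j ∈ s, C j) (∑ j ∈ s, A j) := by
  classical
  induction s using Finset.induction_on with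
  | empty => simpa using Bd.zero mi mk D
  | insert a s ha ih =>
    rw [Finset.sum_insert ha, Finset.sum_insert ha]
    exact (hA a (mem_insert_self a s)).add (ih fun j hj => hA j (mem_insert_of_mem hj))

lemma Bd.pow {ι : Type} [Fintype ι] [DecidableEq ι] {m : ι → ℤ} {A : Matrix ι ι K}
    (hA : Bd m m 1 1 A) (j : ℕ) : Bd m m 1 ((Fintype.card ι : ℝ) ^ j) (A ^ j) := by
  induction j with
  | zero => simpa using Bd.one m
  | succ j ih =>
    have h := ih.mul hA
    rw [pow_succ, pow_succ]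
    have e : (Fintype.card ι : ℝ) * (Fintype.card ι : ℝ) ^ j * 1 =
        (Fintype.card ι : ℝ) ^ j * (Fintype.card ι : ℝ) := by ring
    rw [e] at h
    exact h

/-- Strictly raising matrices are nilpotent. -/
lemma pow_eq_zero_of_up {F : Type} [Field F] {ι : Type} [Fintype ι] [DecidableEq ι] (m : ι → ℤ)
    (n : Matrix ι ι F) (h : ∀ k l, m k ≤ m l → n k l = 0) : n ^ Fintype.card ι = 0 := by
  have key : ∀ j : ℕ, ∀ k l, (n ^ j) k l ≠ 0 →
      (univ.filter fun r => m r < m l).card + j ≤ (univ.filter fun r => m r < m k).card := by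
    intro j
    induction j with
    | zero =>
      intro k l hkl
      have : k = l := by
        by_contra hne
        exact hkl (by rw [pow_zero, Matrix.one_apply_ne hne])
      subst this; simp
    | succ j ih =>
      intro k l hkl
      rw [pow_succ, Matrix.mul_apply] at hkl
      obtain ⟨r, -, hr⟩ := Finset.exists_ne_zero_of_sum_ne_zero hkl
      have h1 := ih k r (left_ne_zero_of_mul hr)
      have h2 : m l < m r := by
        by_contra hle
        exact right_ne_zero_of_mul hr (h r l (by omega))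
      have h3 : (univ.filter fun s => m s < m l).card < (univ.filter fun s => m s < m r).card := by
        apply Finset.card_lt_card
        rw [Finset.ssubset_iff_of_subset]
        · exact ⟨l, by simpa using h2, by simp⟩
        · intro s hs
          simp only [mem_filter, mem_univ, true_and] at hs ⊢
          omega
      omega
  ext k l
  by_contra hne
  have h1 := key _ k l hne
  have h2 : (univ.filter fun r => m r < m k).card < Fintype.card ι := by
    apply Finset.card_lt_univ_of_notMem (x := k)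
    simp
  omega

/-- Inverse of a unipotent matrix. -/
lemma exists_inv {F : Type} [Field F] {ι : Type} [Fintype ι] [DecidableEq ι] (m : ι → ℤ)
    (n : Matrix ι ι F) (h : ∀ k l, m k ≤ m l → n k l = 0) :
    ∃ g : GL ι F, g.val = 1 + n ∧ (g⁻¹).val = ∑ j ∈ range (Fintype.card ι), (-n) ^ j := by
  have h0 : (-n) ^ Fintype.card ι = 0 :=
    pow_eq_zero_of_up m (-n) fun k l hkl => by rw [Matrix.neg_apply, h k l hkl, neg_zero]
  refine ⟨⟨1 + n, ∑ j ∈ range (Fintype.card ι), (-n) ^ j, ?_, ?_⟩, rfl, rfl⟩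
  · have := mul_neg_geom_sum (-n) (Fintype.card ι)
    rw [h0, sub_neg_eq_add, sub_zero] at this
    exact this
  · have := geom_sum_mul_neg (-n) (Fintype.card ι)
    rw [h0, sub_neg_eq_add, sub_zero] at this
    exact this

/-- Strictly raising matrices. -/
def Up {F : Type} [Field F] {ι : Type} (m : ι → ℤ) (n : Matrix ι ι F) : Prop :=
  ∀ k l, m k ≤ m l → n k l = 0

lemma Up.add {F : Type} [Field F] {ι : Type} {m : ι → ℤ} {A B : Matrix ι ι F} (hA : Up m A)
    (hB : Up m B) : Up m (A + B) := fun k l h => by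
  rw [Matrix.add_apply, hA k l h, hB k l h, add_zero]

lemma Up.mul {F : Type} [Field F] {ι : Type} [Fintype ι] {m : ι → ℤ} {A B : Matrix ι ι F}
    (hA : Up m A) (hB : Up m B) : Up m (A * B) := fun k l h => by
  rw [Matrix.mul_apply]
  refine Finset.sum_eq_zero fun r _ => ?_
  by_cases h1 : m k ≤ m r
  · rw [hA k r h1, zero_mul]
  · rw [hB r l (by omega), mul_zero]

lemma Up.neg {F : Type} [Field F] {ι : Type} {m : ι → ℤ} {A : Matrix ι ι F} (hA : Up m A) :
    Up m (-A) := fun k l h => by rw [Matrix.neg_apply, hA k l h, neg_zero]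

lemma up_pow_sub {F : Type} [Field F] {ι : Type} [Fintype ι] [DecidableEq ι] {m : ι → ℤ}
    {A : Matrix ι ι F} (hA : Up m A) (j : ℕ) : Up m (A ^ (j + 1)) := by
  induction j with
  | zero => simpa using hA
  | succ j ih => rw [pow_succ]; exact ih.mul hA

/-- The inverse of a unipotent matrix is unipotent. -/
lemma up_inv {F : Type} [Field F] {ι : Type} [Fintype ι] [DecidableEq ι] {m : ι → ℤ}
    {n : Matrix ι ι F} (hn : Up m n) :
    Up m ((∑ j ∈ range (Fintype.card ι), (-n) ^ j) - 1) := by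
  intro k l hkl
  rcases Nat.eq_zero_or_pos (Fintype.card ι) with h0 | h0
  · exact ((Fintype.card_eq_zero_iff.1 h0).elim k)
  · obtain ⟨c, hc⟩ : ∃ c, Fintype.card ι = c + 1 := ⟨Fintype.card ι - 1, by omega⟩
    rw [hc, Finset.sum_range_succ', pow_zero, add_sub_cancel_right]
    rw [Matrix.sum_apply]
    exact Finset.sum_eq_zero fun j _ => up_pow_sub hn.neg j k l hkl

/-- A unipotent automorphism of a stable representation is trivial. -/
lemma stab {F : Type} [Field F] (Q : Quiv) (θ : Fin Q.nv → ℤ) (hθ : dot θ Q.d = 0)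
    (m : ∀ i : Fin Q.nv, Fin (Q.d i) → ℤ) (x : Q.Rep F) (hx : Q.Stable θ x) (h : Q.Grp F)
    (hfix : Q.act h x = x) (hup : ∀ i, Up (m i) ((h i).val - 1)) : ∀ i, (h i).val = 1 := by
  by_contra hne
  push Not at hne
  obtain ⟨i0, hi0⟩ := hne
  set ν : ∀ i, Matrix (Fin (Q.d i)) (Fin (Q.d i)) F := fun i => (h i).val - 1 with hν
  have hν0 : ν i0 ≠ 0 := fun e => hi0 (sub_eq_zero.1 e)
  have hcomm : ∀ a, ν (Q.hd a) * x a = x a * ν (Q.tl a) := by
    intro a
    have e : (h (Q.hd a)).val * x a = x a * (h (Q.tl a)).val := by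
      have e1 : (h (Q.hd a)).val * x a * ((h (Q.tl a))⁻¹).val = x a := congrFun hfix a
      calc (h (Q.hd a)).val * x a
          = (h (Q.hd a)).val * x a * (((h (Q.tl a))⁻¹).val * (h (Q.tl a)).val) := by
            rw [← Units.val_mul, inv_mul_cancel, Units.val_one, Matrix.mul_one]
        _ = x a * (h (Q.tl a)).val := by rw [← Matrix.mul_assoc, e1]
    simp only [hν]
    rw [Matrix.sub_mul, Matrix.mul_sub, e, Matrix.one_mul, Matrix.mul_one]
  have hrn : ∀ i, Module.finrank F (LinearMap.range (ν i).mulVecLin) +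
      Module.finrank F (LinearMap.ker (ν i).mulVecLin) = Q.d i := by
    intro i
    have := LinearMap.finrank_range_add_finrank_ker (ν i).mulVecLin
    rwa [Module.finrank_fin_fun] at this
  set e1 : Fin Q.nv → ℕ := fun i => Module.finrank F (LinearMap.ker (ν i).mulVecLin) with he1
  set e2 : Fin Q.nv → ℕ := fun i => Module.finrank F (LinearMap.range (ν i).mulVecLin) with he2
  have hs1 : Q.HasSub x e1 := by
    refine ⟨fun i => LinearMap.ker (ν i).mulVecLin, fun i => rfl, fun a u hu => ?_⟩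
    rw [LinearMap.mem_ker, Matrix.mulVecLin_apply] at hu ⊢
    rw [Matrix.mulVec_mulVec, hcomm, ← Matrix.mulVec_mulVec, hu, Matrix.mulVec_zero]
  have hs2 : Q.HasSub x e2 := by
    refine ⟨fun i => LinearMap.range (ν i).mulVecLin, fun i => rfl, fun a u hu => ?_⟩
    obtain ⟨v, hv⟩ := hu
    rw [Matrix.mulVecLin_apply] at hv
    refine ⟨(x a).mulVec v, ?_⟩
    rw [Matrix.mulVecLin_apply, Matrix.mulVec_mulVec, hcomm, ← Matrix.mulVec_mulVec, hv]
  have h1 : 1 ≤ e1 i0 := by
    by_contra hlt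
    have h0 : Module.finrank F (LinearMap.ker (ν i0).mulVecLin) = 0 := by
      have : e1 i0 = 0 := by omega
      exact this
    have hbot := Submodule.finrank_eq_zero.1 h0
    -- the index type is nonempty
    have hne : Nonempty (Fin (Q.d i0)) := by
      by_contra hemp
      rw [not_nonempty_iff] at hemp
      apply hν0
      ext k
      exact hemp.elim k
    obtain ⟨l, hl⟩ := Finite.exists_max (m i0)
    have hker : (Pi.single l (1 : F) : Fin (Q.d i0) → F) ∈ LinearMap.ker (ν i0).mulVecLin := by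
      rw [LinearMap.mem_ker, Matrix.mulVecLin_apply]
      ext k
      rw [Matrix.mulVec_single_one]
      exact hup i0 k l (hl k)
    rw [hbot, Submodule.mem_bot] at hker
    have := congrFun hker l
    simp at this
  have h2 : 1 ≤ e2 i0 := by
    by_contra hlt
    have h0 : Module.finrank F (LinearMap.range (ν i0).mulVecLin) = 0 := by
      have : e2 i0 = 0 := by omega
      exact this
    have hbot := Submodule.finrank_eq_zero.1 h0
    rw [LinearMap.range_eq_bot] at hbot
    apply hν0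
    ext k l
    have := congrFun (LinearMap.congr_fun hbot (Pi.single l (1 : F))) k
    rw [Matrix.mulVecLin_apply, Matrix.mulVec_single_one] at this
    exact this
  have hi := hrn i0
  have hp1 : 0 < dot θ e1 := by
    refine hx e1 hs1 (fun h0 => ?_) (fun hd => ?_)
    · rw [h0] at h1; simp at h1
    · have : e1 i0 = Q.d i0 := congrFun hd i0
      change e2 i0 + e1 i0 = Q.d i0 at hi
      omega
  have hp2 : 0 < dot θ e2 := by
    refine hx e2 hs2 (fun h0 => ?_) (fun hd => ?_)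
    · rw [h0] at h2; simp at h2
    · have : e2 i0 = Q.d i0 := congrFun hd i0
      change e2 i0 + e1 i0 = Q.d i0 at hi
      omega
  have hsum : dot θ e1 + dot θ e2 = dot θ Q.d := by
    unfold dot
    rw [← Finset.sum_add_distrib]
    refine Finset.sum_congr rfl fun i _ => ?_
    have hi' : e2 i + e1 i = Q.d i := hrn i
    rw [← hi']; push_cast; ring
  omega

/-- The indices of the parameters of the unipotent elements. -/
abbrev Par (Q : Quiv) : Type := Σ i : Fin Q.nv, Fin (Q.d i) × Fin (Q.d i)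

/-- The matrices given by the parameters. -/
def nm (Q : Quiv) (p : Par Q → 𝓞 K) (i : Fin Q.nv) : Matrix (Fin (Q.d i)) (Fin (Q.d i)) K :=
  fun k l => (p ⟨i, (k, l)⟩ : K)

/-- Admissible parameters. -/
def Adm (Q : Quiv) (m : ∀ i : Fin Q.nv, Fin (Q.d i) → ℤ) (p : Par Q → 𝓞 K) : Prop :=
  ∀ c : Par Q, (m c.1 c.2.1 ≤ m c.1 c.2.2 → p c = 0) ∧ ∀ w : InfinitePlace K,
    w (p c : K) ≤ Real.exp (((m c.1 c.2.1 - m c.1 c.2.2 : ℤ) : ℝ) / Module.finrank ℚ K)

lemma Adm.up {Q : Quiv} {m : ∀ i : Fin Q.nv, Fin (Q.d i) → ℤ} {p : Par Q → 𝓞 K}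
    (h : Adm Q m p) (i : Fin Q.nv) : Up (m i) (nm Q p i) := fun k l hkl => by
  have := (h ⟨i, (k, l)⟩).1 hkl
  simp only [nm, this]
  simp

lemma Adm.bd {Q : Quiv} {m : ∀ i : Fin Q.nv, Fin (Q.d i) → ℤ} {p : Par Q → 𝓞 K}
    (h : Adm Q m p) (i : Fin Q.nv) : Bd (m i) (m i) 1 1 (nm Q p i) := fun k l => by
  refine ⟨?_, fun hkl => h.up i k l hkl.le, fun w => ?_⟩
  · rw [Nat.cast_one, one_mul]
    exact (p ⟨i, (k, l)⟩).2
  · rw [one_mul]
    exact (h ⟨i, (k, l)⟩).2 w

lemma exists_grp (Q : Quiv) (m : ∀ i : Fin Q.nv, Fin (Q.d i) → ℤ) (p : Par Q → 𝓞 K) :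
    ∃ g : Q.Grp K, Adm Q m p → ∀ i, (g i).val = 1 + nm Q p i ∧
      ((g i)⁻¹).val = ∑ j ∈ range (Fintype.card (Fin (Q.d i))), (-nm Q p i) ^ j := by
  by_cases h : Adm Q m p
  · choose g hg using fun i => exists_inv (m i) (nm Q p i) (h.up i)
    exact ⟨g, fun _ i => hg i⟩
  · exact ⟨1, fun h' => absurd h' h⟩

/-- The constant for the arrow `a`. -/
noncomputable def cst (Q : Quiv) (C : ℝ) (a : Fin Q.na) : ℝ :=
  Fintype.card (Fin (Q.d (Q.tl a))) * (Fintype.card (Fin (Q.d (Q.hd a))) * (1 + 1) * C) *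
    ∑ j ∈ range (Fintype.card (Fin (Q.d (Q.tl a)))), (Fintype.card (Fin (Q.d (Q.tl a))) : ℝ) ^ j

lemma bd_act {Q : Quiv} {m : ∀ i : Fin Q.nv, Fin (Q.d i) → ℤ} {p : Par Q → 𝓞 K}
    (h : Adm Q m p) {g : Q.Grp K} (hg : ∀ i, (g i).val = 1 + nm Q p i ∧
      ((g i)⁻¹).val = ∑ j ∈ range (Fintype.card (Fin (Q.d i))), (-nm Q p i) ^ j)
    {x : Q.Rep K} {D : ℕ} {C : ℝ}
    (hx : ∀ a, Bd (m (Q.hd a)) (m (Q.tl a)) D C (x a)) (a : Fin Q.na) :
    Bd (m (Q.hd a)) (m (Q.tl a)) D (cst Q C a) (Q.act g x a) := by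
  have h1 : Bd (m (Q.hd a)) (m (Q.hd a)) 1 (1 + 1) (g (Q.hd a)).val := by
    rw [(hg _).1]; exact (Bd.one _).add (h.bd _)
  have h2 : Bd (m (Q.tl a)) (m (Q.tl a)) 1
      (∑ j ∈ range (Fintype.card (Fin (Q.d (Q.tl a)))),
        (Fintype.card (Fin (Q.d (Q.tl a))) : ℝ) ^ j) ((g (Q.tl a))⁻¹).val := by
    rw [(hg _).2]
    exact Bd.sum _ _ _ fun j _ => (h.bd _).neg.pow j
  have h3 := (h1.mul (hx a)).mul h2
  rw [one_mul, mul_one] at h3
  exact h3

open Classical in
/-- The unipotent elements act freely and the orbits are disjoint. -/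
lemma inj_act {Q : Quiv} {θ : Fin Q.nv → ℤ} (hθ : dot θ Q.d = 0)
    {m : ∀ i : Fin Q.nv, Fin (Q.d i) → ℤ} {g : (Par Q → 𝓞 K) → Q.Grp K}
    (hg : ∀ p, Adm Q m p → ∀ i, (g p i).val = 1 + nm Q p i ∧
      ((g p i)⁻¹).val = ∑ j ∈ range (Fintype.card (Fin (Q.d i))), (-nm Q p i) ^ j)
    {x y : Q.Rep K} (hx : Q.Stable θ x) (hxy : (∃ g : Q.Grp K, y = Q.act g x) → x = y)
    {p q : Par Q → 𝓞 K} (hp : Adm Q m p) (hq : Adm Q m q)
    (e : Q.act (g p) x = Q.act (g q) y) : x = y ∧ p = q := by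
  have e1 : y = Q.act ((g q)⁻¹ * g p) x := by
    rw [Q.act_mul, e, ← Q.act_mul, inv_mul_cancel, Q.act_one]
  have e2 := hxy ⟨_, e1⟩
  subst e2
  refine ⟨rfl, ?_⟩
  have h1 := stab Q θ hθ m x hx ((g q)⁻¹ * g p) e1.symm ?_
  · have h2 : ∀ i, nm Q p i = nm Q q i := by
      intro i
      have h3 := h1 i
      have h4 : ((g q i)⁻¹ * g p i) = 1 := Units.ext h3
      have h5 : g p i = g q i := by
        have := congrArg (fun z => g q i * z) h4
        simpa using this
      have h6 : (g p i).val = (g q i).val := by rw [h5]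
      rw [(hg p hp i).1, (hg q hq i).1] at h6
      exact add_left_cancel h6
    funext c
    have := congrFun (congrFun (h2 c.1) c.2.1) c.2.2
    simp only [nm] at this
    exact_mod_cast this
  · intro i
    have e3 : (((g q)⁻¹ * g p) i).val - 1 =
        ((((g q i)⁻¹).val - 1) + nm Q p i) + (((g q i)⁻¹).val - 1) * nm Q p i := by
      have : (((g q)⁻¹ * g p) i).val = ((g q i)⁻¹).val * (g p i).val := rfl
      rw [this, (hg p hp i).1]
      noncomm_ring
    rw [e3]
    have h4 : Up (m i) (((g q i)⁻¹).val - 1) := by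
      rw [(hg q hq i).2]
      exact up_inv (hq.up i)
    exact (h4.add (hp.up i)).add (h4.mul (hp.up i))

end Pool.QM.Cell

namespace Pool.QM

open Finset NumberField Cell

open Classical in
theorem cell_proof (hUp : Stmt_BoxUp) (hLow : Stmt_BoxLow) : Stmt_Cell := by
  intro K _ _ Q C D hD
  have hup : ∀ c : Q.Coord, ∃ C' : ℝ, 1 ≤ C' ∧
      ∀ r : ℝ, 0 ≤ r → ∀ S : Finset K, (∀ z ∈ S, IsIntegral ℤ ((D : K) * z) ∧
        ∀ w : InfinitePlace K, w z ≤ cst Q C c.1 * Real.exp (r / Module.finrank ℚ K)) →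
        (S.card : ℝ) ≤ C' * Real.exp r := fun c => hUp K (cst Q C c.1) D hD
  choose C4 hC4 hcnt using hup
  obtain ⟨c0, hc0, hlow⟩ := hLow K
  choose! Sb hSb hSb2 using hlow
  set c1 := min c0 1 with hc1
  have hc1pos : 0 < c1 := lt_min hc0 one_pos
  have hc1le : c1 ≤ 1 := min_le_right _ _
  have hc1le' : c1 ≤ c0 := min_le_left _ _
  refine ⟨max 1 ((∏ c : Q.Coord, C4 c) / c1 ^ Fintype.card (Par Q)), le_max_left _ _, ?_⟩
  intro θ hθ m S hiso hS
  have hSbd : ∀ x ∈ S, ∀ a, Bd (m (Q.hd a)) (m (Q.tl a)) D C (x a) := by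
    intro x hx a i j
    obtain ⟨-, h1, h2, h3⟩ := hS x hx
    exact ⟨h1 a i j, h2 a i j, fun w => h3 w a i j⟩
  -- the unipotent elements
  let B : Par Q → Finset (𝓞 K) := fun c =>
    if m c.1 c.2.2 < m c.1 c.2.1 then Sb ((m c.1 c.2.1 - m c.1 c.2.2 : ℤ) : ℝ) else {0}
  let N : Finset (Par Q → 𝓞 K) := Fintype.piFinset B
  have hr : ∀ c : Par Q, m c.1 c.2.2 < m c.1 c.2.1 →
      (0 : ℝ) ≤ ((m c.1 c.2.1 - m c.1 c.2.2 : ℤ) : ℝ) := by
    intro c hc
    exact_mod_cast (by omega : (0 : ℤ) ≤ m c.1 c.2.1 - m c.1 c.2.2)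
  have hN : ∀ p ∈ N, Adm Q m p := by
    intro p hp c
    have hpc : p c ∈ B c := Fintype.mem_piFinset.1 hp c
    by_cases hc : m c.1 c.2.2 < m c.1 c.2.1
    · have : p c ∈ Sb ((m c.1 c.2.1 - m c.1 c.2.2 : ℤ) : ℝ) := by
        simpa only [B, if_pos hc] using hpc
      exact ⟨fun h => absurd h (by omega), fun w => hSb2 _ (hr c hc) _ this w⟩
    · have : p c = 0 := by
        have h := hpc
        simp only [B, if_neg hc, mem_singleton] at h
        exact h
      refine ⟨fun _ => this, fun w => ?_⟩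
      rw [this]
      have : w ((0 : 𝓞 K) : K) = 0 := by simp
      rw [this]; positivity
  have hcardB : ∀ c : Par Q,
      c1 * Real.exp ((max 0 (m c.1 c.2.1 - m c.1 c.2.2) : ℤ) : ℝ) ≤ ((B c).card : ℝ) := by
    intro c
    by_cases hc : m c.1 c.2.2 < m c.1 c.2.1
    · have e : max 0 (m c.1 c.2.1 - m c.1 c.2.2) = m c.1 c.2.1 - m c.1 c.2.2 :=
        max_eq_right (by omega)
      rw [e]
      have h1 := hSb _ (hr c hc)
      have h2 : B c = Sb ((m c.1 c.2.1 - m c.1 c.2.2 : ℤ) : ℝ) := by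
        simp only [B, if_pos hc]
      rw [h2]
      refine le_trans ?_ h1
      exact mul_le_mul_of_nonneg_right hc1le' (Real.exp_pos _).le
    · have e : max 0 (m c.1 c.2.1 - m c.1 c.2.2) = 0 := max_eq_left (by omega)
      rw [e]
      have h2 : B c = {0} := by simp only [B, if_neg hc]
      rw [h2]
      simp [hc1le]
  have hcardN : c1 ^ Fintype.card (Par Q) *
      Real.exp ((∑ i, ∑ k, ∑ l, max 0 (m i k - m i l) : ℤ) : ℝ) ≤ (N.card : ℝ) := by
    have h1 : (N.card : ℝ) = ∏ c : Par Q, ((B c).card : ℝ) := by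
      rw [Fintype.card_piFinset, Nat.cast_prod]
    have h2 : (∑ i, ∑ k, ∑ l, max 0 (m i k - m i l) : ℤ) =
        ∑ c : Par Q, max 0 (m c.1 c.2.1 - m c.1 c.2.2) := by
      rw [Fintype.sum_sigma]
      refine Finset.sum_congr rfl fun i _ => ?_
      rw [Fintype.sum_prod_type]
    rw [h1, h2]
    calc c1 ^ Fintype.card (Par Q) *
        Real.exp ((∑ c : Par Q, max 0 (m c.1 c.2.1 - m c.1 c.2.2) : ℤ) : ℝ)
        = ∏ c : Par Q, (c1 * Real.exp ((max 0 (m c.1 c.2.1 - m c.1 c.2.2) : ℤ) : ℝ)) := by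
          rw [Finset.prod_mul_distrib, Finset.prod_const, Finset.card_univ, ← Real.exp_sum]
          push_cast; rfl
      _ ≤ ∏ c : Par Q, ((B c).card : ℝ) :=
          Finset.prod_le_prod (fun c _ => by positivity) fun c _ => hcardB c
  choose g hg using exists_grp (K := K) Q m
  -- the map
  let Φ : Q.Rep K × (Par Q → 𝓞 K) → (Q.Coord → K) := fun z c =>
    Q.act (g z.2) z.1 c.1 c.2.1 c.2.2
  have hinj : Set.InjOn Φ ↑(S ×ˢ N) := by
    intro z hz z' hz' e
    simp only [coe_product, Set.mem_prod, mem_coe] at hz hz'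
    have e1 : Q.act (g z.2) z.1 = Q.act (g z'.2) z'.1 := by
      funext a
      ext i j
      exact congrFun e ⟨a, (i, j)⟩
    obtain ⟨h1, h2⟩ := inj_act hθ hg (hS z.1 hz.1).1 (hiso z.1 hz.1 z'.1 hz'.1)
      (hN _ hz.2) (hN _ hz'.2) e1
    exact Prod.ext h1 h2
  set Y := (S ×ˢ N).image Φ with hY
  have hcardY : Y.card = S.card * N.card := by
    rw [hY, Finset.card_image_of_injOn hinj, Finset.card_product]
  have hYsub : Y ⊆ Fintype.piFinset (fun c : Q.Coord => Y.image fun y => y c) := by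
    intro y hy
    rw [Fintype.mem_piFinset]
    exact fun c => Finset.mem_image_of_mem _ hy
  have hYc : ∀ c : Q.Coord, ((Y.image fun y => y c).card : ℝ) ≤
      C4 c * Real.exp ((max 0 (m (Q.hd c.1) c.2.1 - m (Q.tl c.1) c.2.2) : ℤ) : ℝ) := by
    intro c
    have hmem : ∀ z ∈ Y.image (fun y => y c), IsIntegral ℤ ((D : K) * z) ∧
        (m (Q.hd c.1) c.2.1 < m (Q.tl c.1) c.2.2 → z = 0) ∧ ∀ w : InfinitePlace K,
        w z ≤ cst Q C c.1 *
          Real.exp (((m (Q.hd c.1) c.2.1 - m (Q.tl c.1) c.2.2 : ℤ) : ℝ) /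
            Module.finrank ℚ K) := by
      intro z hz
      obtain ⟨y, hy, rfl⟩ := Finset.mem_image.1 hz
      obtain ⟨u, hu, rfl⟩ := Finset.mem_image.1 hy
      rw [Finset.mem_product] at hu
      exact bd_act (hN _ hu.2) (hg _ (hN _ hu.2)) (hSbd _ hu.1) c.1 c.2.1 c.2.2
    by_cases hc : m (Q.hd c.1) c.2.1 < m (Q.tl c.1) c.2.2
    · have h1 : Y.image (fun y => y c) ⊆ {0} := by
        intro z hz
        rw [mem_singleton]
        exact (hmem z hz).2.1 hc
      have h2 : ((Y.image fun y => y c).card : ℝ) ≤ 1 := by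
        exact_mod_cast (Finset.card_le_card h1).trans (by simp)
      have e : max 0 (m (Q.hd c.1) c.2.1 - m (Q.tl c.1) c.2.2) = 0 := max_eq_left (by omega)
      rw [e]
      simpa using h2.trans (hC4 c)
    · have e : max 0 (m (Q.hd c.1) c.2.1 - m (Q.tl c.1) c.2.2) =
          m (Q.hd c.1) c.2.1 - m (Q.tl c.1) c.2.2 := max_eq_right (by omega)
      rw [e]
      refine hcnt c _ ?_ _ fun z hz => ⟨(hmem z hz).1, (hmem z hz).2.2⟩
      exact_mod_cast (by omega : (0 : ℤ) ≤ m (Q.hd c.1) c.2.1 - m (Q.tl c.1) c.2.2)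
  have hYup : (Y.card : ℝ) ≤ (∏ c : Q.Coord, C4 c) *
      Real.exp ((∑ a, ∑ i, ∑ j, max 0 (m (Q.hd a) i - m (Q.tl a) j) : ℤ) : ℝ) := by
    have h1 : (Y.card : ℝ) ≤ ∏ c : Q.Coord, ((Y.image fun y => y c).card : ℝ) := by
      have := Finset.card_le_card hYsub
      rw [Fintype.card_piFinset] at this
      exact_mod_cast this
    refine h1.trans ?_
    have h2 : (∑ a, ∑ i, ∑ j, max 0 (m (Q.hd a) i - m (Q.tl a) j) : ℤ) =
        ∑ c : Q.Coord, max 0 (m (Q.hd c.1) c.2.1 - m (Q.tl c.1) c.2.2) := by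
      rw [Fintype.sum_sigma]
      refine Finset.sum_congr rfl fun a _ => ?_
      rw [Fintype.sum_prod_type]
    rw [h2]
    calc ∏ c : Q.Coord, ((Y.image fun y => y c).card : ℝ)
        ≤ ∏ c : Q.Coord, (C4 c *
          Real.exp ((max 0 (m (Q.hd c.1) c.2.1 - m (Q.tl c.1) c.2.2) : ℤ) : ℝ)) :=
          Finset.prod_le_prod (fun c _ => by positivity) fun c _ => hYc c
      _ = _ := by
          rw [Finset.prod_mul_distrib, ← Real.exp_sum]
          push_cast; rfl
  -- conclusion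
  set E1 : ℝ := ((∑ a, ∑ i, ∑ j, max 0 (m (Q.hd a) i - m (Q.tl a) j) : ℤ) : ℝ) with hE1
  set E2 : ℝ := ((∑ i, ∑ k, ∑ l, max 0 (m i k - m i l) : ℤ) : ℝ) with hE2
  have hexpo : ((expo Q m : ℤ) : ℝ) = E1 - E2 := by
    rw [hE1, hE2, ← Int.cast_sub]; rfl
  have hfin : (S.card : ℝ) * (c1 ^ Fintype.card (Par Q) * Real.exp E2) ≤
      (∏ c : Q.Coord, C4 c) * Real.exp E1 := by
    calc (S.card : ℝ) * (c1 ^ Fintype.card (Par Q) * Real.exp E2)
        ≤ (S.card : ℝ) * N.card := by gcongr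
      _ = (Y.card : ℝ) := by rw [hcardY]; push_cast; ring
      _ ≤ _ := hYup
  have hpos : 0 < c1 ^ Fintype.card (Par Q) := pow_pos hc1pos _
  rw [hexpo, Real.exp_sub]
  calc (S.card : ℝ) = (S.card : ℝ) * (c1 ^ Fintype.card (Par Q) * Real.exp E2) /
        (c1 ^ Fintype.card (Par Q) * Real.exp E2) := by
        field_simp
    _ ≤ ((∏ c : Q.Coord, C4 c) * Real.exp E1) /
        (c1 ^ Fintype.card (Par Q) * Real.exp E2) := by gcongr
    _ = ((∏ c : Q.Coord, C4 c) / c1 ^ Fintype.card (Par Q)) * (Real.exp E1 / Real.exp E2) := by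
        field_simp
    _ ≤ max 1 ((∏ c : Q.Coord, C4 c) / c1 ^ Fintype.card (Par Q)) *
        (Real.exp E1 / Real.exp E2) := by
        gcongr
        exact le_max_right _ _

end Pool.QM
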