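import Mathlib
import Pool.Agent.QM.Stmts

set_option autoImplicit false

namespace Pool.QM

open Finset

namespace Cluster

lemma step {ι : Type} [DecidableEq ι] (m : ι → ℤ) (C : ℕ) (s : Finset ι) :
    ∃ m' : ι → ℤ, (∀ j ∈ s, |m j - m' j| ≤ s.card * C) ∧
      (∀ j ∈ s, ∀ j' ∈ s, m' j < m' j' → m j + C < m j') ∧ ∀ j ∈ s, m' j ≤ m j := by
  induction s using Finset.induction_on_max_value m with
  | empty => exact ⟨m, by simp, by simp, by simp⟩
  | insert a s ha hmax ih =>
    obtain ⟨m', h1, h2, h3⟩ := ih
    have hcard : ((insert a s).card : ℤ) = s.card + 1 := by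
      rw [Finset.card_insert_of_notMem ha]; push_cast; ring
    have hC : (0 : ℤ) ≤ C := Int.natCast_nonneg C
    have hcs : (0 : ℤ) ≤ s.card := Int.natCast_nonneg _
    have hne : ∀ j ∈ s, j ≠ a := fun j hj h => ha (h ▸ hj)
    -- the general step: the new value `c`
    have key : ∀ c : ℤ, |m a - c| ≤ (s.card + 1) * C → (∀ j ∈ s, m' j < c → m j + C < m a) →
        (∀ j ∈ s, ¬ c < m' j) → c ≤ m a →
        ∃ m' : ι → ℤ, (∀ j ∈ insert a s, |m j - m' j| ≤ (insert a s).card * C) ∧
          (∀ j ∈ insert a s, ∀ j' ∈ insert a s, m' j < m' j' → m j + C < m j') ∧
          ∀ j ∈ insert a s, m' j ≤ m j := by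
      intro c k1 k2 k3 k4
      refine ⟨Function.update m' a c, ?_, ?_, ?_⟩
      · intro j hj
        rw [hcard]
        rcases Finset.mem_insert.mp hj with rfl | hj
        · rw [Function.update_self]; exact k1
        · rw [Function.update_of_ne (hne j hj)]
          refine (h1 j hj).trans ?_
          nlinarith
      · intro j hj j' hj' hlt
        rcases Finset.mem_insert.mp hj with hja | hjs
        · rcases Finset.mem_insert.mp hj' with hja' | hjs'
          · rw [hja, hja'] at hlt
            exact absurd hlt (lt_irrefl _)
          · rw [hja, Function.update_self, Function.update_of_ne (hne j' hjs')] at hlt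
            exact absurd hlt (k3 j' hjs')
        · rcases Finset.mem_insert.mp hj' with hja' | hjs'
          · rw [hja', Function.update_self, Function.update_of_ne (hne j hjs)] at hlt
            rw [hja']
            exact k2 j hjs hlt
          · rw [Function.update_of_ne (hne j hjs), Function.update_of_ne (hne j' hjs')] at hlt
            exact h2 j hjs j' hjs' hlt
      · intro j hj
        rcases Finset.mem_insert.mp hj with rfl | hj
        · rw [Function.update_self]; exact k4
        · rw [Function.update_of_ne (hne j hj)]; exact h3 j hj
    rcases s.eq_empty_or_nonempty with he | hs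
    · subst he
      exact key (m a) (by simp) (by simp) (by simp) le_rfl
    · obtain ⟨b, hb, hbm⟩ := Finset.exists_max_image s m hs
      by_cases hab : m a ≤ m b + C
      · refine key (m' b) ?_ ?_ ?_ ?_
        · have k1 := h1 b hb
          rw [abs_le] at k1 ⊢
          have k2 := hmax b hb
          constructor <;> nlinarith [k1.1, k1.2]
        · intro j hj hlt
          have := h2 j hj b hb hlt
          have k2 := hmax b hb
          linarith
        · intro j hj hlt
          have := h2 b hb j hj hlt
          have k2 := hbm j hj
          linarith
        · exact (h3 b hb).trans (hmax b hb)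
      · push Not at hab
        refine key (m a) ?_ ?_ ?_ le_rfl
        · simp only [sub_self, abs_zero]; positivity
        · intro j hj _
          have k2 := hbm j hj
          linarith
        · intro j hj hlt
          have k2 := hbm j hj
          have k3 := h3 j hj
          linarith

end Cluster

theorem cluster_proof : Stmt_Cluster := by
  classical
  intro ι _ m C
  obtain ⟨m', h1, h2, -⟩ := Cluster.step m C (Finset.univ : Finset ι)
  exact ⟨m', fun j => by simpa using h1 j (Finset.mem_univ j),
    fun j j' h => h2 j (Finset.mem_univ _) j' (Finset.mem_univ _) h⟩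

end Pool.QM
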