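import Pool.Agent.QM.Stmts
import Pool.Agent.QM.FP

set_option autoImplicit false

/-!
# DEN: a common denominator (helper46)
-/

namespace Pool.QM

open Finset NumberField

theorem den_proof : Stmt_Den := by
  classical
  intro K _ _ C
  refine ⟨(⌊max C 1⌋₊).factorial, Nat.factorial_ne_zero _, ?_⟩
  intro z hz hfin hprod v
  obtain ⟨k, hk⟩ := FP.val_pow v (hz v)
  have h1 : v (z v) ≤ C := by
    refine le_trans ?_ hprod
    have hs : (Function.mulSupport fun v : FinitePlace K => v (z v)) ⊆ (hfin.toFinset ∪ {v} : Finset _) := by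
      intro w hw
      rw [Function.mem_mulSupport] at hw
      simp only [coe_union, Set.Finite.coe_toFinset, coe_singleton, Set.mem_union]
      exact Or.inl hw
    rw [finprod_eq_prod_of_mulSupport_subset _ hs]
    have hv : v ∈ hfin.toFinset ∪ {v} := by simp
    rw [← Finset.mul_prod_erase _ _ hv]
    have h2 : 1 ≤ ∏ w ∈ (hfin.toFinset ∪ {v}).erase v, w (z w) :=
      Finset.prod_induction _ (fun x : ℝ => 1 ≤ x) (fun x y hx hy => one_le_mul_of_one_le_of_one_le hx hy)
        le_rfl fun w _ => hz w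
    have h3 : 0 ≤ v (z v) := apply_nonneg v _
    nlinarith
  have h2 : ((FP.q v ^ k : ℕ) : ℝ) ≤ max C 1 := by
    push_cast
    rw [← hk]
    exact h1.trans (le_max_left _ _)
  have h3 : FP.q v ^ k ≤ ⌊max C 1⌋₊ := Nat.le_floor h2
  have h4 : FP.q v ^ k ∣ (⌊max C 1⌋₊).factorial :=
    Nat.dvd_factorial (pow_pos (by have := FP.one_lt_q v; omega) _) h3
  obtain ⟨m, hm⟩ := h4
  rw [hm, map_mul, hk]
  push_cast
  rw [map_mul, map_pow]
  have h5 := FP.val_q_le v
  have h6 := FP.nat_le_one v m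
  have h7 := FP.q_pos v
  calc v ((FP.q v : ℕ) : K) ^ k * v (m : K) * (FP.q v : ℝ) ^ k
      ≤ ((FP.q v : ℝ)⁻¹) ^ k * 1 * (FP.q v : ℝ) ^ k := by
        gcongr
    _ = 1 := by
        rw [mul_one, ← mul_pow, inv_mul_cancel₀ h7.ne', one_pow]

end Pool.QM
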