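import Pool.Agent.QM.Stmts
import Pool.Agent.V5.Dir

/-!
DIR: Dirichlet approximation (from `Pool.V5.dir_proof`).
-/

set_option autoImplicit false

namespace Pool.QM

open Finset NumberField

theorem dir_proof : Stmt_Dir := by
  intro K _ _ ε hε
  obtain ⟨C, hC, h⟩ := Pool.V5.dir_proof K
  have hC0 : 0 < C := by linarith
  refine ⟨max 1 (C * max 1 (C / ε)), le_max_left _ _, fun b => ?_⟩
  obtain ⟨s, α, hs, h1, h2⟩ := h (fun w => w.embedding (b w)) (by
    intro v hv
    have hr : v.IsReal := by
      by_contra hn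
      rw [InfinitePlace.mult, if_neg hn] at hv
      omega
    have hc := InfinitePlace.conjugate_embedding_eq_of_isReal hr
    have h3 : (starRingEnd ℂ) (v.embedding (b v)) = v.embedding (b v) := by
      conv_rhs => rw [← hc]
      rfl
    exact Complex.conj_eq_iff_im.1 h3) (max 1 (C / ε)) (le_max_left _ _)
  refine ⟨s, α, hs, fun w => (h1 w).trans (le_max_right _ _), fun w => ?_⟩
  have h3 := h2 w
  rw [← map_mul, ← map_sub, InfinitePlace.norm_embedding_eq] at h3
  refine h3.trans ?_
  rw [div_le_iff₀ (by positivity)]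
  have h4 : C / ε ≤ max 1 (C / ε) := le_max_right _ _
  calc C = ε * (C / ε) := by field_simp
    _ ≤ ε * max 1 (C / ε) := by gcongr

end Pool.QM
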