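import Mathlib
import Pool.Agent.QM.Defs
import Pool.Agent.QM.Stmts

set_option autoImplicit false

/-!
# ELIM: moving a vector to the first axis by a bounded matrix
-/

namespace Pool.QM

open Finset NumberField Matrix

/-- ELIM -/
theorem elim_proof : Stmt_Elim := by
  intro K _ v n c hc
  obtain ⟨i, hi⟩ := Finite.exists_max fun i => v (c i)
  set z := c i with hz
  have hz0 : z ≠ 0 := by
    intro h0
    apply hc
    funext j
    have h1 := hi j
    rw [h0, map_zero] at h1
    exact v.eq_zero.1 (le_antisymm h1 (v.nonneg _))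
  have hvz : 0 < v z := v.pos hz0
  have hcz : ∀ j, v (c j / z) ≤ 1 := by
    intro j
    rw [map_div₀, div_le_one hvz]
    exact hi j
  set σ := Equiv.swap (0 : Fin (n + 1)) i with hσ
  have hσ0 : ∀ a, σ a = i ↔ a = 0 := by
    intro a
    rw [hσ]
    constructor
    · intro h
      have : Equiv.swap (0 : Fin (n + 1)) i (Equiv.swap 0 i a) = Equiv.swap 0 i i := by rw [h]
      rwa [Equiv.swap_apply_self, Equiv.swap_apply_right] at this
    · intro h
      rw [h, Equiv.swap_apply_left]
  set kM : Matrix (Fin (n + 1)) (Fin (n + 1)) K := Matrix.of fun a m =>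
    (if σ a = m then (1 : K) else 0) - (if m = i then (c (σ a) / z - if a = 0 then 1 else 0) else 0)
    with hkM
  set kI : Matrix (Fin (n + 1)) (Fin (n + 1)) K := Matrix.of fun a b =>
    if b = 0 then c a / z else if a = σ b then 1 else 0 with hkI
  have hkc : ∀ a, ∑ m, kM a m * c m = if a = 0 then z else 0 := by
    intro a
    simp only [hkM, Matrix.of_apply, sub_mul, ite_mul, one_mul, zero_mul, Finset.sum_sub_distrib,
      Finset.sum_ite_eq, Finset.sum_ite_eq', mem_univ, if_true]
    by_cases ha : a = 0
    · simp only [if_pos ha]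
      rw [(hσ0 a).2 ha, ← hz, div_self hz0]
      ring
    · simp only [if_neg ha]
      rw [← hz, div_mul_cancel₀ _ hz0]
      ring
  have hmul : kM * kI = 1 := by
    ext a b
    rw [Matrix.mul_apply]
    by_cases hb : b = 0
    · have h1 : ∀ m, kM a m * kI m b = (kM a m * c m) / z := by
        intro m
        rw [hkI, Matrix.of_apply, if_pos hb, mul_div_assoc]
      rw [Finset.sum_congr rfl fun m _ => h1 m, ← Finset.sum_div, hkc, hb, Matrix.one_apply]
      by_cases ha : a = 0
      · rw [if_pos ha, if_pos ha, div_self hz0]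
      · rw [if_neg ha, if_neg ha, zero_div]
    · have h1 : ∀ m, kM a m * kI m b = if m = σ b then kM a m else 0 := by
        intro m
        rw [hkI, Matrix.of_apply, if_neg hb]
        split_ifs <;> simp
      rw [Finset.sum_congr rfl fun m _ => h1 m, Finset.sum_ite_eq', if_pos (mem_univ _), hkM,
        Matrix.of_apply, if_neg (c := σ b = i) (fun h => hb ((hσ0 b).1 h)), sub_zero,
        Matrix.one_apply]
      by_cases hab : a = b
      · rw [hab, if_pos rfl, if_pos rfl]
      · rw [if_neg hab, if_neg (fun h => hab (σ.injective h))]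
  refine ⟨⟨kM, kI, hmul, mul_eq_one_comm.1 hmul⟩, z, hz0, ?_, hi, ⟨i, rfl⟩, ?_, ?_⟩
  · funext a
    change ∑ m, kM a m * c m = _
    rw [hkc]
    by_cases ha : a = 0
    · rw [if_pos ha, ha, Pi.single_eq_same]
    · rw [if_neg ha, Pi.single_eq_of_ne ha]
  · intro a m
    change v (kM a m) ≤ 1
    rw [hkM, Matrix.of_apply]
    by_cases hm : m = i
    · rw [if_pos hm, hm]
      by_cases ha : a = 0
      · rw [if_pos ((hσ0 a).2 ha), if_pos ha, (hσ0 a).2 ha, ← hz, div_self hz0]
        simp
      · rw [if_neg (fun h => ha ((hσ0 a).1 h)), if_neg ha, sub_zero, zero_sub, v.map_neg]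
        exact hcz _
    · rw [if_neg hm, sub_zero]
      split_ifs
      · rw [map_one]
      · rw [map_zero]
        exact zero_le_one
  · intro a m
    change v (kI a m) ≤ 1
    rw [hkI, Matrix.of_apply]
    split_ifs
    · exact hcz _
    · rw [map_one]
    · rw [map_zero]
      exact zero_le_one

end Pool.QM
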