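import Mathlib
import Pool.Agent.QM.Defs
import Pool.Agent.QM.Stmts

set_option autoImplicit false

/-!
# FRAME: a subrepresentation gives a block triangular form
-/

namespace Pool.QM.Frame

open Matrix

/-- an adapted basis -/
lemma adapted {F : Type} [Field F] {d : ℕ} (W : Submodule F (Fin d → F)) (e : ℕ)
    (he : Module.finrank F W = e) :
    e ≤ d ∧ ∃ b : Module.Basis (Fin d) F (Fin d → F), (∀ j, j.val < e → b j ∈ W) ∧
      ∀ u ∈ W, ∀ l : Fin d, e ≤ l.val → b.repr u l = 0 := by
  have hed : e ≤ d := by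
    have := Submodule.finrank_le W
    rw [he, Module.finrank_fin_fun] at this
    exact this
  refine ⟨hed, ?_⟩
  obtain ⟨W', hW'⟩ := W.exists_isCompl
  have hsum : Module.finrank F W + Module.finrank F W' = d := by
    have := Submodule.finrank_add_eq_of_isCompl hW'
    rwa [Module.finrank_fin_fun] at this
  have he' : Module.finrank F W' = d - e := by omega
  let bW : Module.Basis (Fin e) F W := Module.finBasisOfFinrankEq F W he
  let bW' : Module.Basis (Fin (d - e)) F W' := Module.finBasisOfFinrankEq F W' he'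
  let b0 : Module.Basis (Fin e ⊕ Fin (d - e)) F (Fin d → F) :=
    (bW.prod bW').map (Submodule.prodEquivOfIsCompl W W' hW')
  let ε : Fin e ⊕ Fin (d - e) ≃ Fin d := finSumFinEquiv.trans (finCongr (by omega))
  have hεl : ∀ j : Fin e, (ε (Sum.inl j)).val = j.val := fun j => rfl
  have hεr : ∀ j : Fin (d - e), (ε (Sum.inr j)).val = e + j.val := fun j => rfl
  refine ⟨b0.reindex ε, ?_, ?_⟩
  · intro j hj
    have : j = ε (Sum.inl ⟨j.val, hj⟩) := Fin.ext (by rw [hεl])
    rw [this, Module.Basis.reindex_apply, Equiv.symm_apply_apply]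
    change (Submodule.prodEquivOfIsCompl W W' hW') ((bW.prod bW') (Sum.inl _)) ∈ W
    rw [Submodule.coe_prodEquivOfIsCompl', Module.Basis.prod_apply]
    simp
  · intro u hu l hl
    have hlt : l.val - e < d - e := by have := l.2; omega
    have : l = ε (Sum.inr ⟨l.val - e, hlt⟩) := Fin.ext (by
      rw [hεr]
      change l.val = e + (l.val - e)
      omega)
    rw [this, Module.Basis.repr_reindex_apply, Equiv.symm_apply_apply]
    change ((bW.prod bW').repr ((Submodule.prodEquivOfIsCompl W W' hW').symm u)) (Sum.inr _) = 0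
    have h2 : (Submodule.prodEquivOfIsCompl W W' hW').symm u = ((⟨u, hu⟩ : W), 0) :=
      Submodule.prodEquivOfIsCompl_symm_apply_left W W' hW' (⟨u, hu⟩ : W)
    rw [h2, Module.Basis.prod_repr_inr]
    simp

/-- the matrix of an adapted basis -/
lemma adapted_GL {F : Type} [Field F] {d : ℕ} (W : Submodule F (Fin d → F)) (e : ℕ)
    (he : Module.finrank F W = e) :
    e ≤ d ∧ ∃ k : GL (Fin d) F, (∀ j : Fin d, j.val < e → k.val *ᵥ (Pi.single j 1) ∈ W) ∧
      ∀ u ∈ W, ∀ l : Fin d, e ≤ l.val → ((k⁻¹).val *ᵥ u) l = 0 := by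
  obtain ⟨hed, b, hb1, hb2⟩ := adapted W e he
  refine ⟨hed, ⟨(Pi.basisFun F (Fin d)).toMatrix b, b.toMatrix (Pi.basisFun F (Fin d)),
    Module.Basis.toMatrix_mul_toMatrix_flip _ _, Module.Basis.toMatrix_mul_toMatrix_flip _ _⟩,
    ?_, ?_⟩
  · intro j hj
    have : ((Pi.basisFun F (Fin d)).toMatrix b) *ᵥ (Pi.single j 1) = b j := by
      funext i
      rw [mulVec_single_one]
      rfl
    change ((Pi.basisFun F (Fin d)).toMatrix b) *ᵥ (Pi.single j 1) ∈ W
    rw [this]
    exact hb1 j hj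
  · intro u hu l hl
    change ((b.toMatrix (Pi.basisFun F (Fin d))) *ᵥ u) l = 0
    have h1 := Module.Basis.toMatrix_mulVec_repr (Pi.basisFun F (Fin d)) b u
    have h2 : (((Pi.basisFun F (Fin d)).repr u : Fin d →₀ F) : Fin d → F) = u := by
      funext i
      simp
    rw [h2] at h1
    rw [h1]
    exact hb2 u hu l hl

end Pool.QM.Frame

namespace Pool.QM

open Matrix

/-- FRAME -/
theorem frame_proof : Stmt_Frame := by
  intro F _ Q y e ⟨W, hW, hsub⟩
  choose hed k hk1 hk2 using fun i => Frame.adapted_GL (W i) (e i) (hW i)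
  refine ⟨hed, k, fun a i j hi hj => ?_⟩
  have h1 : Q.act k⁻¹ y a i j =
      (((k (Q.hd a))⁻¹).val *ᵥ (y a *ᵥ ((k (Q.tl a)).val *ᵥ (Pi.single j 1)))) i := by
    rw [mulVec_mulVec, mulVec_mulVec, mulVec_single_one]
    have : ((k⁻¹ (Q.tl a))⁻¹).val = (k (Q.tl a)).val := by
      rw [Pi.inv_apply, inv_inv]
    unfold Quiv.act
    rw [this, Pi.inv_apply]
    rw [Matrix.mul_assoc]
    rfl
  rw [h1]
  exact hk2 _ _ (hsub a _ (hk1 _ j hj)) i hi

end Pool.QM
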