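import Pool.Agent.QM.Stmts

set_option autoImplicit false

/-!
# GENP: a dimension count for representations with a subrepresentation of dimension vector `e`
-/

namespace Pool.QM.GenP

open Finset

/-- A subspace is a graph over a coordinate subspace. -/
lemma exists_coord {F : Type} [Field F] {n : ℕ} (W : Submodule F (Fin n → F)) :
    ∃ J : Finset (Fin n), J.card = Module.finrank F W ∧
      ∃ Z : Matrix (Fin n) (Fin n) F,
        (∀ i j, ¬ (i ∉ J ∧ j ∈ J) → Z i j = 0) ∧
        (∀ j ∈ J, (fun i => (1 + Z) i j) ∈ W) ∧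
        (∀ w ∈ W, ∀ i, i ∉ J → ((1 - Z).mulVec w) i = 0) := by
  classical
  set v : Fin n → (Fin n → F) ⧸ W := fun j => W.mkQ (Pi.single j 1) with hv
  obtain ⟨κ, a, ha, hs, hl⟩ := exists_linearIndependent' F v
  have : Finite κ := Finite.of_injective a ha
  have : Fintype κ := Fintype.ofFinite κ
  have hspan : ∀ j, v j ∈ Submodule.span F (Set.range (v ∘ a)) := by
    intro j; rw [hs]; exact Submodule.subset_span ⟨j, rfl⟩
  have htop : Submodule.span F (Set.range (v ∘ a)) = ⊤ := by
    rw [hs, eq_top_iff]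
    intro y _
    obtain ⟨w, rfl⟩ := W.mkQ_surjective y
    have : w = ∑ j, w j • (Pi.single j 1 : Fin n → F) := by
      funext i
      simp [Finset.sum_apply, Pi.single_apply]
    rw [this, map_sum]
    refine Submodule.sum_mem _ fun j _ => ?_
    rw [map_smul]
    exact Submodule.smul_mem _ _ (Submodule.subset_span ⟨j, rfl⟩)
  have hcard : Fintype.card κ = Module.finrank F ((Fin n → F) ⧸ W) := by
    rw [← finrank_top F ((Fin n → F) ⧸ W), ← htop]
    exact (finrank_span_eq_card hl).symm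
  set J : Finset (Fin n) := (univ.image a)ᶜ with hJ
  have hJmem : ∀ j, j ∉ J ↔ ∃ k, a k = j := by
    intro j; simp [hJ]
  have hJcard : J.card = Module.finrank F W := by
    rw [hJ, card_compl, card_image_of_injective _ ha, Fintype.card_fin, card_univ, hcard]
    have := Submodule.finrank_quotient_add_finrank W
    rw [Module.finrank_fin_fun] at this
    omega
  have hc : ∀ j, ∃ c : κ → F, ∑ k, c k • v (a k) = v j := by
    intro j
    have := hspan j
    rw [Submodule.mem_span_range_iff_exists_fun] at this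
    exact this
  choose c hc using hc
  set Z : Matrix (Fin n) (Fin n) F := fun i j => if j ∈ J then
    - ∑ k, (if a k = i then c j k else 0) else 0 with hZ
  have hZ0 : ∀ i j, ¬ (i ∉ J ∧ j ∈ J) → Z i j = 0 := by
    intro i j hij
    simp only [hZ]
    split_ifs with h
    · have hi : i ∈ J := by by_contra hi; exact hij ⟨hi, h⟩
      rw [neg_eq_zero]
      refine Finset.sum_eq_zero fun k _ => ?_
      rw [if_neg]
      intro hk
      exact (hJmem i).2 ⟨k, hk⟩ hi
    · rfl
  have hW : ∀ j ∈ J, (fun i => (1 + Z) i j) ∈ W := by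
    intro j hj
    rw [← Submodule.ker_mkQ W, LinearMap.mem_ker]
    have h1 : (fun i => (1 + Z) i j) = (Pi.single j 1 : Fin n → F) -
        ∑ k, c j k • (Pi.single (a k) 1 : Fin n → F) := by
      funext i
      have h2 : (1 + Z) i j = (1 : Matrix (Fin n) (Fin n) F) i j + Z i j := rfl
      have h3 : Z i j = - ∑ k, (if a k = i then c j k else 0) := by
        simp only [hZ]; rw [if_pos hj]
      rw [h2, h3, Matrix.one_apply]
      simp only [Pi.sub_apply, Finset.sum_apply, Pi.smul_apply,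
        Pi.single_apply, smul_eq_mul, mul_ite, mul_one, mul_zero]
      rw [sub_eq_add_neg]
      congr 2
      exact Finset.sum_congr rfl fun k _ => by simp only [eq_comm (a := i) (b := a k)]
    rw [h1, map_sub, map_sum]
    simp only [map_smul]
    have := hc j
    simp only [hv] at this
    rw [this, sub_self]
  refine ⟨J, hJcard, Z, hZ0, hW, ?_⟩
  intro w hw i hi
  set u : Fin n → F := w - ∑ j ∈ J, w j • (fun i => (1 + Z) i j) with hu
  have huW : u ∈ W := by
    refine W.sub_mem hw (W.sum_mem fun j hj => W.smul_mem _ (hW j hj))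
  have hui : ∀ i, u i = w i - ∑ j ∈ J, w j * ((1 : Matrix (Fin n) (Fin n) F) i j + Z i j) := by
    intro i
    simp [hu, Finset.sum_apply]
  have hu1 : ∀ i, u i = w i - (if i ∈ J then w i else 0) - ∑ j ∈ J, w j * Z i j := by
    intro i
    rw [hui]
    simp only [mul_add, Finset.sum_add_distrib, Matrix.one_apply, mul_ite, mul_one, mul_zero]
    rw [Finset.sum_ite_eq J i w]
    ring
  have huJ : ∀ i ∈ J, u i = 0 := by
    intro i hi
    rw [hu1, if_pos hi, sub_self, zero_sub, neg_eq_zero]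
    refine Finset.sum_eq_zero fun j _ => ?_
    rw [hZ0 i j (fun h => h.1 hi), mul_zero]
  have husum : u = ∑ k, u (a k) • (Pi.single (a k) 1 : Fin n → F) := by
    funext i
    simp only [Finset.sum_apply, Pi.smul_apply, Pi.single_apply, smul_eq_mul, mul_ite, mul_one,
      mul_zero]
    by_cases hi : i ∈ J
    · rw [huJ i hi]
      symm
      refine Finset.sum_eq_zero fun k _ => ?_
      rw [if_neg]
      intro h
      exact (hJmem i).2 ⟨k, h.symm⟩ hi
    · obtain ⟨k, hk⟩ := (hJmem i).1 hi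
      rw [Finset.sum_eq_single k]
      · rw [if_pos hk.symm, hk]
      · intro b _ hb
        rw [if_neg]
        intro h
        exact hb (ha (by rw [← h, hk]))
      · intro h; exact absurd (mem_univ _) h
  have hu0 : ∑ k, u (a k) • (v ∘ a) k = 0 := by
    have : W.mkQ u = 0 := by
      rw [← LinearMap.mem_ker, Submodule.ker_mkQ]; exact huW
    rw [husum, map_sum] at this
    simp only [map_smul] at this
    exact this
  have hk0 : ∀ k, u (a k) = 0 := by
    have := Fintype.linearIndependent_iff.1 hl (fun k => u (a k)) hu0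
    exact this
  obtain ⟨k, hk⟩ := (hJmem i).1 hi
  have h0 : u i = 0 := by rw [← hk]; exact hk0 k
  rw [hu1, if_neg hi, sub_zero] at h0
  rw [Matrix.sub_mulVec, Matrix.one_mulVec, Pi.sub_apply]
  simp only [Matrix.mulVec, dotProduct]
  have h2 : ∑ j, Z i j * w j = ∑ j ∈ J, w j * Z i j := by
    rw [← Finset.sum_subset (Finset.subset_univ J)]
    · exact Finset.sum_congr rfl fun j _ => mul_comm _ _
    · intro j _ hj
      rw [hZ0 i j (fun h => hj h.2), zero_mul]
  rw [h2]
  exact h0

variable (Q : Quiv) (J : ∀ i, Finset (Fin (Q.d i)))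

/-- the parameters -/
abbrev Par : Type :=
  (Σ a : Fin Q.na, {p : Fin (Q.d (Q.hd a)) × Fin (Q.d (Q.tl a)) //
    ¬ (p.1 ∉ J (Q.hd a) ∧ p.2 ∈ J (Q.tl a))}) ⊕
  (Σ i : Fin Q.nv, {p : Fin (Q.d i) × Fin (Q.d i) // p.1 ∉ J i ∧ p.2 ∈ J i})

lemma card_block {m n : ℕ} (A : Finset (Fin m)) (B : Finset (Fin n)) :
    Fintype.card {p : Fin m × Fin n // p.1 ∉ A ∧ p.2 ∈ B} = (m - A.card) * B.card := by
  rw [Fintype.card_subtype]
  have : (univ.filter fun p : Fin m × Fin n => p.1 ∉ A ∧ p.2 ∈ B) = Aᶜ ×ˢ B := by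
    ext p; simp
  rw [this, card_product, card_compl, Fintype.card_fin]

lemma card_par_lt (h : ∑ i, ((J i).card * (Q.d i - (J i).card) : ℕ) <
      ∑ a, ((J (Q.tl a)).card * (Q.d (Q.hd a) - (J (Q.hd a)).card) : ℕ)) :
    Fintype.card (Par Q J) < Fintype.card Q.Coord := by
  have h1 : Fintype.card (Par Q J) +
      ∑ a, ((J (Q.tl a)).card * (Q.d (Q.hd a) - (J (Q.hd a)).card) : ℕ) =
      Fintype.card Q.Coord + ∑ i, ((J i).card * (Q.d i - (J i).card) : ℕ) := by
    rw [Fintype.card_sum, Fintype.card_sigma, Fintype.card_sigma, Fintype.card_sigma,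
      add_right_comm, ← Finset.sum_add_distrib]
    congr 1
    · refine Finset.sum_congr rfl fun a _ => ?_
      rw [mul_comm, ← card_block (J (Q.hd a)) (J (Q.tl a)),
        Fintype.card_subtype_compl]
      have := Fintype.card_subtype_le (fun p : Fin (Q.d (Q.hd a)) × Fin (Q.d (Q.tl a)) =>
        p.1 ∉ J (Q.hd a) ∧ p.2 ∈ J (Q.tl a))
      omega
    · refine Finset.sum_congr rfl fun i _ => ?_
      rw [card_block, mul_comm]
  omega

variable (K : Type) [Field K]

/-- the generic block matrices -/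
noncomputable def zp (a : Fin Q.na) :
    Matrix (Fin (Q.d (Q.hd a))) (Fin (Q.d (Q.tl a))) (MvPolynomial (Par Q J) K) :=
  fun i j => if h : ¬ (i ∉ J (Q.hd a) ∧ j ∈ J (Q.tl a)) then
    MvPolynomial.X (Sum.inl ⟨a, ⟨(i, j), h⟩⟩) else 0

/-- the generic unipotent matrices -/
noncomputable def up (i : Fin Q.nv) :
    Matrix (Fin (Q.d i)) (Fin (Q.d i)) (MvPolynomial (Par Q J) K) :=
  fun k l => if h : k ∉ J i ∧ l ∈ J i then
    MvPolynomial.X (Sum.inr ⟨i, ⟨(k, l), h⟩⟩) else 0

/-- the parametrisation, as matrices -/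
noncomputable def phiM (a : Fin Q.na) :
    Matrix (Fin (Q.d (Q.hd a))) (Fin (Q.d (Q.tl a))) (MvPolynomial (Par Q J) K) :=
  (1 + up Q J K (Q.hd a) : Matrix (Fin (Q.d (Q.hd a))) (Fin (Q.d (Q.hd a))) _) *
    zp Q J K a * (1 - up Q J K (Q.tl a) : Matrix (Fin (Q.d (Q.tl a))) (Fin (Q.d (Q.tl a))) _)

/-- the parametrisation -/
noncomputable def phi (c : Q.Coord) : MvPolynomial (Par Q J) K :=
  phiM Q J K c.1 c.2.1 c.2.2

lemma exists_rel (h : ∑ i, ((J i).card * (Q.d i - (J i).card) : ℕ) <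
      ∑ a, ((J (Q.tl a)).card * (Q.d (Q.hd a) - (J (Q.hd a)).card) : ℕ)) :
    ∃ P : MvPolynomial Q.Coord K, P ≠ 0 ∧ MvPolynomial.aeval (phi Q J K) P = 0 := by
  by_contra hcon
  push Not at hcon
  have hai : AlgebraicIndependent K (phi Q J K) := by
    rw [algebraicIndependent_iff]
    intro p hp
    by_contra h0
    exact hcon p h0 hp
  have := hai.cardinalMk_le_trdeg
  rw [MvPolynomial.trdeg_of_isDomain, Cardinal.lift_id, Cardinal.mk_fintype, Cardinal.mk_fintype,
    Nat.cast_le] at this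
  exact absurd (card_par_lt Q J h) (not_lt.2 this)

end Pool.QM.GenP

namespace Pool.QM

open Finset GenP

theorem genP_proof : Stmt_GenP := by
  intro K _ _ Q e he hlt
  classical
  have key : ∀ J : (∀ i, Finset (Fin (Q.d i))), ∃ P : MvPolynomial Q.Coord K, P ≠ 0 ∧
      ((∀ i, (J i).card = e i) → MvPolynomial.aeval (phi Q J K) P = 0) := by
    intro J
    by_cases hJ : ∀ i, (J i).card = e i
    · have h : ∑ i, ((J i).card * (Q.d i - (J i).card) : ℕ) <
          ∑ a, ((J (Q.tl a)).card * (Q.d (Q.hd a) - (J (Q.hd a)).card) : ℕ) := by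
        simp only [hJ]; exact hlt
      obtain ⟨P, hP, hP0⟩ := exists_rel Q J K h
      exact ⟨P, hP, fun _ => hP0⟩
    · exact ⟨1, one_ne_zero, fun h => absurd h hJ⟩
  choose P hP hP0 using key
  refine ⟨∏ J, P J, Finset.prod_ne_zero_iff.2 fun J _ => hP J, ?_⟩
  rintro x ⟨W, hWe, hWx⟩
  have hco := fun i => exists_coord (W i)
  choose J hJcard Z hZ0 hZW hZk using hco
  have hJe : ∀ i, (J i).card = e i := fun i => by rw [hJcard i, hWe i]
  rw [Quiv.ev, map_prod]
  refine Finset.prod_eq_zero (mem_univ J) ?_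
  set z : Q.Rep K := fun a => (1 - Z (Q.hd a)) * x a * (1 + Z (Q.tl a)) with hz
  have hZZ : ∀ i, Z i * Z i = 0 := by
    intro i
    funext k l
    rw [Matrix.mul_apply]
    refine Finset.sum_eq_zero fun m _ => ?_
    by_cases hm : m ∈ J i
    · rw [hZ0 i m l (fun h => h.1 hm), mul_zero]
    · rw [hZ0 i k m (fun h => hm h.2), zero_mul]
  have hz0 : ∀ a i j, i ∉ J (Q.hd a) → j ∈ J (Q.tl a) → z a i j = 0 := by
    intro a i j hi hj
    have h1 := hWx a _ (hZW (Q.tl a) j hj)
    have h2 := hZk (Q.hd a) _ h1 i hi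
    have h3 : z a i j = ((1 - Z (Q.hd a)).mulVec ((x a).mulVec
        (fun i => (1 + Z (Q.tl a)) i j))) i := by
      rw [Matrix.mulVec_mulVec]
      rfl
    rw [h3, h2]
  have hx : ∀ a, (1 + Z (Q.hd a)) * z a * (1 - Z (Q.tl a)) = x a := by
    intro a
    have h1 : (1 + Z (Q.hd a)) * (1 - Z (Q.hd a)) = 1 := by
      rw [mul_sub, mul_one, add_mul, one_mul, hZZ, add_zero, add_sub_cancel_right]
    have h2 : (1 + Z (Q.tl a)) * (1 - Z (Q.tl a)) = 1 := by
      rw [mul_sub, mul_one, add_mul, one_mul, hZZ, add_zero, add_sub_cancel_right]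
    calc (1 + Z (Q.hd a)) * z a * (1 - Z (Q.tl a))
        = ((1 + Z (Q.hd a)) * (1 - Z (Q.hd a))) * x a *
            ((1 + Z (Q.tl a)) * (1 - Z (Q.tl a))) := by
          simp only [hz, Matrix.mul_assoc]
      _ = x a := by rw [h1, h2, Matrix.one_mul, Matrix.mul_one]
  -- the values of the parameters
  set par : Par Q J → K := Sum.elim (fun s => z s.1 s.2.1.1 s.2.1.2)
    (fun s => Z s.1 s.2.1.1 s.2.1.2) with hpar
  have hzp : ∀ a, (zp Q J K a).map (MvPolynomial.aeval par : MvPolynomial (Par Q J) K →ₐ[K] K) =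
      z a := by
    intro a
    funext i j
    rw [Matrix.map_apply, zp]
    by_cases h : ¬ (i ∉ J (Q.hd a) ∧ j ∈ J (Q.tl a))
    · rw [dif_pos h, MvPolynomial.aeval_X]; rfl
    · rw [dif_neg h, map_zero]
      rw [not_not] at h
      exact (hz0 a i j h.1 h.2).symm
  have hup : ∀ i, (up Q J K i).map (MvPolynomial.aeval par : MvPolynomial (Par Q J) K →ₐ[K] K) =
      Z i := by
    intro i
    funext k l
    rw [Matrix.map_apply, up]
    by_cases h : k ∉ J i ∧ l ∈ J i
    · rw [dif_pos h, MvPolynomial.aeval_X]; rfl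
    · rw [dif_neg h, map_zero]
      exact (hZ0 i k l h).symm
  have hphi : ∀ c : Q.Coord, MvPolynomial.aeval par (phi Q J K c) = x c.1 c.2.1 c.2.2 := by
    intro c
    have h1 : ∀ (M : Matrix (Fin (Q.d (Q.hd c.1))) (Fin (Q.d (Q.tl c.1)))
        (MvPolynomial (Par Q J) K)), MvPolynomial.aeval par (M c.2.1 c.2.2) =
        (M.map (MvPolynomial.aeval par : MvPolynomial (Par Q J) K →ₐ[K] K)) c.2.1 c.2.2 :=
      fun M => rfl
    rw [phi, h1, phiM, Matrix.map_mul, Matrix.map_mul, hzp]
    have h2 : (1 + up Q J K (Q.hd c.1)).map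
        (MvPolynomial.aeval par : MvPolynomial (Par Q J) K →ₐ[K] K) = 1 + Z (Q.hd c.1) := by
      rw [Matrix.map_add _ (map_add _), hup, Matrix.map_one _ (map_zero _) (map_one _)]
    have h3 : (1 - up Q J K (Q.tl c.1)).map
        (MvPolynomial.aeval par : MvPolynomial (Par Q J) K →ₐ[K] K) = 1 - Z (Q.tl c.1) := by
      rw [Matrix.map_sub _ (map_sub _), hup, Matrix.map_one _ (map_zero _) (map_one _)]
    rw [h2, h3, hx]
  have hfin := congrArg (MvPolynomial.aeval par : MvPolynomial (Par Q J) K →ₐ[K] K) (hP0 J hJe)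
  rw [map_zero] at hfin
  rw [← hfin]
  have : (MvPolynomial.aeval fun c : Q.Coord => x c.1 c.2.1 c.2.2 :
      MvPolynomial Q.Coord K →ₐ[K] K) =
      (MvPolynomial.aeval par : MvPolynomial (Par Q J) K →ₐ[K] K).comp
        (MvPolynomial.aeval (phi Q J K)) := by
    apply MvPolynomial.algHom_ext
    intro c
    rw [MvPolynomial.aeval_X, AlgHom.comp_apply, MvPolynomial.aeval_X, hphi]
  rw [this, AlgHom.comp_apply]

end Pool.QM
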