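import Mathlib
import Pool.Agent.QM.Stmts

set_option autoImplicit false

namespace Pool.QM

open Finset

theorem genU_proof (hGenP : Stmt_GenP) (hSI : Stmt_SI) : Stmt_GenU := by
  classical
  intro K _ _ Q
  -- the polynomial attached to a dimension vector
  have hex : ∀ e : Fin Q.nv → ℕ, ∃ P : MvPolynomial Q.Coord K, P ≠ 0 ∧
      ((∃ P' : MvPolynomial Q.Coord K, P' ≠ 0 ∧ ∀ x : Q.Rep K, Q.HasSub x e → Q.ev P' x = 0) →
        ∀ x : Q.Rep K, Q.HasSub x e → Q.ev P x = 0) := by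
    intro e
    by_cases h : ∃ P' : MvPolynomial Q.Coord K, P' ≠ 0 ∧
        ∀ x : Q.Rep K, Q.HasSub x e → Q.ev P' x = 0
    · obtain ⟨P', h1, h2⟩ := h
      exact ⟨P', h1, fun _ => h2⟩
    · exact ⟨1, one_ne_zero, fun h' => absurd h' h⟩
  choose P hP0 hP using hex
  let E : Finset (Fin Q.nv → ℕ) := Fintype.piFinset fun i => Finset.range (Q.d i + 1)
  refine ⟨∏ e ∈ E, P e, Finset.prod_ne_zero_iff.mpr fun e _ => hP0 e, ?_⟩
  intro x hx e he
  have hed : ∀ i, e i ≤ Q.d i := by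
    intro i
    obtain ⟨W, hW, -⟩ := he
    rw [← hW i]
    refine (Submodule.finrank_le (W i)).trans ?_
    rw [Module.finrank_fintype_fun_eq_card, Fintype.card_fin]
  have heE : e ∈ E := Fintype.mem_piFinset.mpr fun i =>
    Finset.mem_range.mpr (Nat.lt_succ_of_le (hed i))
  have hxe : Q.ev (P e) x ≠ 0 := by
    intro h
    apply hx
    unfold Quiv.ev at h ⊢
    rw [map_prod]
    exact Finset.prod_eq_zero heE h
  have hno : ∀ P' : MvPolynomial Q.Coord K, P' ≠ 0 →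
      ¬ ∀ x : Q.Rep K, Q.HasSub x e → Q.ev P' x = 0 := fun P' h1 h2 =>
    hxe (hP e ⟨P', h1, h2⟩ x he)
  refine ⟨?_, fun χ f hf hχ => ?_⟩
  · by_contra hlt
    push Not at hlt
    obtain ⟨P', h1, h2⟩ := hGenP K Q e hed hlt
    exact hno P' h1 h2
  · by_contra hlt
    push Not at hlt
    exact hno f hf (fun y hy => hSI K Q χ f hχ e hlt y hy)

end Pool.QM
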