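import Mathlib
import Pool.Agent.QM.Stmts

set_option autoImplicit false

namespace Pool.QM

open Finset

namespace LP

variable (Q : Quiv) (m : ∀ i : Fin Q.nv, Fin (Q.d i) → ℤ)

lemma lev_le (s : ℤ) (i : Fin Q.nv) : lev Q m s i ≤ Q.d i := by
  unfold lev
  refine (Finset.card_filter_le _ _).trans ?_
  simp

/-- a nonnegative integer is the number of levels below it -/
lemma eq_sum_levels {M : ℤ} (n : ℤ) (hn : 0 ≤ n) (hM : n ≤ M) :
    n = ∑ s ∈ Finset.Icc (1 : ℤ) M, if s ≤ n then 1 else 0 := by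
  rw [← Finset.sum_filter]
  have : (Finset.Icc (1 : ℤ) M).filter (fun s => s ≤ n) = Finset.Icc (1 : ℤ) n := by
    ext s
    simp only [Finset.mem_filter, Finset.mem_Icc]
    constructor
    · rintro ⟨⟨h1, _⟩, h3⟩; exact ⟨h1, h3⟩
    · rintro ⟨h1, h3⟩; exact ⟨⟨h1, h3.trans hM⟩, h3⟩
  rw [this]
  simp only [Finset.sum_const, nsmul_eq_mul, mul_one, Int.card_Icc]
  rw [Int.toNat_of_nonneg (by linarith)]
  ring

lemma max_eq_sum_levels {M : ℤ} (x y : ℤ) (hy : 0 ≤ y) (hx : x ≤ M) (hyM : y ≤ M) (hx0 : 0 ≤ x) :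
    max 0 (x - y) = ∑ s ∈ Finset.Icc (1 : ℤ) M, (if s ≤ x then 1 else 0) *
      (1 - if s ≤ y then 1 else 0) := by
  have h1 : ∀ s : ℤ, ((if s ≤ x then 1 else 0) * (1 - if s ≤ y then 1 else 0) : ℤ) =
      (if s ≤ x then 1 else 0) - (if s ≤ min x y then 1 else 0) := by
    intro s
    by_cases h : s ≤ x <;> by_cases h' : s ≤ y <;> simp [h, h']
  rw [Finset.sum_congr rfl fun s _ => h1 s, Finset.sum_sub_distrib,
    ← eq_sum_levels x hx0 hx, ← eq_sum_levels (min x y) (le_min hx0 hy) (min_le_left _ _ |>.trans hx)]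
  rcases le_total x y with h | h
  · rw [min_eq_left h, max_eq_left (by linarith)]; ring
  · rw [min_eq_right h, max_eq_right (by linarith)]

lemma lev_eq (s : ℤ) (i : Fin Q.nv) :
    (lev Q m s i : ℤ) = ∑ l, if s ≤ m i l then 1 else 0 := by
  unfold lev
  rw [Finset.card_filter]
  push_cast
  rfl

lemma sum_pair {M : ℤ} (h0 : ∀ i l, 0 ≤ m i l) (hM : ∀ i l, m i l ≤ M) (i j : Fin Q.nv) :
    ∑ k, ∑ l, max 0 (m i k - m j l) = ∑ s ∈ Finset.Icc (1 : ℤ) M,
      (lev Q m s i : ℤ) * ((Q.d j : ℤ) - lev Q m s j) := by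
  have h1 : ∀ k l, max 0 (m i k - m j l) = ∑ s ∈ Finset.Icc (1 : ℤ) M,
      (if s ≤ m i k then 1 else 0) * (1 - if s ≤ m j l then 1 else 0) := fun k l =>
    max_eq_sum_levels _ _ (h0 j l) (hM i k) (hM j l) (h0 i k)
  rw [Finset.sum_congr rfl fun k _ => Finset.sum_congr rfl fun l _ => h1 k l]
  rw [Finset.sum_congr rfl fun k _ => Finset.sum_comm, Finset.sum_comm]
  refine Finset.sum_congr rfl fun s _ => ?_
  rw [lev_eq, lev_eq, Finset.sum_mul]
  refine Finset.sum_congr rfl fun k _ => ?_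
  rw [← Finset.mul_sum, Finset.sum_sub_distrib]
  simp

end LP

open LP in
theorem lp_proof : Stmt_LP := by
  intro Q m h0 ⟨i0, l0, hl0⟩ ℓ p q hyp
  -- a bound for the values
  obtain ⟨M, hM⟩ : ∃ M : ℤ, ∀ i l, m i l ≤ M := by
    have : Nonempty (Σ i : Fin Q.nv, Fin (Q.d i)) := ⟨⟨i0, l0⟩⟩
    obtain ⟨s, hs⟩ := Finite.exists_max (fun s : Σ i : Fin Q.nv, Fin (Q.d i) => m s.1 s.2)
    exact ⟨m s.1 s.2, fun i l => hs ⟨i, l⟩⟩
  have hsum : ∑ i, ℓ i * ∑ l, m i l = ∑ s ∈ Finset.Icc (1 : ℤ) M, dot ℓ (lev Q m s) := by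
    unfold dot
    rw [Finset.sum_comm]
    refine Finset.sum_congr rfl fun i _ => ?_
    rw [← Finset.mul_sum]
    congr 1
    rw [Finset.sum_congr rfl fun s _ => lev_eq Q m s i, Finset.sum_comm]
    exact Finset.sum_congr rfl fun l _ => eq_sum_levels _ (h0 i l) (hM i l)
  have hexp : expo Q m = ∑ s ∈ Finset.Icc (1 : ℤ) M,
      ((∑ a, (lev Q m s (Q.hd a) : ℤ) * ((Q.d (Q.tl a) : ℤ) - lev Q m s (Q.tl a))) -
        ∑ i, (lev Q m s i : ℤ) * ((Q.d i : ℤ) - lev Q m s i)) := by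
    unfold expo
    rw [Finset.sum_sub_distrib]
    congr 1
    · rw [Finset.sum_comm]
      exact Finset.sum_congr rfl fun a _ => sum_pair Q m h0 hM _ _
    · rw [Finset.sum_comm]
      exact Finset.sum_congr rfl fun i _ => sum_pair Q m h0 hM _ _
  have hcan : ∀ e : Fin Q.nv → ℕ, dot Q.can e =
      ∑ a, ((Q.d (Q.tl a) : ℤ) * e (Q.hd a) - (Q.d (Q.hd a) : ℤ) * e (Q.tl a)) := by
    intro e
    unfold dot Quiv.can
    have h1 : ∀ i, ((∑ a, if Q.hd a = i then (Q.d (Q.tl a) : ℤ) else 0) -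
        ∑ a, if Q.tl a = i then (Q.d (Q.hd a) : ℤ) else 0) * (e i : ℤ) =
        ∑ a, ((if Q.hd a = i then (Q.d (Q.tl a) : ℤ) * e i else 0) -
          if Q.tl a = i then (Q.d (Q.hd a) : ℤ) * e i else 0) := by
      intro i
      rw [sub_mul, Finset.sum_mul, Finset.sum_mul, ← Finset.sum_sub_distrib]
      refine Finset.sum_congr rfl fun a _ => ?_
      split_ifs <;> simp
    rw [Finset.sum_congr rfl fun i _ => h1 i, Finset.sum_comm]
    refine Finset.sum_congr rfl fun a _ => ?_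
    rw [Finset.sum_sub_distrib]
    simp
  -- the inequality at each level
  have hlev : ∀ s ∈ Finset.Icc (1 : ℤ) M, (q : ℤ) *
      ((∑ a, (lev Q m s (Q.hd a) : ℤ) * ((Q.d (Q.tl a) : ℤ) - lev Q m s (Q.tl a))) -
        ∑ i, (lev Q m s i : ℤ) * ((Q.d i : ℤ) - lev Q m s i)) ≤ p * dot ℓ (lev Q m s) := by
    intro s hs
    obtain ⟨h1, h2, -⟩ := hyp s (Finset.mem_Icc.mp hs).1
    have h3 : (∑ a, (lev Q m s (Q.tl a) : ℤ) * ((Q.d (Q.hd a) : ℤ) - lev Q m s (Q.hd a))) ≤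
        ∑ i, (lev Q m s i : ℤ) * ((Q.d i : ℤ) - lev Q m s i) := by
      have e1 : ∀ i j, (((lev Q m s i * (Q.d j - lev Q m s j) : ℕ)) : ℤ) =
          (lev Q m s i : ℤ) * ((Q.d j : ℤ) - lev Q m s j) := by
        intro i j
        rw [Nat.cast_mul, Nat.cast_sub (lev_le Q m s j)]
      have h4 : ((∑ a, (lev Q m s (Q.tl a) * (Q.d (Q.hd a) - lev Q m s (Q.hd a)) : ℕ) : ℕ) : ℤ) ≤
        ((∑ i, (lev Q m s i * (Q.d i - lev Q m s i) : ℕ) : ℕ) : ℤ) := by exact_mod_cast h1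
      rw [Nat.cast_sum, Nat.cast_sum] at h4
      rw [Finset.sum_congr rfl fun a _ => e1 _ _, Finset.sum_congr rfl fun i _ => e1 i i] at h4
      exact h4
    have h5 : (∑ a, (lev Q m s (Q.hd a) : ℤ) * ((Q.d (Q.tl a) : ℤ) - lev Q m s (Q.tl a))) =
        dot Q.can (lev Q m s) +
          ∑ a, (lev Q m s (Q.tl a) : ℤ) * ((Q.d (Q.hd a) : ℤ) - lev Q m s (Q.hd a)) := by
      rw [hcan, ← Finset.sum_add_distrib]
      exact Finset.sum_congr rfl fun a _ => by ring
    have h6 : dot (fun i => p * ℓ i - q * Q.can i) (lev Q m s) =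
        p * dot ℓ (lev Q m s) - q * dot Q.can (lev Q m s) := by
      unfold dot
      rw [Finset.mul_sum, Finset.mul_sum, ← Finset.sum_sub_distrib]
      exact Finset.sum_congr rfl fun i _ => by ring
    rw [h6] at h2
    rw [h5]
    have hq : (0 : ℤ) ≤ q := Int.natCast_nonneg q
    nlinarith
  refine ⟨?_, fun i l => ?_⟩
  · rw [hexp, hsum, Finset.mul_sum, Finset.mul_sum]
    exact Finset.sum_le_sum hlev
  · rw [hsum]
    calc m i l = ∑ s ∈ Finset.Icc (1 : ℤ) M, if s ≤ m i l then 1 else 0 :=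
          eq_sum_levels _ (h0 i l) (hM i l)
      _ ≤ ∑ s ∈ Finset.Icc (1 : ℤ) M, dot ℓ (lev Q m s) := by
          refine Finset.sum_le_sum fun s hs => ?_
          by_cases hsl : s ≤ m i l
          · rw [if_pos hsl]
            refine (hyp s (Finset.mem_Icc.mp hs).1).2.2 ?_
            intro h
            have h1 := congrFun h i
            unfold lev at h1
            have h2 := Finset.card_eq_zero.mp h1
            have h3 : l ∈ (univ.filter fun l : Fin (Q.d i) => s ≤ m i l) := by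
              simp [hsl]
            rw [h2] at h3
            simp at h3
          · rw [if_neg hsl]
            by_cases hz : lev Q m s = 0
            · rw [hz]; simp [dot]
            · have := (hyp s (Finset.mem_Icc.mp hs).1).2.2 hz
              linarith

end Pool.QM
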