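import Pool.Agent.QM.LocV

/-!
# LOCAE (MP_18ea5f_nt, moduli of quiver representations)
-/

set_option autoImplicit false

namespace Pool.QM

open Filter Ultra LocScale NumberField

namespace LocAE

variable {K : Type} [Field K] [NumberField K]

/-- the norm of the prime of a finite place -/
noncomputable def q (v : FinitePlace K) : ℕ := v.maximalIdeal.asIdeal.absNorm

theorem two_le_q (v : FinitePlace K) : 2 ≤ q v :=
  HeightOneSpectrum.one_lt_absNorm v.maximalIdeal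

theorem q_pos (v : FinitePlace K) : (0 : ℝ) < q v := by
  have := two_le_q v
  have h : 0 < q v := by omega
  exact_mod_cast h

theorem exists_int (v : FinitePlace K) {x : 𝓞 K} (hx : x ≠ 0) :
    ∃ k : ℤ, v (x : K) = (q v : ℝ) ^ k := by
  have h := FinitePlace.apply_mul_absNorm_pow_eq_one v hx
  refine ⟨-(multiplicity v.maximalIdeal.asIdeal (Ideal.span {x}) : ℤ), ?_⟩
  rw [zpow_neg, zpow_natCast]
  exact eq_inv_of_mul_eq_one_left h

theorem exists_zpow (v : FinitePlace K) {x : K} (hx : x ≠ 0) :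
    ∃ k : ℤ, v x = (q v : ℝ) ^ k := by
  obtain ⟨a, b, hb, rfl⟩ := IsFractionRing.div_surjective (A := 𝓞 K) x
  have hb0 : b ≠ 0 := nonZeroDivisors.ne_zero hb
  have ha0 : a ≠ 0 := by
    rintro rfl
    simp at hx
  obtain ⟨k, hk⟩ := exists_int v ha0
  obtain ⟨l, hl⟩ := exists_int v hb0
  refine ⟨k - l, ?_⟩
  rw [map_div₀, zpow_sub₀ (q_pos v).ne', ← hk, ← hl]

theorem le_inv_of_lt_one (v : FinitePlace K) {z : K} (hz : v z < 1) : v z ≤ (q v : ℝ)⁻¹ := by
  by_cases h0 : z = 0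
  · rw [h0, map_zero]
    exact (inv_pos.2 (q_pos v)).le
  obtain ⟨k, hk⟩ := exists_zpow v h0
  have h1 : (1 : ℝ) < q v := by
    have := two_le_q v
    exact_mod_cast (show 1 < q v by omega)
  rw [hk] at hz ⊢
  have hk0 : k < 0 := by
    by_contra h
    exact absurd (one_le_zpow₀ h1.le (not_lt.1 h)) (not_le.2 hz)
  rw [← zpow_neg_one]
  exact zpow_le_zpow_right₀ h1.le (by omega)

theorem le_one_of_lt (v : FinitePlace K) {z : K} (hz : v z < q v) : v z ≤ 1 := by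
  by_contra h
  push Not at h
  have h0 : z ≠ 0 := by
    rintro rfl
    rw [map_zero] at h
    linarith
  have h1 : v z⁻¹ < 1 := by
    rw [map_inv₀]
    exact inv_lt_one_of_one_lt₀ h
  have h2 := le_inv_of_lt_one v h1
  rw [map_inv₀] at h2
  have h3 := (inv_le_inv₀ (by linarith) (q_pos v)).1 h2
  linarith

theorem exists_uniformizer (v : FinitePlace K) : ∃ ρ : K, v ρ = q v := by
  obtain ⟨π, hπ⟩ := v.maximalIdeal.valuation_exists_uniformizer K
  have h1 : v π = (q v : ℝ)⁻¹ := by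
    rw [← FinitePlace.norm_embedding_eq, FinitePlace.norm_embedding, HeightOneSpectrum.adicAbv_def,
      hπ, WithZeroMulInt.toNNReal_neg_apply _ WithZero.exp_ne_zero]
    have h2 : Multiplicative.toAdd (WithZero.unzero (WithZero.exp_ne_zero (a := (-1 : ℤ)))) =
        (-1 : ℤ) := rfl
    rw [h2, zpow_neg_one]
    simp [q]
  refine ⟨π⁻¹, ?_⟩
  rw [map_inv₀, h1, inv_inv]

/-- the norms of distinct finite places tend to infinity -/
theorem q_large (w : ℕ → FinitePlace K) (hw : Function.Injective w) (B : ℝ) :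
    ∀ᶠ m in cofinite, B < q (w m) := by
  rw [eventually_cofinite]
  have h1 : {I : Ideal (𝓞 K) | I.absNorm ≤ ⌊B⌋₊}.Finite := Ideal.finite_setOfPred_absNorm_le _
  have h2 : Function.Injective fun m => (w m).maximalIdeal.asIdeal := fun a b h =>
    hw (FinitePlace.maximalIdeal_injective (IsDedekindDomain.HeightOneSpectrum.ext h))
  refine (h1.preimage (h2.injOn (s := Set.univ) |>.mono (Set.subset_univ _))).subset ?_
  intro m hm
  have hm' : (q (w m) : ℝ) ≤ B := not_lt.1 hm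
  exact Nat.le_floor hm'

theorem const_le_one (w : ℕ → FinitePlace K) (hw : Function.Injective w) (α : K) :
    ∀ᶠ m in cofinite, (w m) α ≤ 1 := by
  by_cases h0 : α = 0
  · refine Eventually.of_forall fun m => ?_
    rw [h0, map_zero]
    exact zero_le_one
  rw [eventually_cofinite]
  have h1 : {v : FinitePlace K | v α ≠ 1}.Finite := FinitePlace.hasFiniteMulSupport h0
  refine (h1.preimage hw.injOn).subset ?_
  intro m hm h
  exact hm (le_of_eq h)

end LocAE

open LocAE in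
theorem locAE_proof (hNear : Stmt_Near) (hFrame : Stmt_Frame) : Stmt_LocAE := by
  intro K _ _ Q hQ ℓ n hn ι _ s hs hBpf
  by_contra hinf
  have hinf' := Set.not_finite.1 hinf
  let w : ℕ → FinitePlace K := fun m => (hinf'.natEmbedding _ m).1
  have hw : Function.Injective w := fun a b h =>
    (hinf'.natEmbedding _).injective (Subtype.ext h)
  have hbad : ∀ m, ¬ ∀ x : Q.Rep K, (∃ j, Q.ev (s j) x ≠ 0) →
      ∃ g : Q.Grp K, nb (w m).1 (Q.act g⁻¹ x) ∧ ∃ j, 1 ≤ (w m) (Q.ev (s j) (Q.act g⁻¹ x)) :=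
    fun m => (hinf'.natEmbedding _ m).2
  push Not at hbad
  choose x hx0 hx using hbad
  have hρ := fun m => exists_uniformizer (w m)
  choose ρ hρ using hρ
  have hρ1 : ∀ m, 1 < (w m).1 (ρ m) := by
    intro m
    have h1 : (w m).1 (ρ m) = q (w m) := hρ m
    rw [h1]
    have := two_le_q (w m)
    exact_mod_cast (show 1 < q (w m) by omega)
  have hρ0 : ∀ m, ρ m ≠ 0 := by
    intro m h
    have := hρ1 m
    rw [h, map_zero] at this
    linarith
  have hg := fun m : ℕ => hNear K (w m).1 ⟨ρ m, hρ1 m⟩ Q hQ ℓ n hn ι s hs (x m) (hx0 m)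
  choose g hg1 hg2 using hg
  obtain ⟨f, hf⟩ := hQ
  let U : Ultrafilter ℕ := hyperfilter ℕ
  have hU : (U : Filter ℕ) ≤ cofinite := hyperfilter_le_cofinite
  obtain ⟨e, he, hle, k, hk1, hk2, hk3⟩ := common hFrame U (fun m => (w m).1)
    (fun α => ⟨1, hU (const_le_one w hw α)⟩) Q ℓ s hBpf
    (fun m => Q.act (g m)⁻¹ (x m))
    (fun a i j => ⟨1, Eventually.of_forall fun m => hg1 m a i j⟩)
    (by
      intro j ε hε
      filter_upwards [hU (q_large w hw ε⁻¹)] with m hm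
      have h1 := le_inv_of_lt_one (w m) (hx m (g m) (hg1 m) j)
      refine h1.trans_lt ?_
      exact inv_lt_of_inv_lt₀ hε hm)
  -- bounded sequences are integral
  have hint : ∀ z : ℕ → K, Bd U (fun m => (w m).1) z → ∀ᶠ m in (U : Filter ℕ), (w m) (z m) ≤ 1 := by
    rintro z ⟨B, hB⟩
    filter_upwards [hB, hU (q_large w hw B)] with m h1 h2
    exact le_one_of_lt (w m) (lt_of_le_of_lt h1 h2)
  let p := ex Q f e 0 1
  have hent : ∀ c : Q.Coord, ∀ᶠ m in (U : Filter ℕ),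
      (w m).1 (Q.act (pw (ρ m) (hρ0 m) p)⁻¹ (Q.act (k m)⁻¹ (Q.act (g m)⁻¹ (x m)))
        c.1 c.2.1 c.2.2) ≤ 1 := by
    rintro ⟨a, i, j⟩
    by_cases hb : e (Q.hd a) ≤ i.val ∧ j.val < e (Q.tl a)
    · filter_upwards [hk3 a i j hb.1 hb.2 1 one_pos] with m hm
      rw [act_pw, map_mul, map_zpow₀]
      have h1 : (w m).1 (ρ m) ^ (p (Q.tl a) j - p (Q.hd a) i) ≤ (q (w m) : ℝ) := by
        have h2 := ex_sub_le f e hf 0 1 a i j
        have h3 := zpow_le_zpow_right₀ (hρ1 m).le (show p (Q.tl a) j - p (Q.hd a) i ≤ 1 by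
          change ex Q f e 0 1 (Q.tl a) j - ex Q f e 0 1 (Q.hd a) i ≤ 1
          simpa using h2)
        rw [zpow_one] at h3
        exact h3.trans (le_of_eq (hρ m))
      have h4 : (w m).1 (Q.act (k m)⁻¹ (Q.act (g m)⁻¹ (x m)) a i j) ≤ (q (w m) : ℝ)⁻¹ :=
        le_inv_of_lt_one (w m) hm
      calc (w m).1 (ρ m) ^ (p (Q.tl a) j - p (Q.hd a) i) *
            (w m).1 (Q.act (k m)⁻¹ (Q.act (g m)⁻¹ (x m)) a i j)
          ≤ (q (w m) : ℝ) * (q (w m) : ℝ)⁻¹ :=
            mul_le_mul h1 h4 ((w m).1.nonneg _) (q_pos _).le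
        _ = 1 := mul_inv_cancel₀ (q_pos _).ne'
    · filter_upwards [hint _ (hk2 a i j)] with m hm
      rw [act_pw, map_mul, map_zpow₀]
      have h1 : (w m).1 (ρ m) ^ (p (Q.tl a) j - p (Q.hd a) i) ≤ 1 := by
        have h2 := ex_sub_le' f e hf 0 1 a i j hb
        have h3 := zpow_le_zpow_right₀ (hρ1 m).le (show p (Q.tl a) j - p (Q.hd a) i ≤ 0 by
          change ex Q f e 0 1 (Q.tl a) j - ex Q f e 0 1 (Q.hd a) i ≤ 0
          simpa using h2)
        rwa [zpow_zero] at h3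
      exact mul_le_one₀ h1 ((w m).1.nonneg _) hm
  obtain ⟨m, hm1, hm2⟩ := ((hint _ hk1).and (eventually_all.2 hent)).exists
  refine LocV.contra (w m).1 Q ℓ (x m) (g m) (k m) (pw (ρ m) (hρ0 m) p) (hg2 m)
    (fun a i j => hm2 ⟨a, i, j⟩) ?_
  rw [chr_pw, map_zpow₀, sum_ex f e 0 1 he ℓ]
  have h1 : (w m).1 (ρ m) ^ (((0 : ℕ) : ℤ) * (∑ i, ℓ i * (f i * Q.d i)) +
      ((1 : ℕ) : ℤ) * dot ℓ e) ≤ ((w m).1 (ρ m))⁻¹ := by
    rw [← zpow_neg_one]
    refine zpow_le_zpow_right₀ (hρ1 m).le ?_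
    push_cast
    linarith
  have h2 : ((w m).1 (ρ m))⁻¹ ≤ 1 / 2 := by
    have h3 : (w m).1 (ρ m) = q (w m) := hρ m
    rw [h3, one_div]
    have h4 : (2 : ℝ) ≤ q (w m) := by exact_mod_cast two_le_q (w m)
    exact inv_anti₀ (by norm_num) h4
  have hm1' : (w m).1 (Q.chr ℓ (k m)) ≤ 1 := hm1
  have h5 : 0 ≤ (w m).1 (ρ m) ^ (((0 : ℕ) : ℤ) * (∑ i, ℓ i * (f i * Q.d i)) +
      ((1 : ℕ) : ℤ) * dot ℓ e) := by
    have := hρ1 m
    positivity
  calc (w m).1 (Q.chr ℓ (k m)) * _ ≤ 1 * (((w m).1 (ρ m))⁻¹) :=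
        mul_le_mul hm1' h1 h5 zero_le_one
    _ ≤ 1 / 2 := by rw [one_mul]; exact h2

end Pool.QM
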