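import Pool.Agent.QM.LocScale

/-!
# LOCV (MP_18ea5f_nt, moduli of quiver representations)
-/

set_option autoImplicit false

namespace Pool.QM

open Filter Ultra LocScale

namespace LocV

/-- the final contradiction with near-optimality -/
theorem contra {K : Type} [Field K] (v : AbsoluteValue K ℝ) (Q : Quiv) (ℓ : Fin Q.nv → ℤ)
    (x : Q.Rep K) (g k h : Q.Grp K)
    (hg : ∀ g' : Q.Grp K, nb v (Q.act g'⁻¹ x) → v (Q.chr ℓ g) < 2 * v (Q.chr ℓ g'))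
    (hnb : nb v (Q.act h⁻¹ (Q.act k⁻¹ (Q.act g⁻¹ x))))
    (hc : v (Q.chr ℓ k) * v (Q.chr ℓ h) ≤ 1 / 2) : False := by
  have h1 := hg (g * k * h) (by
    rw [mul_inv_rev, mul_inv_rev, Q.act_mul, Q.act_mul]
    exact hnb)
  rw [chr_mul, chr_mul, map_mul, map_mul] at h1
  have h2 : 0 ≤ v (Q.chr ℓ g) := v.nonneg _
  nlinarith

end LocV

open LocV in
theorem locV_proof (hNear : Stmt_Near) (hFrame : Stmt_Frame) : Stmt_LocV := by
  intro K _ _ v ⟨ρ, hρ⟩ Q hQ ℓ n hn ι _ s hs hBpf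
  by_contra hcon
  push Not at hcon
  have hseq := fun m : ℕ => hcon (1 / ((m : ℝ) + 1)) (by positivity)
  choose x hx0 hx using hseq
  have hg := fun m : ℕ => hNear K v ⟨ρ, hρ⟩ Q hQ ℓ n hn ι s hs (x m) (hx0 m)
  choose g hg1 hg2 using hg
  obtain ⟨f, hf⟩ := hQ
  have hρ0 : ρ ≠ 0 := by
    rintro rfl
    rw [map_zero] at hρ
    linarith
  have hvρ : 0 < v ρ := by linarith
  let U : Ultrafilter ℕ := hyperfilter ℕ
  have hU : (U : Filter ℕ) ≤ atTop := Nat.hyperfilter_le_atTop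
  obtain ⟨e, he, hle, k, hk1, hk2, hk3⟩ := common hFrame U (fun _ => v)
    (fun α => ⟨v α, Eventually.of_forall fun _ => le_rfl⟩) Q ℓ s hBpf
    (fun m => Q.act (g m)⁻¹ (x m))
    (fun a i j => ⟨1, Eventually.of_forall fun m => hg1 m a i j⟩)
    (by
      intro j ε hε
      have h1 := hU ((tendsto_one_div_add_atTop_nhds_zero_nat (𝕜 := ℝ)).eventually_lt_const hε)
      filter_upwards [h1] with m hm
      exact (hx m (g m) (hg1 m) j).trans hm)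
  -- a common bound
  obtain ⟨B₀, hB₀, hkB⟩ := hk1.pos
  have hk2' := fun c : Q.Coord => (hk2 c.1 c.2.1 c.2.2).pos
  choose Bc hBc hzB using hk2'
  let B : ℝ := 1 + ∑ c, Bc c
  have hsum : 0 ≤ ∑ c, Bc c := Finset.sum_nonneg fun c _ => (hBc c).le
  have hB1 : 0 < B := by positivity
  have hBcle : ∀ c, Bc c ≤ B := fun c => by
    have := Finset.single_le_sum (f := Bc) (fun c _ => (hBc c).le) (Finset.mem_univ c)
    linarith
  obtain ⟨N₁, hN₁⟩ := (tendsto_pow_atTop_atTop_of_one_lt hρ).eventually_ge_atTop B |>.exists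
  -- the second exponent
  let c₁ : ℤ := ∑ i, ℓ i * (f i * Q.d i)
  obtain ⟨N, hN⟩ := (tendsto_pow_atTop_atTop_of_one_lt hρ).eventually_ge_atTop
    (2 * B₀ * v ρ ^ ((N₁ : ℤ) * c₁)) |>.exists
  let p := ex Q f e N₁ N
  -- all entries are at most one
  have hent : ∀ c : Q.Coord, ∀ᶠ m in (U : Filter ℕ),
      v (Q.act (pw ρ hρ0 p)⁻¹ (Q.act (k m)⁻¹ (Q.act (g m)⁻¹ (x m))) c.1 c.2.1 c.2.2) ≤ 1 := by
    rintro ⟨a, i, j⟩
    by_cases hb : e (Q.hd a) ≤ i.val ∧ j.val < e (Q.tl a)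
    · filter_upwards [hk3 a i j hb.1 hb.2 ((v ρ ^ N)⁻¹) (by positivity)] with m hm
      rw [act_pw, map_mul, map_zpow₀]
      have h1 : v ρ ^ (p (Q.tl a) j - p (Q.hd a) i) ≤ v ρ ^ N := by
        rw [← zpow_natCast]
        refine zpow_le_zpow_right₀ hρ.le ?_
        have := ex_sub_le f e hf N₁ N a i j
        have h2 : (0 : ℤ) ≤ N₁ := Int.natCast_nonneg _
        change ex Q f e N₁ N (Q.tl a) j - ex Q f e N₁ N (Q.hd a) i ≤ _
        linarith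
      calc v ρ ^ (p (Q.tl a) j - p (Q.hd a) i) * v (Q.act (k m)⁻¹ (Q.act (g m)⁻¹ (x m)) a i j)
          ≤ v ρ ^ N * (v ρ ^ N)⁻¹ := mul_le_mul h1 hm.le (v.nonneg _) (by positivity)
        _ = 1 := mul_inv_cancel₀ (by positivity)
    · filter_upwards [hzB ⟨a, i, j⟩] with m hm
      rw [act_pw, map_mul, map_zpow₀]
      have h1 : v ρ ^ (p (Q.tl a) j - p (Q.hd a) i) ≤ (v ρ ^ N₁)⁻¹ := by
        rw [← zpow_natCast, ← zpow_neg]
        exact zpow_le_zpow_right₀ hρ.le (ex_sub_le' f e hf N₁ N a i j hb)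
      calc v ρ ^ (p (Q.tl a) j - p (Q.hd a) i) * v (Q.act (k m)⁻¹ (Q.act (g m)⁻¹ (x m)) a i j)
          ≤ (v ρ ^ N₁)⁻¹ * v ρ ^ N₁ :=
            mul_le_mul h1 ((hm.trans (hBcle _)).trans hN₁) (v.nonneg _) (by positivity)
        _ = 1 := inv_mul_cancel₀ (by positivity)
  obtain ⟨m, hm1, hm2⟩ := (hkB.and (eventually_all.2 hent)).exists
  refine contra v Q ℓ (x m) (g m) (k m) (pw ρ hρ0 p) (hg2 m) (fun a i j => hm2 ⟨a, i, j⟩) ?_
  rw [chr_pw, map_zpow₀, sum_ex f e N₁ N he ℓ]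
  have h1 : v ρ ^ ((N₁ : ℤ) * c₁ + N * dot ℓ e) ≤ v ρ ^ ((N₁ : ℤ) * c₁) * (v ρ ^ N)⁻¹ := by
    rw [← zpow_natCast, ← zpow_neg, ← zpow_add₀ hvρ.ne']
    refine zpow_le_zpow_right₀ hρ.le ?_
    have h2 : (0 : ℤ) ≤ N := Int.natCast_nonneg _
    nlinarith
  calc v (Q.chr ℓ (k m)) * v ρ ^ ((N₁ : ℤ) * c₁ + N * dot ℓ e)
      ≤ B₀ * (v ρ ^ ((N₁ : ℤ) * c₁) * (v ρ ^ N)⁻¹) :=
        mul_le_mul hm1 h1 (by positivity) hB₀.le
    _ ≤ 1 / 2 := by
        have h3 : 0 < v ρ ^ N := by positivity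
        have h4 : B₀ * (v ρ ^ ((N₁ : ℤ) * c₁) * (v ρ ^ N)⁻¹) =
          (B₀ * v ρ ^ ((N₁ : ℤ) * c₁)) / v ρ ^ N := by ring
        rw [h4, div_le_iff₀ h3]
        linarith

end Pool.QM
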