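import Mathlib
import Pool.Agent.QM.Stmts

set_option autoImplicit false

/-!
# Main: the counting theorem from the modules
-/

namespace Pool.QM

open Finset NumberField

namespace Main

/-- The pairs (vertex, basis vector). -/
abbrev J (Q : Quiv) : Type := Σ i : Fin Q.nv, Fin (Q.d i)

lemma act_inv_act {Q : Quiv} {F : Type} [Field F] (g : Q.Grp F) (x : Q.Rep F) :
    Q.act g (Q.act g⁻¹ x) = x := by
  rw [← Q.act_mul, mul_inv_cancel, Q.act_one]

/-- a nonzero algebraic integer is large at the infinite places -/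
lemma one_le_of_integral {K : Type} [Field K] [NumberField K] {z : K} (hz : IsIntegral ℤ z)
    (h0 : z ≠ 0) {B : ℝ} (hB : ∀ w : InfinitePlace K, w z ≤ B) : 1 ≤ B := by
  have hB0 : 0 ≤ B := by
    obtain ⟨w⟩ : Nonempty (InfinitePlace K) := inferInstance
    exact le_trans (apply_nonneg w z) (hB w)
  by_contra hlt
  push Not at hlt
  have h1 : ∏ w : InfinitePlace K, w z ^ w.mult = |Algebra.norm ℚ z| :=
    InfinitePlace.prod_eq_abs_norm z
  have h2 : (1 : ℝ) ≤ ((|Algebra.norm ℚ z| : ℚ) : ℝ) := by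
    have hn0 : Algebra.norm ℚ z ≠ 0 := by
      rw [Ne, Algebra.norm_eq_zero_iff]; exact h0
    have hint : IsIntegral ℤ (Algebra.norm ℚ z) := Algebra.isIntegral_norm ℚ hz
    obtain ⟨k, hk⟩ := IsIntegrallyClosed.isIntegral_iff.mp hint
    have hk' : Algebra.norm ℚ z = (k : ℚ) := by rw [← hk]; simp
    rw [hk'] at hn0 ⊢
    have : k ≠ 0 := by exact_mod_cast hn0
    have h3 : (1 : ℤ) ≤ |k| := Int.one_le_abs this
    have h4 : ((1 : ℤ) : ℚ) ≤ ((|k| : ℤ) : ℚ) := by exact_mod_cast h3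
    rw [Int.cast_abs] at h4
    exact_mod_cast h4
  have h3 : ∏ w : InfinitePlace K, w z ^ w.mult ≤ ∏ w : InfinitePlace K, B ^ w.mult :=
    Finset.prod_le_prod (fun w _ => pow_nonneg (apply_nonneg w z) _)
      fun w _ => pow_le_pow_left₀ (apply_nonneg w z) (hB w) _
  rw [Finset.prod_pow_eq_pow_sum, InfinitePlace.sum_mult_eq] at h3
  have h4 : B ^ Module.finrank ℚ K < 1 :=
    pow_lt_one₀ hB0 hlt (Module.finrank_pos).ne'
  rw [h1] at h3
  linarith

/-- real bounds for the floor -/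
lemma log_mul_bounds (d0 : ℕ) (t : ℝ) :
    ((⌊(d0 : ℝ) * Real.log t⌋ : ℤ) : ℝ) ≤ d0 * Real.log t ∧
      (d0 : ℝ) * Real.log t < (⌊(d0 : ℝ) * Real.log t⌋ : ℤ) + 1 :=
  ⟨Int.floor_le _, Int.lt_floor_add_one _⟩

lemma dot_mul {n : ℕ} (c : ℤ) (χ : Fin n → ℤ) (e : Fin n → ℕ) :
    dot (fun i => c * χ i) e = c * dot χ e := by
  unfold dot
  rw [Finset.mul_sum]
  exact Finset.sum_congr rfl fun i _ => by ring

lemma dot_sub {n : ℕ} (χ χ' : Fin n → ℤ) (e : Fin n → ℕ) :
    dot (fun i => χ i - χ' i) e = dot χ e - dot χ' e := by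
  unfold dot
  rw [← Finset.sum_sub_distrib]
  exact Finset.sum_congr rfl fun i _ => by ring

theorem cell_exists (hCl : Stmt_Cluster) {K : Type} [Field K] [NumberField K] (Q : Quiv)
    (ℓ : Fin Q.nv → ℤ) (hℓ : dot ℓ Q.d = 0) (C1 : ℝ) (D : ℕ) (hC1 : 1 ≤ C1) (hD : D ≠ 0)
    (i0 : J Q) :
    ∃ C2 C3 : ℝ, 1 ≤ C2 ∧ 0 ≤ C3 ∧ ∀ (x' : Q.Rep K) (t : ∀ i, Fin (Q.d i) → ℝ),
      (∀ i l, 0 < t i l) → (∀ a i j, IsIntegral ℤ ((D : K) * x' a i j)) →
      (∀ (w : InfinitePlace K) a i j, w (x' a i j) ≤ C1 * (t (Q.hd a) i / t (Q.tl a) j)) →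
      ∃ m : ∀ i, Fin (Q.d i) → ℤ, (∀ i l, 0 ≤ m i l) ∧ (∃ i l, m i l = 0) ∧
        (∀ a i j, m (Q.hd a) i < m (Q.tl a) j → x' a i j = 0) ∧
        (∀ (w : InfinitePlace K) a i j, w (x' a i j) ≤
          C2 * Real.exp (((m (Q.hd a) i - m (Q.tl a) j : ℤ) : ℝ) / Module.finrank ℚ K)) ∧
        ((∑ i, ℓ i * ∑ l, m i l : ℤ) : ℝ) ≤
          (Module.finrank ℚ K : ℝ) * ∑ i, (ℓ i : ℝ) * ∑ l, Real.log (t i l) + C3 := by
  classical
  set d0 := Module.finrank ℚ K with hd0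
  have hd0pos : 0 < d0 := Module.finrank_pos
  have hd0R : (0 : ℝ) < d0 := by exact_mod_cast hd0pos
  have hDR : (1 : ℝ) ≤ D := by exact_mod_cast Nat.one_le_iff_ne_zero.mpr hD
  -- the gap
  set C0 : ℕ := ⌈(d0 : ℝ) * Real.log (D * C1)⌉₊ + 1 with hC0
  have hC0' : (d0 : ℝ) * Real.log (D * C1) + 1 ≤ C0 := by
    have := Nat.le_ceil ((d0 : ℝ) * Real.log (D * C1))
    rw [hC0]; push_cast; linarith
  set N : ℕ := Fintype.card (J Q) with hN
  refine ⟨C1 * Real.exp ((2 * (N * C0 : ℕ) + 1) / d0),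
    ((N * C0 : ℕ) + 1) * ∑ i, |(ℓ i : ℝ)| * Q.d i, ?_, ?_, ?_⟩
  · have : 1 ≤ Real.exp ((2 * (N * C0 : ℕ) + 1) / d0) :=
      Real.one_le_exp (by positivity)
    nlinarith
  · have : 0 ≤ ∑ i, |(ℓ i : ℝ)| * Q.d i :=
      Finset.sum_nonneg fun i _ => mul_nonneg (abs_nonneg _) (Nat.cast_nonneg _)
    positivity
  intro x' t ht hint hbd
  let m0 : J Q → ℤ := fun s => ⌊(d0 : ℝ) * Real.log (t s.1 s.2)⌋
  obtain ⟨m', hm'1, hm'2⟩ := hCl (J Q) m0 C0
  -- the minimum
  obtain ⟨s0, -, hs0⟩ := Finset.exists_min_image (Finset.univ : Finset (J Q)) m'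
    ⟨i0, Finset.mem_univ _⟩
  have hm'1R : ∀ s : J Q, |(m0 s : ℝ) - m' s| ≤ (N * C0 : ℕ) := by
    intro s
    have := hm'1 s
    have h2 : ((|m0 s - m' s| : ℤ) : ℝ) ≤ ((Fintype.card (J Q) * C0 : ℤ) : ℝ) := by
      exact_mod_cast this
    rw [Int.cast_abs] at h2
    push_cast at h2 ⊢
    exact h2
  refine ⟨fun i l => m' ⟨i, l⟩ - m' s0, fun i l => ?_, ⟨s0.1, s0.2, by simp⟩, ?_, ?_, ?_⟩
  · have := hs0 ⟨i, l⟩ (Finset.mem_univ _)
    linarith
  · -- zero pattern
    intro a i j hlt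
    by_contra hne
    have hlt' : m' ⟨Q.hd a, i⟩ < m' ⟨Q.tl a, j⟩ := by linarith
    have h1 := hm'2 _ _ hlt'
    have hne' : (D : K) * x' a i j ≠ 0 := mul_ne_zero (by exact_mod_cast hD) hne
    have h2 : 1 ≤ (D : ℝ) * (C1 * (t (Q.hd a) i / t (Q.tl a) j)) := by
      refine one_le_of_integral (hint a i j) hne' fun w => ?_
      rw [map_mul]
      have e1 : w (D : K) = (D : ℝ) := by
        have := w.norm_embedding_eq (D : K)
        rw [← this]
        simp
      rw [e1]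
      exact mul_le_mul_of_nonneg_left (hbd w a i j) (by positivity)
    have hth := ht (Q.hd a) i
    have htt := ht (Q.tl a) j
    have h3 : 0 ≤ Real.log ((D : ℝ) * C1) + (Real.log (t (Q.hd a) i) -
        Real.log (t (Q.tl a) j)) := by
      rw [← Real.log_div hth.ne' htt.ne', ← Real.log_mul (by positivity) (by positivity)]
      refine Real.log_nonneg ?_
      rw [mul_assoc]; exact h2
    have h4 := (log_mul_bounds d0 (t (Q.hd a) i)).2
    have h5 := (log_mul_bounds d0 (t (Q.tl a) j)).1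
    have h6 : ((m0 ⟨Q.hd a, i⟩ : ℤ) : ℝ) + C0 < m0 ⟨Q.tl a, j⟩ := by exact_mod_cast h1
    have h7 : (0 : ℝ) ≤ d0 * (Real.log ((D : ℝ) * C1) + (Real.log (t (Q.hd a) i) -
        Real.log (t (Q.tl a) j))) := mul_nonneg hd0R.le h3
    simp only [m0] at h6
    nlinarith
  · intro w a i j
    refine (hbd w a i j).trans ?_
    have hth := ht (Q.hd a) i
    have htt := ht (Q.tl a) j
    rw [mul_assoc, ← Real.exp_add]
    refine mul_le_mul_of_nonneg_left ?_ (by linarith)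
    rw [← Real.exp_log (div_pos hth htt), Real.log_div hth.ne' htt.ne']
    refine Real.exp_le_exp.mpr ?_
    rw [← add_div, le_div_iff₀ hd0R]
    have h4 := (log_mul_bounds d0 (t (Q.hd a) i)).2
    have h5 := (log_mul_bounds d0 (t (Q.tl a) j)).1
    have h6 := abs_le.mp (hm'1R ⟨Q.hd a, i⟩)
    have h7 := abs_le.mp (hm'1R ⟨Q.tl a, j⟩)
    simp only [m0] at h6 h7
    push_cast at h6 h7 ⊢
    nlinarith
  · have e1 : (∑ i, ℓ i * ∑ l, (m' ⟨i, l⟩ - m' s0) : ℤ) = ∑ i, ℓ i * ∑ l, m' ⟨i, l⟩ := by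
      have : ∀ i, ℓ i * ∑ l : Fin (Q.d i), (m' ⟨i, l⟩ - m' s0) =
          ℓ i * ∑ l, m' ⟨i, l⟩ - m' s0 * (ℓ i * (Q.d i : ℤ)) := by
        intro i
        rw [Finset.sum_sub_distrib]
        simp only [Finset.sum_const, Finset.card_univ, Fintype.card_fin, nsmul_eq_mul]
        ring
      rw [Finset.sum_congr rfl fun i _ => this i, Finset.sum_sub_distrib, ← Finset.mul_sum]
      unfold dot at hℓ
      rw [hℓ, mul_zero, sub_zero]
    rw [e1]
    push_cast
    rw [Finset.mul_sum, Finset.mul_sum, ← Finset.sum_add_distrib]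
    refine Finset.sum_le_sum fun i _ => ?_
    have h1 : |∑ l, (m' ⟨i, l⟩ : ℝ) - d0 * ∑ l, Real.log (t i l)| ≤
        ((N * C0 : ℕ) + 1) * Q.d i := by
      rw [Finset.mul_sum, ← Finset.sum_sub_distrib]
      refine (Finset.abs_sum_le_sum_abs _ _).trans ?_
      calc ∑ l, |(m' ⟨i, l⟩ : ℝ) - d0 * Real.log (t i l)|
          ≤ ∑ _l : Fin (Q.d i), (((N * C0 : ℕ) : ℝ) + 1) := by
            refine Finset.sum_le_sum fun l _ => ?_
            have h4 := log_mul_bounds d0 (t i l)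
            have h6 := abs_le.mp (hm'1R ⟨i, l⟩)
            simp only [m0] at h6
            rw [abs_le]
            constructor <;> linarith [h4.1, h4.2, h6.1, h6.2]
        _ = ((N * C0 : ℕ) + 1) * Q.d i := by
            simp only [Finset.sum_const, Finset.card_univ, Fintype.card_fin, nsmul_eq_mul]
            ring
    have h2 : (ℓ i : ℝ) * (∑ l, (m' ⟨i, l⟩ : ℝ) - d0 * ∑ l, Real.log (t i l)) ≤
        |(ℓ i : ℝ)| * (((N * C0 : ℕ) + 1) * Q.d i) := by
      refine (le_abs_self _).trans ?_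
      rw [abs_mul]
      exact mul_le_mul_of_nonneg_left h1 (abs_nonneg _)
    push_cast at h2
    linarith

/-- subrepresentations of `g x` give subrepresentations of `x` -/
lemma hasSub_act {F : Type} [Field F] (Q : Quiv) (g : Q.Grp F) (x : Q.Rep F)
    (e : Fin Q.nv → ℕ) (h : Q.HasSub (Q.act g x) e) : Q.HasSub x e := by
  obtain ⟨W, hW, hs⟩ := h
  have hinj : ∀ i, Function.Injective (Matrix.toLin' ((g i)⁻¹).val) := by
    intro i
    have h1 : (Matrix.toLin' (g i).val).comp (Matrix.toLin' ((g i)⁻¹).val) = LinearMap.id := by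
      rw [← Matrix.toLin'_mul, ← Units.val_mul, mul_inv_cancel, Units.val_one, Matrix.toLin'_one]
    intro u v huv
    have h2 := congrArg (Matrix.toLin' (g i).val) huv
    rw [← LinearMap.comp_apply, ← LinearMap.comp_apply, h1] at h2
    exact h2
  refine ⟨fun i => (W i).map (Matrix.toLin' ((g i)⁻¹).val), fun i => ?_, fun a u hu => ?_⟩
  · rw [← hW i]
    exact (LinearEquiv.finrank_eq (Submodule.equivMapOfInjective _ (hinj i) (W i))).symm
  · obtain ⟨u', hu', rfl⟩ := Submodule.mem_map.mp hu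
    refine Submodule.mem_map.mpr ⟨_, hs a u' hu', ?_⟩
    simp only [Quiv.act, Matrix.toLin'_apply, Matrix.mulVec_mulVec]
    have h2 : ((g (Q.hd a))⁻¹).val * ((g (Q.hd a)).val * x a * ((g (Q.tl a))⁻¹).val) =
        x a * ((g (Q.tl a))⁻¹).val := by
      rw [← Matrix.mul_assoc, ← Matrix.mul_assoc, ← Units.val_mul, inv_mul_cancel,
        Units.val_one, Matrix.one_mul]
    rw [h2]

/-- For a stable representation outside of `P = 0` and a cell, the hypotheses of LP. -/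
lemma lp_hyp (hSub : Stmt_SubOf) {K : Type} [Field K] [NumberField K] (Q : Quiv)
    (P : MvPolynomial Q.Coord K)
    (hP : ∀ x : Q.Rep K, Q.ev P x ≠ 0 → ∀ e, Q.HasSub x e →
      ∑ a, (e (Q.tl a) * (Q.d (Q.hd a) - e (Q.hd a)) : ℕ) ≤ ∑ i, (e i * (Q.d i - e i) : ℕ) ∧
      ∀ (χ : Fin Q.nv → ℤ) (f : MvPolynomial Q.Coord K), f ≠ 0 → Q.SemiInv χ f → 0 ≤ dot χ e)
    (θ ℓ : Fin Q.nv → ℤ)
    (mb : ℕ) (fb : MvPolynomial Q.Coord K) (hmb : 1 ≤ mb) (hfb : fb ≠ 0)
    (hfbs : Q.SemiInv (fun i => mb * ℓ i - θ i) fb)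
    (p q me : ℕ) (fe : MvPolynomial Q.Coord K) (hme : 1 ≤ me) (hfe : fe ≠ 0)
    (hfes : Q.SemiInv (fun i => me * (p * ℓ i - q * Q.can i)) fe)
    (x : Q.Rep K) (hst : Q.Stable θ x) (hx : Q.ev P x ≠ 0) (γ : Q.Grp K)
    (m : ∀ i, Fin (Q.d i) → ℤ) (hm0 : ∃ i l, m i l = 0)
    (hz : ∀ a i j, m (Q.hd a) i < m (Q.tl a) j → Q.act γ⁻¹ x a i j = 0) :
    ∀ s : ℤ, 1 ≤ s → (∑ a, (lev Q m s (Q.tl a) * (Q.d (Q.hd a) - lev Q m s (Q.hd a)) : ℕ) ≤
        ∑ i, (lev Q m s i * (Q.d i - lev Q m s i) : ℕ)) ∧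
      0 ≤ dot (fun i => p * ℓ i - q * Q.can i) (lev Q m s) ∧
      (lev Q m s ≠ 0 → 1 ≤ dot ℓ (lev Q m s)) := by
  classical
  intro s hs
  have hsub : Q.HasSub x (lev Q m s) := by
    refine hSub K Q x γ (fun i => univ.filter fun l => s ≤ m i l) ?_
    intro a i j hi hj
    simp only [Finset.mem_filter, Finset.mem_univ, true_and, not_le] at hi hj
    exact hz a i j (lt_of_lt_of_le hi hj)
  obtain ⟨h1, h2⟩ := hP x hx _ hsub
  refine ⟨h1, ?_, ?_⟩
  · have h3 := h2 _ _ hfe hfes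
    rw [dot_mul] at h3
    have : (0 : ℤ) < me := by exact_mod_cast hme
    exact nonneg_of_mul_nonneg_right h3 this
  · intro hne
    have hne' : lev Q m s ≠ Q.d := by
      obtain ⟨i, l, hil⟩ := hm0
      intro h
      have h3 := congrFun h i
      unfold lev at h3
      have h4 : (univ.filter fun l : Fin (Q.d i) => s ≤ m i l) = univ := by
        apply Finset.eq_univ_of_card
        rw [h3, Fintype.card_fin]
      have h5 : l ∈ (univ.filter fun l : Fin (Q.d i) => s ≤ m i l) := by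
        rw [h4]; exact Finset.mem_univ l
      rw [Finset.mem_filter] at h5
      have := h5.2
      omega
    have h3 := hst _ hsub hne hne'
    have h4 := h2 _ _ hfb hfbs
    rw [dot_sub, dot_mul] at h4
    have h5 : (0 : ℤ) < mb * dot ℓ (lev Q m s) := by linarith
    have h6 : (0 : ℤ) < mb := by exact_mod_cast hmb
    have h7 : 0 < dot ℓ (lev Q m s) := (mul_pos_iff_of_pos_left h6).mp h5
    linarith

end Main

open Main in
theorem main_proof (hRed : Stmt_Red) (hGenU : Stmt_GenU) (hCl : Stmt_Cluster) (hCell : Stmt_Cell)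
    (hLP : Stmt_LP) (hSub : Stmt_SubOf) : Stmt_Main := by
  classical
  intro K _ _ Q hQ
  obtain ⟨P, hP0, hP⟩ := hGenU K Q
  refine ⟨P, hP0, ?_⟩
  rintro θ ℓ hθd hℓd hgen hnef n hn ι _ s hs hbpf ⟨mb, fb, hmb, hfb, hfbs⟩ p q hq
    ⟨me, fe, hme, hfe, hfes⟩
  obtain ⟨C1, D, hC1, hD, hred⟩ := hRed K Q hQ ℓ n hn ι s hs hbpf
  have hqR : (0 : ℝ) < q := by exact_mod_cast hq
  by_cases hJ : Nonempty (J Q)
  swap
  · -- all spaces are zero
    refine ⟨1, 0, one_pos, fun T hT S hS hx => ?_⟩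
    have hsub : Subsingleton (Q.Rep K) := by
      refine ⟨fun x y => ?_⟩
      funext a i j
      exact (hJ ⟨⟨Q.hd a, i⟩⟩).elim
    have h1 : S.card ≤ 1 := Finset.card_le_one.mpr fun x _ y _ => Subsingleton.elim x y
    have h2 : (1 : ℝ) ≤ T ^ ((p : ℝ) / q) := Real.one_le_rpow hT (by positivity)
    have h3 : (S.card : ℝ) ≤ 1 := by exact_mod_cast h1
    simpa using h3.trans h2
  obtain ⟨i0⟩ := hJ
  obtain ⟨C2, C3, hC2, hC3, hcellx⟩ := cell_exists hCl (K := K) Q ℓ hℓd C1 D hC1 hD i0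
  obtain ⟨C', hC', hcell⟩ := hCell K Q C2 D hD
  set d0 := Module.finrank ℚ K with hd0
  have hC1' : 0 ≤ Real.log C1 := Real.log_nonneg hC1
  set C4 := C3 + Real.log C1 with hC4
  have hC40 : 0 ≤ C4 := by positivity
  refine ⟨(1 + C4) ^ Fintype.card (J Q) * (C' * Real.exp ((p : ℝ) / q * C4)),
    Fintype.card (J Q), by positivity, fun T hT S hS hx => ?_⟩
  have hT0 : 0 < T := by linarith
  have hlogT : 0 ≤ Real.log T := Real.log_nonneg hT
  -- the data for every x in S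
  have hdata : ∀ x ∈ S, ∃ (γ : Q.Grp K) (m : ∀ i, Fin (Q.d i) → ℤ), (∀ i l, 0 ≤ m i l) ∧
      (∀ a i j, IsIntegral ℤ ((D : K) * Q.act γ⁻¹ x a i j)) ∧
      (∀ a i j, m (Q.hd a) i < m (Q.tl a) j → Q.act γ⁻¹ x a i j = 0) ∧
      (∀ (w : InfinitePlace K) a i j, w (Q.act γ⁻¹ x a i j) ≤
        C2 * Real.exp (((m (Q.hd a) i - m (Q.tl a) j : ℤ) : ℝ) / d0)) ∧
      (expo Q m : ℝ) ≤ (p : ℝ) / q * (Real.log T + C4) ∧
      ∀ i l, (m i l : ℝ) ≤ Real.log T + C4 := by
    intro x hxS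
    obtain ⟨hst, hPx, hht⟩ := hx x hxS
    have hss : Q.Semistable θ x := by
      intro e he
      by_cases h0 : e = 0
      · subst h0; simp [dot]
      by_cases h1 : e = Q.d
      · subst h1; exact hθd.ge
      exact (hst e he h0 h1).le
    have hsx : ∃ j, Q.ev (s j) x ≠ 0 := hbpf K x (hnef K x hss)
    obtain ⟨γ, t, ht, hint, hbd, hH⟩ := hred x hsx
    obtain ⟨m, hm1, hm2, hm3, hm4, hm5⟩ := hcellx (Q.act γ⁻¹ x) t ht hint hbd
    have hlp := hLP Q m hm1 hm2 ℓ p q (lp_hyp hSub Q P hP θ ℓ mb fb hmb hfb hfbs p q me fe hme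
      hfe hfes x hst hPx γ m hm2 hm3)
    have hkey : ((∑ i, ℓ i * ∑ l, m i l : ℤ) : ℝ) ≤ Real.log T + C4 := by
      refine hm5.trans ?_
      have hpos : 0 < (∏ i, (∏ l, t i l) ^ (ℓ i)) ^ d0 := by
        refine pow_pos (Finset.prod_pos fun i _ => zpow_pos ?_ _) _
        exact Finset.prod_pos fun l _ => ht i l
      have h1 : (d0 : ℝ) * ∑ i, (ℓ i : ℝ) * ∑ l, Real.log (t i l) =
          Real.log ((∏ i, (∏ l, t i l) ^ (ℓ i)) ^ d0) := by
        rw [Real.log_pow, Real.log_prod]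
        · congr 1
          refine Finset.sum_congr rfl fun i _ => ?_
          rw [Real.log_zpow, Real.log_prod fun l _ => (ht i l).ne']
        · intro i _
          exact (zpow_pos (Finset.prod_pos fun l _ => ht i l) _).ne'
      rw [h1]
      have h2 : Real.log ((∏ i, (∏ l, t i l) ^ (ℓ i)) ^ d0) ≤ Real.log (C1 * T) := by
        refine Real.log_le_log hpos (hH.trans ?_)
        exact mul_le_mul_of_nonneg_left hht (by linarith)
      rw [Real.log_mul (by linarith) hT0.ne'] at h2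
      rw [hC4]
      linarith
    refine ⟨γ, m, hm1, hint, hm3, hm4, ?_, fun i l => ?_⟩
    · have h1 : (q : ℝ) * (expo Q m : ℝ) ≤ p * ((∑ i, ℓ i * ∑ l, m i l : ℤ) : ℝ) := by
        exact_mod_cast hlp.1
      have h2 : (p : ℝ) * ((∑ i, ℓ i * ∑ l, m i l : ℤ) : ℝ) ≤ p * (Real.log T + C4) :=
        mul_le_mul_of_nonneg_left hkey (Nat.cast_nonneg _)
      rw [div_mul_eq_mul_div, le_div_iff₀ hqR]
      linarith
    · have h1 : (m i l : ℝ) ≤ ((∑ i, ℓ i * ∑ l, m i l : ℤ) : ℝ) := by exact_mod_cast hlp.2 i l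
      exact h1.trans hkey
  choose! γ m hm0 hint hzero hbd hexpo hmT using hdata
  -- the cells
  set B : ℤ := ⌊Real.log T + C4⌋ with hB
  let cells : Finset (J Q → ℤ) := Fintype.piFinset fun _ => Finset.Icc 0 B
  let cm : Q.Rep K → (J Q → ℤ) := fun x s => m x s.1 s.2
  have hmaps : ∀ x ∈ S, cm x ∈ cells := by
    intro x hxS
    refine Fintype.mem_piFinset.mpr fun s => Finset.mem_Icc.mpr ⟨hm0 x hxS s.1 s.2, ?_⟩
    exact Int.le_floor.mpr (hmT x hxS s.1 s.2)
  have hfib : ∀ c ∈ cells, ((S.filter fun x => cm x = c).card : ℝ) ≤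
      C' * Real.exp ((p : ℝ) / q * (Real.log T + C4)) := by
    intro c hc
    rcases (S.filter fun x => cm x = c).eq_empty_or_nonempty with he | ⟨x0, hx0⟩
    · rw [he]; simp only [Finset.card_empty, Nat.cast_zero]; positivity
    have hinj : Set.InjOn (fun x => Q.act (γ x)⁻¹ x)
        ((S.filter fun x => cm x = c : Finset (Q.Rep K)) : Set (Q.Rep K)) := by
      intro x hx' y hy' hxy
      have hx1 := (Finset.mem_filter.mp (Finset.mem_coe.mp hx')).1
      have hy1 := (Finset.mem_filter.mp (Finset.mem_coe.mp hy')).1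
      refine hS x hx1 y hy1 ⟨γ y * (γ x)⁻¹, ?_⟩
      simp only at hxy
      rw [Q.act_mul, hxy, act_inv_act]
    rw [← Finset.card_image_of_injOn hinj]
    have hx0' := Finset.mem_filter.mp hx0
    let mc : ∀ i, Fin (Q.d i) → ℤ := fun i l => c ⟨i, l⟩
    have hmc : ∀ x ∈ S.filter fun x => cm x = c, m x = mc := by
      intro x hx'
      have := (Finset.mem_filter.mp hx').2
      funext i l
      exact congrFun this ⟨i, l⟩
    have hex : (expo Q mc : ℝ) ≤ (p : ℝ) / q * (Real.log T + C4) := by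
      rw [← hmc x0 hx0]
      exact hexpo x0 hx0'.1
    refine (hcell θ hθd mc _ ?_ ?_).trans ?_
    · intro x' hx' y' hy' hiso
      obtain ⟨x, hxm, rfl⟩ := Finset.mem_image.mp hx'
      obtain ⟨y, hym, rfl⟩ := Finset.mem_image.mp hy'
      obtain ⟨g, hg⟩ := hiso
      have hxS := (Finset.mem_filter.mp hxm).1
      have hyS := (Finset.mem_filter.mp hym).1
      have : x = y := by
        refine hS x hxS y hyS ⟨γ y * (g * (γ x)⁻¹), ?_⟩
        rw [Q.act_mul, Q.act_mul, ← hg, act_inv_act]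
      rw [this]
    · intro x' hx'
      obtain ⟨x, hxm, rfl⟩ := Finset.mem_image.mp hx'
      have hxS := (Finset.mem_filter.mp hxm).1
      have hmx := hmc x hxm
      refine ⟨?_, hint x hxS, ?_, ?_⟩
      · -- stability is invariant
        intro e he h0 hd
        refine (hx x hxS).1 e ?_ h0 hd
        exact hasSub_act Q (γ x)⁻¹ x e he
      · intro a i j hlt
        refine hzero x hxS a i j ?_
        rw [hmx]; exact hlt
      · intro w a i j
        have := hbd x hxS w a i j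
        rw [hmx] at this
        exact this
    · refine mul_le_mul_of_nonneg_left (Real.exp_le_exp.mpr hex) (by linarith)
  have hcard : (S.card : ℝ) = ∑ c ∈ cells, ((S.filter fun x => cm x = c).card : ℝ) := by
    rw [Finset.card_eq_sum_card_fiberwise hmaps]
    push_cast
    rfl
  rw [hcard]
  have hcells : (cells.card : ℝ) ≤ ((1 + C4) * (1 + Real.log T)) ^ Fintype.card (J Q) := by
    have h1 : cells.card = (B + 1).toNat ^ Fintype.card (J Q) := by
      simp only [cells, Fintype.card_piFinset, Int.card_Icc, sub_zero, Finset.prod_const,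
        Finset.card_univ]
    rw [h1, Nat.cast_pow]
    refine pow_le_pow_left₀ (Nat.cast_nonneg _) ?_ _
    have hB0 : 0 ≤ B := Int.floor_nonneg.mpr (by linarith)
    have h2 : (((B + 1).toNat : ℕ) : ℝ) = (B : ℝ) + 1 := by
      have : (((B + 1).toNat : ℕ) : ℤ) = B + 1 := Int.toNat_of_nonneg (by linarith)
      exact_mod_cast this
    rw [h2]
    have h3 : (B : ℝ) ≤ Real.log T + C4 := Int.floor_le _
    nlinarith
  calc ∑ c ∈ cells, ((S.filter fun x => cm x = c).card : ℝ)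
      ≤ ∑ _c ∈ cells, C' * Real.exp ((p : ℝ) / q * (Real.log T + C4)) :=
        Finset.sum_le_sum hfib
    _ = cells.card * (C' * Real.exp ((p : ℝ) / q * (Real.log T + C4))) := by
        rw [Finset.sum_const, nsmul_eq_mul]
    _ ≤ ((1 + C4) * (1 + Real.log T)) ^ Fintype.card (J Q) *
          (C' * Real.exp ((p : ℝ) / q * (Real.log T + C4))) :=
        mul_le_mul_of_nonneg_right hcells (by positivity)
    _ = (1 + C4) ^ Fintype.card (J Q) * (C' * Real.exp ((p : ℝ) / q * C4)) *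
          T ^ ((p : ℝ) / q) * (1 + Real.log T) ^ Fintype.card (J Q) := by
        rw [mul_pow, mul_add, Real.exp_add, Real.rpow_def_of_pos hT0,
          mul_comm (Real.log T) ((p : ℝ) / q)]
        ring

end Pool.QM
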