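import Mathlib
import Pool.Agent.QM.Stmts

set_option autoImplicit false

/-!
# NEAR: near-optimal elements of the group at an absolute value
-/

namespace Pool.QM.Near

open Finset

lemma chr_mul_nat {F : Type} [Field F] {Q : Quiv} (ℓ : Fin Q.nv → ℤ) (n : ℕ) (g : Q.Grp F) :
    Q.chr (fun i => n * ℓ i) g = Q.chr ℓ g ^ n := by
  unfold Quiv.chr
  rw [← Finset.prod_pow]
  refine Finset.prod_congr rfl fun i _ => ?_
  show (g i).val.det ^ ((n : ℤ) * ℓ i) = _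
  rw [mul_comm, zpow_mul, zpow_natCast]

lemma ev_le {K : Type} [Field K] (v : AbsoluteValue K ℝ) {Q : Quiv}
    (f : MvPolynomial Q.Coord K) (y : Q.Rep K) (hy : nb v y) :
    v (Q.ev f y) ≤ ∑ c ∈ f.support, v (f.coeff c) := by
  unfold Quiv.ev
  rw [MvPolynomial.aeval_def, MvPolynomial.eval₂_eq]
  refine (v.sum_le _ _).trans (Finset.sum_le_sum fun c _ => ?_)
  rw [map_mul, map_prod]
  have h1 : ∏ i ∈ c.support, v (y i.fst i.snd.1 i.snd.2 ^ c i) ≤ 1 := by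
    refine Finset.prod_le_one (fun i _ => v.nonneg _) fun i _ => ?_
    rw [map_pow]
    exact pow_le_one₀ (v.nonneg _) (hy _ _ _)
  calc v ((algebraMap K K) (MvPolynomial.coeff c f)) *
        ∏ i ∈ c.support, v (y i.fst i.snd.1 i.snd.2 ^ c i)
      ≤ v ((algebraMap K K) (MvPolynomial.coeff c f)) * 1 :=
        mul_le_mul_of_nonneg_left h1 (v.nonneg _)
    _ = v (f.coeff c) := by rw [mul_one]; rfl

lemma exists_nb {K : Type} [Field K] (v : AbsoluteValue K ℝ) (ρ : K) (hρ : 1 < v ρ) (Q : Quiv)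
    (hQ : Q.Acyclic) (x : Q.Rep K) : ∃ g : Q.Grp K, nb v (Q.act g⁻¹ x) := by
  classical
  obtain ⟨f, hf⟩ := hQ
  have hρ0 : ρ ≠ 0 := by
    rintro rfl
    rw [v.map_zero] at hρ
    linarith
  -- a bound for the entries
  set B : ℝ := ∑ a, ∑ i, ∑ j, v (x a i j) with hB
  have hBx : ∀ a i j, v (x a i j) ≤ B := by
    intro a i j
    have h1 : v (x a i j) ≤ ∑ j, v (x a i j) :=
      Finset.single_le_sum (f := fun j => v (x a i j)) (fun j _ => v.nonneg _) (mem_univ j)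
    have h2 : (∑ j, v (x a i j)) ≤ ∑ i, ∑ j, v (x a i j) :=
      Finset.single_le_sum (f := fun i => ∑ j, v (x a i j))
        (fun i _ => Finset.sum_nonneg fun j _ => v.nonneg _) (mem_univ i)
    have h3 : (∑ i, ∑ j, v (x a i j)) ≤ B :=
      Finset.single_le_sum (f := fun a => ∑ i, ∑ j, v (x a i j))
        (fun a _ => Finset.sum_nonneg fun i _ => Finset.sum_nonneg fun j _ => v.nonneg _)
        (mem_univ a)
    exact h1.trans (h2.trans h3)
  obtain ⟨N, hN⟩ := pow_unbounded_of_one_lt B hρ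
  set u : Kˣ := Units.mk0 (ρ ^ N) (pow_ne_zero _ hρ0) with hu
  refine ⟨fun i => Units.map (Matrix.scalar (Fin (Q.d i))).toMonoidHom (u ^ f i), ?_⟩
  intro a i j
  have h1 : Q.act (fun i => Units.map (Matrix.scalar (Fin (Q.d i))).toMonoidHom (u ^ f i))⁻¹ x a
      = ((u ^ f (Q.hd a))⁻¹).val • ((u ^ f (Q.tl a)).val • x a) := by
    unfold Quiv.act
    rw [Pi.inv_apply, Pi.inv_apply, inv_inv, ← map_inv]
    have e1 : (Units.map (Matrix.scalar (Fin (Q.d (Q.hd a)))).toMonoidHom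
        (u ^ f (Q.hd a))⁻¹).val = Matrix.scalar (Fin (Q.d (Q.hd a)))
          ((u ^ f (Q.hd a))⁻¹).val := rfl
    have e2 : (Units.map (Matrix.scalar (Fin (Q.d (Q.tl a)))).toMonoidHom
        (u ^ f (Q.tl a))).val = Matrix.scalar (Fin (Q.d (Q.tl a)))
          ((u ^ f (Q.tl a))).val := rfl
    rw [e1, e2, Matrix.scalar_apply, Matrix.scalar_apply, ← Matrix.smul_eq_diagonal_mul,
      ← Matrix.smul_eq_mul_diagonal, smul_comm]
  rw [h1, Matrix.smul_apply, Matrix.smul_apply, smul_eq_mul, smul_eq_mul, map_mul, map_mul]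
  have h2 : ((u ^ f (Q.hd a))⁻¹).val = (ρ ^ (N * f (Q.hd a)))⁻¹ := by
    rw [hu, ← Units.inv_eq_val_inv]
    simp [pow_mul]
  have h3 : ((u ^ f (Q.tl a))).val = (ρ ^ (N * f (Q.tl a))) := by
    rw [hu]
    simp [pow_mul]
  rw [h2, h3, map_inv₀, map_pow, map_pow]
  rw [inv_mul_le_iff₀ (pow_pos (by linarith) _), mul_one]
  have h4 : N * f (Q.tl a) + N ≤ N * f (Q.hd a) := by
    have := hf a
    calc N * f (Q.tl a) + N = N * (f (Q.tl a) + 1) := by ring
      _ ≤ N * f (Q.hd a) := Nat.mul_le_mul_left _ this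
  calc v ρ ^ (N * f (Q.tl a)) * v (x a i j) ≤ v ρ ^ (N * f (Q.tl a)) * v ρ ^ N :=
        mul_le_mul_of_nonneg_left ((hBx a i j).trans hN.le) (by positivity)
    _ = v ρ ^ (N * f (Q.tl a) + N) := by rw [pow_add]
    _ ≤ v ρ ^ (N * f (Q.hd a)) := pow_le_pow_right₀ hρ.le h4

end Pool.QM.Near

namespace Pool.QM

/-- NEAR -/
theorem near_proof : Stmt_Near := by
  intro K _ _ v hv Q hQ ℓ n hn ι _ s hs x hx
  obtain ⟨ρ, hρ⟩ := hv
  obtain ⟨j, hj⟩ := hx
  obtain ⟨g0, hg0⟩ := Near.exists_nb v ρ hρ Q hQ x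
  set B : ℝ := ∑ c ∈ (s j).support, v ((s j).coeff c) with hB
  have hsx : 0 < v (Q.ev (s j) x) := v.pos hj
  have key : ∀ g : Q.Grp K, nb v (Q.act g⁻¹ x) →
      v (Q.ev (s j) x) ≤ v (Q.chr ℓ g) ^ n * B := by
    intro g hg
    have h1 : x = Q.act g (Q.act g⁻¹ x) := by
      rw [← Q.act_mul, mul_inv_cancel, Q.act_one]
    have h2 : Q.ev (s j) x = Q.chr ℓ g ^ n * Q.ev (s j) (Q.act g⁻¹ x) := by
      conv_lhs => rw [h1]
      rw [hs j, Near.chr_mul_nat]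
    rw [h2, map_mul, map_pow]
    exact mul_le_mul_of_nonneg_left (Near.ev_le v (s j) _ hg) (pow_nonneg (v.nonneg _) _)
  have hB0 : 0 < B := by
    have h1 := hsx.trans_le (key g0 hg0)
    have h2 : 0 ≤ v (Q.chr ℓ g0) ^ n := pow_nonneg (v.nonneg _) _
    by_contra hc
    nlinarith [mul_nonneg h2 (sub_nonneg.mpr (not_lt.mp hc))]
  set c : ℝ := min 1 (v (Q.ev (s j) x) / B) with hc
  have hc0 : 0 < c := lt_min one_pos (div_pos hsx hB0)
  have hlow : ∀ g : Q.Grp K, nb v (Q.act g⁻¹ x) → c ≤ v (Q.chr ℓ g) := by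
    intro g hg
    rcases le_or_gt 1 (v (Q.chr ℓ g)) with h | h
    · exact (min_le_left _ _).trans h
    · have h1 := key g hg
      have h2 : v (Q.ev (s j) x) / B ≤ v (Q.chr ℓ g) ^ n := by
        rw [div_le_iff₀ hB0]; exact h1
      have h3 : v (Q.chr ℓ g) ^ n ≤ v (Q.chr ℓ g) := pow_le_of_le_one (v.nonneg _) h.le (by omega)
      exact (min_le_right _ _).trans (h2.trans h3)
  set A : Set ℝ := {r | ∃ g : Q.Grp K, nb v (Q.act g⁻¹ x) ∧ r = v (Q.chr ℓ g)} with hA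
  have hAne : A.Nonempty := ⟨_, g0, hg0, rfl⟩
  have hAb : BddBelow A := ⟨c, by
    rintro r ⟨g, hg, rfl⟩
    exact hlow g hg⟩
  have hI : c ≤ sInf A := le_csInf hAne (by
    rintro r ⟨g, hg, rfl⟩
    exact hlow g hg)
  obtain ⟨r, ⟨g, hg, rfl⟩, hr⟩ := exists_lt_of_csInf_lt hAne (show sInf A < 2 * sInf A by linarith)
  refine ⟨g, hg, fun g' hg' => ?_⟩
  have h1 : sInf A ≤ v (Q.chr ℓ g') := csInf_le hAb ⟨g', hg', rfl⟩
  linarith

end Pool.QM
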