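import Mathlib
import Pool.Agent.QM.Defs
import Pool.Agent.QM.Stmts

set_option autoImplicit false

/-!
# NEARMIN: near-minimal vectors for the twisted height
-/

namespace Pool.QM.NearMin

open Finset NumberField Matrix

set_option linter.unusedSectionVars false

variable {K : Type} [Field K] [NumberField K] {n : ℕ}

lemma fin_add_le (v : FinitePlace K) {x y : K} {B : ℝ} (hx : v x ≤ B) (hy : v y ≤ B) :
    v (x + y) ≤ B := (v.add_le x y).trans (max_le hx hy)

lemma fin_sum_le (v : FinitePlace K) {ι : Type} (s : Finset ι) (f : ι → K) (B : ℝ) (hB : 0 ≤ B)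
    (h : ∀ i ∈ s, v (f i) ≤ B) : v (∑ i ∈ s, f i) ≤ B := by
  classical
  induction s using Finset.induction_on with
  | empty => simpa using hB
  | insert i s hi ih =>
    rw [Finset.sum_insert hi]
    exact fin_add_le v (h i (Finset.mem_insert_self _ _))
      (ih fun j hj => h j (Finset.mem_insert_of_mem hj))

lemma inf_sum_le (w : InfinitePlace K) {m : ℕ} (f : Fin m → K) (B : ℝ)
    (h : ∀ i, w (f i) ≤ B) : w (∑ i, f i) ≤ m * B := by
  have h1 : w (∑ i, f i) ≤ ∑ i, w (f i) := by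
    have h2 : ∀ s : Finset (Fin m), w (∑ i ∈ s, f i) ≤ ∑ i ∈ s, w (f i) := by
      intro s
      induction s using Finset.induction_on with
      | empty => simp
      | insert i s hi ih =>
        rw [Finset.sum_insert hi, Finset.sum_insert hi]
        exact (w.1.add_le _ _).trans (by
          have : w.1 (∑ x ∈ s, f x) ≤ ∑ i ∈ s, w (f i) := ih
          have h3 : w.1 (f i) = w (f i) := rfl
          linarith)
    exact h2 univ
  refine h1.trans ((Finset.sum_le_card_nsmul _ _ B fun i _ => h i).trans ?_)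
  simp

/-- the sup norm at a place -/
lemma le_sup_fin (v : FinitePlace K) {m : ℕ} (x : Fin m → K) (i : Fin m) :
    v (x i) ≤ ⨆ j, v (x j) :=
  le_ciSup (f := fun j => v (x j)) (Set.finite_range _).bddAbove i

lemma le_sup_inf (w : InfinitePlace K) {m : ℕ} (x : Fin m → K) (i : Fin m) :
    w (x i) ≤ ⨆ j, w (x j) :=
  le_ciSup (f := fun j => w (x j)) (Set.finite_range _).bddAbove i

lemma back {m : ℕ} (g : GL (Fin m) K) (u : Fin m → K) : g.val *ᵥ ((g⁻¹).val *ᵥ u) = u := by
  rw [mulVec_mulVec]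
  have : g.val * (g⁻¹).val = 1 := g.val_inv
  rw [this, one_mulVec]

open Classical in
/-- the norm of a matrix, `1` if integral -/
noncomputable def nA (v : FinitePlace K) {m : ℕ} (g : GL (Fin m) K) : ℝ :=
  if ∀ i j, v (g.val i j) ≤ 1 then 1 else 1 + ∑ i, ∑ j, v (g.val i j)

lemma nA_one_le (v : FinitePlace K) {m : ℕ} (g : GL (Fin m) K) : 1 ≤ nA v g := by
  unfold nA
  split_ifs
  · exact le_rfl
  · have : 0 ≤ ∑ i, ∑ j, v (g.val i j) :=
      Finset.sum_nonneg fun i _ => Finset.sum_nonneg fun j _ => apply_nonneg v _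
    linarith

lemma entry_le (v : FinitePlace K) {m : ℕ} (g : GL (Fin m) K) (i j : Fin m) :
    v (g.val i j) ≤ nA v g := by
  unfold nA
  split_ifs with h
  · exact h i j
  · have h1 : v (g.val i j) ≤ ∑ j, v (g.val i j) :=
      Finset.single_le_sum (f := fun j => v (g.val i j)) (fun j _ => apply_nonneg v _) (mem_univ j)
    have h2 : ∑ j, v (g.val i j) ≤ ∑ i, ∑ j, v (g.val i j) :=
      Finset.single_le_sum (f := fun i => ∑ j, v (g.val i j))
        (fun i _ => Finset.sum_nonneg fun j _ => apply_nonneg v _) (mem_univ i)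
    linarith

/-- the bound at a finite place -/
lemma bd_fin (v : FinitePlace K) {m : ℕ} (g : GL (Fin m) K) (u : Fin m → K) (i : Fin m) :
    v (u i) ≤ nA v g * ⨆ j, v (((g⁻¹).val *ᵥ u) j) := by
  have h0 : 0 ≤ ⨆ j, v (((g⁻¹).val *ᵥ u) j) := Real.iSup_nonneg fun j => apply_nonneg v _
  have h1 : 0 ≤ nA v g := zero_le_one.trans (nA_one_le v g)
  have e1 : u i = ∑ j, g.val i j * ((g⁻¹).val *ᵥ u) j := by
    conv_lhs => rw [← back g u]
    rfl
  rw [e1]
  refine fin_sum_le v _ _ _ (mul_nonneg h1 h0) fun j _ => ?_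
  rw [map_mul]
  exact mul_le_mul (entry_le v g i j) (le_sup_fin v ((g⁻¹).val *ᵥ u) j) (apply_nonneg v _) h1

/-- the bound at an infinite place -/
lemma bd_inf (w : InfinitePlace K) {m : ℕ} (g : GL (Fin m) K) :
    ∃ B : ℝ, 1 ≤ B ∧ ∀ (u : Fin m → K) (i : Fin m),
      w (u i) ≤ B * ⨆ j, w (((g⁻¹).val *ᵥ u) j) := by
  set A : ℝ := 1 + ∑ i, ∑ j, w (g.val i j) with hA
  have hA0 : 0 ≤ ∑ i, ∑ j, w (g.val i j) :=
    Finset.sum_nonneg fun i _ => Finset.sum_nonneg fun j _ => apply_nonneg w _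
  have hA1 : 1 ≤ A := by linarith
  have hm0 : (0 : ℝ) ≤ m := Nat.cast_nonneg m
  refine ⟨1 + m * A, by nlinarith, fun u i => ?_⟩
  have h0 : 0 ≤ ⨆ j, w (((g⁻¹).val *ᵥ u) j) := Real.iSup_nonneg fun j => apply_nonneg w _
  have e1 : u i = ∑ j, g.val i j * ((g⁻¹).val *ᵥ u) j := by
    conv_lhs => rw [← back g u]
    rfl
  rw [e1]
  refine (inf_sum_le w _ (A * ⨆ j, w (((g⁻¹).val *ᵥ u) j)) fun j => ?_).trans ?_
  · rw [map_mul]
    refine mul_le_mul ?_ (le_sup_inf w ((g⁻¹).val *ᵥ u) j) (apply_nonneg w _) (by linarith)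
    have h1 : w (g.val i j) ≤ ∑ j, w (g.val i j) :=
      Finset.single_le_sum (f := fun j => w (g.val i j)) (fun j _ => apply_nonneg w _) (mem_univ j)
    have h2 : ∑ j, w (g.val i j) ≤ ∑ i, ∑ j, w (g.val i j) :=
      Finset.single_le_sum (f := fun i => ∑ j, w (g.val i j))
        (fun i _ => Finset.sum_nonneg fun j _ => apply_nonneg w _) (mem_univ i)
    linarith
  · rw [← mul_assoc]
    apply mul_le_mul_of_nonneg_right _ h0
    linarith

/-- the lower bound -/
lemma lower (g : FinitePlace K → GL (Fin (n + 1)) K) (h : InfinitePlace K → GL (Fin (n + 1)) K)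
    (hg : Good g) : ∃ c : ℝ, 0 < c ∧ ∀ u : Fin (n + 1) → K, u ≠ 0 → c ≤ tw g h u := by
  choose B hB1 hB2 using fun w : InfinitePlace K => bd_inf w (h w)
  have hA : (fun v : FinitePlace K => nA v (g v)).HasFiniteMulSupport := by
    refine Set.Finite.subset hg ?_
    intro v hv h'
    apply hv
    change nA v (g v) = 1
    unfold nA
    rw [if_pos h'.1]
  set PA := ∏ᶠ v : FinitePlace K, nA v (g v) with hPA
  set PB := ∏ w : InfinitePlace K, B w ^ w.mult with hPB
  have hPA1 : 1 ≤ PA := one_le_finprod fun v => nA_one_le v (g v)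
  have hPB1 : 1 ≤ PB := by
    have := Finset.prod_le_prod (s := (univ : Finset (InfinitePlace K))) (f := fun _ => (1 : ℝ))
      (g := fun w => B w ^ w.mult) (fun _ _ => zero_le_one) (fun w _ => one_le_pow₀ (hB1 w))
    simpa using this
  refine ⟨(PA * PB)⁻¹, by positivity, fun u hu => ?_⟩
  obtain ⟨i, hi⟩ : ∃ i, u i ≠ 0 := by
    by_contra h'
    push Not at h'
    exact hu (funext h')
  set X : FinitePlace K → ℝ := fun v => ⨆ j, v ((((g v)⁻¹).val *ᵥ u) j) with hX
  have hX0 : ∀ v, 0 ≤ X v := fun v => Real.iSup_nonneg fun j => apply_nonneg v _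
  have hfinu : ∀ x : K, {v : FinitePlace K | ¬ v x ≤ 1}.Finite := by
    intro x
    by_cases hx : x = 0
    · subst hx
      convert Set.finite_empty
      ext v
      simp
    · refine (FinitePlace.hasFiniteMulSupport hx).subset ?_
      intro v hv
      change v x ≠ 1
      intro h
      apply hv
      rw [h]
  have hXfin : X.HasFiniteMulSupport := by
    have hfin2 : ((⋃ j, {v : FinitePlace K | ¬ v (u j) ≤ 1}) ∪
        (Function.mulSupport fun v : FinitePlace K => v (u i)) ∪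
        {v : FinitePlace K |
          ¬ ((∀ i j, v ((g v).val i j) ≤ 1) ∧ ∀ i j, v (((g v)⁻¹).val i j) ≤ 1)}).Finite :=
      ((Set.finite_iUnion fun j => hfinu (u j)).union
        (FinitePlace.hasFiniteMulSupport hi)).union hg
    refine hfin2.subset ?_
    intro v hv
    by_contra h'
    rw [Set.mem_union, Set.mem_union, not_or, not_or] at h'
    obtain ⟨⟨h1, h2⟩, h3⟩ := h'
    have h3' : (∀ i j, v ((g v).val i j) ≤ 1) ∧ ∀ i j, v (((g v)⁻¹).val i j) ≤ 1 := by
      by_contra h4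
      exact h3 h4
    have h1' : ∀ j, v (u j) ≤ 1 := by
      intro j
      by_contra h4
      exact h1 (Set.mem_iUnion.2 ⟨j, h4⟩)
    have h2' : v (u i) = 1 := by
      by_contra h4
      exact h2 h4
    apply hv
    change X v = 1
    apply le_antisymm
    · apply ciSup_le
      intro j
      change v (∑ k, ((g v)⁻¹).val j k * u k) ≤ 1
      refine fin_sum_le v _ _ 1 zero_le_one fun k _ => ?_
      rw [map_mul]
      exact mul_le_one₀ (h3'.2 j k) (apply_nonneg v _) (h1' k)
    · have h5 := bd_fin v (g v) u i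
      have h6 : nA v (g v) = 1 := by
        unfold nA
        rw [if_pos h3'.1]
      rwa [h6, one_mul, h2'] at h5
  have hprod : (∏ w : InfinitePlace K, w (u i) ^ w.mult) * ∏ᶠ v : FinitePlace K, v (u i) = 1 :=
    prod_abs_eq_one hi
  have hF : ∏ᶠ v : FinitePlace K, v (u i) ≤ PA * ∏ᶠ v, X v := by
    rw [hPA, ← finprod_mul_distrib hA hXfin]
    refine finprod_le_finprod (FinitePlace.hasFiniteMulSupport hi) (fun v => apply_nonneg v _)
      (hA.mul hXfin) fun v => ?_
    exact bd_fin v (g v) u i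
  have hI : ∏ w : InfinitePlace K, w (u i) ^ w.mult ≤
      PB * ∏ w : InfinitePlace K, (⨆ j, w ((((h w)⁻¹).val *ᵥ u) j)) ^ w.mult := by
    rw [hPB, ← Finset.prod_mul_distrib]
    refine Finset.prod_le_prod (fun w _ => pow_nonneg (apply_nonneg w _) _) fun w _ => ?_
    rw [← mul_pow]
    exact pow_le_pow_left₀ (apply_nonneg w _) (hB2 w u i) _
  have hXp : 0 ≤ ∏ᶠ v, X v := finprod_nonneg hX0
  have hYp : 0 ≤ ∏ w : InfinitePlace K, (⨆ j, w ((((h w)⁻¹).val *ᵥ u) j)) ^ w.mult :=
    Finset.prod_nonneg fun w _ => pow_nonneg (Real.iSup_nonneg fun j => apply_nonneg w _) _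
  have htw : tw g h u = (∏ᶠ v, X v) *
      ∏ w : InfinitePlace K, (⨆ j, w ((((h w)⁻¹).val *ᵥ u) j)) ^ w.mult := rfl
  rw [htw, inv_le_iff_one_le_mul₀ (by positivity), ← hprod]
  calc (∏ w : InfinitePlace K, w (u i) ^ w.mult) * ∏ᶠ v : FinitePlace K, v (u i)
      ≤ (PB * ∏ w : InfinitePlace K, (⨆ j, w ((((h w)⁻¹).val *ᵥ u) j)) ^ w.mult) *
          (PA * ∏ᶠ v, X v) :=
        mul_le_mul hI hF (finprod_nonneg fun v => apply_nonneg v _)
          (mul_nonneg (by linarith) hYp)
    _ = _ := by ring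

end Pool.QM.NearMin

namespace Pool.QM

open NumberField

/-- NEARMIN -/
theorem nearMin_proof : Stmt_NearMin := by
  intro K _ _ n g h hg
  obtain ⟨c, hc, hlow⟩ := NearMin.lower g h hg
  set V : Set ℝ := {r | ∃ u : Fin (n + 1) → K, u ≠ 0 ∧ tw g h u = r} with hV
  have hne : V.Nonempty := by
    refine ⟨_, Pi.single 0 1, ?_, rfl⟩
    intro h0
    have := congrFun h0 0
    rw [Pi.single_eq_same] at this
    exact one_ne_zero this
  have hbd : BddBelow V := ⟨c, by
    rintro r ⟨u, hu, rfl⟩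
    exact hlow u hu⟩
  have hI : c ≤ sInf V := le_csInf hne (by
    rintro r ⟨u, hu, rfl⟩
    exact hlow u hu)
  obtain ⟨r, ⟨u, hu, hur⟩, hr⟩ := exists_lt_of_csInf_lt hne (show sInf V < 2 * sInf V by linarith)
  refine ⟨u, hu, lt_of_lt_of_le hc (hlow u hu), fun u' hu' => ?_⟩
  have : sInf V ≤ tw g h u' := csInf_le hbd ⟨u', hu', rfl⟩
  linarith

end Pool.QM
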