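import Pool.Agent.QM.RedAux

/-!
RED: reduction of representations to boxes (from SIEGEL, LOCV, LOCAE).
-/

set_option autoImplicit false
set_option linter.unusedSectionVars false

namespace Pool.QM.Red

open Finset NumberField

variable {K : Type} [Field K] [NumberField K]

/-- choice of the local elements -/
lemma choice (hLV : Stmt_LocV) (hLA : Stmt_LocAE) (Q : Quiv) (hQ : Q.Acyclic)
    (ℓ : Fin Q.nv → ℤ) (n : ℕ) (hn : 1 ≤ n) (ι : Type) [Fintype ι]
    (s : ι → MvPolynomial Q.Coord K) (hs : ∀ j, Q.SemiInv (fun i => n * ℓ i) (s j))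
    (hB : Q.Bpf ℓ s) :
    ∃ (cf : FinitePlace K → ℝ) (ci : InfinitePlace K → ℝ), (∀ v, 0 < cf v) ∧
      cf.HasFiniteMulSupport ∧ (∀ w, 0 < ci w) ∧
      ∀ x : Q.Rep K, (∃ j, Q.ev (s j) x ≠ 0) →
        ∃ (g : FinitePlace K → Q.Grp K) (h : InfinitePlace K → Q.Grp K),
          {v | g v ≠ 1}.Finite ∧ (∀ v, nb v.1 (Q.act (g v)⁻¹ x)) ∧
          (∀ v, ∃ j, cf v ≤ v (Q.ev (s j) (Q.act (g v)⁻¹ x))) ∧
          (∀ w, nb w.1 (Q.act (h w)⁻¹ x)) ∧
          ∀ w, ∃ j, ci w ≤ w (Q.ev (s j) (Q.act (h w)⁻¹ x)) := by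
  classical
  have hf := fun v : FinitePlace K => hLV K v.1 (fin_nontrivial v) Q hQ ℓ n hn ι s hs hB
  choose c1 hc1 hc1' using hf
  have hi := fun w : InfinitePlace K => hLV K w.1 (inf_nontrivial w) Q hQ ℓ n hn ι s hs hB
  choose c2 hc2 hc2' using hi
  have hbad := hLA K Q hQ ℓ n hn ι s hs hB
  set Bad := {v : FinitePlace K | ¬ ∀ x : Q.Rep K, (∃ j, Q.ev (s j) x ≠ 0) →
      ∃ g : Q.Grp K, nb v.1 (Q.act g⁻¹ x) ∧ ∃ j, 1 ≤ v (Q.ev (s j) (Q.act g⁻¹ x))} with hBad
  refine ⟨fun v => if v ∈ Bad then c1 v else 1, c2, ?_, ?_, hc2, ?_⟩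
  · intro v
    simp only
    split_ifs
    · exact hc1 v
    · exact one_pos
  · refine hbad.subset fun v hv => ?_
    rw [Function.mem_mulSupport] at hv
    by_contra h
    exact hv (if_neg h)
  intro x hx
  have h1 : ∀ v : FinitePlace K, ∃ g : Q.Grp K, nb v.1 (Q.act g⁻¹ x) ∧
      (∃ j, (if v ∈ Bad then c1 v else 1) ≤ v (Q.ev (s j) (Q.act g⁻¹ x))) ∧
      (v ∉ Bad → nb v.1 x → (∃ j, 1 ≤ v (Q.ev (s j) x)) → g = 1) := by
    intro v
    by_cases hv : v ∈ Bad
    · obtain ⟨g, hg1, j, hj⟩ := hc1' v x hx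
      refine ⟨g, hg1, ⟨j, ?_⟩, fun h => absurd hv h⟩
      rw [if_pos hv]
      exact hj
    · by_cases hv2 : nb v.1 x ∧ ∃ j, 1 ≤ v (Q.ev (s j) x)
      · refine ⟨1, ?_, ?_, fun _ _ _ => rfl⟩
        · rw [inv_one, Q.act_one]
          exact hv2.1
        · rw [inv_one, Q.act_one, if_neg hv]
          exact hv2.2
      · have hv3 : ∀ x : Q.Rep K, (∃ j, Q.ev (s j) x ≠ 0) →
            ∃ g : Q.Grp K, nb v.1 (Q.act g⁻¹ x) ∧ ∃ j, 1 ≤ v (Q.ev (s j) (Q.act g⁻¹ x)) := by
          by_contra h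
          exact hv h
        obtain ⟨g, hg1, hg2⟩ := hv3 x hx
        refine ⟨g, hg1, ?_, fun _ h2 h3 => absurd ⟨h2, h3⟩ hv2⟩
        rw [if_neg hv]
        exact hg2
  choose g hg1 hg2 hg3 using h1
  have h2 := fun w : InfinitePlace K => hc2' w x hx
  choose h hh1 hh2 using h2
  refine ⟨g, h, ?_, hg1, hg2, hh1, hh2⟩
  obtain ⟨j0, hj0⟩ := hx
  have hfin1 : {v : FinitePlace K | v (Q.ev (s j0) x) ≠ 1}.Finite := hfms_elt hj0
  have hfin2 : {v : FinitePlace K | ¬ nb v.1 x}.Finite := by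
    have : {v : FinitePlace K | ¬ nb v.1 x} ⊆
        ⋃ a, ⋃ i, ⋃ j, {v : FinitePlace K | ¬ v (x a i j) ≤ 1} := by
      intro v hv
      rw [Set.mem_setOf_eq, nb] at hv
      push Not at hv
      obtain ⟨a, i, j, h⟩ := hv
      simp only [Set.mem_iUnion]
      exact ⟨a, i, j, not_le.2 h⟩
    refine Set.Finite.subset ?_ this
    refine Set.finite_iUnion fun a => Set.finite_iUnion fun i => Set.finite_iUnion fun j => ?_
    by_cases h0 : x a i j = 0
    · refine Set.Finite.subset Set.finite_empty fun v hv => ?_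
      rw [Set.mem_setOf_eq, h0, map_zero] at hv
      exact hv zero_le_one
    · refine (hfms_elt h0).subset fun v hv => ?_
      rw [Function.mem_mulSupport]
      intro h1
      exact hv (le_of_eq h1)
  refine ((hbad.union hfin2).union hfin1).subset fun v hv => ?_
  by_contra hn1
  simp only [Set.mem_union, Set.mem_setOf_eq, not_or, not_not] at hn1
  exact hv (hg3 v hn1.1.1 hn1.1.2 ⟨j0, le_of_eq hn1.2.symm⟩)

lemma chr_ne_zero {Q : Quiv} (χ : Fin Q.nv → ℤ) (g : Q.Grp K) : Q.chr χ g ≠ 0 := by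
  unfold Quiv.chr
  rw [Finset.prod_ne_zero_iff]
  intro i _
  refine zpow_ne_zero _ ?_
  exact ((Matrix.isUnit_iff_isUnit_det _).1 (g i).isUnit).ne_zero

lemma chr_nat_mul {Q : Quiv} (ℓ : Fin Q.nv → ℤ) (n : ℕ) (g : Q.Grp K) :
    Q.chr (fun i => n * ℓ i) g = Q.chr ℓ g ^ n := by
  unfold Quiv.chr
  rw [← Finset.prod_pow]
  refine Finset.prod_congr rfl fun i _ => ?_
  show (g i).val.det ^ ((n : ℤ) * ℓ i) = _
  rw [mul_comm, zpow_mul, zpow_natCast]

lemma chr_one {Q : Quiv} (χ : Fin Q.nv → ℤ) : Q.chr χ (1 : Q.Grp K) = 1 := by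
  unfold Quiv.chr
  simp

/-- lower bound for the height -/
lemma height_lower {Q : Quiv} (ℓ : Fin Q.nv → ℤ) (n : ℕ) (ι : Type) [Fintype ι]
    (s : ι → MvPolynomial Q.Coord K) (hs : ∀ j, Q.SemiInv (fun i => n * ℓ i) (s j))
    (cf : FinitePlace K → ℝ) (ci : InfinitePlace K → ℝ) (hcf : ∀ v, 0 < cf v)
    (hcfs : cf.HasFiniteMulSupport) (hci : ∀ w, 0 < ci w) (x : Q.Rep K)
    (hx : ∃ j, Q.ev (s j) x ≠ 0) (g : FinitePlace K → Q.Grp K) (h : InfinitePlace K → Q.Grp K)
    (hg : {v | g v ≠ 1}.Finite)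
    (hg2 : ∀ v, ∃ j, cf v ≤ v (Q.ev (s j) (Q.act (g v)⁻¹ x)))
    (hh2 : ∀ w, ∃ j, ci w ≤ w (Q.ev (s j) (Q.act (h w)⁻¹ x))) :
    pf (fun v => v (Q.chr ℓ (g v))) (fun w => w (Q.chr ℓ (h w))) ^ n * pf cf ci
      ≤ Height.mulHeight (fun j => Q.ev (s j) x) := by
  have hne : (fun j => Q.ev (s j) x) ≠ 0 := by
    obtain ⟨j, hj⟩ := hx
    exact fun h0 => hj (congrFun h0 j)
  have hfs : (fun v : FinitePlace K => v (Q.chr ℓ (g v))).HasFiniteMulSupport := by
    refine hg.subset fun v hv => ?_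
    rw [Function.mem_mulSupport] at hv
    intro h1
    exact hv (by rw [h1, chr_one, map_one])
  have hfs2 : (fun v : FinitePlace K => ⨆ j, v (Q.ev (s j) x)).HasFiniteMulSupport :=
    hfms_sup hne
  have key : ∀ g : Q.Grp K, ∀ j, Q.ev (s j) x = Q.chr ℓ g ^ n * Q.ev (s j) (Q.act g⁻¹ x) := by
    intro g j
    have h1 := hs j g (Q.act g⁻¹ x)
    rw [← Q.act_mul, mul_inv_cancel, Q.act_one, chr_nat_mul] at h1
    exact h1
  rw [NumberField.mulHeight_eq hne, mul_comm (∏ v : InfinitePlace K, _), ← pf_pow hfs,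
    ← pf_mul (f := fun v => v (Q.chr ℓ (g v)) ^ n) (g := fun w => w (Q.chr ℓ (h w)) ^ n)
      (hfms_pow hfs n) hcfs]
  refine pf_mono (hfms_mul (hfms_pow hfs n) hcfs) hfs2 ?_ ?_ ?_ ?_
  · intro v
    exact mul_nonneg (pow_nonneg (apply_nonneg _ _) _) (hcf v).le
  · intro v
    obtain ⟨j, hj⟩ := hg2 v
    have h1 : v (Q.ev (s j) x) ≤ ⨆ j, v (Q.ev (s j) x) :=
      le_ciSup (f := fun j => v (Q.ev (s j) x)) (Set.finite_range _).bddAbove j
    refine le_trans ?_ h1
    rw [key (g v) j, map_mul, map_pow]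
    exact mul_le_mul_of_nonneg_left hj (pow_nonneg (apply_nonneg _ _) _)
  · intro w
    exact mul_nonneg (pow_nonneg (apply_nonneg _ _) _) (hci w).le
  · intro w
    obtain ⟨j, hj⟩ := hh2 w
    have h1 : w (Q.ev (s j) x) ≤ ⨆ j, w (Q.ev (s j) x) :=
      le_ciSup (f := fun j => w (Q.ev (s j) x)) (Set.finite_range _).bddAbove j
    refine le_trans ?_ h1
    rw [key (h w) j, map_mul, map_pow]
    exact mul_le_mul_of_nonneg_left hj (pow_nonneg (apply_nonneg _ _) _)

lemma act_split {Q : Quiv} (γ g : Q.Grp K) (x : Q.Rep K) (a : Fin Q.na) :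
    Q.act γ⁻¹ x a = ((γ (Q.hd a))⁻¹ * g (Q.hd a)).val * Q.act g⁻¹ x a *
      ((g (Q.tl a))⁻¹ * γ (Q.tl a)).val := by
  simp only [Quiv.act, Pi.inv_apply, inv_inv, Units.val_mul]
  have h1 : (g (Q.hd a)).val * ((g (Q.hd a))⁻¹).val = 1 := by
    rw [← Units.val_mul, mul_inv_cancel, Units.val_one]
  have h2 : (g (Q.tl a)).val * ((g (Q.tl a))⁻¹).val = 1 := by
    rw [← Units.val_mul, mul_inv_cancel, Units.val_one]
  simp only [Matrix.mul_assoc]
  rw [← Matrix.mul_assoc (g (Q.hd a)).val, h1, Matrix.one_mul,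
    ← Matrix.mul_assoc (g (Q.tl a)).val, h2, Matrix.one_mul]

lemma inf_mul_entry {m n p : ℕ} (w : InfinitePlace K) (A : Matrix (Fin m) (Fin n) K)
    (B : Matrix (Fin n) (Fin p) K) (a : Fin m → ℝ) (b : Fin p → ℝ) (ha : ∀ i, 0 ≤ a i)
    (hA : ∀ i j, w (A i j) ≤ a i) (hB : ∀ i j, w (B i j) ≤ b j) (i : Fin m) (j : Fin p) :
    w ((A * B) i j) ≤ n * a i * b j := by
  rw [Matrix.mul_apply]
  refine (inf_sum_le w _ _).trans ?_
  have h : ∀ k : Fin n, w (A i k * B k j) ≤ a i * b j := by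
    intro k
    rw [map_mul]
    exact mul_le_mul (hA i k) (hB k j) (apply_nonneg _ _) (ha i)
  refine (Finset.sum_le_sum fun k _ => h k).trans (le_of_eq ?_)
  rw [Finset.sum_const, Finset.card_univ, Fintype.card_fin, nsmul_eq_mul]
  ring

lemma zpow_compare {a b M : ℝ} (ha : 0 < a) (hb : 0 < b) (hM : 1 ≤ M) (h1 : a ≤ M * b)
    (h2 : b ≤ M * a) (n : ℤ) : a ^ n ≤ M ^ n.natAbs * b ^ n := by
  have hM0 : 0 < M := by linarith
  cases n with
  | ofNat n =>
    simp only [Int.ofNat_eq_natCast, zpow_natCast, Int.natAbs_natCast]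
    rw [← mul_pow]
    exact pow_le_pow_left₀ ha.le h1 n
  | negSucc n =>
    simp only [zpow_negSucc, Int.natAbs_negSucc]
    have h3 : (a ^ (n + 1))⁻¹ = ((a ^ (n + 1)))⁻¹ := rfl
    rw [inv_le_iff_one_le_mul₀ (by positivity)]
    have h4 : b ^ (n + 1) ≤ (M * a) ^ (n + 1) := pow_le_pow_left₀ hb.le h2 _
    rw [mul_pow] at h4
    have h5 : 0 < b ^ (n + 1) := by positivity
    calc (1 : ℝ) = b ^ (n + 1) * (b ^ (n + 1))⁻¹ := by field_simp
      _ ≤ (M ^ (n + 1) * a ^ (n + 1)) * (b ^ (n + 1))⁻¹ := by gcongr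
      _ = M ^ (n + 1) * (b ^ (n + 1))⁻¹ * a ^ (n + 1) := by ring

/-- determinants: comparison of `∏ t` with the module of the family of determinants -/
lemma det_compare {n : ℕ} {C : ℝ} {D : ℕ} (hC : 1 ≤ C) (hD : D ≠ 0)
    (g : FinitePlace K → GL (Fin n) K) (h : InfinitePlace K → GL (Fin n) K)
    (hg : {v | g v ≠ 1}.Finite) (γ : GL (Fin n) K) (t : Fin n → ℝ) (ht : ∀ l, 0 < t l)
    (h1 : ∀ (v : FinitePlace K) i l, v (((g v)⁻¹ * γ).val i l) ≤ 1)
    (h2 : ∀ (v : FinitePlace K) l j, v ((D : K) * (γ⁻¹ * g v).val l j) ≤ 1)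
    (h3 : ∀ (w : InfinitePlace K) i l, w (((h w)⁻¹ * γ).val i l) ≤ C / t l)
    (h4 : ∀ (w : InfinitePlace K) l j, w ((γ⁻¹ * h w).val l j) ≤ C * t l) :
    (∏ l, t l) ^ Module.finrank ℚ K ≤ ((D : ℝ) ^ n * (n.factorial * C ^ n)) ^ Module.finrank ℚ K *
        pf (fun v => v (g v).val.det) (fun w => w (h w).val.det) ∧
    pf (fun v => v (g v).val.det) (fun w => w (h w).val.det) ≤
      ((D : ℝ) ^ n * (n.factorial * C ^ n)) ^ Module.finrank ℚ K *
        (∏ l, t l) ^ Module.finrank ℚ K := by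
  set d := Module.finrank ℚ K with hd
  have hC0 : 0 < C := by linarith
  have hT : 0 < ∏ l, t l := Finset.prod_pos fun l _ => ht l
  set T := ∏ l, t l with hTdef
  have hD1 : (1 : ℝ) ≤ D := by exact_mod_cast Nat.one_le_iff_ne_zero.2 hD
  have hDK : (D : K) ≠ 0 := by exact_mod_cast hD
  have hn1 : (1 : ℝ) ≤ n.factorial := by exact_mod_cast Nat.succ_le_of_lt (Nat.factorial_pos n)
  have hdet : ∀ u : GL (Fin n) K, u.val.det ≠ 0 := fun u =>
    ((Matrix.isUnit_iff_isUnit_det _).1 u.isUnit).ne_zero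
  have hfs : (fun v : FinitePlace K => v (g v).val.det).HasFiniteMulSupport := by
    refine hg.subset fun v hv => ?_
    rw [Function.mem_mulSupport] at hv
    intro h1
    exact hv (by rw [h1, Units.val_one, Matrix.det_one, map_one])
  have hγ := hdet γ
  have hinv : ∀ u u' : GL (Fin n) K, (u⁻¹ * u').val.det = u.val.det⁻¹ * u'.val.det := by
    intro u u'
    rw [Units.val_mul, Matrix.det_mul]
    congr 1
    refine eq_inv_of_mul_eq_one_left ?_
    rw [← Matrix.det_mul, ← Units.val_mul, inv_mul_cancel, Units.val_one, Matrix.det_one]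
  constructor
  · have e1 : (1 : ℝ) ≤ pf (fun v : FinitePlace K => v (g v).val.det * 1)
        (fun w => w (h w).val.det * ((n.factorial : ℝ) * C ^ n / T)) := by
      refine le_trans (le_of_eq (pf_elt hγ).symm) ?_
      refine pf_mono (hfms_elt hγ) (hfms_mul hfs hfms_one) (fun v => apply_nonneg _ _) ?_
        (fun w => apply_nonneg _ _) ?_
      · intro v
        have := fin_det_le v _ (h1 v)
        rw [hinv, map_mul, map_inv₀, inv_mul_le_iff₀ (FinitePlace.pos_iff.2 (hdet _))] at this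
        exact this
      · intro w
        have := inf_det_le w _ _ (h3 w)
        rw [hinv, map_mul, map_inv₀, inv_mul_le_iff₀ (InfinitePlace.pos_iff.2 (hdet _)),
          Finset.prod_div_distrib, Finset.prod_const, Finset.card_univ, Fintype.card_fin] at this
        rw [mul_div_assoc]
        exact this
    have e2 := pf_mul (f := fun v : FinitePlace K => v (g v).val.det) (f' := fun _ => 1)
      (g := fun w : InfinitePlace K => w (h w).val.det)
      (g' := fun _ => ((n.factorial : ℝ) * C ^ n / T)) hfs hfms_one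
    rw [e2, pf_const, div_pow] at e1
    have e3 : T ^ d ≤ ((n.factorial : ℝ) * C ^ n) ^ d *
        pf (fun v : FinitePlace K => v (g v).val.det) (fun w => w (h w).val.det) := by
      have hTd : 0 < T ^ d := by positivity
      rw [← mul_div_assoc, le_div_iff₀ hTd, one_mul] at e1
      linarith
    refine e3.trans ?_
    have hpf : 0 < pf (fun v : FinitePlace K => v (g v).val.det) (fun w => w (h w).val.det) :=
      pf_pos (fun v => FinitePlace.pos_iff.2 (hdet _)) fun w => InfinitePlace.pos_iff.2 (hdet _)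
    have hDn : (1 : ℝ) ≤ (D : ℝ) ^ n := one_le_pow₀ hD1
    have hnc : (0 : ℝ) < n.factorial * C ^ n := by positivity
    have h5 : (n.factorial : ℝ) * C ^ n ≤ (D : ℝ) ^ n * (n.factorial * C ^ n) :=
      le_mul_of_one_le_left hnc.le hDn
    exact mul_le_mul_of_nonneg_right (pow_le_pow_left₀ hnc.le h5 d) hpf.le
  · set y : K := ((D : K) ^ n)⁻¹ with hy
    have hy0 : y ≠ 0 := inv_ne_zero (pow_ne_zero _ hDK)
    have e1 : pf (fun v : FinitePlace K => v (g v).val.det) (fun w => w (h w).val.det) ≤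
        pf (fun v : FinitePlace K => v y * v γ.val.det * 1)
          (fun w => w y * w γ.val.det * ((D : ℝ) ^ n * (n.factorial * C ^ n) * T)) := by
      refine pf_mono hfs (hfms_mul (hfms_mul (hfms_elt hy0) (hfms_elt hγ)) hfms_one)
        (fun v => apply_nonneg _ _) ?_ (fun w => apply_nonneg _ _) ?_
      · intro v
        have hm : ∀ i j, v (((D : K) • (γ⁻¹ * g v).val) i j) ≤ 1 := by
          intro i j
          rw [Matrix.smul_apply, smul_eq_mul]
          exact h2 v i j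
        have := fin_det_le v _ hm
        rw [Matrix.det_smul, hinv, Fintype.card_fin, map_mul, map_mul, map_inv₀] at this
        have hDv : 0 < v ((D : K) ^ n) := FinitePlace.pos_iff.2 (pow_ne_zero _ hDK)
        have hγv : 0 < v γ.val.det := FinitePlace.pos_iff.2 hγ
        rw [mul_one, hy, map_inv₀]
        calc v (g v).val.det = (v ((D : K) ^ n))⁻¹ * v γ.val.det *
              (v ((D : K) ^ n) * ((v γ.val.det)⁻¹ * v (g v).val.det)) := by field_simp
          _ ≤ (v ((D : K) ^ n))⁻¹ * v γ.val.det * 1 := by gcongr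
          _ = _ := by ring
      · intro w
        have := inf_det_le' w _ _ (h4 w)
        rw [hinv, map_mul, map_inv₀, Finset.prod_mul_distrib, Finset.prod_const, Finset.card_univ,
          Fintype.card_fin] at this
        have hγw : 0 < w γ.val.det := InfinitePlace.pos_iff.2 hγ
        rw [inv_mul_le_iff₀ hγw] at this
        have hyw : w y = ((D : ℝ) ^ n)⁻¹ := by
          rw [hy, map_inv₀, map_pow, inf_natCast]
        rw [hyw]
        refine this.trans (le_of_eq ?_)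
        rw [← hTdef]
        field_simp
    refine e1.trans (le_of_eq ?_)
    have e2 := pf_mul (f := fun v : FinitePlace K => v y * v γ.val.det) (f' := fun _ => 1)
      (g := fun w : InfinitePlace K => w y * w γ.val.det)
      (g' := fun _ => ((D : ℝ) ^ n * (n.factorial * C ^ n) * T))
      (hfms_mul (hfms_elt hy0) (hfms_elt hγ)) hfms_one
    rw [e2, pf_const, pf_mul (hfms_elt hy0) (hfms_elt hγ), pf_elt hy0, pf_elt hγ, mul_pow]
    ring

end Pool.QM.Red

namespace Pool.QM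

open Finset NumberField Red

theorem red_proof (hS : Stmt_Siegel) (hLV : Stmt_LocV) (hLA : Stmt_LocAE) : Stmt_Red := by
  intro K _ _ Q hQ ℓ n hn ι _ s hs hB
  classical
  obtain ⟨cf, ci, hcf, hcfs, hci, hloc⟩ := choice hLV hLA Q hQ ℓ n hn ι s hs hB
  have hS' := fun i : Fin Q.nv => hS K (Q.d i)
  choose C0 D0 hC0 hD0 hSie using hS'
  set d := Module.finrank ℚ K with hd
  have hd0 : 0 < d := Module.finrank_pos
  set c := pf cf ci with hc
  have hc0 : 0 < c := pf_pos hcf hci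
  have hC00 : ∀ i, 0 < C0 i := fun i => lt_of_lt_of_le one_pos (hC0 i)
  -- constants for the determinants
  set M : Fin Q.nv → ℝ := fun i =>
    ((D0 i : ℝ) ^ (Q.d i) * ((Q.d i).factorial * C0 i ^ (Q.d i))) ^ d with hM
  have hM1 : ∀ i, 1 ≤ M i := by
    intro i
    have h1 : (1 : ℝ) ≤ D0 i := by exact_mod_cast Nat.one_le_iff_ne_zero.2 (hD0 i)
    have h2 : (1 : ℝ) ≤ (Q.d i).factorial := by
      exact_mod_cast Nat.succ_le_of_lt (Nat.factorial_pos _)
    refine one_le_pow₀ (one_le_mul_of_one_le_of_one_le (one_le_pow₀ h1)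
      (one_le_mul_of_one_le_of_one_le h2 (one_le_pow₀ (hC0 i))))
  set A : ℝ := ∑ a, (Q.d (Q.hd a) : ℝ) * Q.d (Q.tl a) * C0 (Q.hd a) * C0 (Q.tl a) with hA
  have hA0 : 0 ≤ A := Finset.sum_nonneg fun a _ => by
    have := hC00 (Q.hd a); have := hC00 (Q.tl a); positivity
  set B : ℝ := (∏ i, M i ^ (ℓ i).natAbs) * (1 / c) ^ (1 / (n : ℝ)) with hBd
  have hB0 : 0 ≤ B := by
    refine mul_nonneg (Finset.prod_nonneg fun i _ => pow_nonneg (by linarith [hM1 i]) _) ?_
    positivity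
  refine ⟨1 + A + B, ∏ i, D0 i, by linarith, Finset.prod_ne_zero_iff.2 fun i _ => hD0 i, ?_⟩
  intro x hx
  obtain ⟨g, h, hg, hg1, hg2, hh1, hh2⟩ := hloc x hx
  have hgood : ∀ i, Good (fun v => g v i) := by
    intro i
    refine hg.subset fun v hv => ?_
    intro h1
    apply hv
    have h2 : ∀ k l, v ((1 : Matrix (Fin (Q.d i)) (Fin (Q.d i)) K) k l) ≤ 1 := by
      intro k l
      rw [Matrix.one_apply]
      split_ifs
      · rw [map_one]
      · rw [map_zero]; exact zero_le_one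
    have h3 : g v i = 1 := by rw [h1]; rfl
    refine ⟨fun k l => ?_, fun k l => ?_⟩
    · show v ((g v i).val k l) ≤ 1
      rw [h3]
      exact h2 k l
    · show v (((g v i)⁻¹).val k l) ≤ 1
      rw [h3, inv_one]
      exact h2 k l
  have hSx := fun i : Fin Q.nv => hSie i (fun v => g v i) (fun w => h w i) (hgood i)
  choose γ t ht h1 h2 h3 h4 using hSx
  refine ⟨γ, t, ht, ?_, ?_, ?_⟩
  · -- integrality
    intro a i j
    refine integral_of fun v => ?_
    rw [act_split γ (g v) x a]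
    set z := (((γ (Q.hd a))⁻¹ * g v (Q.hd a)).val * Q.act (g v)⁻¹ x a *
      ((g v (Q.tl a))⁻¹ * γ (Q.tl a)).val) i j with hz
    have hDv : 0 < v ((D0 (Q.hd a) : ℕ) : K) :=
      FinitePlace.pos_iff.2 (by exact_mod_cast hD0 (Q.hd a))
    have e1 : ∀ k l, v (((γ (Q.hd a))⁻¹ * g v (Q.hd a)).val k l) ≤ (v ((D0 (Q.hd a) : ℕ) : K))⁻¹ := by
      intro k l
      have := h2 (Q.hd a) v k l
      rw [map_mul] at this
      exact (le_inv_mul_iff₀ hDv).2 this |>.trans (le_of_eq (mul_one _))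
    have e2 := fin_mul_entry v ((γ (Q.hd a))⁻¹ * g v (Q.hd a)).val (Q.act (g v)⁻¹ x a)
      (inv_nonneg.2 hDv.le) zero_le_one e1 (fun k l => hg1 v a k l)
    have e3 := fin_mul_entry v _ ((g v (Q.tl a))⁻¹ * γ (Q.tl a)).val
      (mul_nonneg (inv_nonneg.2 hDv.le) zero_le_one) zero_le_one e2
      (fun k l => h1 (Q.tl a) v k l) i j
    rw [← hz, mul_one, mul_one] at e3
    have e4 : ((∏ i, D0 i : ℕ) : K) = ((D0 (Q.hd a) : ℕ) : K) *
        ((∏ i ∈ Finset.univ.erase (Q.hd a), D0 i : ℕ) : K) := by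
      rw [← Nat.cast_mul, Finset.mul_prod_erase _ _ (Finset.mem_univ _)]
    rw [e4, map_mul, map_mul]
    calc v ((D0 (Q.hd a) : ℕ) : K) * v ((∏ i ∈ Finset.univ.erase (Q.hd a), D0 i : ℕ) : K) * v z
        ≤ v ((D0 (Q.hd a) : ℕ) : K) * 1 * (v ((D0 (Q.hd a) : ℕ) : K))⁻¹ := by
          gcongr
          exact fin_natCast_le v _
      _ = 1 := by field_simp
  · -- infinite places
    intro w a i j
    rw [act_split γ (h w) x a]
    have ha0 : ∀ k, 0 ≤ C0 (Q.hd a) * t (Q.hd a) k := fun k =>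
      mul_nonneg (hC00 _).le (ht _ k).le
    have e2 := inf_mul_entry w ((γ (Q.hd a))⁻¹ * h w (Q.hd a)).val (Q.act (h w)⁻¹ x a)
      (fun k => C0 (Q.hd a) * t (Q.hd a) k) (fun _ => 1) ha0 (fun k l => h4 (Q.hd a) w k l)
      (fun k l => hh1 w a k l)
    have e3 := inf_mul_entry w _ ((h w (Q.tl a))⁻¹ * γ (Q.tl a)).val
      (fun k => (Q.d (Q.hd a) : ℝ) * (C0 (Q.hd a) * t (Q.hd a) k) * 1)
      (fun l => C0 (Q.tl a) / t (Q.tl a) l)
      (fun k => mul_nonneg (mul_nonneg (Nat.cast_nonneg _) (ha0 k)) zero_le_one) e2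
      (fun k l => h3 (Q.tl a) w k l) i j
    refine e3.trans ?_
    have hti := ht (Q.hd a) i
    have htj := ht (Q.tl a) j
    have e4 : (Q.d (Q.hd a) : ℝ) * Q.d (Q.tl a) * C0 (Q.hd a) * C0 (Q.tl a) ≤ 1 + A + B := by
      have : (Q.d (Q.hd a) : ℝ) * Q.d (Q.tl a) * C0 (Q.hd a) * C0 (Q.tl a) ≤ A := by
        rw [hA]
        exact Finset.single_le_sum (f := fun a => (Q.d (Q.hd a) : ℝ) * Q.d (Q.tl a) *
          C0 (Q.hd a) * C0 (Q.tl a)) (fun a _ => by
            have := hC00 (Q.hd a); have := hC00 (Q.tl a); positivity) (Finset.mem_univ a)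
      linarith
    calc (Q.d (Q.tl a) : ℝ) * ((Q.d (Q.hd a) : ℝ) * (C0 (Q.hd a) * t (Q.hd a) i) * 1) *
          (C0 (Q.tl a) / t (Q.tl a) j)
        = ((Q.d (Q.hd a) : ℝ) * Q.d (Q.tl a) * C0 (Q.hd a) * C0 (Q.tl a)) *
          (t (Q.hd a) i / t (Q.tl a) j) := by ring
      _ ≤ (1 + A + B) * (t (Q.hd a) i / t (Q.tl a) j) := by
          gcongr
  · -- height
    set Δ : Fin Q.nv → ℝ := fun i =>
      pf (fun v : FinitePlace K => v (g v i).val.det) (fun w : InfinitePlace K => w (h w i).val.det)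
      with hΔ
    have hdet : ∀ i, ∀ u : GL (Fin (Q.d i)) K, u.val.det ≠ 0 := fun i u =>
      ((Matrix.isUnit_iff_isUnit_det _).1 u.isUnit).ne_zero
    have hΔ0 : ∀ i, 0 < Δ i := fun i =>
      pf_pos (fun v => FinitePlace.pos_iff.2 (hdet _ _)) fun w => InfinitePlace.pos_iff.2 (hdet _ _)
    have hT0 : ∀ i, 0 < ∏ l, t i l := fun i => Finset.prod_pos fun l _ => ht i l
    have hgi : ∀ i, {v | g v i ≠ 1}.Finite := by
      intro i
      refine hg.subset fun v hv h1 => hv (by rw [h1]; rfl)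
    have hcmp := fun i => det_compare (hC0 i) (hD0 i) (fun v => g v i) (fun w => h w i) (hgi i)
      (γ i) (t i) (ht i) (h1 i) (h2 i) (h3 i) (h4 i)
    have e1 : (∏ i, (∏ l, t i l) ^ (ℓ i)) ^ d ≤ (∏ i, M i ^ (ℓ i).natAbs) * ∏ i, Δ i ^ (ℓ i) := by
      rw [← Finset.prod_pow, ← Finset.prod_mul_distrib]
      refine Finset.prod_le_prod (fun i _ => pow_nonneg (zpow_nonneg (hT0 i).le _) _) fun i _ => ?_
      have := zpow_compare (a := (∏ l, t i l) ^ d) (b := Δ i) (M := M i) (pow_pos (hT0 i) d) (hΔ0 i)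
        (hM1 i) (hcmp i).1 (hcmp i).2 (ℓ i)
      rw [← zpow_natCast, ← zpow_mul, mul_comm, zpow_mul, zpow_natCast]
      exact this
    have hfsi : ∀ i, (fun v : FinitePlace K => v (g v i).val.det).HasFiniteMulSupport := by
      intro i
      refine (hgi i).subset fun v hv => ?_
      rw [Function.mem_mulSupport] at hv
      intro h1
      exact hv (by rw [h1, Units.val_one, Matrix.det_one, map_one])
    have e2 : ∏ i, Δ i ^ (ℓ i) = pf (fun v => v (Q.chr ℓ (g v))) (fun w => w (Q.chr ℓ (h w))) := by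
      have e3 : (fun v : FinitePlace K => v (Q.chr ℓ (g v))) =
          fun v => ∏ i, v (g v i).val.det ^ (ℓ i) := by
        funext v
        rw [Quiv.chr, map_prod]
        exact Finset.prod_congr rfl fun i _ => map_zpow₀ v _ _
      have e4 : (fun w : InfinitePlace K => w (Q.chr ℓ (h w))) =
          fun w => ∏ i, w (h w i).val.det ^ (ℓ i) := by
        funext w
        rw [Quiv.chr, map_prod]
        exact Finset.prod_congr rfl fun i _ => map_zpow₀ w _ _
      rw [e3, e4, pf_prod (f := fun i v => v (g v i).val.det ^ (ℓ i))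
        (g := fun i w => w (h w i).val.det ^ (ℓ i)) Finset.univ fun i _ => hfms_zpow (hfsi i) _]
      refine Finset.prod_congr rfl fun i _ => ?_
      rw [pf_zpow (f := fun v => v (g v i).val.det) (hfsi i)]
    have e5 := height_lower ℓ n ι s hs cf ci hcf hcfs hci x hx g h hg hg2 hh2
    rw [← e2] at e5
    have hP0 : 0 ≤ ∏ i, Δ i ^ (ℓ i) := Finset.prod_nonneg fun i _ => zpow_nonneg (hΔ0 i).le _
    have hn0 : (n : ℝ) ≠ 0 := by positivity
    have e6 : ∏ i, Δ i ^ (ℓ i) ≤ (1 / c) ^ (1 / (n : ℝ)) * Q.height n s x := by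
      unfold Quiv.height
      rw [← Real.mul_rpow (by positivity) (Height.mulHeight_pos _).le]
      have e7 : (∏ i, Δ i ^ (ℓ i)) ^ n ≤ 1 / c * Height.mulHeight (fun j => Q.ev (s j) x) := by
        rw [one_div_mul_eq_div, le_div_iff₀ hc0]
        exact e5
      calc ∏ i, Δ i ^ (ℓ i) = ((∏ i, Δ i ^ (ℓ i)) ^ n) ^ (1 / (n : ℝ)) := by
            rw [← Real.rpow_natCast, ← Real.rpow_mul hP0, mul_one_div_cancel hn0, Real.rpow_one]
        _ ≤ _ := Real.rpow_le_rpow (pow_nonneg hP0 _) e7 (by positivity)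
    have hH0 : 0 ≤ Q.height n s x := by
      unfold Quiv.height
      exact Real.rpow_nonneg (Height.mulHeight_pos _).le _
    have hMn : 0 ≤ ∏ i, M i ^ (ℓ i).natAbs :=
      Finset.prod_nonneg fun i _ => pow_nonneg (by linarith [hM1 i]) _
    calc (∏ i, (∏ l, t i l) ^ (ℓ i)) ^ d ≤ (∏ i, M i ^ (ℓ i).natAbs) * ∏ i, Δ i ^ (ℓ i) := e1
      _ ≤ (∏ i, M i ^ (ℓ i).natAbs) * ((1 / c) ^ (1 / (n : ℝ)) * Q.height n s x) := by gcongr
      _ = B * Q.height n s x := by rw [hBd]; ring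
      _ ≤ (1 + A + B) * Q.height n s x := by
          gcongr
          linarith

end Pool.QM
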