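import Mathlib
import Pool.Agent.QM.Stmts

set_option autoImplicit false

namespace Pool.QM

open Finset

namespace SI

/-- the diagonal matrix with `s` at the first `e` places -/
noncomputable def dg {K : Type} [Field K] (n e : ℕ) (s : K) (hs : s ≠ 0) : GL (Fin n) K where
  val := Matrix.diagonal fun l : Fin n => if l.val < e then s else 1
  inv := Matrix.diagonal fun l : Fin n => if l.val < e then s⁻¹ else 1
  val_inv := by
    rw [Matrix.diagonal_mul_diagonal, ← Matrix.diagonal_one]
    congr 1
    funext l
    split_ifs
    · exact mul_inv_cancel₀ hs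
    · exact one_mul 1
  inv_val := by
    rw [Matrix.diagonal_mul_diagonal, ← Matrix.diagonal_one]
    congr 1
    funext l
    split_ifs
    · exact inv_mul_cancel₀ hs
    · exact one_mul 1

lemma dg_det {K : Type} [Field K] (n e : ℕ) (he : e ≤ n) (s : K) (hs : s ≠ 0) :
    (dg n e s hs).val.det = s ^ e := by
  change (Matrix.diagonal fun l : Fin n => if l.val < e then s else 1).det = s ^ e
  rw [Matrix.det_diagonal, Finset.prod_ite, Finset.prod_const_one, mul_one, Finset.prod_const]
  congr 1
  have : (univ.filter fun l : Fin n => l.val < e).card = e := by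
    rw [Fin.card_filter_val_lt]
    exact min_eq_right he
  exact this

lemma prod_zpow_sum {K ι : Type} [Field K] (s : K) (hs : s ≠ 0) (t : Finset ι) (a : ι → ℤ) :
    ∏ i ∈ t, s ^ a i = s ^ ∑ i ∈ t, a i := by
  classical
  induction t using Finset.induction_on with
  | empty => simp
  | insert i t hi ih => rw [Finset.prod_insert hi, Finset.sum_insert hi, ih, zpow_add₀ hs]

end SI

open SI in
theorem sI_proof (hFrame : Stmt_Frame) : Stmt_SI := by
  classical
  intro K _ _ Q χ f hf e he x hx
  obtain ⟨hed, k, hk⟩ := hFrame K Q x e hx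
  set z := Q.act k⁻¹ x with hz
  -- it is enough to treat z
  have hxz : Q.ev f x = Q.chr χ k * Q.ev f z := by
    rw [← hf k z, hz, ← Q.act_mul, mul_inv_cancel, Q.act_one]
  suffices h : Q.ev f z = 0 by rw [hxz, h, mul_zero]
  -- the polynomial in the parameter
  let co : Q.Coord → Polynomial K := fun c =>
    if c.2.1.val < e (Q.hd c.1) ∧ ¬ c.2.2.val < e (Q.tl c.1) then
      Polynomial.C (z c.1 c.2.1 c.2.2) * Polynomial.X else Polynomial.C (z c.1 c.2.1 c.2.2)
  let p : Polynomial K := MvPolynomial.aeval co f
  obtain ⟨N, hN⟩ : ∃ N : ℕ, dot χ e = -((N : ℤ) + 1) := by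
    refine ⟨(-dot χ e - 1).toNat, ?_⟩
    rw [Int.toNat_of_nonneg (by linarith)]
    ring
  have key : ∀ s : K, s ≠ 0 → s ^ (N + 1) * p.eval s = Q.ev f z := by
    intro s hs
    let g : Q.Grp K := fun i => dg (Q.d i) (e i) s hs
    have h1 : p.eval s = Q.ev f (Q.act g z) := by
      have h2 : p.eval s = MvPolynomial.aeval (fun c => (co c).eval s) f := by
        simp only [p]
        rw [← Polynomial.coe_aeval_eq_eval]
        have := MvPolynomial.comp_aeval_apply co (Polynomial.aeval s : Polynomial K →ₐ[K] K) f
        rw [this]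
      rw [h2]
      unfold Quiv.ev
      congr 2
      funext c
      obtain ⟨a, i, j⟩ := c
      have h3 : Q.act g z a i j = (if i.val < e (Q.hd a) then s else 1) * z a i j *
          (if j.val < e (Q.tl a) then s⁻¹ else 1) := by
        change (Matrix.diagonal (fun l : Fin (Q.d (Q.hd a)) => if l.val < e (Q.hd a) then s else 1) *
          z a * Matrix.diagonal
            (fun l : Fin (Q.d (Q.tl a)) => if l.val < e (Q.tl a) then s⁻¹ else 1)) i j = _
        rw [Matrix.mul_diagonal, Matrix.diagonal_mul]
      change (co ⟨a, i, j⟩).eval s = Q.act g z a i j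
      rw [h3]
      simp only [co]
      by_cases hi : i.val < e (Q.hd a)
      · by_cases hj : j.val < e (Q.tl a)
        · simp only [hi, hj, not_true_eq_false, and_false, if_false, if_true, Polynomial.eval_C]
          field_simp
        · simp only [hi, hj, not_false_eq_true, and_self, if_true, if_false,
            Polynomial.eval_mul, Polynomial.eval_C, Polynomial.eval_X]
          ring
      · by_cases hj : j.val < e (Q.tl a)
        · have h0 : z a i j = 0 := hk a i j (not_lt.mp hi) hj
          simp [hi, h0]
        · simp [hi, hj]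
    have h4 : Q.chr χ g = s ^ dot χ e := by
      unfold Quiv.chr dot
      have : ∀ i, (g i).val.det ^ χ i = s ^ (χ i * (e i : ℤ)) := by
        intro i
        rw [dg_det (Q.d i) (e i) (hed i) s hs, ← zpow_natCast, ← zpow_mul, mul_comm]
      rw [Finset.prod_congr rfl fun i _ => this i]
      exact prod_zpow_sum s hs _ _
    rw [h1, hf g z, h4, hN, ← mul_assoc, ← zpow_natCast, ← zpow_add₀ hs]
    push_cast
    rw [add_neg_cancel, zpow_zero, one_mul]
  have hpoly : Polynomial.X ^ (N + 1) * p - Polynomial.C (Q.ev f z) = 0 := by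
    refine Polynomial.eq_zero_of_infinite_isRoot _ ?_
    have hinf : ({0}ᶜ : Set K).Infinite := (Set.finite_singleton (0 : K)).infinite_compl
    refine hinf.mono fun s hs => ?_
    have := key s hs
    change Polynomial.IsRoot _ s
    rw [Polynomial.IsRoot.def]
    simp [this]
  have h0 := congrArg (Polynomial.eval 0) hpoly
  simpa using h0

end Pool.QM
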