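import Mathlib
import Pool.Agent.QM.Defs
import Pool.Agent.QM.Stmts

set_option autoImplicit false

/-!
# SIEGEL: reduction theory of `GL_n` over a number field
-/

namespace Pool.QM.Siegel

open Finset NumberField Matrix

variable {K : Type} [Field K] {n : ℕ}

/-! ## Block triangular matrices -/

/-- block upper triangular matrix -/
def blk (a : K) (r : Fin n → K) (A : Matrix (Fin n) (Fin n) K) :
    Matrix (Fin (n + 1)) (Fin (n + 1)) K :=
  Matrix.of (Fin.cons (α := fun _ => Fin (n + 1) → K) (Fin.cons (α := fun _ => K) a r)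
    (fun i => Fin.cons (α := fun _ => K) 0 (A i)))

@[simp] lemma blk_zz (a : K) (r : Fin n → K) (A : Matrix (Fin n) (Fin n) K) :
    blk a r A 0 0 = a := rfl

@[simp] lemma blk_zs (a : K) (r : Fin n → K) (A : Matrix (Fin n) (Fin n) K) (j : Fin n) :
    blk a r A 0 j.succ = r j := rfl

@[simp] lemma blk_sz (a : K) (r : Fin n → K) (A : Matrix (Fin n) (Fin n) K) (i : Fin n) :
    blk a r A i.succ 0 = 0 := rfl

@[simp] lemma blk_ss (a : K) (r : Fin n → K) (A : Matrix (Fin n) (Fin n) K) (i j : Fin n) :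
    blk a r A i.succ j.succ = A i j := rfl

lemma blk_mul (a b : K) (r s : Fin n → K) (A B : Matrix (Fin n) (Fin n) K) :
    blk a r A * blk b s B = blk (a * b) (fun j => a * s j + (r ᵥ* B) j) (A * B) := by
  ext i j
  refine Fin.cases ?_ (fun i => ?_) i <;> refine Fin.cases ?_ (fun j => ?_) j
  · simp [Matrix.mul_apply, Fin.sum_univ_succ]
  · simp [Matrix.mul_apply, Fin.sum_univ_succ, vecMul, dotProduct]
  · simp [Matrix.mul_apply, Fin.sum_univ_succ]
  · simp [Matrix.mul_apply, Fin.sum_univ_succ]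

lemma blk_one : blk (1 : K) (fun _ => 0) (1 : Matrix (Fin n) (Fin n) K) = 1 := by
  ext i j
  refine Fin.cases ?_ (fun i => ?_) i <;> refine Fin.cases ?_ (fun j => ?_) j
  · simp
  · rw [blk_zs, Matrix.one_apply_ne (Fin.succ_ne_zero j).symm]
  · rw [blk_sz, Matrix.one_apply_ne (Fin.succ_ne_zero i)]
  · rw [blk_ss, Matrix.one_apply, Matrix.one_apply]
    simp only [Fin.succ_inj]

/-- block upper triangular invertible matrix -/
def blkG (a : K) (ha : a ≠ 0) (r : Fin n → K) (A : GL (Fin n) K) : GL (Fin (n + 1)) K where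
  val := blk a r A.val
  inv := blk a⁻¹ (fun j => -(a⁻¹ * (r ᵥ* (A⁻¹).val) j)) (A⁻¹).val
  val_inv := by
    rw [blk_mul, ← blk_one, mul_inv_cancel₀ ha]
    congr 1
    · funext j
      rw [mul_neg, mul_inv_cancel_left₀ ha]
      exact neg_add_cancel _
    · exact A.val_inv
  inv_val := by
    rw [blk_mul, ← blk_one, inv_mul_cancel₀ ha]
    congr 1
    · funext j
      have : (fun j => -(a⁻¹ * (r ᵥ* (A⁻¹).val) j)) = (-a⁻¹) • (r ᵥ* (A⁻¹).val) := by
        funext j
        simp
      rw [this, smul_vecMul, vecMul_vecMul]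
      have h2 : (A⁻¹).val * A.val = 1 := A.inv_val
      rw [h2, vecMul_one]
      simp
    · exact A.inv_val

lemma blkG_val (a : K) (ha : a ≠ 0) (r : Fin n → K) (A : GL (Fin n) K) :
    (blkG a ha r A).val = blk a r A.val := rfl

lemma blkG_inv (a : K) (ha : a ≠ 0) (r : Fin n → K) (A : GL (Fin n) K) :
    ((blkG a ha r A)⁻¹).val = blk a⁻¹ (fun j => -(a⁻¹ * (r ᵥ* (A⁻¹).val) j)) (A⁻¹).val := rfl

/-- an invertible matrix fixing the first axis is block triangular -/
lemma exists_blk (M : GL (Fin (n + 1)) K) (a : K) (ha : a ≠ 0)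
    (h : ∀ i, M.val i 0 = if i = 0 then a else 0) :
    ∃ (r : Fin n → K) (A : GL (Fin n) K), M = blkG a ha r A := by
  have h1 : ∀ i : Fin n, M.val i.succ 0 = 0 := by
    intro i
    rw [h, if_neg (Fin.succ_ne_zero i)]
  have h0 : M.val 0 0 = a := by rw [h, if_pos rfl]
  have hinv : (M⁻¹).val * M.val = 1 := M.inv_val
  have hinv' : M.val * (M⁻¹).val = 1 := M.val_inv
  have h2 : ∀ i : Fin n, (M⁻¹).val i.succ 0 = 0 := by
    intro i
    have := congrFun (congrFun hinv i.succ) 0
    rw [Matrix.mul_apply, Fin.sum_univ_succ, Matrix.one_apply_ne (Fin.succ_ne_zero i), h0] at this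
    simp only [h1, mul_zero, Finset.sum_const_zero, add_zero] at this
    rcases mul_eq_zero.1 this with h3 | h3
    · exact h3
    · exact absurd h3 ha
  refine ⟨fun j => M.val 0 j.succ,
    ⟨Matrix.of fun i j => M.val i.succ j.succ, Matrix.of fun i j => (M⁻¹).val i.succ j.succ,
      ?_, ?_⟩, ?_⟩
  · ext i j
    have := congrFun (congrFun hinv' i.succ) j.succ
    rw [Matrix.mul_apply, Fin.sum_univ_succ, h1, zero_mul, zero_add] at this
    rw [Matrix.mul_apply]
    simp only [Matrix.of_apply]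
    rw [this, Matrix.one_apply, Matrix.one_apply]
    simp only [Fin.succ_inj]
  · ext i j
    have := congrFun (congrFun hinv i.succ) j.succ
    rw [Matrix.mul_apply, Fin.sum_univ_succ, h2, zero_mul, zero_add] at this
    rw [Matrix.mul_apply]
    simp only [Matrix.of_apply]
    rw [this, Matrix.one_apply, Matrix.one_apply]
    simp only [Fin.succ_inj]
  · apply Units.ext
    rw [blkG_val]
    ext i j
    refine Fin.cases ?_ (fun i => ?_) i <;> refine Fin.cases ?_ (fun j => ?_) j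
    · rw [blk_zz, h0]
    · rw [blk_zs]
    · rw [blk_sz, h1]
    · rw [blk_ss]
      rfl

/-- the reduced matrix `X = blkG(a, r, g')⁻¹ blkG(α, α ρ, γ')` -/
lemma X_val (a : K) (ha : a ≠ 0) (r : Fin n → K) (g' : GL (Fin n) K) (α : K) (hα : α ≠ 0)
    (ρ : Fin n → K) (γ' : GL (Fin n) K) (c : Fin n → K)
    (hc : c = r ᵥ* (g'⁻¹ * γ').val) :
    ((blkG a ha r g')⁻¹ * blkG α hα (fun j => α * ρ j) γ').val =
      blk (a⁻¹ * α) (fun j => (a⁻¹ * α) * (ρ j - c j / α)) (g'⁻¹ * γ').val := by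
  rw [Units.val_mul, blkG_inv, blkG_val, blk_mul]
  congr 1
  funext j
  have h1 : (fun j => -(a⁻¹ * (r ᵥ* (g'⁻¹).val) j)) = (-a⁻¹) • (r ᵥ* (g'⁻¹).val) := by
    funext j
    simp
  rw [h1, smul_vecMul, vecMul_vecMul, hc, Units.val_mul]
  simp only [Pi.smul_apply, smul_eq_mul]
  field_simp
  ring

/-- the reduced matrix `Y = blkG(α, α ρ, γ')⁻¹ blkG(a, r, g')` -/
lemma Y_val (a : K) (ha : a ≠ 0) (r : Fin n → K) (g' : GL (Fin n) K) (α : K) (hα : α ≠ 0)
    (ρ : Fin n → K) (γ' : GL (Fin n) K) (c : Fin n → K)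
    (hc : c = r ᵥ* (g'⁻¹ * γ').val) :
    ((blkG α hα (fun j => α * ρ j) γ')⁻¹ * blkG a ha r g').val =
      blk (α⁻¹ * a) ((fun j => c j / α - ρ j) ᵥ* (γ'⁻¹ * g').val) (γ'⁻¹ * g').val := by
  rw [Units.val_mul, blkG_inv, blkG_val, blk_mul]
  congr 1
  funext j
  have h1 : (fun j => -(α⁻¹ * ((fun j => α * ρ j) ᵥ* (γ'⁻¹).val) j)) = -(ρ ᵥ* (γ'⁻¹).val) := by
    have : (fun j => α * ρ j) = α • ρ := rfl
    rw [this, smul_vecMul]
    funext j
    simp only [Pi.smul_apply, smul_eq_mul, Pi.neg_apply]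
    rw [inv_mul_cancel_left₀ hα]
  have h2 : (fun j => c j / α - ρ j) = α⁻¹ • c - ρ := by
    funext j
    simp only [Pi.sub_apply, Pi.smul_apply, smul_eq_mul]
    rw [div_eq_inv_mul]
  have h3 : c ᵥ* (γ'⁻¹ * g').val = r := by
    rw [hc, vecMul_vecMul, ← Units.val_mul]
    have : g'⁻¹ * γ' * (γ'⁻¹ * g') = 1 := by group
    rw [this, Units.val_one, vecMul_one]
  rw [h1, h2, sub_vecMul, smul_vecMul, h3, neg_vecMul, vecMul_vecMul, Units.val_mul]
  simp only [Pi.smul_apply, smul_eq_mul, Pi.neg_apply, Pi.sub_apply]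
  ring


/-! ## Estimates -/

lemma fin_add_le [NumberField K] (v : FinitePlace K) {x y : K} (hx : v x ≤ 1) (hy : v y ≤ 1) :
    v (x + y) ≤ 1 := (v.add_le x y).trans (max_le hx hy)

lemma fin_sum_le [NumberField K] (v : FinitePlace K) {ι : Type} (s : Finset ι) (f : ι → K)
    (h : ∀ i ∈ s, v (f i) ≤ 1) : v (∑ i ∈ s, f i) ≤ 1 := by
  classical
  induction s using Finset.induction_on with
  | empty => simp
  | insert i s hi ih =>
    rw [Finset.sum_insert hi]
    exact fin_add_le v (h i (Finset.mem_insert_self _ _))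
      (ih fun j hj => h j (Finset.mem_insert_of_mem hj))

lemma fin_mul_le [NumberField K] (v : FinitePlace K) {x y : K} (hx : v x ≤ 1) (hy : v y ≤ 1) :
    v (x * y) ≤ 1 := by
  rw [map_mul]
  exact mul_le_one₀ hx (apply_nonneg v y) hy

lemma fin_neg [NumberField K] (v : FinitePlace K) (x : K) : v (-x) = v x := map_neg_eq_map v x

lemma fin_sub_le [NumberField K] (v : FinitePlace K) {x y : K} (hx : v x ≤ 1) (hy : v y ≤ 1) :
    v (x - y) ≤ 1 := by
  rw [sub_eq_add_neg]
  exact fin_add_le v hx (by rwa [fin_neg])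

lemma fin_nat_le [NumberField K] (v : FinitePlace K) (m : ℕ) : v (m : K) ≤ 1 := by
  induction m with
  | zero => simp
  | succ m ih =>
    push_cast
    exact fin_add_le v ih (by simp)

lemma fin_int_le [NumberField K] (v : FinitePlace K) (x : 𝓞 K) : v (x : K) ≤ 1 := by
  rw [← v.norm_embedding_eq]
  exact FinitePlace.norm_le_one K v.maximalIdeal x

lemma fin_matmul_le [NumberField K] (v : FinitePlace K) {l m p : ℕ}
    {A : Matrix (Fin l) (Fin m) K} {B : Matrix (Fin m) (Fin p) K}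
    (hA : ∀ i j, v (A i j) ≤ 1) (hB : ∀ i j, v (B i j) ≤ 1) (i : Fin l) (j : Fin p) :
    v ((A * B) i j) ≤ 1 := by
  rw [Matrix.mul_apply]
  exact fin_sum_le v _ _ fun k _ => fin_mul_le v (hA i k) (hB k j)

lemma fin_mulVec_le [NumberField K] (v : FinitePlace K) {l m : ℕ}
    {A : Matrix (Fin l) (Fin m) K} {x : Fin m → K}
    (hA : ∀ i j, v (A i j) ≤ 1) (hx : ∀ j, v (x j) ≤ 1) (i : Fin l) :
    v ((A *ᵥ x) i) ≤ 1 := by
  rw [mulVec, dotProduct]
  exact fin_sum_le v _ _ fun k _ => fin_mul_le v (hA i k) (hx k)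

lemma fin_vecMul_le [NumberField K] (v : FinitePlace K) {l m : ℕ}
    {A : Matrix (Fin l) (Fin m) K} {x : Fin l → K}
    (hA : ∀ i j, v (A i j) ≤ 1) (hx : ∀ j, v (x j) ≤ 1) (i : Fin m) :
    v ((x ᵥ* A) i) ≤ 1 := by
  rw [vecMul, dotProduct]
  exact fin_sum_le v _ _ fun k _ => fin_mul_le v (hx k) (hA k i)

lemma inf_add_le (w : InfinitePlace K) (x y : K) : w (x + y) ≤ w x + w y := w.1.add_le x y

lemma inf_sum_le (w : InfinitePlace K) {m : ℕ} (f : Fin m → K) (B : ℝ)
    (h : ∀ i, w (f i) ≤ B) : w (∑ i, f i) ≤ m * B := by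
  have h1 : w (∑ i, f i) ≤ ∑ i, w (f i) := by
    have h2 : ∀ s : Finset (Fin m), w (∑ i ∈ s, f i) ≤ ∑ i ∈ s, w (f i) := by
      intro s
      induction s using Finset.induction_on with
      | empty => simp
      | insert i s hi ih =>
        rw [Finset.sum_insert hi, Finset.sum_insert hi]
        exact (inf_add_le w _ _).trans (by linarith)
    exact h2 univ
  refine h1.trans ((Finset.sum_le_card_nsmul _ _ B fun i _ => h i).trans ?_)
  simp

/-- entries of `k x` when `|k| ≤ 1` -/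
lemma inf_mulVec_le (w : InfinitePlace K) {m l : ℕ} {A : Matrix (Fin l) (Fin m) K}
    {x : Fin m → K} (B : ℝ) (hA : ∀ i j, w (A i j) ≤ 1) (hx : ∀ j, w (x j) ≤ B) (i : Fin l) :
    w ((A *ᵥ x) i) ≤ m * B := by
  rw [mulVec, dotProduct]
  refine inf_sum_le w _ B fun k => ?_
  rw [map_mul]
  have h1 := hx k
  have h2 := hA i k
  have h3 := apply_nonneg w (x k)
  nlinarith

lemma inf_matmul_left_le (w : InfinitePlace K) {l m p : ℕ}
    {A : Matrix (Fin l) (Fin m) K} {X : Matrix (Fin m) (Fin p) K} (j : Fin p) (B : ℝ)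
    (hA : ∀ i j, w (A i j) ≤ 1) (hX : ∀ i, w (X i j) ≤ B) (i : Fin l) :
    w ((A * X) i j) ≤ m * B := by
  have := inf_mulVec_le w (x := fun i => X i j) B hA hX i
  exact this

lemma inf_matmul_right_le (w : InfinitePlace K) {l m p : ℕ}
    {A : Matrix (Fin m) (Fin p) K} {X : Matrix (Fin l) (Fin m) K} (i : Fin l) (B : ℝ)
    (hA : ∀ i j, w (A i j) ≤ 1) (hX : ∀ j, w (X i j) ≤ B) (j : Fin p) :
    w ((X * A) i j) ≤ m * B := by
  rw [Matrix.mul_apply]
  refine inf_sum_le w _ B fun k => ?_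
  rw [map_mul]
  have h1 := hX k
  have h2 := hA k j
  have h3 := apply_nonneg w (X i k)
  nlinarith

/-! ## Decomposition at one place -/

lemma decomp (hE : Stmt_Elim) (v : AbsoluteValue K ℝ) (g γ1 : GL (Fin (n + 1)) K) :
    ∃ (k : GL (Fin (n + 1)) K) (a : K) (ha : a ≠ 0) (r : Fin n → K) (g' : GL (Fin n) K),
      γ1⁻¹ * g = blkG a ha r g' * k ∧
      (⨆ i, v (((g⁻¹).val *ᵥ (γ1.val *ᵥ (Pi.single 0 1))) i)) = (v a)⁻¹ ∧
      (∀ i j, v (k.val i j) ≤ 1) ∧ ∀ i j, v ((k⁻¹).val i j) ≤ 1 := by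
  set c : Fin (n + 1) → K := (g⁻¹).val *ᵥ (γ1.val *ᵥ (Pi.single 0 1)) with hc
  have hM : c = (g⁻¹ * γ1).val *ᵥ (Pi.single 0 1) := by
    rw [hc, mulVec_mulVec, Units.val_mul]
  have hc0 : c ≠ 0 := by
    intro h0
    have h1 : (γ1⁻¹ * g).val *ᵥ c = Pi.single 0 1 := by
      rw [hM, mulVec_mulVec, ← Units.val_mul]
      have : γ1⁻¹ * g * (g⁻¹ * γ1) = 1 := by group
      rw [this, Units.val_one, one_mulVec]
    rw [h0, mulVec_zero] at h1
    have := congrFun h1 0
    rw [Pi.single_eq_same] at this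
    exact zero_ne_one this
  obtain ⟨k, z, hz, hkz, hle, ⟨i0, hi0⟩, hk1, hk2⟩ := hE K v n c hc0
  have hza : z⁻¹ ≠ 0 := inv_ne_zero hz
  -- the matrix `M = γ1⁻¹ g k⁻¹`
  have hcol : ∀ i, (γ1⁻¹ * g * k⁻¹).val i 0 = if i = 0 then z⁻¹ else 0 := by
    have h1 : (γ1⁻¹ * g * k⁻¹).val *ᵥ (Pi.single 0 z) = Pi.single 0 1 := by
      rw [← hkz, hM, mulVec_mulVec, mulVec_mulVec, ← Units.val_mul, ← Units.val_mul]
      have : γ1⁻¹ * g * k⁻¹ * k * (g⁻¹ * γ1) = 1 := by group
      rw [this, Units.val_one, one_mulVec]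
    intro i
    have h2 := congrFun h1 i
    rw [mulVec_single] at h2
    simp only [MulOpposite.smul_eq_mul_unop, MulOpposite.unop_op, Pi.smul_apply,
      Matrix.col_apply] at h2
    by_cases hi : i = 0
    · subst hi
      rw [if_pos rfl]
      rw [Pi.single_eq_same] at h2
      exact eq_inv_of_mul_eq_one_left h2
    · rw [if_neg hi]
      rw [Pi.single_eq_of_ne hi] at h2
      rcases mul_eq_zero.1 h2 with h3 | h3
      · exact h3
      · exact absurd h3 hz
  obtain ⟨r, g', hg'⟩ := exists_blk (γ1⁻¹ * g * k⁻¹) z⁻¹ hza hcol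
  refine ⟨k, z⁻¹, hza, r, g', ?_, ?_, hk1, hk2⟩
  · rw [← hg']
    group
  · rw [map_inv₀, inv_inv]
    apply le_antisymm
    · exact ciSup_le hle
    · rw [hi0]
      exact le_ciSup (f := fun i => v (c i)) (Set.finite_range _).bddAbove i0

/-! ## Scalars -/

lemma sum_mult (K : Type) [Field K] [NumberField K] :
    ∑ w : InfinitePlace K, w.mult = Module.finrank ℚ K := InfinitePlace.sum_mult_eq

lemma prod_const (K : Type) [Field K] [NumberField K] (c : ℝ) :
    ∏ w : InfinitePlace K, c ^ w.mult = c ^ Module.finrank ℚ K := by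
  rw [Finset.prod_pow_eq_pow_sum, sum_mult]

lemma single_le_prod_real {ι : Type} [Fintype ι] (f : ι → ℝ) (h : ∀ i, 1 ≤ f i) (i : ι) :
    f i ≤ ∏ j, f j := by
  classical
  rw [← Finset.mul_prod_erase univ f (mem_univ i)]
  have h1 : 1 ≤ ∏ j ∈ univ.erase i, f j := by
    have := Finset.prod_le_prod (s := univ.erase i) (f := fun _ => (1 : ℝ)) (g := f)
      (fun _ _ => zero_le_one) (fun j _ => h j)
    simpa using this
  have h2 := h i
  nlinarith

lemma scal (hB : Stmt_Bal) (hD : Stmt_Den) (K : Type) [Field K] [NumberField K] :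
    ∃ (C : ℝ) (D : ℕ), 1 ≤ C ∧ D ≠ 0 ∧
    ∀ (a : FinitePlace K → K) (b : InfinitePlace K → K), (∀ v, a v ≠ 0) → (∀ w, b w ≠ 0) →
      {v : FinitePlace K | v (a v) ≠ 1}.Finite →
      ∃ (α : K) (t : ℝ), α ≠ 0 ∧ 0 < t ∧ (∀ v : FinitePlace K, v ((a v)⁻¹ * α) ≤ 1) ∧
        (∀ v : FinitePlace K, v ((D : K) * (α⁻¹ * a v)) ≤ 1) ∧
        (∀ w : InfinitePlace K, w ((b w)⁻¹ * α) ≤ C / t) ∧
        (∀ w : InfinitePlace K, w (α⁻¹ * b w) ≤ C * t) ∧
        t ^ Module.finrank ℚ K =
          (∏ᶠ v : FinitePlace K, v (a v)) * ∏ w : InfinitePlace K, w (b w) ^ w.mult := by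
  obtain ⟨C, hC1, hBal⟩ := hB K
  set d := Module.finrank ℚ K with hd
  have hC0 : 0 < C := by linarith
  have hd0 : d ≠ 0 := by
    rw [hd]
    exact Module.finrank_pos.ne'
  obtain ⟨D, hD0, hDen⟩ := hD K (C ^ d)
  have hCd : C ≤ C ^ d := le_self_pow₀ hC1 hd0
  refine ⟨C ^ d, D, one_le_pow₀ hC1, hD0, ?_⟩
  intro a b ha hb hfin
  obtain ⟨α, t, hα, ht, h1, h2, h3⟩ := hBal a b ha hb hfin
  have hαv : ∀ v : FinitePlace K, 0 < v α := fun v => FinitePlace.pos_iff.2 hα
  have hav : ∀ v : FinitePlace K, 0 < v (a v) := fun v => FinitePlace.pos_iff.2 (ha v)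
  have hαw : ∀ w : InfinitePlace K, 0 < w α := fun w => InfinitePlace.pos_iff.2 hα
  have hbw : ∀ w : InfinitePlace K, 0 < w (b w) := fun w => InfinitePlace.pos_iff.2 (hb w)
  have hfinα : (fun v : FinitePlace K => v α).HasFiniteMulSupport :=
    FinitePlace.hasFiniteMulSupport hα
  have hfina : (fun v : FinitePlace K => v (a v)).HasFiniteMulSupport := hfin
  -- the quotients
  have hq1 : ∀ v : FinitePlace K, 1 ≤ v (a v / α) := by
    intro v
    rw [map_div₀, one_le_div (hαv v)]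
    exact h1 v
  have hqfin : {v : FinitePlace K | v (a v / α) ≠ 1}.Finite := by
    refine (hfin.union hfinα).subset ?_
    intro v hv
    by_contra h
    rw [Set.mem_union, not_or] at h
    apply hv
    have e1 : v (a v) = 1 := by
      by_contra h'
      exact h.1 h'
    have e2 : v α = 1 := by
      by_contra h'
      exact h.2 h'
    rw [map_div₀, e1, e2, div_one]
  set F := ∏ᶠ v : FinitePlace K, v (a v) with hF
  set Fα := ∏ᶠ v : FinitePlace K, v α with hFα
  set W := ∏ w : InfinitePlace K, w (b w) ^ w.mult with hW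
  set Wα := ∏ w : InfinitePlace K, w α ^ w.mult with hWα
  have hprod : Wα * Fα = 1 := prod_abs_eq_one hα
  have hQ : ∏ᶠ v : FinitePlace K, v (a v / α) = F / Fα := by
    rw [hF, hFα, ← finprod_div_distrib hfina hfinα]
    exact finprod_congr fun v => map_div₀ v _ _
  have hQ1 : 1 ≤ F / Fα := by
    rw [← hQ]
    exact one_le_finprod hq1
  have hWpos : 0 < W := Finset.prod_pos fun w _ => pow_pos (hbw w) _
  have hWαpos : 0 < Wα := Finset.prod_pos fun w _ => pow_pos (hαw w) _
  have hFαpos : 0 < Fα := by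
    by_contra h
    push Not at h
    nlinarith
  have htd : 0 < t ^ d := pow_pos ht _
  have hFpos : 0 < F := by
    by_contra h
    push Not at h
    have : F * W ≤ 0 := mul_nonpos_of_nonpos_of_nonneg h hWpos.le
    linarith
  -- bound of the finite product
  have hWq : Wα ≤ W * (C / t) ^ d := by
    rw [hWα, hW, hd, ← prod_const K (C / t), ← Finset.prod_mul_distrib]
    refine Finset.prod_le_prod (fun w _ => (pow_pos (hαw w) _).le) fun w _ => ?_
    rw [← mul_pow]
    refine pow_le_pow_left₀ (hαw w).le ?_ _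
    refine (h2 w).trans (le_of_eq ?_)
    ring
  have hQle : F / Fα ≤ C ^ d := by
    have e1 : F / Fα = F * Wα := by
      rw [div_eq_iff hFαpos.ne', mul_assoc, hprod, mul_one]
    rw [e1]
    calc F * Wα ≤ F * (W * (C / t) ^ d) := mul_le_mul_of_nonneg_left hWq hFpos.le
      _ = (F * W) * (C / t) ^ d := by ring
      _ = t ^ d * (C / t) ^ d := by rw [← h3]
      _ = C ^ d := by rw [← mul_pow, mul_div_cancel₀ _ ht.ne']
  have hden := hDen (fun v => a v / α) hq1 hqfin (by rw [hQ]; exact hQle)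
  refine ⟨α, t, hα, ht, ?_, ?_, ?_, ?_, h3⟩
  · intro v
    rw [map_mul, map_inv₀, inv_mul_le_iff₀ (hav v), mul_one]
    exact h1 v
  · intro v
    have := hden v
    rwa [div_eq_inv_mul] at this
  · intro w
    rw [map_mul, map_inv₀, inv_mul_le_iff₀ (hbw w)]
    refine (h2 w).trans ?_
    rw [mul_div_assoc, mul_comm, mul_comm (w (b w)), div_mul_eq_mul_div, div_mul_eq_mul_div]
    apply div_le_div_of_nonneg_right _ ht.le
    nlinarith [hbw w]
  · -- infinite places
    have hy : ∀ w : InfinitePlace K, 1 ≤ w (α⁻¹ * b w) * (C / t) := by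
      intro w
      rw [map_mul, map_inv₀, mul_assoc, le_inv_mul_iff₀ (hαw w), mul_one]
      refine (h2 w).trans (le_of_eq ?_)
      ring
    have hprodle : ∏ w : InfinitePlace K, (w (α⁻¹ * b w) * (C / t)) ^ w.mult ≤ C ^ d := by
      have e1 : ∏ w : InfinitePlace K, (w (α⁻¹ * b w) * (C / t)) ^ w.mult
          = (W / Wα) * (C / t) ^ d := by
        rw [hW, hWα, hd, ← prod_const K (C / t), ← Finset.prod_div_distrib,
          ← Finset.prod_mul_distrib]
        refine Finset.prod_congr rfl fun w _ => ?_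
        rw [mul_pow, map_mul, map_inv₀, ← div_pow, inv_mul_eq_div]
      rw [e1]
      have e2 : W / Wα ≤ t ^ d := by
        rw [h3]
        have e3 : W / Wα = (F * W) / (F / Fα) := by
          have : Fα = Wα⁻¹ := eq_inv_of_mul_eq_one_right hprod
          rw [this]
          field_simp
        rw [e3]
        exact div_le_self (mul_pos hFpos hWpos).le hQ1
      calc (W / Wα) * (C / t) ^ d ≤ t ^ d * (C / t) ^ d :=
            mul_le_mul_of_nonneg_right e2 (pow_nonneg (div_pos hC0 ht).le _)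
        _ = C ^ d := by rw [← mul_pow, mul_div_cancel₀ _ ht.ne']
    intro w
    have h4 : w (α⁻¹ * b w) * (C / t) ≤ C ^ d := by
      refine le_trans ?_ hprodle
      refine (le_self_pow₀ (hy w) (InfinitePlace.mult_ne_zero (w := w))).trans ?_
      exact single_le_prod_real (fun w : InfinitePlace K =>
        (w (α⁻¹ * b w) * (C / t)) ^ w.mult) (fun w' => one_le_pow₀ (hy w')) w
    have h5 : w (α⁻¹ * b w) ≤ C ^ d * t / C := by
      rw [le_div_iff₀ hC0]
      have : w (α⁻¹ * b w) * (C / t) * t ≤ C ^ d * t := mul_le_mul_of_nonneg_right h4 ht.le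
      calc w (α⁻¹ * b w) * C = w (α⁻¹ * b w) * (C / t) * t := by
            field_simp
        _ ≤ _ := this
    refine h5.trans (div_le_self (by positivity) hC1)

/-! ## The twisted height of a vector `γ x` -/

lemma finprod_le_one_real {ι : Type} (f : ι → ℝ) (h0 : ∀ i, 0 ≤ f i) (h1 : ∀ i, f i ≤ 1) :
    0 ≤ ∏ᶠ i, f i ∧ ∏ᶠ i, f i ≤ 1 :=
  finprod_induction (fun x : ℝ => 0 ≤ x ∧ x ≤ 1) ⟨zero_le_one, le_rfl⟩
    (fun _ _ hx hy => ⟨mul_nonneg hx.1 hy.1, mul_le_one₀ hx.2 hy.1 hy.2⟩) (fun i => ⟨h0 i, h1 i⟩)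

lemma tw_le [NumberField K] (g : FinitePlace K → GL (Fin (n + 1)) K)
    (h : InfinitePlace K → GL (Fin (n + 1)) K) (γ : GL (Fin (n + 1)) K)
    (hfin : ∀ (v : FinitePlace K) i l, v (((g v)⁻¹ * γ).val i l) ≤ 1)
    (k X : InfinitePlace K → Matrix (Fin (n + 1)) (Fin (n + 1)) K)
    (hk : ∀ (w : InfinitePlace K) i j, w (k w i j) ≤ 1)
    (hX : ∀ w, ((h w)⁻¹ * γ).val = k w * X w) (x : Fin (n + 1) → K)
    (hx : ∀ (v : FinitePlace K) j, v (x j) ≤ 1) (m : ℝ)
    (hXm : ∀ (w : InfinitePlace K) i, w ((X w *ᵥ x) i) ≤ m) :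
    tw g h (γ.val *ᵥ x) ≤ (((n + 1 : ℕ) : ℝ) * m) ^ Module.finrank ℚ K := by
  unfold tw
  have h1 : ∀ v : FinitePlace K, ((g v)⁻¹).val *ᵥ (γ.val *ᵥ x) = ((g v)⁻¹ * γ).val *ᵥ x := by
    intro v
    rw [mulVec_mulVec, Units.val_mul]
  have h2 : ∀ w : InfinitePlace K, ((h w)⁻¹).val *ᵥ (γ.val *ᵥ x) = k w *ᵥ (X w *ᵥ x) := by
    intro w
    rw [mulVec_mulVec, ← Units.val_mul, hX, mulVec_mulVec]
  have hF := finprod_le_one_real
    (fun v : FinitePlace K => ⨆ i, v ((((g v)⁻¹).val *ᵥ (γ.val *ᵥ x)) i))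
    (fun v => Real.iSup_nonneg fun i => apply_nonneg v _)
    (fun v => by
      apply ciSup_le
      intro i
      rw [h1]
      exact fin_mulVec_le v (hfin v) (hx v) i)
  have hI : ∏ w : InfinitePlace K, (⨆ i, w ((((h w)⁻¹).val *ᵥ (γ.val *ᵥ x)) i)) ^ w.mult
      ≤ (((n + 1 : ℕ) : ℝ) * m) ^ Module.finrank ℚ K := by
    rw [← prod_const K]
    refine Finset.prod_le_prod (fun w _ => pow_nonneg
      (Real.iSup_nonneg fun i => apply_nonneg w _) _) fun w _ => ?_
    refine pow_le_pow_left₀ (Real.iSup_nonneg fun i => apply_nonneg w _) ?_ _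
    apply ciSup_le
    intro i
    rw [h2]
    exact inf_mulVec_le w m (hk w) (hXm w) i
  have hI0 : 0 ≤ ∏ w : InfinitePlace K,
      (⨆ i, w ((((h w)⁻¹).val *ᵥ (γ.val *ᵥ x)) i)) ^ w.mult :=
    Finset.prod_nonneg fun w _ => pow_nonneg (Real.iSup_nonneg fun i => apply_nonneg w _) _
  calc _ ≤ 1 * ∏ w : InfinitePlace K,
      (⨆ i, w ((((h w)⁻¹).val *ᵥ (γ.val *ᵥ x)) i)) ^ w.mult :=
        mul_le_mul_of_nonneg_right hF.2 hI0
    _ ≤ _ := by rw [one_mul]; exact hI

/-! ## Almost all places -/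

/-- integral with its inverse -/
def ok [NumberField K] {m : ℕ} (v : FinitePlace K) (g : GL (Fin m) K) : Prop :=
  (∀ i j, v (g.val i j) ≤ 1) ∧ ∀ i j, v ((g⁻¹).val i j) ≤ 1

lemma ok_mul [NumberField K] {m : ℕ} (v : FinitePlace K) {g h : GL (Fin m) K} (hg : ok v g)
    (hh : ok v h) : ok v (g * h) := by
  refine ⟨fun i j => ?_, fun i j => ?_⟩
  · rw [Units.val_mul]
    exact fin_matmul_le v hg.1 hh.1 i j
  · rw [_root_.mul_inv_rev, Units.val_mul]
    exact fin_matmul_le v hh.2 hg.2 i j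

lemma ok_inv [NumberField K] {m : ℕ} (v : FinitePlace K) {g : GL (Fin m) K} (hg : ok v g) :
    ok v g⁻¹ := ⟨hg.2, by rw [inv_inv]; exact hg.1⟩

lemma ok_blk [NumberField K] (v : FinitePlace K) {a : K} {ha : a ≠ 0} {r : Fin n → K}
    {A : GL (Fin n) K} (h : ok v (blkG a ha r A)) : v a = 1 ∧ (∀ j, v (r j) ≤ 1) ∧ ok v A := by
  have h1 : ∀ i j, v (blk a r A.val i j) ≤ 1 := h.1
  have h2 : ∀ i j, v (blk a⁻¹ (fun j => -(a⁻¹ * (r ᵥ* (A⁻¹).val) j)) (A⁻¹).val i j) ≤ 1 := h.2
  refine ⟨?_, ?_, ?_, ?_⟩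
  · apply le_antisymm
    · have := h1 0 0
      rwa [blk_zz] at this
    · have := h2 0 0
      rw [blk_zz, map_inv₀] at this
      exact (inv_le_one₀ (FinitePlace.pos_iff.2 ha)).1 this
  · intro j
    have := h1 0 j.succ
    rwa [blk_zs] at this
  · intro i j
    have := h1 i.succ j.succ
    rwa [blk_ss] at this
  · intro i j
    have := h2 i.succ j.succ
    rwa [blk_ss] at this

lemma finite_entry [NumberField K] (x : K) : {v : FinitePlace K | ¬ v x ≤ 1}.Finite := by
  by_cases hx : x = 0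
  · subst hx
    convert Set.finite_empty
    ext v
    simp
  · refine (FinitePlace.hasFiniteMulSupport hx).subset ?_
    intro v hv
    change v x ≠ 1
    intro h
    apply hv
    rw [h]

lemma finite_mat [NumberField K] {m : ℕ} (M : Matrix (Fin m) (Fin m) K) :
    {v : FinitePlace K | ¬ ∀ i j, v (M i j) ≤ 1}.Finite := by
  have : {v : FinitePlace K | ¬ ∀ i j, v (M i j) ≤ 1} ⊆
      ⋃ i, ⋃ j, {v : FinitePlace K | ¬ v (M i j) ≤ 1} := by
    intro v hv
    simp only [Set.mem_ofPred_eq, not_forall] at hv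
    obtain ⟨i, j, hij⟩ := hv
    exact Set.mem_iUnion.2 ⟨i, Set.mem_iUnion.2 ⟨j, hij⟩⟩
  exact (Set.finite_iUnion fun i => Set.finite_iUnion fun j => finite_entry _).subset this

lemma finite_ok [NumberField K] {m : ℕ} (γ : GL (Fin m) K) :
    {v : FinitePlace K | ¬ ok v γ}.Finite := by
  refine ((finite_mat γ.val).union (finite_mat (γ⁻¹).val)).subset ?_
  intro v hv
  by_contra h
  rw [Set.mem_union, not_or] at h
  apply hv
  refine ⟨?_, ?_⟩
  · by_contra h'
    exact h.1 h'
  · by_contra h'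
    exact h.2 h'

/-! ## The induction -/

/-- the statement for given `K`, `n` and constants -/
def SG (K : Type) [Field K] [NumberField K] (n : ℕ) (C : ℝ) (D : ℕ) : Prop :=
  ∀ (g : FinitePlace K → GL (Fin n) K) (h : InfinitePlace K → GL (Fin n) K), Good g →
    ∃ (γ : GL (Fin n) K) (t : Fin n → ℝ), (∀ l, 0 < t l) ∧
      (∀ (v : FinitePlace K) i l, v (((g v)⁻¹ * γ).val i l) ≤ 1) ∧
      (∀ (v : FinitePlace K) l j, v ((D : K) * (γ⁻¹ * g v).val l j) ≤ 1) ∧
      (∀ (w : InfinitePlace K) i l, w (((h w)⁻¹ * γ).val i l) ≤ C / t l) ∧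
      ∀ (w : InfinitePlace K) l j, w ((γ⁻¹ * h w).val l j) ≤ C * t l

lemma exists_first (hElim : Stmt_Elim) [NumberField K] (u : Fin (n + 1) → K) (hu : u ≠ 0) :
    ∃ γ : GL (Fin (n + 1)) K, γ.val *ᵥ (Pi.single 0 1) = u := by
  obtain ⟨k, z, hz, hkz, -, -, -, -⟩ :=
    hElim K (Classical.arbitrary (InfinitePlace K)).1 n u hu
  refine ⟨k⁻¹ * blkG z hz (fun _ => 0) 1, ?_⟩
  have h1 : (blkG z hz (fun _ : Fin n => 0) 1).val *ᵥ (Pi.single 0 1) = Pi.single 0 z := by
    funext i
    rw [mulVec_single, blkG_val]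
    refine Fin.cases ?_ (fun i => ?_) i
    · simp
    · simp
  rw [Units.val_mul, ← mulVec_mulVec, h1, ← hkz, mulVec_mulVec]
  have h2 : (k⁻¹).val * k.val = 1 := k.inv_val
  rw [h2, one_mulVec]

lemma step (hDir : Stmt_Dir) (hBal : Stmt_Bal) (hDen : Stmt_Den) (hAdd : Stmt_Add)
    (hElim : Stmt_Elim) (hNM : Stmt_NearMin) (K : Type) [Field K] [NumberField K] (n : ℕ)
    (ih : ∃ (C : ℝ) (D : ℕ), 1 ≤ C ∧ D ≠ 0 ∧ SG K n C D) :
    ∃ (C : ℝ) (D : ℕ), 1 ≤ C ∧ D ≠ 0 ∧ SG K (n + 1) C D := by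
  obtain ⟨C', D', hC', hD', ih⟩ := ih
  obtain ⟨CB, DB, hCB, hDB, hscal⟩ := scal hBal hDen K
  obtain ⟨CA, hCA, hadd⟩ := hAdd K
  set N : ℝ := ((n + 1 : ℕ) : ℝ) with hN
  have hN1 : 1 ≤ N := by
    rw [hN]
    push_cast
    linarith [(Nat.cast_nonneg n : (0 : ℝ) ≤ n)]
  have hN0 : 0 < N := by linarith
  have hCB0 : 0 < CB := by linarith
  have hCA0 : 0 < CA := by linarith
  have hC'0 : 0 < C' := by linarith
  obtain ⟨S, hS, hdir⟩ := hDir K (1 / (4 * N * CB)) (by positivity)
  have hS0 : 0 < S := by linarith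
  set C2 : ℝ := 4 * N * S * C' with hC2
  have hC2pos : 0 < C2 := by positivity
  set d := Module.finrank ℚ K with hd
  have hd0 : d ≠ 0 := by
    rw [hd]
    exact Module.finrank_pos.ne'
  set Cn : ℝ := N * (CB + CB * CA * C2 + C' + n * (CA * C' * C2)) with hCn
  have hn0 : (0 : ℝ) ≤ n := Nat.cast_nonneg n
  have hT1 : 0 ≤ CB * CA * C2 := by positivity
  have hT2 : 0 ≤ n * (CA * C' * C2) := by positivity
  have hCn1 : 1 ≤ Cn := by
    rw [hCn]
    nlinarith
  refine ⟨Cn, DB * D', hCn1, mul_ne_zero hDB hD', ?_⟩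
  intro g h hgood
  obtain ⟨u1, hu1, htw0, hmin⟩ := hNM K n g h hgood
  obtain ⟨γ1, hγ1⟩ := exists_first hElim u1 hu1
  choose kf af haf rf gf hf1 hf2 hf3 hf4 using
    fun v : FinitePlace K => decomp hElim v.1 (g v) γ1
  choose kw bw hbw rw' gw hw1 hw2 hw3 hw4 using
    fun w : InfinitePlace K => decomp hElim w.1 (h w) γ1
  -- the exceptional set
  set E : Set (FinitePlace K) := {v | ¬ ok v (g v)} ∪ {v | ¬ ok v γ1} with hE
  have hEfin : E.Finite := Set.Finite.union hgood (finite_ok γ1)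
  have hok : ∀ v, v ∉ E → ok v (blkG (af v) (haf v) (rf v) (gf v)) := by
    intro v hv
    rw [hE, Set.mem_union, not_or] at hv
    have e1 : ok v (g v) := by
      by_contra h'
      exact hv.1 h'
    have e2 : ok v γ1 := by
      by_contra h'
      exact hv.2 h'
    have e3 : ok v (kf v) := ⟨hf3 v, hf4 v⟩
    have e4 : blkG (af v) (haf v) (rf v) (gf v) = γ1⁻¹ * g v * (kf v)⁻¹ := by
      rw [hf1 v]
      group
    rw [e4]
    exact ok_mul v (ok_mul v (ok_inv v e2) e1) (ok_inv v e3)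
  have hgood' : Good gf := by
    refine hEfin.subset fun v hv => ?_
    by_contra hvE
    exact hv (ok_blk v (hok v hvE)).2.2
  obtain ⟨γ', t', ht', i1, i2, i3, i4⟩ := ih gf gw hgood'
  have hfa : {v : FinitePlace K | v (af v) ≠ 1}.Finite := by
    refine hEfin.subset fun v hv => ?_
    by_contra hvE
    exact hv (ok_blk v (hok v hvE)).1
  obtain ⟨α, t0, hα, ht0, s1, s2, s3, s4, s5⟩ := hscal af bw haf hbw hfa
  have htw : tw g h u1 = (t0 ^ d)⁻¹ := by
    unfold tw
    rw [s5, mul_inv, ← finprod_inv_distrib, ← Finset.prod_inv_distrib]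
    congr 1
    · refine finprod_congr fun v => ?_
      have := hf2 v
      rw [hγ1] at this
      exact this
    · refine Finset.prod_congr rfl fun w _ => ?_
      have := hw2 w
      rw [hγ1] at this
      rw [← inv_pow]
      congr 1
  set cf : FinitePlace K → Fin n → K := fun v => rf v ᵥ* ((gf v)⁻¹ * γ').val with hcf
  set cw : InfinitePlace K → Fin n → K := fun w => rw' w ᵥ* ((gw w)⁻¹ * γ').val with hcw
  have hadd' : ∀ l : Fin n, ∃ β : K, (∀ v : FinitePlace K, v (cf v l / α - β) ≤ 1) ∧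
      ∀ w : InfinitePlace K, w (cw w l / α - β) ≤ CA := by
    intro l
    refine hadd (fun v => cf v l / α) (fun w => cw w l / α) ?_
    refine (hEfin.union (FinitePlace.hasFiniteMulSupport hα)).subset fun v hv => ?_
    by_contra hvE
    rw [Set.mem_union, not_or] at hvE
    apply hv
    have e1 : v α = 1 := by
      by_contra h'
      exact hvE.2 h'
    rw [map_div₀, e1, div_one]
    exact fin_vecMul_le v (i1 v) (ok_blk v (hok v hvE.1)).2.1 l
  choose ρ hρ1 hρ2 using hadd'
  set B := blkG α hα (fun j => α * ρ j) γ' with hB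
  have hXf : ∀ v : FinitePlace K, ((g v)⁻¹ * (γ1 * B)).val = ((kf v)⁻¹).val *
      blk ((af v)⁻¹ * α) (fun j => ((af v)⁻¹ * α) * (ρ j - cf v j / α)) ((gf v)⁻¹ * γ').val := by
    intro v
    rw [← X_val (af v) (haf v) (rf v) (gf v) α hα ρ γ' (cf v) rfl, ← Units.val_mul, ← hB]
    have e1 : g v = γ1 * (blkG (af v) (haf v) (rf v) (gf v) * kf v) := by
      rw [← hf1 v]
      group
    congr 1
    rw [e1]
    group
  have hXw : ∀ w : InfinitePlace K, ((h w)⁻¹ * (γ1 * B)).val = ((kw w)⁻¹).val *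
      blk ((bw w)⁻¹ * α) (fun j => ((bw w)⁻¹ * α) * (ρ j - cw w j / α)) ((gw w)⁻¹ * γ').val := by
    intro w
    rw [← X_val (bw w) (hbw w) (rw' w) (gw w) α hα ρ γ' (cw w) rfl, ← Units.val_mul, ← hB]
    have e1 : h w = γ1 * (blkG (bw w) (hbw w) (rw' w) (gw w) * kw w) := by
      rw [← hw1 w]
      group
    congr 1
    rw [e1]
    group
  have hYf : ∀ v : FinitePlace K, ((γ1 * B)⁻¹ * g v).val =
      blk (α⁻¹ * af v) ((fun j => cf v j / α - ρ j) ᵥ* (γ'⁻¹ * gf v).val) (γ'⁻¹ * gf v).val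
        * (kf v).val := by
    intro v
    rw [← Y_val (af v) (haf v) (rf v) (gf v) α hα ρ γ' (cf v) rfl, ← Units.val_mul, ← hB]
    have e1 : g v = γ1 * (blkG (af v) (haf v) (rf v) (gf v) * kf v) := by
      rw [← hf1 v]
      group
    congr 1
    rw [e1]
    group
  have hYw : ∀ w : InfinitePlace K, ((γ1 * B)⁻¹ * h w).val =
      blk (α⁻¹ * bw w) ((fun j => cw w j / α - ρ j) ᵥ* (γ'⁻¹ * gw w).val) (γ'⁻¹ * gw w).val
        * (kw w).val := by
    intro w
    rw [← Y_val (bw w) (hbw w) (rw' w) (gw w) α hα ρ γ' (cw w) rfl, ← Units.val_mul, ← hB]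
    have e1 : h w = γ1 * (blkG (bw w) (hbw w) (rw' w) (gw w) * kw w) := by
      rw [← hw1 w]
      group
    congr 1
    rw [e1]
    group
  -- (1)
  have c1 : ∀ (v : FinitePlace K) i l, v (((g v)⁻¹ * (γ1 * B)).val i l) ≤ 1 := by
    intro v i l
    rw [hXf]
    refine fin_matmul_le v (hf4 v) ?_ i l
    intro i j
    refine Fin.cases ?_ (fun i => ?_) i <;> refine Fin.cases ?_ (fun j => ?_) j
    · rw [blk_zz]
      exact s1 v
    · rw [blk_zs]
      refine fin_mul_le v (s1 v) ?_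
      rw [← fin_neg, neg_sub]
      exact hρ1 j v
    · rw [blk_sz, map_zero]
      exact zero_le_one
    · rw [blk_ss]
      exact i1 v i j
  -- (*)
  have hstar : ∀ l, t' l ≤ C2 * t0 := by
    intro l
    by_contra hlt
    push Not at hlt
    obtain ⟨s, β, hs, hs1, hs2⟩ := hdir (fun w => ρ l - cw w l / α)
    set x : Fin (n + 1) → K := Fin.cons (-(β : K)) (Pi.single l (s : K)) with hx
    have hxs : x l.succ = s := by
      rw [hx, Fin.cons_succ, Pi.single_eq_same]
    have hs0 : (s : K) ≠ 0 := by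
      intro h0
      exact hs (RingOfIntegers.coe_eq_zero_iff.1 h0)
    have hu' : (γ1 * B).val *ᵥ x ≠ 0 := by
      intro h0
      have h1 : ((γ1 * B)⁻¹).val *ᵥ ((γ1 * B).val *ᵥ x) = x := by
        rw [mulVec_mulVec]
        have : ((γ1 * B)⁻¹).val * (γ1 * B).val = 1 := (γ1 * B).inv_val
        rw [this, one_mulVec]
      rw [h0, mulVec_zero] at h1
      apply hs0
      rw [← hxs, ← h1]
      rfl
    have hxint : ∀ (v : FinitePlace K) j, v (x j) ≤ 1 := by
      intro v j
      refine Fin.cases ?_ (fun j => ?_) j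
      · rw [hx, Fin.cons_zero, fin_neg]
        exact fin_int_le v β
      · rw [hx, Fin.cons_succ]
        by_cases hj : j = l
        · subst hj
          rw [Pi.single_eq_same]
          exact fin_int_le v s
        · rw [Pi.single_eq_of_ne hj, map_zero]
          exact zero_le_one
    have hbound := tw_le g h (γ1 * B) c1 (fun w => ((kw w)⁻¹).val)
      (fun w => blk ((bw w)⁻¹ * α) (fun j => ((bw w)⁻¹ * α) * (ρ j - cw w j / α))
        ((gw w)⁻¹ * γ').val) hw4 hXw x hxint (1 / (4 * N * t0)) (by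
        intro w i
        have hsum : ∀ (a : K) (r : Fin n → K) (A : Matrix (Fin n) (Fin n) K),
            (blk a r A *ᵥ x) 0 = r l * s - a * β ∧
            ∀ i : Fin n, (blk a r A *ᵥ x) i.succ = A i l * s := by
          intro a r A
          have e1 : ∀ f : Fin n → K, ∑ j, f j * (Pi.single l (s : K) : Fin n → K) j = f l * s := by
            intro f
            rw [Finset.sum_eq_single l]
            · rw [Pi.single_eq_same]
            · intro j _ hj
              rw [Pi.single_eq_of_ne hj, mul_zero]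
            · intro h'
              exact absurd (mem_univ l) h'
          refine ⟨?_, fun i => ?_⟩
          · rw [mulVec, dotProduct, Fin.sum_univ_succ]
            simp only [hx, Fin.cons_zero, Fin.cons_succ, blk_zz, blk_zs]
            rw [e1]
            ring
          · rw [mulVec, dotProduct, Fin.sum_univ_succ]
            simp only [hx, Fin.cons_zero, Fin.cons_succ, blk_sz, blk_ss]
            rw [e1]
            ring
        refine Fin.cases ?_ (fun i => ?_) i
        · rw [(hsum _ _ _).1]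
          have e2 : (bw w)⁻¹ * α * (ρ l - cw w l / α) * s - (bw w)⁻¹ * α * β
              = ((bw w)⁻¹ * α) * ((s : K) * (ρ l - cw w l / α) - β) := by ring
          rw [e2, map_mul]
          have h3 := s3 w
          have h4 := hs2 w
          calc w ((bw w)⁻¹ * α) * w ((s : K) * (ρ l - cw w l / α) - β)
              ≤ (CB / t0) * (1 / (4 * N * CB)) :=
                mul_le_mul h3 h4 (apply_nonneg w _) (by positivity)
            _ = 1 / (4 * N * t0) := by
                field_simp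
        · rw [(hsum _ _ _).2, map_mul]
          have h3 := i3 w i l
          have h4 := hs1 w
          have h5 : 0 < t' l := ht' l
          calc w (((gw w)⁻¹ * γ').val i l) * w (s : K)
              ≤ (C' / t' l) * S := mul_le_mul h3 h4 (apply_nonneg w _) (by positivity)
            _ = (C' * S) / t' l := by ring
            _ ≤ (C' * S) / (C2 * t0) :=
                div_le_div_of_nonneg_left (by positivity) (by positivity) hlt.le
            _ = 1 / (4 * N * t0) := by
                rw [hC2]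
                field_simp)
    have hm := hmin _ hu'
    rw [htw] at hm
    have e5 : N * (1 / (4 * N * t0)) = (1 / 4) * t0⁻¹ := by
      field_simp
    rw [← hd, ← hN, e5, mul_pow, inv_pow] at hbound
    have htd : 0 < (t0 ^ d)⁻¹ := inv_pos.2 (pow_pos ht0 _)
    have h14 : ((1 : ℝ) / 4) ^ d ≤ 1 / 4 := by
      calc ((1 : ℝ) / 4) ^ d ≤ (1 / 4) ^ 1 :=
            pow_le_pow_of_le_one (by norm_num) (by norm_num) (Nat.one_le_iff_ne_zero.2 hd0)
        _ = 1 / 4 := pow_one _
    nlinarith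
  -- the conclusion
  refine ⟨γ1 * B, Fin.cons t0 t', ?_, c1, ?_, ?_, ?_⟩
  · intro l
    refine Fin.cases ?_ (fun l => ?_) l
    · rw [Fin.cons_zero]
      exact ht0
    · rw [Fin.cons_succ]
      exact ht' l
  · intro v l j
    rw [hYf]
    set Y := blk (α⁻¹ * af v) ((fun j => cf v j / α - ρ j) ᵥ* (γ'⁻¹ * gf v).val)
      (γ'⁻¹ * gf v).val with hY
    have e1 : ((DB * D' : ℕ) : K) * (Y * (kf v).val) l j
        = ((((DB * D' : ℕ) : K) • Y) * (kf v).val) l j := by
      rw [Matrix.smul_mul]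
      rfl
    rw [e1]
    refine fin_matmul_le v ?_ (hf3 v) l j
    intro i j
    rw [Matrix.smul_apply, smul_eq_mul, hY, Nat.cast_mul]
    refine Fin.cases ?_ (fun i => ?_) i <;> refine Fin.cases ?_ (fun j => ?_) j
    · rw [blk_zz]
      have : (DB : K) * D' * (α⁻¹ * af v) = (D' : K) * ((DB : K) * (α⁻¹ * af v)) := by ring
      rw [this]
      exact fin_mul_le v (fin_nat_le v D') (s2 v)
    · rw [blk_zs]
      have : (DB : K) * D' * ((fun j => cf v j / α - ρ j) ᵥ* (γ'⁻¹ * gf v).val) j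
          = (DB : K) * (((fun j => cf v j / α - ρ j) ᵥ* ((D' : K) • (γ'⁻¹ * gf v).val)) j) := by
        rw [vecMul_smul, Pi.smul_apply, smul_eq_mul, mul_assoc]
      rw [this]
      refine fin_mul_le v (fin_nat_le v DB) ?_
      refine fin_vecMul_le v ?_ (fun j => hρ1 j v) j
      intro i j
      rw [Matrix.smul_apply, smul_eq_mul]
      exact i2 v i j
    · rw [blk_sz, mul_zero, map_zero]
      exact zero_le_one
    · rw [blk_ss, mul_assoc]
      exact fin_mul_le v (fin_nat_le v DB) (i2 v i j)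
  · intro w i l
    rw [hXw]
    refine Fin.cases ?_ (fun l => ?_) l
    · rw [Fin.cons_zero]
      refine (inf_matmul_left_le w 0 (CB / t0) (hw4 w) ?_ i).trans ?_
      · intro i
        refine Fin.cases ?_ (fun i => ?_) i
        · rw [blk_zz]
          exact s3 w
        · rw [blk_sz, map_zero]
          positivity
      · rw [← hN, ← mul_div_assoc]
        apply div_le_div_of_nonneg_right _ ht0.le
        rw [hCn]
        apply mul_le_mul_of_nonneg_left _ hN0.le
        linarith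
    · rw [Fin.cons_succ]
      have hl := ht' l
      have h1t : 1 / t0 ≤ C2 / t' l := by
        rw [div_le_div_iff₀ ht0 hl, one_mul]
        exact hstar l
      refine (inf_matmul_left_le w l.succ ((CB * CA * C2 + C') / t' l) (hw4 w) ?_ i).trans ?_
      · intro i
        refine Fin.cases ?_ (fun i => ?_) i
        · rw [blk_zs, map_mul]
          have e2 : w (ρ l - cw w l / α) ≤ CA := by
            have := hρ2 l w
            rwa [← neg_sub, show w (-(ρ l - cw w l / α)) = w (ρ l - cw w l / α) from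
              w.1.map_neg _] at this
          calc w ((bw w)⁻¹ * α) * w (ρ l - cw w l / α) ≤ (CB / t0) * CA :=
                mul_le_mul (s3 w) e2 (apply_nonneg w _) (by positivity)
            _ = (CB * CA) * (1 / t0) := by ring
            _ ≤ (CB * CA) * (C2 / t' l) := mul_le_mul_of_nonneg_left h1t (by positivity)
            _ = (CB * CA * C2) / t' l := by ring
            _ ≤ _ := by
                apply div_le_div_of_nonneg_right _ hl.le
                linarith
        · rw [blk_ss]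
          refine (i3 w i l).trans ?_
          apply div_le_div_of_nonneg_right _ hl.le
          linarith
      · rw [← hN, ← mul_div_assoc]
        apply div_le_div_of_nonneg_right _ hl.le
        rw [hCn]
        apply mul_le_mul_of_nonneg_left _ hN0.le
        linarith
  · intro w l j
    rw [hYw]
    refine Fin.cases ?_ (fun l => ?_) l
    · rw [Fin.cons_zero]
      refine (inf_matmul_right_le w 0 ((CB + n * (CA * C' * C2)) * t0) (hw3 w) ?_ j).trans ?_
      · intro j
        refine Fin.cases ?_ (fun j => ?_) j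
        · rw [blk_zz]
          refine (s4 w).trans ?_
          apply mul_le_mul_of_nonneg_right _ ht0.le
          linarith
        · rw [blk_zs, vecMul, dotProduct]
          refine (inf_sum_le w _ (CA * C' * C2 * t0) fun k => ?_).trans ?_
          · rw [map_mul]
            calc w (cw w k / α - ρ k) * w ((γ'⁻¹ * gw w).val k j) ≤ CA * (C' * t' k) :=
                  mul_le_mul (hρ2 k w) (i4 w k j) (apply_nonneg w _) hCA0.le
              _ ≤ CA * (C' * (C2 * t0)) := by
                  apply mul_le_mul_of_nonneg_left _ hCA0.le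
                  exact mul_le_mul_of_nonneg_left (hstar k) hC'0.le
              _ = _ := by ring
          · rw [← mul_assoc]
            apply mul_le_mul_of_nonneg_right _ ht0.le
            linarith
      · rw [← hN, ← mul_assoc]
        apply mul_le_mul_of_nonneg_right _ ht0.le
        rw [hCn]
        apply mul_le_mul_of_nonneg_left _ hN0.le
        linarith
    · rw [Fin.cons_succ]
      have hl := ht' l
      refine (inf_matmul_right_le w l.succ (C' * t' l) (hw3 w) ?_ j).trans ?_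
      · intro j
        refine Fin.cases ?_ (fun j => ?_) j
        · rw [blk_sz, map_zero]
          positivity
        · rw [blk_ss]
          exact i4 w l j
      · rw [← hN, ← mul_assoc]
        apply mul_le_mul_of_nonneg_right _ hl.le
        rw [hCn]
        apply mul_le_mul_of_nonneg_left _ hN0.le
        linarith

lemma all (hDir : Stmt_Dir) (hBal : Stmt_Bal) (hDen : Stmt_Den) (hAdd : Stmt_Add)
    (hElim : Stmt_Elim) (hNM : Stmt_NearMin) (K : Type) [Field K] [NumberField K] (n : ℕ) :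
    ∃ (C : ℝ) (D : ℕ), 1 ≤ C ∧ D ≠ 0 ∧ SG K n C D := by
  induction n with
  | zero =>
    refine ⟨1, 1, le_rfl, one_ne_zero, ?_⟩
    intro g h _
    exact ⟨1, fun _ => 1, fun _ => one_pos, fun _ i => i.elim0, fun _ i => i.elim0,
      fun _ i => i.elim0, fun _ i => i.elim0⟩
  | succ n ih => exact step hDir hBal hDen hAdd hElim hNM K n ih

end Pool.QM.Siegel

namespace Pool.QM

/-- SIEGEL -/
theorem siegel_proof (hDir : Stmt_Dir) (hBal : Stmt_Bal) (hDen : Stmt_Den) (hAdd : Stmt_Add)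
    (hElim : Stmt_Elim) (hNM : Stmt_NearMin) : Stmt_Siegel := by
  intro K _ _ n
  obtain ⟨C, D, hC, hD, h⟩ := Siegel.all hDir hBal hDen hAdd hElim hNM K n
  exact ⟨C, D, hC, hD, h⟩

end Pool.QM
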