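import Mathlib
import Pool.Agent.QM.Defs
import Pool.Agent.QM.Stmts

set_option autoImplicit false

/-!
# SUBOF: block triangular forms give subrepresentations
-/

namespace Pool.QM

open Matrix

/-- SUBOF -/
theorem subOf_proof : Stmt_SubOf := by
  intro F _ Q y k A hA
  refine ⟨fun i => Submodule.span F (Set.range fun l : {l // l ∈ A i} =>
    (k i).val *ᵥ (Pi.single l.1 1)), fun i => ?_, fun a => ?_⟩
  · have hli : LinearIndependent F (fun l : {l // l ∈ A i} =>
        (k i).val *ᵥ (Pi.single l.1 (1 : F))) := by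
      have h1 : LinearIndependent F (fun l : {l // l ∈ A i} => (Pi.single l.1 (1 : F) :
          Fin (Q.d i) → F)) := by
        have h0 := (Pi.basisFun F (Fin (Q.d i))).linearIndependent.comp
          (fun l : {l // l ∈ A i} => l.1) Subtype.val_injective
        convert h0 using 1
        funext l
        simp
      have h2 : Function.Injective (Matrix.mulVecLin (k i).val) := by
        intro x x' hx
        have h3 : (k i).val *ᵥ x = (k i).val *ᵥ x' := hx
        have h4 : ((k i)⁻¹).val *ᵥ ((k i).val *ᵥ x) = ((k i)⁻¹).val *ᵥ ((k i).val *ᵥ x') := by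
          rw [h3]
        have h5 : ((k i)⁻¹).val * (k i).val = 1 := (k i).inv_val
        rwa [mulVec_mulVec, mulVec_mulVec, h5, one_mulVec, one_mulVec] at h4
      exact h1.map' (Matrix.mulVecLin (k i).val) (LinearMap.ker_eq_bot.2 h2)
    rw [finrank_span_eq_card hli, Fintype.card_coe]
  · have hle : Submodule.span F (Set.range fun l : {l // l ∈ A (Q.tl a)} =>
        (k (Q.tl a)).val *ᵥ (Pi.single l.1 (1 : F))) ≤
        (Submodule.span F (Set.range fun l : {l // l ∈ A (Q.hd a)} =>
          (k (Q.hd a)).val *ᵥ (Pi.single l.1 (1 : F)))).comap (Matrix.mulVecLin (y a)) := by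
      rw [Submodule.span_le]
      rintro _ ⟨⟨j, hj⟩, rfl⟩
      change y a *ᵥ ((k (Q.tl a)).val *ᵥ (Pi.single j (1 : F))) ∈
        (Submodule.span F (Set.range fun l : {l // l ∈ A (Q.hd a)} =>
          (k (Q.hd a)).val *ᵥ (Pi.single l.1 (1 : F))))
      have h1 : y a *ᵥ ((k (Q.tl a)).val *ᵥ (Pi.single j (1 : F)))
          = ∑ i, (Q.act k⁻¹ y a i j) • ((k (Q.hd a)).val *ᵥ (Pi.single i (1 : F))) := by
        have h2 : y a * (k (Q.tl a)).val = (k (Q.hd a)).val * Q.act k⁻¹ y a := by
          unfold Quiv.act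
          rw [Pi.inv_apply, Pi.inv_apply, inv_inv, ← Matrix.mul_assoc, ← Matrix.mul_assoc]
          have h3 : (k (Q.hd a)).val * ((k (Q.hd a))⁻¹).val = 1 := (k (Q.hd a)).val_inv
          rw [h3, Matrix.one_mul]
        rw [mulVec_mulVec, h2, ← mulVec_mulVec, mulVec_single_one]
        funext l
        simp only [Finset.sum_apply, Pi.smul_apply, smul_eq_mul, mulVec_single_one]
        rw [mulVec, dotProduct]
        refine Finset.sum_congr rfl fun i _ => ?_
        rw [mul_comm]
        rfl
      rw [h1]
      refine Submodule.sum_mem _ fun i _ => ?_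
      by_cases hi : i ∈ A (Q.hd a)
      · exact Submodule.smul_mem _ _ (Submodule.subset_span ⟨⟨i, hi⟩, rfl⟩)
      · rw [hA a i j hi hj, zero_smul]
        exact Submodule.zero_mem _
    intro u hu
    exact hle hu

end Pool.QM
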