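import Mathlib
import Pool.Agent.QM.Main
import Pool.Agent.QM.Red
import Pool.Agent.QM.Siegel
import Pool.Agent.QM.LocV
import Pool.Agent.QM.LocAE
import Pool.Agent.QM.Near
import Pool.Agent.QM.NearMin
import Pool.Agent.QM.Frame
import Pool.Agent.QM.SubOf
import Pool.Agent.QM.Cell
import Pool.Agent.QM.BoxUp
import Pool.Agent.QM.BoxLow
import Pool.Agent.QM.Cluster
import Pool.Agent.QM.LP
import Pool.Agent.QM.GenU
import Pool.Agent.QM.GenP
import Pool.Agent.QM.SI
import Pool.Agent.QM.Elim
import Pool.Agent.QM.Dir
import Pool.Agent.QM.Add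
import Pool.Agent.QM.Bal
import Pool.Agent.QM.Den

set_option autoImplicit false

namespace Pool.QM

/-- MAIN without hypotheses. -/
theorem main_all : Stmt_Main :=
  main_proof
    (red_proof (siegel_proof dir_proof bal_proof den_proof add_proof elim_proof nearMin_proof)
      (locV_proof near_proof frame_proof) (locAE_proof near_proof frame_proof))
    (genU_proof genP_proof (sI_proof frame_proof)) cluster_proof
    (cell_proof boxUp_proof boxLow_proof) lp_proof subOf_proof

end Pool.QM
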