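import Mathlib
import Pool.Agent.QM.Stmts

set_option autoImplicit false

/-!
# The common part of the modules LOCV and LOCAE
-/

namespace Pool.QM

open Filter

/-- LIFT (uses FRAME): the common part of LOCV and LOCAE.  If the entries of the representations
`y m` are bounded and all `s j (y m)` tend to `0`, then after a bounded change of basis a block
which destabilises tends to `0`. -/
def Stmt_Lift : Prop :=
  ∀ (K : Type) [Field K] (v : ℕ → AbsoluteValue K ℝ),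
    (∀ α : K, ∃ C : ℝ, ∀ᶠ m in (hyperfilter ℕ : Filter ℕ), v m α ≤ C) →
    ∀ (Q : Quiv) (ℓ : Fin Q.nv → ℤ) (ι : Type) (s : ι → MvPolynomial Q.Coord K), Q.Bpf ℓ s →
    ∀ (y : ℕ → Q.Rep K) (B : ℝ), (∀ m a i j, v m (y m a i j) ≤ B) →
    (∀ j, ∀ ε : ℝ, 0 < ε → ∀ᶠ m in (hyperfilter ℕ : Filter ℕ), v m (Q.ev (s j) (y m)) ≤ ε) →
    ∃ (e : Fin Q.nv → ℕ) (k : ℕ → Q.Grp K) (B' : ℝ), dot ℓ e < 0 ∧ (∀ i, e i ≤ Q.d i) ∧
      (∀ᶠ m in (hyperfilter ℕ : Filter ℕ), ∀ i p q,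
        v m ((k m i).val p q) ≤ B' ∧ v m (((k m i)⁻¹).val p q) ≤ B') ∧
      ∀ ε : ℝ, 0 < ε → ∀ᶠ m in (hyperfilter ℕ : Filter ℕ),
        ∀ a (i : Fin (Q.d (Q.hd a))) (j : Fin (Q.d (Q.tl a))),
          e (Q.hd a) ≤ i.val → j.val < e (Q.tl a) → v m (Q.act (k m)⁻¹ (y m) a i j) ≤ ε

end Pool.QM
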