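import Mathlib
import Pool.Agent.QM.LiftStmt

set_option autoImplicit false

/-!
# The common part of the modules LOCV and LOCAE: proof of `Stmt_Lift` from `Stmt_Frame`

`A` is the ring of the sequences which are bounded along an ultrafilter, `I` its ideal of
infinitesimal sequences, `A ⧸ I` is a field containing `K`.
-/

namespace Pool.QM.Lift

open Filter

variable {K : Type} [Field K] (v : ℕ → AbsoluteValue K ℝ)

/-- bounded sequences -/
def bdd : Subring (ℕ → K) where
  carrier := {z | ∃ C : ℝ, ∀ᶠ m in (hyperfilter ℕ : Filter ℕ), v m (z m) ≤ C}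
  mul_mem' := by
    rintro a b ⟨C, hC⟩ ⟨D, hD⟩
    refine ⟨C * D, ?_⟩
    filter_upwards [hC, hD] with m h1 h2
    rw [Pi.mul_apply, map_mul]
    exact mul_le_mul h1 h2 ((v m).nonneg _) (((v m).nonneg _).trans h1)
  one_mem' := ⟨1, by filter_upwards with m; simp⟩
  add_mem' := by
    rintro a b ⟨C, hC⟩ ⟨D, hD⟩
    refine ⟨C + D, ?_⟩
    filter_upwards [hC, hD] with m h1 h2
    rw [Pi.add_apply]
    exact ((v m).add_le _ _).trans (add_le_add h1 h2)
  zero_mem' := ⟨0, by filter_upwards with m; simp⟩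
  neg_mem' := by
    rintro a ⟨C, hC⟩
    refine ⟨C, ?_⟩
    filter_upwards [hC] with m h1
    rw [Pi.neg_apply, (v m).map_neg]
    exact h1

lemma mem_bdd {z : ℕ → K} : z ∈ bdd v ↔ ∃ C : ℝ, ∀ᶠ m in (hyperfilter ℕ : Filter ℕ), v m (z m) ≤ C := Iff.rfl

/-- infinitesimal sequences -/
def inf : Ideal (bdd v) where
  carrier := {z | ∀ ε : ℝ, 0 < ε → ∀ᶠ m in (hyperfilter ℕ : Filter ℕ), v m (z.1 m) ≤ ε}
  add_mem' := by
    intro a b ha hb ε hε
    filter_upwards [ha (ε / 2) (by positivity), hb (ε / 2) (by positivity)] with m h1 h2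
    have : (a + b).1 m = a.1 m + b.1 m := rfl
    rw [this]
    have := (v m).add_le (a.1 m) (b.1 m)
    linarith
  zero_mem' := by
    intro ε hε
    filter_upwards with m
    have : (0 : bdd v).1 m = 0 := rfl
    rw [this, map_zero]
    exact hε.le
  smul_mem' := by
    rintro c z hz ε hε
    obtain ⟨C, hC⟩ := c.2
    have hC' : 0 < |C| + 1 := by positivity
    filter_upwards [hC, hz (ε / (|C| + 1)) (by positivity)] with m h1 h2
    have : (c • z).1 m = c.1 m * z.1 m := rfl
    rw [this, map_mul]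
    have h3 : v m (c.1 m) ≤ |C| + 1 := h1.trans ((le_abs_self C).trans (by linarith))
    calc v m (c.1 m) * v m (z.1 m) ≤ (|C| + 1) * (ε / (|C| + 1)) :=
          mul_le_mul h3 h2 ((v m).nonneg _) hC'.le
      _ = ε := by field_simp

lemma mem_inf {z : bdd v} : z ∈ inf v ↔ ∀ ε : ℝ, 0 < ε → ∀ᶠ m in (hyperfilter ℕ : Filter ℕ), v m (z.1 m) ≤ ε := Iff.rfl

/-- a sequence which is not infinitesimal is bounded from below -/
lemma not_mem_inf {z : bdd v} (hz : z ∉ inf v) :
    ∃ ε : ℝ, 0 < ε ∧ ∀ᶠ m in (hyperfilter ℕ : Filter ℕ), ε < v m (z.1 m) := by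
  rw [mem_inf] at hz
  push Not at hz
  obtain ⟨ε, hε, h⟩ := hz
  exact ⟨ε, hε, h⟩

instance : (inf v).IsMaximal := by
  rw [Ideal.isMaximal_iff]
  constructor
  · intro h
    have := (mem_inf v).1 h (1 / 2) (by norm_num)
    obtain ⟨m, hm⟩ := this.exists
    have h1 : (1 : bdd v).1 m = 1 := rfl
    rw [h1, map_one] at hm
    norm_num at hm
  · intro J x hIJ hx hxJ
    obtain ⟨ε, hε, h⟩ := not_mem_inf v hx
    have hw : (fun m => (x.1 m)⁻¹) ∈ bdd v := by
      refine ⟨ε⁻¹, ?_⟩
      filter_upwards [h] with m hm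
      rw [map_inv₀]
      exact inv_anti₀ hε hm.le
    set w : bdd v := ⟨fun m => (x.1 m)⁻¹, hw⟩ with hwdef
    have h1 : w * x - 1 ∈ inf v := by
      rw [mem_inf]
      intro δ hδ
      filter_upwards [h] with m hm
      have hne : x.1 m ≠ 0 := by
        intro h0
        rw [h0, map_zero] at hm
        exact absurd hm (not_lt.2 hε.le)
      have : (w * x - 1).1 m = (x.1 m)⁻¹ * x.1 m - 1 := rfl
      rw [this, inv_mul_cancel₀ hne, sub_self, map_zero]
      exact hδ.le
    have h2 : w * x ∈ J := J.mul_mem_left w hxJ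
    have h3 : w * x - (w * x - 1) ∈ J := J.sub_mem h2 (hIJ h1)
    simpa using h3

/-- constants -/
def cst (hv : ∀ α : K, ∃ C : ℝ, ∀ᶠ m in (hyperfilter ℕ : Filter ℕ), v m α ≤ C) : K →+* bdd v :=
  (Pi.constRingHom ℕ K).codRestrict (bdd v) (fun α => hv α)

/-- evaluation -/
def evm (m : ℕ) : bdd v →+* K := (Pi.evalRingHom (fun _ => K) m).comp (bdd v).subtype

lemma evm_apply (m : ℕ) (z : bdd v) : evm v m z = z.1 m := rfl

/-- finitely many bounded sequences -/
lemma bdd_family {ι : Type} [Finite ι] (z : ι → bdd v) :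
    ∃ B : ℝ, 0 < B ∧ ∀ᶠ m in (hyperfilter ℕ : Filter ℕ), ∀ i, v m ((z i).1 m) ≤ B := by
  cases nonempty_fintype ι
  choose C hC using fun i => (z i).2
  refine ⟨∑ i, |C i| + 1, by positivity, ?_⟩
  rw [eventually_all]
  intro i
  filter_upwards [hC i] with m hm
  refine hm.trans ((le_abs_self _).trans ?_)
  have := Finset.single_le_sum (f := fun i => |C i|) (fun i _ => abs_nonneg (C i))
    (Finset.mem_univ i)
  have h2 : |C i| ≤ ∑ i, |C i| := this
  linarith

/-- finitely many sequences which are not infinitesimal -/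
lemma low_family {ι : Type} [Finite ι] (z : ι → bdd v) (hz : ∀ i, z i ∉ inf v) :
    ∃ δ : ℝ, 0 < δ ∧ ∀ᶠ m in (hyperfilter ℕ : Filter ℕ), ∀ i, δ ≤ v m ((z i).1 m) := by
  cases nonempty_fintype ι
  choose ε hε h using fun i => not_mem_inf v (hz i)
  rcases isEmpty_or_nonempty ι with hι | hι
  · exact ⟨1, one_pos, by filter_upwards with m i; exact (hι.false i).elim⟩
  · obtain ⟨i0, hi0⟩ := Finite.exists_min ε
    refine ⟨ε i0, hε i0, ?_⟩
    rw [eventually_all]
    intro i
    filter_upwards [h i] with m hm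
    exact (hi0 i).trans hm.le

end Pool.QM.Lift

namespace Pool.QM

open Filter Lift

theorem lift_proof (hF : Stmt_Frame) : Stmt_Lift := by
  intro K _ v hv Q ℓ ι s hB y B hy hs
  classical
  let _ : Field (bdd v ⧸ inf v) := Ideal.Quotient.field (inf v)
  set π : bdd v →+* bdd v ⧸ inf v := Ideal.Quotient.mk (inf v) with hπ
  let _ : Algebra K (bdd v ⧸ inf v) := (π.comp (cst v hv)).toAlgebra
  -- the representation over the bounded sequences
  have hY : ∀ a i j, (fun m => y m a i j) ∈ bdd v := fun a i j =>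
    ⟨B, by filter_upwards with m; exact hy m a i j⟩
  set Y : ∀ a : Fin Q.na, Matrix (Fin (Q.d (Q.hd a))) (Fin (Q.d (Q.tl a))) (bdd v) :=
    fun a i j => ⟨fun m => y m a i j, hY a i j⟩ with hYdef
  set yb : Q.Rep (bdd v ⧸ inf v) := fun a => (Y a).map π with hyb
  -- evaluation of the polynomials
  have hev : ∀ f : MvPolynomial Q.Coord K,
      Q.ev f yb = π (MvPolynomial.eval₂ (cst v hv) (fun c : Q.Coord => Y c.1 c.2.1 c.2.2) f) := by
    intro f
    rw [MvPolynomial.eval₂_comp_left]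
    rfl
  have hevm : ∀ (f : MvPolynomial Q.Coord K) (m : ℕ),
      (MvPolynomial.eval₂ (cst v hv) (fun c : Q.Coord => Y c.1 c.2.1 c.2.2) f).1 m =
        Q.ev f (y m) := by
    intro f m
    rw [← evm_apply v m, MvPolynomial.eval₂_comp_left]
    rfl
  have hss : ¬ Q.Semistable ℓ yb := by
    intro h
    obtain ⟨j, hj⟩ := hB (bdd v ⧸ inf v) yb h
    apply hj
    rw [hev, hπ, Ideal.Quotient.eq_zero_iff_mem, mem_inf]
    intro ε hε
    filter_upwards [hs j ε hε] with m hm
    rw [hevm]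
    exact hm
  unfold Quiv.Semistable at hss
  push Not at hss
  obtain ⟨e, he, hle⟩ := hss
  obtain ⟨hed, k, hk⟩ := hF _ Q yb e he
  -- lift the matrices
  have hsurj : Function.Surjective π := Ideal.Quotient.mk_surjective
  choose σ hσ using hsurj
  set κ : ∀ i : Fin Q.nv, Matrix (Fin (Q.d i)) (Fin (Q.d i)) (bdd v) :=
    fun i => (k i).val.map σ with hκ
  have hκπ : ∀ i, (κ i).map π = (k i).val := by
    intro i; ext p q; simp [hκ, hσ]
  have hdet : ∀ i, (κ i).det ∉ inf v := by
    intro i h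
    have h1 : π (κ i).det = 0 := Ideal.Quotient.eq_zero_iff_mem.2 h
    rw [RingHom.map_det, RingHom.mapMatrix_apply, hκπ] at h1
    exact (Matrix.GeneralLinearGroup.det_ne_zero (k i)) h1
  obtain ⟨δ, hδ, hlow⟩ := low_family v (fun i => (κ i).det) hdet
  obtain ⟨B1, hB1, hup1⟩ := bdd_family v
    (fun t : (Σ i : Fin Q.nv, Fin (Q.d i) × Fin (Q.d i)) => κ t.1 t.2.1 t.2.2)
  obtain ⟨B2, hB2, hup2⟩ := bdd_family v
    (fun t : (Σ i : Fin Q.nv, Fin (Q.d i) × Fin (Q.d i)) => (κ t.1).adjugate t.2.1 t.2.2)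
  -- the matrices at m
  have hdetm : ∀ i m, ((κ i).map (evm v m)).det = (κ i).det.1 m := by
    intro i m
    rw [← evm_apply v m, RingHom.map_det, RingHom.mapMatrix_apply]
  set km : ℕ → Q.Grp K := fun m i =>
    if h : ((κ i).map (evm v m)).det ≠ 0 then Matrix.GeneralLinearGroup.mkOfDetNeZero _ h else 1
    with hkm
  have hne : ∀ m, (∀ i, δ ≤ v m ((κ i).det.1 m)) → ∀ i, ((κ i).map (evm v m)).det ≠ 0 := by
    intro m hm i h
    rw [hdetm] at h
    have := hm i
    rw [h, map_zero] at this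
    linarith
  have hkmv : ∀ m, (∀ i, δ ≤ v m ((κ i).det.1 m)) → ∀ i,
      (km m i).val = (κ i).map (evm v m) := by
    intro m hm i
    simp only [hkm]
    rw [dif_pos (hne m hm i)]
    rfl
  have hkmi : ∀ m, (∀ i, δ ≤ v m ((κ i).det.1 m)) → ∀ i,
      ((km m i)⁻¹).val = ((κ i).det.1 m)⁻¹ • ((κ i).adjugate.map (evm v m)) := by
    intro m hm i
    rw [Matrix.coe_units_inv, hkmv m hm i, Matrix.inv_def, hdetm, Ring.inverse_eq_inv']
    congr 1
    have := (RingHom.map_adjugate (evm v m) (κ i)).symm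
    simpa [RingHom.mapMatrix_apply] using this
  refine ⟨e, km, max B1 (δ⁻¹ * B2), hle, hed, ?_, ?_⟩
  · filter_upwards [hlow, hup1, hup2] with m h0 h1 h2 i p q
    constructor
    · rw [hkmv m h0 i]
      exact (h1 ⟨i, p, q⟩).trans (le_max_left _ _)
    · rw [hkmi m h0 i]
      refine le_trans ?_ (le_max_right _ _)
      rw [Matrix.smul_apply, smul_eq_mul, map_mul, map_inv₀]
      refine mul_le_mul (inv_anti₀ hδ (h0 i)) (h2 ⟨i, p, q⟩) ((v m).nonneg _) (by positivity)
  · intro ε hε
    rw [eventually_all]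
    intro a
    rw [eventually_all]
    intro i
    rw [eventually_all]
    intro j
    by_cases hij : e (Q.hd a) ≤ i.val ∧ j.val < e (Q.tl a)
    · -- the product with the adjugate
      have hz : ((κ (Q.hd a)).adjugate * Y a * κ (Q.tl a)) i j ∈ inf v := by
        rw [← Ideal.Quotient.eq_zero_iff_mem]
        have h1 : π (((κ (Q.hd a)).adjugate * Y a * κ (Q.tl a)) i j) =
            ((((κ (Q.hd a)).adjugate * Y a * κ (Q.tl a))).map π) i j := rfl
        rw [← hπ, h1, Matrix.map_mul, Matrix.map_mul, hκπ]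
        have h2 : (κ (Q.hd a)).adjugate.map π = ((k (Q.hd a)).val).adjugate := by
          have := RingHom.map_adjugate π (κ (Q.hd a))
          rw [RingHom.mapMatrix_apply, RingHom.mapMatrix_apply, hκπ] at this
          exact this
        rw [h2]
        have h3 : ((k (Q.hd a)).val).adjugate =
            (k (Q.hd a)).val.det • ((k (Q.hd a))⁻¹).val := by
          rw [Matrix.coe_units_inv, Matrix.inv_def, smul_smul, Ring.inverse_eq_inv',
            mul_inv_cancel₀ (Matrix.GeneralLinearGroup.det_ne_zero (k (Q.hd a))), one_smul]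
        rw [h3, Matrix.smul_mul, Matrix.smul_mul, Matrix.smul_apply]
        have h4 := hk a i j hij.1 hij.2
        unfold Quiv.act at h4
        simp only [Pi.inv_apply, inv_inv] at h4
        rw [show ((k (Q.hd a))⁻¹.val * (Y a).map π * (k (Q.tl a)).val) i j = 0 from h4, smul_zero]
      have hz' := (mem_inf v).1 hz (ε * δ) (by positivity)
      filter_upwards [hlow, hz'] with m h0 h1 _ _
      have h5 : Q.act (km m)⁻¹ (y m) a i j =
          ((κ (Q.hd a)).det.1 m)⁻¹ * (((κ (Q.hd a)).adjugate * Y a * κ (Q.tl a)) i j).1 m := by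
        unfold Quiv.act
        simp only [Pi.inv_apply, inv_inv]
        rw [hkmi m h0, hkmv m h0, Matrix.smul_mul, Matrix.smul_mul, Matrix.smul_apply, smul_eq_mul]
        congr 1
        rw [← evm_apply v m]
        have h6 : evm v m (((κ (Q.hd a)).adjugate * Y a * κ (Q.tl a)) i j) =
            ((((κ (Q.hd a)).adjugate * Y a * κ (Q.tl a))).map (evm v m)) i j := rfl
        rw [h6, Matrix.map_mul, Matrix.map_mul]
        rfl
      rw [h5, map_mul, map_inv₀]
      calc (v m ((κ (Q.hd a)).det.1 m))⁻¹ *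
            v m ((((κ (Q.hd a)).adjugate * Y a * κ (Q.tl a)) i j).1 m) ≤ δ⁻¹ * (ε * δ) :=
            mul_le_mul (inv_anti₀ hδ (h0 _)) h1 ((v m).nonneg _) (by positivity)
        _ = ε := by field_simp
    · filter_upwards with m h1 h2
      exact absurd ⟨h1, h2⟩ hij

end Pool.QM
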