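import Mathlib
import Pool.Agent.QM.Stmts

set_option autoImplicit false

/-!
# Lifting a destabilising frame from a quotient field (common to LOCAE and LOCV)
-/

namespace Pool.QM.LocLift

open Finset MvPolynomial

/-- If the `s_j` vanish at the image of `y` (a representation over the ring `A`) in the field `F`,
there is `e` with `ℓ(e) < 0` and matrices `k` over `A`, invertible over `F`, with the block
`(i ≥ e_hd, j < e_tl)` of `adj(k_hd) y k_tl` zero over `F`. -/
theorem lift_frame (hF : Stmt_Frame) {K : Type} [Field K] {Q : Quiv} {ℓ : Fin Q.nv → ℤ} {ι : Type}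
    {s : ι → MvPolynomial Q.Coord K} (hb : Q.Bpf ℓ s)
    {A F : Type} [CommRing A] [Field F] (mk : A →+* F) (hmk : Function.Surjective mk) (c : K →+* A)
    (y : ∀ a : Fin Q.na, Matrix (Fin (Q.d (Q.hd a))) (Fin (Q.d (Q.tl a))) A)
    (hy : ∀ j, mk (eval₂ c (fun t : Q.Coord => y t.1 t.2.1 t.2.2) (s j)) = 0) :
    ∃ e : Fin Q.nv → ℕ, (∀ i, e i ≤ Q.d i) ∧ dot ℓ e < 0 ∧
      ∃ k : ∀ i, Matrix (Fin (Q.d i)) (Fin (Q.d i)) A, (∀ i, mk (k i).det ≠ 0) ∧
        ∀ a (i : Fin (Q.d (Q.hd a))) (j : Fin (Q.d (Q.tl a))),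
          e (Q.hd a) ≤ i.val → j.val < e (Q.tl a) →
          mk (((k (Q.hd a)).adjugate * y a * k (Q.tl a)) i j) = 0 := by
  let _ : Algebra K F := (mk.comp c).toAlgebra
  let ybar : Q.Rep F := fun a => (y a).map mk
  have hev : ∀ j, Q.ev (s j) ybar = 0 := by
    intro j
    have h1 := MvPolynomial.eval₂_comp_left mk c (fun t : Q.Coord => y t.1 t.2.1 t.2.2) (s j)
    rw [hy j] at h1
    rw [Quiv.ev, MvPolynomial.aeval_def]
    exact h1.symm
  have hns : ¬ Q.Semistable ℓ ybar := fun hs => (hb F ybar hs).elim fun j hj => hj (hev j)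
  simp only [Quiv.Semistable, not_forall, not_le] at hns
  obtain ⟨e, hsub, he⟩ := hns
  obtain ⟨hle, k, hk⟩ := hF F Q ybar e hsub
  choose L hL using fun (i : Fin Q.nv) (p q : Fin (Q.d i)) => hmk ((k i).val p q)
  have hLm : ∀ i, (Matrix.of (L i)).map mk = (k i).val := by
    intro i
    ext p q
    exact hL i p q
  have hdet : ∀ i, mk (Matrix.of (L i)).det = (k i).val.det := by
    intro i
    rw [RingHom.map_det, ← hLm i]
    rfl
  refine ⟨e, hle, he, fun i => Matrix.of (L i), ?_, ?_⟩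
  · intro i
    rw [hdet i]
    exact ((Matrix.isUnit_iff_isUnit_det _).1 (k i).isUnit).ne_zero
  · intro a i j hi hj
    have h0 := hk a i j hi hj
    have hadj : (k (Q.hd a)).val.adjugate =
        (k (Q.hd a)).val.det • ((k (Q.hd a))⁻¹).val := by
      have h1 : (k (Q.hd a)).val.adjugate * ((k (Q.hd a)).val * ((k (Q.hd a))⁻¹).val) =
          (k (Q.hd a)).val.adjugate := by
        rw [← Units.val_mul, mul_inv_cancel, Units.val_one, mul_one]
      rw [← h1, ← mul_assoc, Matrix.adjugate_mul, Matrix.smul_mul, one_mul]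
    have hmap : (((Matrix.of (L (Q.hd a))).adjugate * y a * Matrix.of (L (Q.tl a)))).map mk =
        (k (Q.hd a)).val.det • (Q.act k⁻¹ ybar a) := by
      rw [Matrix.map_mul, Matrix.map_mul]
      have h2 : ((Matrix.of (L (Q.hd a))).adjugate).map mk = (k (Q.hd a)).val.adjugate := by
        have := RingHom.map_adjugate mk (Matrix.of (L (Q.hd a)))
        rw [RingHom.mapMatrix_apply, RingHom.mapMatrix_apply, hLm] at this
        exact this
      rw [h2, hLm, hadj]
      simp only [Quiv.act, Pi.inv_apply, inv_inv, Matrix.smul_mul]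
      rfl
    have h3 := congrFun (congrFun hmap i) j
    rw [Matrix.smul_apply, h0, smul_zero] at h3
    exact h3

/-! ## Diagonal matrices and the action -/

/-- an invertible matrix as an element of `GL` -/
noncomputable def gl {K : Type} [Field K] {n : ℕ} (κ : Matrix (Fin n) (Fin n) K)
    (hκ : κ.det ≠ 0) : GL (Fin n) K where
  val := κ
  inv := κ.det⁻¹ • κ.adjugate
  val_inv := by
    rw [Matrix.mul_smul, Matrix.mul_adjugate, smul_smul, inv_mul_cancel₀ hκ, one_smul]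
  inv_val := by
    rw [Matrix.smul_mul, Matrix.adjugate_mul, smul_smul, inv_mul_cancel₀ hκ, one_smul]

/-- an invertible diagonal matrix as an element of `GL` -/
noncomputable def dg {K : Type} [Field K] {n : ℕ} (f : Fin n → K)
    (hf : ∀ l, f l ≠ 0) : GL (Fin n) K where
  val := Matrix.diagonal f
  inv := Matrix.diagonal fun l => (f l)⁻¹
  val_inv := by
    rw [Matrix.diagonal_mul_diagonal]
    simp [hf]
  inv_val := by
    rw [Matrix.diagonal_mul_diagonal]
    simp [hf]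

theorem act_entry {K : Type} [Field K] {Q : Quiv} (Y : Q.Rep K)
    (κ : ∀ i : Fin Q.nv, Matrix (Fin (Q.d i)) (Fin (Q.d i)) K) (hκ : ∀ i, (κ i).det ≠ 0)
    (f : ∀ i : Fin Q.nv, Fin (Q.d i) → K) (hf : ∀ i l, f i l ≠ 0)
    (a : Fin Q.na) (i : Fin (Q.d (Q.hd a))) (j : Fin (Q.d (Q.tl a))) :
    Q.act (fun i => gl (κ i) (hκ i) * dg (f i) (hf i))⁻¹ Y a i j =
      (f (Q.hd a) i)⁻¹ * ((κ (Q.hd a)).det⁻¹ *
        ((κ (Q.hd a)).adjugate * Y a * κ (Q.tl a)) i j) * f (Q.tl a) j := by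
  have h1 : Q.act (fun i => gl (κ i) (hκ i) * dg (f i) (hf i))⁻¹ Y a =
      Matrix.diagonal (fun l => (f (Q.hd a) l)⁻¹) * ((κ (Q.hd a)).det⁻¹ •
        ((κ (Q.hd a)).adjugate * Y a * κ (Q.tl a))) * Matrix.diagonal (f (Q.tl a)) := by
    simp only [Quiv.act, Pi.inv_apply, mul_inv_rev, inv_inv, Units.val_mul]
    change Matrix.diagonal (fun l => (f (Q.hd a) l)⁻¹) * ((κ (Q.hd a)).det⁻¹ •
        (κ (Q.hd a)).adjugate) * Y a * (κ (Q.tl a) * Matrix.diagonal (f (Q.tl a))) = _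
    simp only [Matrix.mul_assoc, Matrix.smul_mul, Matrix.mul_smul]
  rw [h1, Matrix.mul_diagonal, Matrix.diagonal_mul, Matrix.smul_apply, smul_eq_mul]

theorem chr_mul {K : Type} [Field K] {Q : Quiv} (χ : Fin Q.nv → ℤ) (g h : Q.Grp K) :
    Q.chr χ (g * h) = Q.chr χ g * Q.chr χ h := by
  simp only [Quiv.chr, Pi.mul_apply, Units.val_mul, Matrix.det_mul, mul_zpow,
    Finset.prod_mul_distrib]

theorem chr_ne_zero {K : Type} [Field K] {Q : Quiv} (χ : Fin Q.nv → ℤ) (g : Q.Grp K) :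
    Q.chr χ g ≠ 0 := by
  refine Finset.prod_ne_zero_iff.2 fun i _ => zpow_ne_zero _ ?_
  exact ((Matrix.isUnit_iff_isUnit_det _).1 (g i).isUnit).ne_zero

theorem chr_gldg {K : Type} [Field K] {Q : Quiv} (χ : Fin Q.nv → ℤ)
    (κ : ∀ i : Fin Q.nv, Matrix (Fin (Q.d i)) (Fin (Q.d i)) K) (hκ : ∀ i, (κ i).det ≠ 0)
    (f : ∀ i : Fin Q.nv, Fin (Q.d i) → K) (hf : ∀ i l, f i l ≠ 0) :
    Q.chr χ (fun i => gl (κ i) (hκ i) * dg (f i) (hf i)) =
      ∏ i, ((κ i).det * ∏ l, f i l) ^ χ i := by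
  simp only [Quiv.chr, Units.val_mul, Matrix.det_mul]
  refine Finset.prod_congr rfl fun i _ => ?_
  congr 2
  exact Matrix.det_diagonal

/-- the number of indices below `e` -/
theorem card_lt {d e : ℕ} (h : e ≤ d) : (univ.filter fun l : Fin d => l.val < e).card = e := by
  rw [Fin.card_filter_val_lt]
  exact min_eq_right h

/-- Semi-invariants under the inverse action. -/
theorem ev_eval2 {K A : Type} [Field K] [CommRing A] {Q : Quiv} (c : K →+* A) (E : A →+* K)
    (hE : E.comp c = RingHom.id K)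
    (y : ∀ a : Fin Q.na, Matrix (Fin (Q.d (Q.hd a))) (Fin (Q.d (Q.tl a))) A) (Y : Q.Rep K)
    (hY : ∀ a i j, E (y a i j) = Y a i j) (f : MvPolynomial Q.Coord K) :
    E (eval₂ c (fun t : Q.Coord => y t.1 t.2.1 t.2.2) f) = Q.ev f Y := by
  have h1 := MvPolynomial.eval₂_comp_left E c (fun t : Q.Coord => y t.1 t.2.1 t.2.2) f
  rw [h1, hE, Quiv.ev, MvPolynomial.aeval_def]
  have h2 : (⇑E ∘ fun t : Q.Coord => y t.1 t.2.1 t.2.2) =
      fun c : Q.Coord => Y c.1 c.2.1 c.2.2 := by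
    funext t
    exact hY _ _ _
  rw [h2]
  rfl

end Pool.QM.LocLift
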