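import Pool.Agent.QM.Ultra

/-!
# Scaling by powers of an element (MP_18ea5f_nt, moduli of quiver representations)
-/

set_option autoImplicit false

namespace Pool.QM.LocScale

open Filter

variable {K : Type} [Field K] {Q : Quiv}

/-- the diagonal group element with entries `ρ ^ p i l` -/
noncomputable def pw (ρ : K) (hρ : ρ ≠ 0) (p : ∀ i : Fin Q.nv, Fin (Q.d i) → ℤ) : Q.Grp K :=
  fun i => Matrix.GeneralLinearGroup.mkOfDetNeZero (Matrix.diagonal fun l => ρ ^ p i l) (by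
    rw [Matrix.det_diagonal]
    exact Finset.prod_ne_zero_iff.2 fun l _ => zpow_ne_zero _ hρ)

theorem pw_val (ρ : K) (hρ : ρ ≠ 0) (p : ∀ i : Fin Q.nv, Fin (Q.d i) → ℤ) (i : Fin Q.nv) :
    (pw ρ hρ p i).val = Matrix.diagonal fun l => ρ ^ p i l := rfl

theorem pw_inv_val (ρ : K) (hρ : ρ ≠ 0) (p : ∀ i : Fin Q.nv, Fin (Q.d i) → ℤ) (i : Fin Q.nv) :
    ((pw ρ hρ p i)⁻¹).val = Matrix.diagonal fun l => ρ ^ (-p i l) := by
  have h : (pw ρ hρ p i).val * (Matrix.diagonal fun l => ρ ^ (-p i l)) = 1 := by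
    rw [pw_val, Matrix.diagonal_mul_diagonal, ← Matrix.diagonal_one]
    congr 1
    ext l
    rw [← zpow_add₀ hρ, add_neg_cancel, zpow_zero]
  calc ((pw ρ hρ p i)⁻¹).val
      = ((pw ρ hρ p i)⁻¹).val * ((pw ρ hρ p i).val * Matrix.diagonal fun l => ρ ^ (-p i l)) := by
        rw [h, mul_one]
    _ = _ := by rw [← mul_assoc, Units.inv_mul, one_mul]

theorem act_pw (ρ : K) (hρ : ρ ≠ 0) (p : ∀ i : Fin Q.nv, Fin (Q.d i) → ℤ) (z : Q.Rep K)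
    (a : Fin Q.na) (i : Fin (Q.d (Q.hd a))) (j : Fin (Q.d (Q.tl a))) :
    Q.act (pw ρ hρ p)⁻¹ z a i j = ρ ^ (p (Q.tl a) j - p (Q.hd a) i) * z a i j := by
  have h : Q.act (pw ρ hρ p)⁻¹ z a =
      ((pw ρ hρ p (Q.hd a))⁻¹).val * z a * (((pw ρ hρ p (Q.tl a))⁻¹)⁻¹).val := rfl
  rw [h, inv_inv, pw_inv_val, pw_val, Matrix.mul_diagonal, Matrix.diagonal_mul, sub_eq_add_neg,
    zpow_add₀ hρ]
  ring

theorem prod_zpow' {κ : Type} (t : Finset κ) (ρ : K) (hρ : ρ ≠ 0) (f : κ → ℤ) :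
    ∏ l ∈ t, ρ ^ f l = ρ ^ (∑ l ∈ t, f l) := by
  classical
  induction t using Finset.induction_on with
  | empty => simp
  | insert a t ha ih => rw [Finset.prod_insert ha, Finset.sum_insert ha, ih, zpow_add₀ hρ]

theorem chr_pw (ρ : K) (hρ : ρ ≠ 0) (p : ∀ i : Fin Q.nv, Fin (Q.d i) → ℤ) (χ : Fin Q.nv → ℤ) :
    Q.chr χ (pw ρ hρ p) = ρ ^ (∑ i, χ i * ∑ l, p i l) := by
  unfold Quiv.chr
  have h : ∀ i ∈ Finset.univ, (pw ρ hρ p i).val.det ^ χ i = ρ ^ (χ i * ∑ l, p i l) := by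
    intro i _
    rw [pw_val, Matrix.det_diagonal, mul_comm, zpow_mul, prod_zpow' _ ρ hρ]
  rw [Finset.prod_congr rfl h, prod_zpow' _ ρ hρ]

theorem chr_mul (χ : Fin Q.nv → ℤ) (g h : Q.Grp K) : Q.chr χ (g * h) = Q.chr χ g * Q.chr χ h := by
  unfold Quiv.chr
  rw [← Finset.prod_mul_distrib]
  refine Finset.prod_congr rfl fun i _ => ?_
  rw [Pi.mul_apply, Units.val_mul, Matrix.det_mul, mul_zpow]

/-- the exponents `N₁ f_i + N [l < e_i]` -/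
def ex (Q : Quiv) (f : Fin Q.nv → ℕ) (e : Fin Q.nv → ℕ) (N₁ N : ℕ) (i : Fin Q.nv)
    (l : Fin (Q.d i)) : ℤ :=
  (N₁ : ℤ) * f i + if l.val < e i then (N : ℤ) else 0

theorem sum_ex (f e : Fin Q.nv → ℕ) (N₁ N : ℕ) (he : ∀ i, e i ≤ Q.d i) (ℓ : Fin Q.nv → ℤ) :
    ∑ i, ℓ i * ∑ l, ex Q f e N₁ N i l =
      (N₁ : ℤ) * (∑ i, ℓ i * (f i * Q.d i)) + N * dot ℓ e := by
  have h : ∀ i, ∑ l, ex Q f e N₁ N i l = (N₁ : ℤ) * (f i * Q.d i) + N * e i := by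
    intro i
    unfold ex
    rw [Finset.sum_add_distrib, Finset.sum_const, Finset.card_univ, Fintype.card_fin,
      ← Finset.sum_filter, Finset.sum_const, Fin.card_filter_val_lt, min_eq_right (he i)]
    simp only [nsmul_eq_mul]
    ring
  simp only [h, dot, Finset.mul_sum, ← Finset.sum_add_distrib]
  refine Finset.sum_congr rfl fun i _ => ?_
  ring

theorem ex_sub_le (f e : Fin Q.nv → ℕ) (hf : ∀ a, f (Q.tl a) < f (Q.hd a)) (N₁ N : ℕ)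
    (a : Fin Q.na) (i : Fin (Q.d (Q.hd a))) (j : Fin (Q.d (Q.tl a))) :
    ex Q f e N₁ N (Q.tl a) j - ex Q f e N₁ N (Q.hd a) i ≤ -(N₁ : ℤ) + N := by
  have h := hf a
  have h1 : (N₁ : ℤ) * (f (Q.hd a) - f (Q.tl a)) ≥ N₁ := by
    have h2 : (1 : ℤ) ≤ (f (Q.hd a) : ℤ) - f (Q.tl a) := by
      have : (f (Q.tl a) : ℤ) < f (Q.hd a) := by exact_mod_cast h
      linarith
    nlinarith [Int.natCast_nonneg N₁]
  unfold ex
  have hN : (0 : ℤ) ≤ N := Int.natCast_nonneg N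
  split_ifs <;> nlinarith

theorem ex_sub_le' (f e : Fin Q.nv → ℕ) (hf : ∀ a, f (Q.tl a) < f (Q.hd a)) (N₁ N : ℕ)
    (a : Fin Q.na) (i : Fin (Q.d (Q.hd a))) (j : Fin (Q.d (Q.tl a)))
    (h : ¬ (e (Q.hd a) ≤ i.val ∧ j.val < e (Q.tl a))) :
    ex Q f e N₁ N (Q.tl a) j - ex Q f e N₁ N (Q.hd a) i ≤ -(N₁ : ℤ) := by
  have h0 := hf a
  have h1 : (N₁ : ℤ) * (f (Q.hd a) - f (Q.tl a)) ≥ N₁ := by
    have h2 : (1 : ℤ) ≤ (f (Q.hd a) : ℤ) - f (Q.tl a) := by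
      have : (f (Q.tl a) : ℤ) < f (Q.hd a) := by exact_mod_cast h0
      linarith
    nlinarith [Int.natCast_nonneg N₁]
  unfold ex
  have hN : (0 : ℤ) ≤ N := Int.natCast_nonneg N
  split_ifs with h2 h3 h3
  · nlinarith
  · exact (h ⟨not_lt.1 h3, h2⟩).elim
  · nlinarith
  · nlinarith

end Pool.QM.LocScale
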