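import Pool.Agent.QM.Stmts

/-!
Tools for RED: absolute values of products, determinants, products over all places.
-/

set_option autoImplicit false
set_option linter.unusedSectionVars false

namespace Pool.QM.Red

open Finset NumberField

variable {K : Type} [Field K] [NumberField K]

/-! ### Integrality -/

lemma integral_of {z : K} (h : ∀ v : FinitePlace K, v z ≤ 1) : IsIntegral ℤ z := by
  have h1 : z ∈ (algebraMap (𝓞 K) K).range := by
    refine IsDedekindDomain.HeightOneSpectrum.mem_integers_of_valuation_le_one K z ?_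
    intro v
    have h2 := h (FinitePlace.mk v)
    have h3 : (FinitePlace.mk v) z = ‖FinitePlace.embedding v z‖ := rfl
    rw [h3, FinitePlace.norm_embedding'] at h2
    exact (WithZeroMulInt.toNNReal_le_one_iff
      (HeightOneSpectrum.one_lt_absNorm_nnreal v)).1 (by exact_mod_cast h2)
  obtain ⟨y, hy⟩ := h1
  rw [← hy]
  exact y.2

lemma fin_nontrivial (v : FinitePlace K) : ∃ ρ : K, 1 < v.1 ρ := by
  obtain ⟨x, hx, hx0⟩ := Submodule.exists_mem_ne_zero_of_ne_bot v.maximalIdeal.ne_bot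
  have h1 : ‖FinitePlace.embedding v.maximalIdeal (algebraMap (𝓞 K) K x)‖ < 1 :=
    (FinitePlace.norm_lt_one_iff_mem K v.maximalIdeal x).2 hx
  rw [FinitePlace.norm_embedding_eq] at h1
  have hx1 : (algebraMap (𝓞 K) K x) ≠ 0 := by
    rwa [Ne, map_eq_zero_iff _ (FaithfulSMul.algebraMap_injective (𝓞 K) K)]
  have hpos : 0 < v.1 (algebraMap (𝓞 K) K x) := v.1.pos hx1
  refine ⟨(algebraMap (𝓞 K) K x)⁻¹, ?_⟩
  rw [map_inv₀]
  exact (one_lt_inv₀ hpos).2 h1

lemma inf_natCast (w : InfinitePlace K) (n : ℕ) : w (n : K) = n := by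
  rw [← InfinitePlace.norm_embedding_eq, map_natCast]
  simp

lemma inf_nontrivial (w : InfinitePlace K) : ∃ ρ : K, 1 < w.1 ρ := by
  refine ⟨((2 : ℕ) : K), ?_⟩
  have h : w ((2 : ℕ) : K) = ((2 : ℕ) : ℝ) := inf_natCast w 2
  have h2 : w.1 ((2 : ℕ) : K) = w ((2 : ℕ) : K) := rfl
  rw [h2, h]
  norm_num

/-! ### Finite places: sums, products, determinants -/

lemma fin_sum_le {α : Type*} (v : FinitePlace K) (s : Finset α) (f : α → K) {B : ℝ} (hB : 0 ≤ B)
    (h : ∀ i ∈ s, v (f i) ≤ B) : v (∑ i ∈ s, f i) ≤ B := by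
  classical
  induction s using Finset.induction_on with
  | empty => simpa using hB
  | insert a s ha ih =>
    rw [Finset.sum_insert ha]
    refine (FinitePlace.add_le v _ _).trans (max_le (h a (Finset.mem_insert_self _ _)) ?_)
    exact ih fun i hi => h i (Finset.mem_insert_of_mem hi)

lemma fin_natCast_le (v : FinitePlace K) (n : ℕ) : v (n : K) ≤ 1 := by
  induction n with
  | zero => simp
  | succ n ih =>
    rw [Nat.cast_succ]
    exact (FinitePlace.add_le v _ _).trans (max_le ih (by rw [map_one]))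

lemma fin_mul_entry {m n p : ℕ} (v : FinitePlace K) (A : Matrix (Fin m) (Fin n) K)
    (B : Matrix (Fin n) (Fin p) K) {a b : ℝ} (ha : 0 ≤ a) (hb : 0 ≤ b)
    (hA : ∀ i j, v (A i j) ≤ a) (hB : ∀ i j, v (B i j) ≤ b) (i : Fin m) (j : Fin p) :
    v ((A * B) i j) ≤ a * b := by
  rw [Matrix.mul_apply]
  refine fin_sum_le v _ _ (by positivity) fun k _ => ?_
  rw [map_mul]
  exact mul_le_mul (hA i k) (hB k j) (apply_nonneg _ _) ha

lemma fin_det_le {n : ℕ} (v : FinitePlace K) (A : Matrix (Fin n) (Fin n) K)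
    (hA : ∀ i j, v (A i j) ≤ 1) : v A.det ≤ 1 := by
  rw [Matrix.det_apply]
  refine fin_sum_le v _ _ zero_le_one fun σ _ => ?_
  have h1 : v (Equiv.Perm.sign σ • ∏ i, A (σ i) i) = v (∏ i, A (σ i) i) := by
    rcases Int.units_eq_one_or (Equiv.Perm.sign σ) with h | h
    · rw [h, one_smul]
    · rw [h, Units.neg_smul, one_smul, map_neg_eq_map]
  rw [h1, map_prod]
  exact Finset.prod_le_one (fun _ _ => apply_nonneg _ _) fun i _ => hA _ _

/-! ### Infinite places -/

lemma inf_sum_le {α : Type*} (w : InfinitePlace K) (s : Finset α) (f : α → K) :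
    w (∑ i ∈ s, f i) ≤ ∑ i ∈ s, w (f i) := by
  rw [← InfinitePlace.norm_embedding_eq, map_sum]
  refine (norm_sum_le _ _).trans (le_of_eq ?_)
  exact Finset.sum_congr rfl fun i _ => InfinitePlace.norm_embedding_eq _ _

lemma inf_det_le {n : ℕ} (w : InfinitePlace K) (A : Matrix (Fin n) (Fin n) K) (b : Fin n → ℝ)
    (hA : ∀ i j, w (A i j) ≤ b j) : w A.det ≤ (n.factorial : ℝ) * ∏ j, b j := by
  rw [Matrix.det_apply]
  refine (inf_sum_le w _ _).trans ?_
  have h : ∀ σ : Equiv.Perm (Fin n), w (Equiv.Perm.sign σ • ∏ i, A (σ i) i) ≤ ∏ j, b j := by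
    intro σ
    have h1 : w (Equiv.Perm.sign σ • ∏ i, A (σ i) i) = w (∏ i, A (σ i) i) := by
      rcases Int.units_eq_one_or (Equiv.Perm.sign σ) with h | h
      · rw [h, one_smul]
      · rw [h, Units.neg_smul, one_smul, ← InfinitePlace.norm_embedding_eq, map_neg, norm_neg,
          InfinitePlace.norm_embedding_eq]
    rw [h1, map_prod]
    exact Finset.prod_le_prod (fun _ _ => apply_nonneg _ _) fun i _ => hA _ _
  refine (Finset.sum_le_sum fun σ _ => h σ).trans (le_of_eq ?_)
  rw [Finset.sum_const, Finset.card_univ, Fintype.card_perm, Fintype.card_fin, nsmul_eq_mul]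

lemma inf_det_le' {n : ℕ} (w : InfinitePlace K) (A : Matrix (Fin n) (Fin n) K) (b : Fin n → ℝ)
    (hA : ∀ i j, w (A i j) ≤ b i) : w A.det ≤ (n.factorial : ℝ) * ∏ j, b j := by
  rw [← Matrix.det_transpose]
  exact inf_det_le w _ b fun i j => hA j i

/-! ### Products over all places -/

/-- product over all places of a family of real numbers, with multiplicities -/
noncomputable def pf (f : FinitePlace K → ℝ) (g : InfinitePlace K → ℝ) : ℝ :=
  (∏ᶠ v, f v) * ∏ w, g w ^ w.mult

lemma pf_mono {f f' : FinitePlace K → ℝ} {g g' : InfinitePlace K → ℝ}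
    (hf : f.HasFiniteMulSupport) (hf' : f'.HasFiniteMulSupport) (h0 : ∀ v, 0 ≤ f v)
    (h : ∀ v, f v ≤ f' v) (hg0 : ∀ w, 0 ≤ g w) (hg : ∀ w, g w ≤ g' w) : pf f g ≤ pf f' g' := by
  unfold pf
  have h1 : ∏ᶠ v, f v ≤ ∏ᶠ v, f' v := finprod_le_finprod hf h0 hf' h
  have h2 : ∏ w, g w ^ w.mult ≤ ∏ w, g' w ^ w.mult :=
    Finset.prod_le_prod (fun w _ => pow_nonneg (hg0 w) _)
      fun w _ => pow_le_pow_left₀ (hg0 w) (hg w) _
  have h3 : 0 ≤ ∏ w, g w ^ w.mult := Finset.prod_nonneg fun w _ => pow_nonneg (hg0 w) _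
  have h4 : 0 ≤ ∏ᶠ v, f' v := finprod_nonneg fun v => (h0 v).trans (h v)
  exact mul_le_mul h1 h2 h3 h4

lemma pf_mul {f f' : FinitePlace K → ℝ} {g g' : InfinitePlace K → ℝ}
    (hf : f.HasFiniteMulSupport) (hf' : f'.HasFiniteMulSupport) :
    pf (fun v => f v * f' v) (fun w => g w * g' w) = pf f g * pf f' g' := by
  unfold pf
  rw [finprod_mul_distrib hf hf']
  have : ∏ w, (g w * g' w) ^ w.mult = (∏ w, g w ^ w.mult) * ∏ w, g' w ^ w.mult := by
    rw [← Finset.prod_mul_distrib]
    exact Finset.prod_congr rfl fun w _ => mul_pow _ _ _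
  rw [this]
  ring

lemma pf_pos {f : FinitePlace K → ℝ} {g : InfinitePlace K → ℝ} (hf : ∀ v, 0 < f v)
    (hg : ∀ w, 0 < g w) : 0 < pf f g :=
  mul_pos (finprod_induction (fun x => 0 < x) one_pos (fun _ _ => mul_pos) hf)
    (Finset.prod_pos fun w _ => pow_pos (hg w) _)

lemma pf_pow {f : FinitePlace K → ℝ} {g : InfinitePlace K → ℝ} (hf : f.HasFiniteMulSupport)
    (n : ℕ) : pf (fun v => f v ^ n) (fun w => g w ^ n) = pf f g ^ n := by
  unfold pf
  rw [← finprod_pow hf, mul_pow, ← Finset.prod_pow]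
  congr 1
  exact Finset.prod_congr rfl fun w _ => pow_right_comm _ _ _

lemma hfms_inv {f : FinitePlace K → ℝ} (hf : f.HasFiniteMulSupport) :
    (fun v => (f v)⁻¹).HasFiniteMulSupport := by
  refine hf.subset fun v hv => ?_
  rw [Function.mem_mulSupport] at hv ⊢
  exact fun h => hv (by rw [h, inv_one])

lemma pf_inv {f : FinitePlace K → ℝ} {g : InfinitePlace K → ℝ} :
    pf (fun v => (f v)⁻¹) (fun w => (g w)⁻¹) = (pf f g)⁻¹ := by
  unfold pf
  rw [finprod_inv_distrib, mul_inv, ← Finset.prod_inv_distrib]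
  congr 1
  exact Finset.prod_congr rfl fun w _ => inv_pow _ _

lemma hfms_zpow {f : FinitePlace K → ℝ} (hf : f.HasFiniteMulSupport) (n : ℤ) :
    (fun v => f v ^ n).HasFiniteMulSupport := by
  refine hf.subset fun v hv => ?_
  rw [Function.mem_mulSupport] at hv ⊢
  exact fun h => hv (by rw [h, one_zpow])

lemma hfms_prod {α : Type*} {f : α → FinitePlace K → ℝ} (s : Finset α)
    (hf : ∀ i ∈ s, (f i).HasFiniteMulSupport) :
    (fun v => ∏ i ∈ s, f i v).HasFiniteMulSupport := by
  classical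
  induction s using Finset.induction_on with
  | empty => simp [Function.HasFiniteMulSupport, Function.mulSupport]
  | insert a s ha ih =>
    simp only [Finset.prod_insert ha]
    exact (hf a (Finset.mem_insert_self _ _)).mul (ih fun i hi => hf i (Finset.mem_insert_of_mem hi))

lemma pf_zpow {f : FinitePlace K → ℝ} {g : InfinitePlace K → ℝ} (hf : f.HasFiniteMulSupport)
    (n : ℤ) : pf (fun v => f v ^ n) (fun w => g w ^ n) = pf f g ^ n := by
  cases n with
  | ofNat n => simpa using pf_pow (g := g) hf n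
  | negSucc n =>
    simp only [zpow_negSucc]
    rw [pf_inv (f := fun v => f v ^ (n + 1)) (g := fun w => g w ^ (n + 1)), pf_pow hf]

lemma pf_prod {α : Type*} {f : α → FinitePlace K → ℝ} {g : α → InfinitePlace K → ℝ}
    (s : Finset α) (hf : ∀ i ∈ s, (f i).HasFiniteMulSupport) :
    pf (fun v => ∏ i ∈ s, f i v) (fun w => ∏ i ∈ s, g i w) = ∏ i ∈ s, pf (f i) (g i) := by
  classical
  induction s using Finset.induction_on with
  | empty => simp [pf]
  | insert a s ha ih =>
    simp only [Finset.prod_insert ha]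
    rw [pf_mul (f := f a) (g := g a) (hf a (Finset.mem_insert_self _ _))
      (hfms_prod s fun i hi => hf i (Finset.mem_insert_of_mem hi)),
      ih fun i hi => hf i (Finset.mem_insert_of_mem hi)]

lemma pf_elt {x : K} (hx : x ≠ 0) :
    pf (fun v : FinitePlace K => v x) (fun w : InfinitePlace K => w x) = 1 := by
  unfold pf
  rw [mul_comm]
  exact prod_abs_eq_one hx

lemma hfms_elt {x : K} (hx : x ≠ 0) :
    (fun v : FinitePlace K => v x).HasFiniteMulSupport :=
  FinitePlace.hasFiniteMulSupport hx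

lemma hfms_mul {f g : FinitePlace K → ℝ} (hf : f.HasFiniteMulSupport)
    (hg : g.HasFiniteMulSupport) : (fun v => f v * g v).HasFiniteMulSupport := hf.mul hg

lemma hfms_pow {f : FinitePlace K → ℝ} (hf : f.HasFiniteMulSupport) (n : ℕ) :
    (fun v => f v ^ n).HasFiniteMulSupport := hf.pow n

lemma hfms_one : (fun _ : FinitePlace K => (1 : ℝ)).HasFiniteMulSupport := by
  simp [Function.HasFiniteMulSupport, Function.mulSupport]

lemma hfms_sup {ι : Type*} [Finite ι] {x : ι → K} (hx : x ≠ 0) :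
    (fun v : FinitePlace K => ⨆ i, v (x i)).HasFiniteMulSupport := by
  obtain ⟨i, hi⟩ : ∃ j, x j ≠ 0 := Function.ne_iff.mp hx
  have : Nonempty {j // x j ≠ 0} := ⟨⟨i, hi⟩⟩
  have h1 : (fun v : FinitePlace K => ⨆ i : {j // x j ≠ 0}, v (x i)).HasFiniteMulSupport :=
    Function.HasFiniteMulSupport.iSup fun j => hfms_elt j.2
  have h2 : (fun v : FinitePlace K => ⨆ i, v (x i)) =
      fun v : FinitePlace K => ⨆ i : {j // x j ≠ 0}, v (x i) := by
    funext v
    have : Nonempty ι := ⟨i⟩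
    refine le_antisymm (ciSup_le fun j => ?_)
      (ciSup_le fun ⟨j, hj⟩ => le_ciSup (f := fun i => v (x i)) (Set.finite_range _).bddAbove j)
    by_cases h : x j = 0
    · rw [h, map_zero]
      exact Real.iSup_nonneg fun _ => apply_nonneg _ _
    · exact le_ciSup (f := fun i : {j // x j ≠ 0} => v (x i)) (Set.finite_range _).bddAbove ⟨j, h⟩
  rw [h2]
  exact h1

lemma pf_const (c : ℝ) :
    pf (K := K) (fun _ => 1) (fun _ => c) = c ^ Module.finrank ℚ K := by
  unfold pf
  rw [finprod_one, one_mul, Finset.prod_pow_eq_pow_sum, InfinitePlace.sum_mult_eq]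

end Pool.QM.Red
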