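import Pool.Agent.QM.Stmts

/-!
# Fields of bounded sequences modulo infinitesimal sequences

Common part of LOCV and LOCAE (MP_18ea5f_nt, moduli of quiver representations).
-/

set_option autoImplicit false

namespace Pool.QM.Ultra

open Filter

section seq

variable {K : Type} [Field K] (U : Ultrafilter ℕ) (v : ℕ → AbsoluteValue K ℝ)

/-- bounded sequences -/
def Bd (z : ℕ → K) : Prop := ∃ B : ℝ, ∀ᶠ m in (U : Filter ℕ), v m (z m) ≤ B

/-- infinitesimal sequences -/
def Sm (z : ℕ → K) : Prop := ∀ ε : ℝ, 0 < ε → ∀ᶠ m in (U : Filter ℕ), v m (z m) < ε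

variable {U v}

theorem Bd.pos {z : ℕ → K} (h : Bd U v z) : ∃ B : ℝ, 0 < B ∧ ∀ᶠ m in (U : Filter ℕ), v m (z m) ≤ B := by
  obtain ⟨B, hB⟩ := h
  exact ⟨max B 1, by positivity, hB.mono fun m hm => hm.trans (le_max_left _ _)⟩

theorem Bd.mul {z w : ℕ → K} (hz : Bd U v z) (hw : Bd U v w) : Bd U v (fun m => z m * w m) := by
  obtain ⟨B, hB⟩ := hz
  obtain ⟨B', hB'⟩ := hw
  refine ⟨B * B', ?_⟩
  filter_upwards [hB, hB'] with m h h'
  rw [map_mul]
  exact mul_le_mul h h' ((v m).nonneg _) (((v m).nonneg _).trans h)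

theorem Bd.add {z w : ℕ → K} (hz : Bd U v z) (hw : Bd U v w) : Bd U v (fun m => z m + w m) := by
  obtain ⟨B, hB⟩ := hz
  obtain ⟨B', hB'⟩ := hw
  refine ⟨B + B', ?_⟩
  filter_upwards [hB, hB'] with m h h'
  exact ((v m).add_le _ _).trans (add_le_add h h')

theorem Bd.congr {z w : ℕ → K} (hz : Bd U v z) (h : ∀ᶠ m in (U : Filter ℕ), z m = w m) :
    Bd U v w := by
  obtain ⟨B, hB⟩ := hz
  exact ⟨B, by filter_upwards [hB, h] with m h1 h2; rwa [← h2]⟩

theorem Sm.congr {z w : ℕ → K} (hz : Sm U v z) (h : ∀ᶠ m in (U : Filter ℕ), z m = w m) :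
    Sm U v w := by
  intro ε hε
  filter_upwards [hz ε hε, h] with m h1 h2
  rwa [← h2]

theorem Bd.one : Bd U v (fun _ => (1 : K)) :=
  ⟨1, Eventually.of_forall fun m => (map_one (v m)).le⟩

theorem Bd.pow {z : ℕ → K} (hz : Bd U v z) (n : ℕ) : Bd U v (fun m => z m ^ n) := by
  induction n with
  | zero => simpa using Bd.one
  | succ n ih =>
    refine (ih.mul hz).congr (Eventually.of_forall fun m => ?_)
    exact (pow_succ (z m) n).symm

theorem Bd.zpow {z : ℕ → K} (hz : Bd U v z) (hz' : Bd U v (fun m => (z m)⁻¹)) (n : ℤ) :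
    Bd U v (fun m => z m ^ n) := by
  obtain ⟨k, rfl | rfl⟩ := n.eq_nat_or_neg
  · exact (hz.pow k).congr (Eventually.of_forall fun m => (zpow_natCast (z m) k).symm)
  · exact (hz'.pow k).congr (Eventually.of_forall fun m => by
      rw [zpow_neg, zpow_natCast, inv_pow])

theorem Bd.prod {κ : Type} (t : Finset κ) (z : κ → ℕ → K) (hz : ∀ i, Bd U v (z i)) :
    Bd U v (fun m => ∏ i ∈ t, z i m) := by
  classical
  induction t using Finset.induction_on with
  | empty => simpa using Bd.one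
  | insert a t ha ih =>
    refine ((hz a).mul ih).congr (Eventually.of_forall fun m => ?_)
    rw [Finset.prod_insert ha]

/-- the algebra of bounded sequences -/
def alg (hK : ∀ α : K, Bd U v (fun _ => α)) : Subalgebra K (ℕ → K) where
  carrier := {z | Bd U v z}
  mul_mem' hz hw := Bd.mul hz hw
  add_mem' hz hw := Bd.add hz hw
  algebraMap_mem' α := hK α

theorem mem_alg {hK : ∀ α : K, Bd U v (fun _ => α)} {z : ℕ → K} : z ∈ alg hK ↔ Bd U v z := Iff.rfl

/-- the ideal of infinitesimal sequences -/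
def idl (hK : ∀ α : K, Bd U v (fun _ => α)) : Ideal (alg hK) where
  carrier := {z | Sm U v z.1}
  zero_mem' := by
    intro ε hε
    filter_upwards with m
    simpa using hε
  add_mem' := by
    intro z w hz hw ε hε
    filter_upwards [hz (ε / 2) (by positivity), hw (ε / 2) (by positivity)] with m h h'
    have := (v m).add_le (z.1 m) (w.1 m)
    change v m (z.1 m + w.1 m) < ε
    linarith
  smul_mem' := by
    intro c z hz ε hε
    obtain ⟨B, hB0, hB⟩ := Bd.pos c.2
    filter_upwards [hB, hz (ε / B) (by positivity)] with m h h'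
    change v m (c.1 m * z.1 m) < ε
    rw [map_mul]
    calc v m (c.1 m) * v m (z.1 m) ≤ B * v m (z.1 m) :=
          mul_le_mul_of_nonneg_right h ((v m).nonneg _)
      _ < B * (ε / B) := mul_lt_mul_of_pos_left h' hB0
      _ = ε := by field_simp

theorem mem_idl {hK : ∀ α : K, Bd U v (fun _ => α)} {z : alg hK} :
    z ∈ idl hK ↔ Sm U v z.1 := Iff.rfl

theorem exists_inv {hK : ∀ α : K, Bd U v (fun _ => α)} {z : alg hK} (hz : z ∉ idl hK) :
    ∃ w : alg hK, ∀ᶠ m in (U : Filter ℕ), z.1 m * w.1 m = 1 := by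
  rw [mem_idl] at hz
  unfold Sm at hz
  push Not at hz
  obtain ⟨ε, hε, h'⟩ := hz
  refine ⟨⟨fun m => (z.1 m)⁻¹, ε⁻¹, ?_⟩, ?_⟩
  · filter_upwards [h'] with m hm
    rw [map_inv₀]
    exact inv_anti₀ hε hm
  · filter_upwards [h'] with m hm
    apply mul_inv_cancel₀
    intro h0
    rw [h0, map_zero] at hm
    linarith

instance isMaximal_idl (hK : ∀ α : K, Bd U v (fun _ => α)) : (idl hK).IsMaximal := by
  rw [Ideal.isMaximal_iff]
  constructor
  · intro h
    rw [mem_idl] at h
    obtain ⟨m, hm⟩ := (h 1 one_pos).exists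
    have : v m ((1 : alg hK).1 m) = 1 := by
      change v m 1 = 1
      exact map_one _
    linarith
  · intro J x hJ hx hxJ
    obtain ⟨w, hw⟩ := exists_inv hx
    have h1 : 1 - x * w ∈ idl hK := by
      rw [mem_idl]
      intro ε hε
      filter_upwards [hw] with m hm
      have : (1 - x * w : alg hK).1 m = 0 := by
        change 1 - x.1 m * w.1 m = 0
        rw [hm, sub_self]
      rw [this, map_zero]
      exact hε
    have h2 := J.add_mem (hJ h1) (J.mul_mem_right w hxJ)
    rwa [sub_add_cancel] at h2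

/-- evaluation at `m` -/
def at' (hK : ∀ α : K, Bd U v (fun _ => α)) (m : ℕ) : alg hK →ₐ[K] K :=
  (Pi.evalAlgHom K (fun _ : ℕ => K) m).comp (alg hK).val

theorem at'_apply (hK : ∀ α : K, Bd U v (fun _ => α)) (m : ℕ) (z : alg hK) :
    at' hK m z = z.1 m := rfl

end seq

/-- The common part of LOCV and LOCAE. -/
theorem common (hFrame : Stmt_Frame) {K : Type} [Field K] (U : Ultrafilter ℕ)
    (v : ℕ → AbsoluteValue K ℝ) (hK : ∀ α : K, Bd U v (fun _ => α)) (Q : Quiv)
    (ℓ : Fin Q.nv → ℤ) {ι : Type} (s : ι → MvPolynomial Q.Coord K) (hBpf : Q.Bpf ℓ s)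
    (y : ℕ → Q.Rep K) (hy : ∀ a i j, Bd U v (fun m => y m a i j))
    (hs : ∀ j, Sm U v (fun m => Q.ev (s j) (y m))) :
    ∃ e : Fin Q.nv → ℕ, (∀ i, e i ≤ Q.d i) ∧ dot ℓ e < 0 ∧ ∃ k : ℕ → Q.Grp K,
      Bd U v (fun m => Q.chr ℓ (k m)) ∧
      (∀ a i j, Bd U v (fun m => Q.act (k m)⁻¹ (y m) a i j)) ∧
      ∀ a (i : Fin (Q.d (Q.hd a))) (j : Fin (Q.d (Q.tl a))), e (Q.hd a) ≤ i.val →
        j.val < e (Q.tl a) → Sm U v (fun m => Q.act (k m)⁻¹ (y m) a i j) := by
  classical
  let A := alg hK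
  let I : Ideal A := idl hK
  let _ : Field (A ⧸ I) := Ideal.Quotient.field I
  let mk : A →ₐ[K] (A ⧸ I) := Ideal.Quotient.mkₐ K I
  have hmk : Function.Surjective mk := Ideal.Quotient.mkₐ_surjective K I
  have hmk0 : ∀ z : A, mk z = 0 ↔ Sm U v z.1 := fun z => Ideal.Quotient.eq_zero_iff_mem
  -- the point over the field
  let yA : ∀ a : Fin Q.na, Matrix (Fin (Q.d (Q.hd a))) (Fin (Q.d (Q.tl a))) A := fun a i j =>
    ⟨fun m => y m a i j, hy a i j⟩
  let yF : Q.Rep (A ⧸ I) := fun a => (yA a).map mk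
  have hev : ∀ p : MvPolynomial Q.Coord K, Q.ev p yF =
      mk (MvPolynomial.aeval (fun c : Q.Coord => yA c.1 c.2.1 c.2.2) p) := fun p =>
    (MvPolynomial.comp_aeval_apply (fun c : Q.Coord => yA c.1 c.2.1 c.2.2) mk p).symm
  have hevm : ∀ (p : MvPolynomial Q.Coord K) (m : ℕ),
      (MvPolynomial.aeval (fun c : Q.Coord => yA c.1 c.2.1 c.2.2) p : A).1 m = Q.ev p (y m) :=
    fun p m => MvPolynomial.comp_aeval_apply (fun c : Q.Coord => yA c.1 c.2.1 c.2.2)
      (at' hK m) p
  have hall : ∀ j, Q.ev (s j) yF = 0 := by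
    intro j
    rw [hev, hmk0]
    exact (hs j).congr (Eventually.of_forall fun m => (hevm (s j) m).symm)
  have hns : ¬ Q.Semistable ℓ yF := fun h => by
    obtain ⟨j, hj⟩ := hBpf (A ⧸ I) yF h
    exact hj (hall j)
  unfold Quiv.Semistable at hns
  push Not at hns
  obtain ⟨e, he, hle⟩ := hns
  obtain ⟨hed, k, hk⟩ := hFrame (A ⧸ I) Q yF e he
  -- lifts
  have hlift : ∀ i, ∃ B : Matrix (Fin (Q.d i)) (Fin (Q.d i)) A, B.map mk = (k i).val := by
    intro i
    refine ⟨fun a b => Function.surjInv hmk ((k i).val a b), ?_⟩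
    ext a b
    exact Function.surjInv_eq hmk _
  choose kA hkA using hlift
  have hdet : ∀ i, mk (kA i).det = (k i).val.det := by
    intro i
    rw [← hkA i]
    exact AlgHom.map_det mk (kA i)
  have hdet0 : ∀ i, (kA i).det ∉ idl hK := by
    intro i h
    have h1 : mk (kA i).det = 0 := (hmk0 _).2 h
    rw [hdet i] at h1
    have h2 : IsUnit (k i).val.det := (Matrix.isUnit_iff_isUnit_det _).1 (k i).isUnit
    exact h2.ne_zero h1
  have hinv : ∀ i, ∃ w : A, ∀ᶠ m in (U : Filter ℕ), (kA i).det.1 m * w.1 m = 1 := fun i =>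
    exists_inv (hdet0 i)
  choose w hw using hinv
  have hw1 : ∀ i, mk (kA i).det * mk (w i) = 1 := by
    intro i
    rw [← map_mul, ← sub_eq_zero, ← map_one mk, ← map_sub, hmk0]
    intro ε hε
    filter_upwards [hw i] with m hm
    have : ((kA i).det * w i - 1 : A).1 m = 0 := by
      change (kA i).det.1 m * (w i).1 m - 1 = 0
      rw [hm, sub_self]
    rw [this, map_zero]
    exact hε
  let kB : ∀ i, Matrix (Fin (Q.d i)) (Fin (Q.d i)) A := fun i => w i • (kA i).adjugate
  have hAB : ∀ i, kA i * kB i = ((kA i).det * w i) • 1 := by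
    intro i
    rw [Matrix.mul_smul, Matrix.mul_adjugate, smul_smul, mul_comm]
  have hkB : ∀ i, (kB i).map mk = ((k i)⁻¹).val := by
    intro i
    have h1 : (k i).val * (kB i).map mk = 1 := by
      rw [← hkA i]
      have h2 : (kA i * kB i).map mk = (kA i).map mk * (kB i).map mk :=
        Matrix.map_mul
      rw [← h2, hAB]
      ext a b
      rw [Matrix.map_apply, Matrix.smul_apply, smul_eq_mul, map_mul, map_mul, hw1, one_mul]
      by_cases hab : a = b
      · subst hab; simp
      · simp [Matrix.one_apply_ne hab]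
    calc (kB i).map mk = (((k i)⁻¹).val * (k i).val) * (kB i).map mk := by
          rw [Units.inv_mul, one_mul]
      _ = ((k i)⁻¹).val := by rw [mul_assoc, h1, mul_one]
  -- the sequence of group elements
  let km : ℕ → Q.Grp K := fun m i =>
    if h : ((kA i).map (at' hK m)).det ≠ 0 then
      Matrix.GeneralLinearGroup.mkOfDetNeZero ((kA i).map (at' hK m)) h else 1
  have hkm : ∀ i, ∀ᶠ m in (U : Filter ℕ), (km m i).val = (kA i).map (at' hK m) ∧
      ((km m i)⁻¹).val = (kB i).map (at' hK m) ∧ ((kA i).map (at' hK m)).det * (w i).1 m = 1 := by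
    intro i
    filter_upwards [hw i] with m hm
    have h1 : ((kA i).map (at' hK m)).det = (kA i).det.1 m := (AlgHom.map_det (at' hK m) (kA i)).symm
    have h2 : ((kA i).map (at' hK m)).det ≠ 0 := by
      intro h0
      rw [h1] at h0
      rw [h0, zero_mul] at hm
      exact zero_ne_one hm
    have h3 : (km m i).val = (kA i).map (at' hK m) := by
      change (if h : ((kA i).map (at' hK m)).det ≠ 0 then
        Matrix.GeneralLinearGroup.mkOfDetNeZero ((kA i).map (at' hK m)) h else 1 :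
        GL (Fin (Q.d i)) K).val = _
      rw [dif_pos h2]
      rfl
    refine ⟨h3, ?_, by rw [h1]; exact hm⟩
    have h4 : (km m i).val * (kB i).map (at' hK m) = 1 := by
      rw [h3]
      have h5 : (kA i * kB i).map (at' hK m) =
          (kA i).map (at' hK m) * (kB i).map (at' hK m) := Matrix.map_mul
      rw [← h5, hAB]
      ext a b
      rw [Matrix.map_apply, Matrix.smul_apply, smul_eq_mul, map_mul]
      have h6 : (at' hK m) ((kA i).det * w i) = 1 := hm
      rw [h6, one_mul]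
      by_cases hab : a = b
      · subst hab; simp
      · simp [Matrix.one_apply_ne hab]
    calc ((km m i)⁻¹).val = ((km m i)⁻¹).val * ((km m i).val * (kB i).map (at' hK m)) := by
          rw [h4, mul_one]
      _ = (kB i).map (at' hK m) := by rw [← mul_assoc, Units.inv_mul, one_mul]
  have hkm' : ∀ᶠ m in (U : Filter ℕ), ∀ i, (km m i).val = (kA i).map (at' hK m) ∧
      ((km m i)⁻¹).val = (kB i).map (at' hK m) ∧ ((kA i).map (at' hK m)).det * (w i).1 m = 1 :=
    eventually_all.2 hkm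
  let zA : ∀ a : Fin Q.na, Matrix (Fin (Q.d (Q.hd a))) (Fin (Q.d (Q.tl a))) A := fun a =>
    kB (Q.hd a) * yA a * kA (Q.tl a)
  have hz : ∀ a i j, ∀ᶠ m in (U : Filter ℕ), (zA a i j).1 m = Q.act (km m)⁻¹ (y m) a i j := by
    intro a i j
    filter_upwards [hkm'] with m hm
    have h1 : (zA a).map (at' hK m) =
        (kB (Q.hd a)).map (at' hK m) * (yA a).map (at' hK m) * (kA (Q.tl a)).map (at' hK m) := by
      rw [← Matrix.map_mul, ← Matrix.map_mul]
    have h2 : Q.act (km m)⁻¹ (y m) a =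
        ((km m (Q.hd a))⁻¹).val * y m a * (((km m (Q.tl a))⁻¹)⁻¹).val := rfl
    rw [h2, inv_inv, (hm (Q.hd a)).2.1, (hm (Q.tl a)).1]
    exact congrFun (congrFun h1 i) j
  refine ⟨e, hed, hle, km, ?_, ?_, ?_⟩
  · refine Bd.prod Finset.univ (fun i m => (km m i).val.det ^ (ℓ i)) fun i => ?_
    refine Bd.zpow ?_ ?_ (ℓ i)
    · refine (show Bd U v (kA i).det.1 from (kA i).det.2).congr ?_
      filter_upwards [hkm i] with m hm
      rw [hm.1]
      exact AlgHom.map_det (at' hK m) (kA i)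
    · refine (show Bd U v (w i).1 from (w i).2).congr ?_
      filter_upwards [hkm i] with m hm
      rw [hm.1]
      exact eq_inv_of_mul_eq_one_right hm.2.2
  · intro a i j
    exact (show Bd U v (zA a i j).1 from (zA a i j).2).congr (hz a i j)
  · intro a i j hi hj
    have h1 : Sm U v (zA a i j).1 := by
      rw [← hmk0]
      have h2 : (zA a).map mk = (kB (Q.hd a)).map mk * (yA a).map mk * (kA (Q.tl a)).map mk := by
        rw [← Matrix.map_mul, ← Matrix.map_mul]
      have h3 : mk (zA a i j) = Q.act k⁻¹ yF a i j := by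
        have h4 : Q.act k⁻¹ yF a = ((k (Q.hd a))⁻¹).val * yF a * (((k (Q.tl a))⁻¹)⁻¹).val := rfl
        rw [h4, inv_inv, ← hkB, ← hkA]
        exact congrFun (congrFun h2 i) j
      rw [h3]
      exact hk a i j hi hj
    exact h1.congr (hz a i j)

end Pool.QM.Ultra
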